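import Pool.Agent.Lib.MP_0f7bfe_al.OE.Defs
import Pool.Agent.Lib.MP_0f7bfe_al.FM1
import Pool.Agent.Lib.MP_0f7bfe_al.SV8

open scoped Pointwise ENNReal NNReal

namespace Pool.Agent.Lib.MP_0f7bfe_al.OE

universe u v w

section group
variable {G : Type u} [Group G] {S : Finset G}

/-- expansion of one step -/
theorem oea1_step [DecidableEq G] {T T1 : Finset G} {ε : ℝ} (hT : T ⊆ T1) (h1 : (1 : G) ∈ T1)
    (hε : ∀ F : Finset G, F.Nonempty → ∃ t ∈ T, ε * F.card < Set.ncard {g : G | g ∈ F ∧ g * t ∉ F})
    (F : Finset G) : (1 + ε) * F.card ≤ (F * T1).card := by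
  rcases F.eq_empty_or_nonempty with h | h
  · subst h
    simp
  · obtain ⟨t, ht, hlt⟩ := hε F h
    have e1 : {g : G | g ∈ F ∧ g * t ∉ F} = ((F.filter fun g => g * t ∉ F : Finset G) : Set G) := by
      ext g; simp
    rw [e1, Set.ncard_coe_finset] at hlt
    have e2 : ((F.filter fun g => g * t ∉ F).image fun g => g * t).card =
        (F.filter fun g => g * t ∉ F).card :=
      Finset.card_image_of_injective _ (mul_left_injective t)
    have e3 : Disjoint F ((F.filter fun g => g * t ∉ F).image fun g => g * t) := by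
      rw [Finset.disjoint_right]
      intro x hx hxF
      rw [Finset.mem_image] at hx
      obtain ⟨g, hg, rfl⟩ := hx
      exact (Finset.mem_filter.mp hg).2 hxF
    have e4 : F ∪ ((F.filter fun g => g * t ∉ F).image fun g => g * t) ⊆ F * T1 := by
      intro x hx
      rcases Finset.mem_union.mp hx with hx | hx
      · rw [← mul_one x]
        exact Finset.mul_mem_mul hx h1
      · rw [Finset.mem_image] at hx
        obtain ⟨g, hg, rfl⟩ := hx
        exact Finset.mul_mem_mul (Finset.mem_filter.mp hg).1 (hT ht)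
    have e5 := Finset.card_le_card e4
    rw [Finset.card_union_of_disjoint e3, e2] at e5
    have e6 : ((F.card + (F.filter fun g => g * t ∉ F).card : ℕ) : ℝ) ≤ (F * T1).card := by
      exact_mod_cast e5
    push_cast at e6
    linarith

theorem exists_setup (hG : Group.FG G) (h : ¬ FolnerAmenable G) : ∃ S : Finset G, Setup S := by
  classical
  unfold FolnerAmenable at h
  push Not at h
  obtain ⟨T, ε, hε, hT⟩ := h
  obtain ⟨X, hX⟩ := hG.out
  set T1 : Finset G := T ∪ T⁻¹ ∪ (X ∪ X⁻¹) ∪ {1} with hT1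
  have hTT : T ⊆ T1 := by
    intro x hx
    simp only [hT1, Finset.mem_union]
    exact Or.inl (Or.inl (Or.inl hx))
  have h1 : (1 : G) ∈ T1 := by simp [hT1]
  have hinv : T1⁻¹ = T1 := by
    ext x
    simp only [hT1, Finset.mem_inv', Finset.mem_union, Finset.mem_singleton, inv_inv,
      inv_eq_one]
    tauto
  have hgen : Subgroup.closure (T1 : Set G) = ⊤ := by
    rw [eq_top_iff, ← hX]
    refine Subgroup.closure_mono ?_
    intro x hx
    simp only [hT1, Finset.coe_union, Set.mem_union, Finset.mem_coe] at hx ⊢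
    exact Or.inl (Or.inr (Or.inl hx))
  obtain ⟨k, hk⟩ := pow_unbounded_of_one_lt (9 : ℝ) (show 1 < 1 + ε by linarith)
  have hpow : ∀ (n : ℕ) (F : Finset G), (1 + ε) ^ n * F.card ≤ (F * T1 ^ n).card := by
    intro n
    induction n with
    | zero => intro F; simp
    | succ n ih =>
      intro F
      have h2 := oea1_step hTT h1 (fun F hF => hT F hF) (F * T1 ^ n)
      rw [mul_assoc, ← pow_succ] at h2
      have h3 := ih F
      calc (1 + ε) ^ (n + 1) * F.card = (1 + ε) * ((1 + ε) ^ n * F.card) := by ring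
        _ ≤ (1 + ε) * (F * T1 ^ n).card := mul_le_mul_of_nonneg_left h3 (by linarith)
        _ ≤ _ := h2
  have hk0 : k ≠ 0 := by
    rintro rfl
    norm_num at hk
  refine ⟨T1 ^ k, Finset.one_mem_pow h1, ?_, ?_, ?_⟩
  · intro s hs
    have : (T1 ^ k)⁻¹ = T1 ^ k := by rw [← inv_pow, hinv]
    rw [← this]
    exact Finset.inv_mem_inv hs
  · rw [eq_top_iff, ← hgen]
    refine Subgroup.closure_mono ?_
    exact_mod_cast Finset.subset_pow h1 hk0
  · intro F
    have h2 := hpow k F
    have h3 : (9 : ℝ) * F.card ≤ (F * T1 ^ k).card :=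
      le_trans (mul_le_mul_of_nonneg_right hk.le (Nat.cast_nonneg _)) h2
    have h4 : 9 * F.card ≤ (F * T1 ^ k).card := by exact_mod_cast h3
    have h5 : (F : Set G) * ((T1 ^ k : Finset G) : Set G) = ((F * T1 ^ k : Finset G) : Set G) := by
      rw [Finset.coe_mul]
    rw [h5, Set.ncard_coe_finset]
    exact h4

end group

end Pool.Agent.Lib.MP_0f7bfe_al.OE
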