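import Pool.Agent.Lib.MP_0f7bfe_al.OE.A4

/-!
Wave OE, section A5: the Green operator.
-/

open scoped Pointwise ENNReal NNReal

namespace Pool.Agent.Lib.MP_0f7bfe_al.OE

universe u v w

section group
variable {G : Type u} [Group G] {S : Finset G}

theorem oea5_Pop_mono {w w' : G → ℝ≥0∞} (h : ∀ x, w x ≤ w' x) (x : G) :
    Pop S w x ≤ Pop S w' x := by
  unfold Pop
  gcongr
  exact h _

theorem oea5_Pop_tsum {ι : Type v} (w : ι → G → ℝ≥0∞) (x : G) :
    Pop S (fun y => ∑' i, w i y) x = ∑' i, Pop S (w i) x := by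
  unfold Pop
  simp only [ENNReal.div_eq_inv_mul]
  rw [ENNReal.tsum_mul_left, Summable.tsum_finsetSum (fun _ _ => ENNReal.summable)]

theorem oea5_Pop_mul (a : ℝ≥0∞) (w : G → ℝ≥0∞) (x : G) :
    Pop S (fun y => a * w y) x = a * Pop S w x := by
  unfold Pop
  rw [← Finset.mul_sum, mul_div_assoc]

theorem oea5_Pop_smul (g : G) (w : G → ℝ≥0∞) (x : G) :
    Pop S (fun y => w (g * y)) x = Pop S w (g * x) := by
  unfold Pop
  simp only [mul_assoc]

theorem oea5_iter_mono (n : ℕ) {w w' : G → ℝ≥0∞} (h : ∀ x, w x ≤ w' x) (x : G) :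
    (Pop S)^[n] w x ≤ (Pop S)^[n] w' x := by
  induction n generalizing x with
  | zero => exact h x
  | succ n ih =>
    rw [Function.iterate_succ_apply', Function.iterate_succ_apply']
    exact oea5_Pop_mono ih x

theorem oea5_iter_tsum {ι : Type v} (n : ℕ) (w : ι → G → ℝ≥0∞) (x : G) :
    (Pop S)^[n] (fun y => ∑' i, w i y) x = ∑' i, (Pop S)^[n] (w i) x := by
  induction n generalizing x with
  | zero => rfl
  | succ n ih =>
    rw [Function.iterate_succ_apply']
    have h : (Pop S)^[n] (fun y => ∑' i, w i y) = fun y => ∑' i, (Pop S)^[n] (w i) y := funext ih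
    rw [h, oea5_Pop_tsum]
    exact tsum_congr fun i => by rw [Function.iterate_succ_apply']

theorem oea5_iter_mul (n : ℕ) (a : ℝ≥0∞) (w : G → ℝ≥0∞) (x : G) :
    (Pop S)^[n] (fun y => a * w y) x = a * (Pop S)^[n] w x := by
  induction n generalizing x with
  | zero => rfl
  | succ n ih =>
    rw [Function.iterate_succ_apply']
    have h : (Pop S)^[n] (fun y => a * w y) = fun y => a * (Pop S)^[n] w y := funext ih
    rw [h, oea5_Pop_mul, Function.iterate_succ_apply']

theorem oea5_iter_smul (n : ℕ) (g : G) (w : G → ℝ≥0∞) (x : G) :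
    (Pop S)^[n] (fun y => w (g * y)) x = (Pop S)^[n] w (g * x) := by
  induction n generalizing x with
  | zero => rfl
  | succ n ih =>
    rw [Function.iterate_succ_apply']
    have h : (Pop S)^[n] (fun y => w (g * y)) = fun y => (Pop S)^[n] w (g * y) := funext ih
    rw [h, oea5_Pop_smul, Function.iterate_succ_apply']

theorem V_eq (w : G → ℝ≥0∞) (x : G) : V S w x = w x + Pop S (V S w) x := by
  have h1 : Pop S (V S w) x = ∑' n : ℕ, (Pop S)^[n + 1] w x := by
    have h2 : V S w = fun y => ∑' n : ℕ, (Pop S)^[n] w y := rfl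
    rw [h2, oea5_Pop_tsum]
    exact tsum_congr fun n => by rw [Function.iterate_succ_apply']
  rw [h1]
  unfold V
  rw [tsum_eq_zero_add' ENNReal.summable]
  rfl

theorem V_mono {w w' : G → ℝ≥0∞} (h : ∀ x, w x ≤ w' x) (x : G) : V S w x ≤ V S w' x :=
  ENNReal.tsum_le_tsum fun n => oea5_iter_mono n h x

theorem V_tsum {ι : Type v} (w : ι → G → ℝ≥0∞) (x : G) :
    V S (fun y => ∑' i, w i y) x = ∑' i, V S (w i) x := by
  unfold V
  rw [ENNReal.tsum_comm]
  exact tsum_congr fun n => oea5_iter_tsum n w x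

theorem V_add (w w' : G → ℝ≥0∞) (x : G) : V S (fun y => w y + w' y) x = V S w x + V S w' x := by
  have h1 : (fun y => w y + w' y) = fun y => ∑' b : Bool, (bif b then w' else w) y := by
    funext y
    rw [tsum_fintype, Fintype.sum_bool, add_comm]
    rfl
  rw [h1, V_tsum, tsum_fintype, Fintype.sum_bool, add_comm]
  rfl

theorem V_mul (a : ℝ≥0∞) (w : G → ℝ≥0∞) (x : G) : V S (fun y => a * w y) x = a * V S w x := by
  unfold V
  rw [← ENNReal.tsum_mul_left]
  exact tsum_congr fun n => oea5_iter_mul n a w x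

theorem oea5_eq_tsum (w : G → ℝ≥0∞) : w = fun y => ∑' z, w z * pt z y := by
  classical
  funext y
  rw [tsum_eq_single y]
  · simp [pt]
  · intro z hz
    simp [pt, hz.symm]

theorem V_eq_tsum (w : G → ℝ≥0∞) (x : G) : V S w x = ∑' z, u1 S x z * w z := by
  conv_lhs => rw [oea5_eq_tsum w]
  rw [V_tsum (fun z y => w z * pt z y)]
  exact tsum_congr fun z => by rw [V_mul, mul_comm]; rfl

theorem VV_eq_tsum (w : G → ℝ≥0∞) (x : G) : V S (V S w) x = ∑' z, u2 S x z * w z := by
  have h : V S w = fun y => ∑' z, w z * V S (pt z) y := by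
    funext y
    rw [V_eq_tsum]
    exact tsum_congr fun z => by rw [mul_comm]; rfl
  rw [h, V_tsum (fun z y => w z * V S (pt z) y)]
  exact tsum_congr fun z => by rw [V_mul, mul_comm]; rfl

theorem V_smul (g : G) (w : G → ℝ≥0∞) (x : G) : V S (fun y => w (g * y)) x = V S w (g * x) := by
  unfold V
  exact tsum_congr fun n => oea5_iter_smul n g w x

theorem u1_symm (hS : Setup S) (x z : G) : u1 S x z = u1 S z x := by
  unfold u1 V
  refine tsum_congr fun n => ?_
  rw [← oea4_pt_sum x ((Pop S)^[n] (pt z)), ← oea4_pt_sum z ((Pop S)^[n] (pt x)),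
    ← oea4_iter_adjoint hS]
  exact tsum_congr fun y => mul_comm _ _

theorem u2_symm (hS : Setup S) (x z : G) : u2 S x z = u2 S z x := by
  have h : ∀ a b : G, u2 S a b = ∑' y, u1 S a y * u1 S b y := by
    intro a b
    unfold u2
    rw [V_eq_tsum]
    refine tsum_congr fun y => ?_
    rw [u1_symm hS b y]
    rfl
  rw [h, h]
  exact tsum_congr fun y => mul_comm _ _

theorem oea5_pt_smul (g z : G) : (fun y => pt (g * z) (g * y)) = pt z := by
  funext y
  unfold pt
  by_cases h : y = z
  · simp [h]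
  · simp [h]

theorem u1_smul (g x z : G) : u1 S (g * x) (g * z) = u1 S x z := by
  unfold u1
  rw [← V_smul, oea5_pt_smul]

theorem u2_smul (g x z : G) : u2 S (g * x) (g * z) = u2 S x z := by
  unfold u2
  rw [← V_smul]
  congr 1
  funext y
  exact u1_smul g y z

theorem u1_le_u2 (x z : G) : u1 S x z ≤ u2 S x z := by
  unfold u1 u2
  rw [V_eq (V S (pt z)) x]
  exact le_self_add

theorem u2_le_u3 (x z : G) : u2 S x z ≤ u3 S x z := by
  unfold u2 u3
  rw [V_eq (V S (V S (pt z))) x]
  exact le_self_add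

end group
end Pool.Agent.Lib.MP_0f7bfe_al.OE
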