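import Pool.Agent.Lib.MP_0f7bfe_al.OE.A5
import Pool.Agent.Lib.MP_0f7bfe_al.FM1

/-!
Wave OE, section A6: the Cayley graph and the exponential decay of the Green function.
-/

open scoped Pointwise ENNReal NNReal

namespace Pool.Agent.Lib.MP_0f7bfe_al.OE

universe u v w

section group
variable {G : Type u} [Group G] {S : Finset G}

theorem nice_cay (hS : Setup S) : Nice (Cay S) := by
  have h := cayley_homog (S : Set G) S.finite_toSet hS.gen
  exact ⟨h.conn, fun x n => h.ball_finite x n⟩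

theorem dist_cay_smul (hS : Setup S) (g x y : G) :
    (Cay S).dist (g * x) (g * y) = (Cay S).dist x y := by
  have h := cayley_homog (S : Set G) S.finite_toSet hS.gen
  exact h.dist_smul g x y

theorem oea6_step (x s : G) (hs : s ∈ S) : (Cay S).dist x (x * s) ≤ 1 := by
  by_cases h : x = x * s
  · rw [← h, SimpleGraph.dist_self]
    exact Nat.zero_le 1
  · have hadj : (Cay S).Adj x (x * s) := by
      rw [SimpleGraph.mulCayley_adj']
      exact ⟨h, s, hs, Or.inl rfl⟩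
    exact (SimpleGraph.dist_eq_one_iff_adj.2 hadj).le

theorem iter_pt_eq_zero (hS : Setup S) {n : ℕ} {x z : G} (h : n < (Cay S).dist x z) :
    (Pop S)^[n] (pt z) x = 0 := by
  induction n generalizing x with
  | zero =>
    have hxz : x ≠ z := by
      rintro rfl
      rw [SimpleGraph.dist_self] at h
      exact lt_irrefl _ h
    simp [pt, hxz]
  | succ n ih =>
    rw [Function.iterate_succ_apply']
    unfold Pop
    rw [Finset.sum_eq_zero, ENNReal.zero_div]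
    intro s hs
    refine ih ?_
    have h1 := (nice_cay hS).conn.dist_triangle (u := x) (v := x * s) (w := z)
    have h2 := oea6_step x s hs
    omega

theorem oea6_VV (w : G → ℝ≥0∞) (x : G) :
    V S (V S w) x = ∑' k : ℕ, ∑' l : ℕ, (Pop S)^[k + l] w x := by
  have h : V S w = fun y => ∑' n : ℕ, (Pop S)^[n] w y := rfl
  have h1 : ∀ k : ℕ, (Pop S)^[k] (V S w) x = ∑' l : ℕ, (Pop S)^[k + l] w x := by
    intro k
    rw [h, oea5_iter_tsum]
    exact tsum_congr fun l => by rw [Function.iterate_add_apply]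
  show ∑' k : ℕ, (Pop S)^[k] (V S w) x = _
  exact tsum_congr h1

theorem oea6_VVV (w : G → ℝ≥0∞) (x : G) :
    V S (V S (V S w)) x = ∑' k : ℕ, ∑' l : ℕ, ∑' m : ℕ, (Pop S)^[k + l + m] w x := by
  rw [oea6_VV]
  refine tsum_congr fun k => tsum_congr fun l => ?_
  have h : V S w = fun y => ∑' n : ℕ, (Pop S)^[n] w y := rfl
  rw [h, oea5_iter_tsum]
  exact tsum_congr fun m => by rw [Function.iterate_add_apply _ (k + l) m]

theorem u3_decay (hS : Setup S) : ∃ C q : ℝ≥0, q < 1 ∧ ∀ x z : G,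
    u3 S x z ≤ C * q ^ ((Cay S).dist x z) := by
  obtain ⟨C, q, hq1, hq⟩ := heat_bound hS
  obtain ⟨r, hr⟩ : ∃ r : ℝ≥0, r = NNReal.sqrt q := ⟨_, rfl⟩
  have hr2 : r ^ 2 = q := by rw [hr, NNReal.sq_sqrt]
  have hr1 : r < 1 := by
    by_contra h
    have h1 : 1 ≤ r ^ 2 := one_le_pow₀ (not_lt.1 h)
    rw [hr2] at h1
    exact absurd hq1 (not_lt.2 h1)
  refine ⟨C * ((1 - r)⁻¹) ^ 3, r, hr1, fun x z => ?_⟩
  obtain ⟨d, hd⟩ : ∃ d : ℕ, d = (Cay S).dist x z := ⟨_, rfl⟩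
  rw [← hd]
  have hterm : ∀ n, (Pop S)^[n] (pt z) x ≤ C * (r : ℝ≥0∞) ^ d * (r : ℝ≥0∞) ^ n := by
    intro n
    rcases Nat.lt_or_ge n d with h | h
    · rw [iter_pt_eq_zero hS (by rw [← hd]; exact h)]
      exact zero_le
    · refine (hq n x z).trans ?_
      have h1 : C * q ^ n ≤ C * r ^ d * r ^ n := by
        rw [← hr2, ← pow_mul, two_mul, pow_add, mul_assoc]
        refine mul_le_mul_right ?_ C
        refine mul_le_mul_left ?_ _
        exact pow_le_pow_of_le_one zero_le hr1.le h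
      exact_mod_cast h1
  have hgeo : ∑' n : ℕ, (r : ℝ≥0∞) ^ n = (((1 - r)⁻¹ : ℝ≥0) : ℝ≥0∞) := by
    rw [ENNReal.tsum_geometric, ENNReal.coe_inv (tsub_pos_of_lt hr1).ne', ENNReal.coe_sub]
    rfl
  have h3 : ∑' k : ℕ, ∑' l : ℕ, ∑' m : ℕ, C * (r : ℝ≥0∞) ^ d * (r : ℝ≥0∞) ^ (k + l + m) =
      C * (r : ℝ≥0∞) ^ d * (((1 - r)⁻¹ : ℝ≥0) : ℝ≥0∞) ^ 3 := by
    have e1 : ∀ k l : ℕ, ∑' m : ℕ, C * (r : ℝ≥0∞) ^ d * (r : ℝ≥0∞) ^ (k + l + m) =
        C * (r : ℝ≥0∞) ^ d * (((1 - r)⁻¹ : ℝ≥0) : ℝ≥0∞) * (r : ℝ≥0∞) ^ k * (r : ℝ≥0∞) ^ l := by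
      intro k l
      rw [ENNReal.tsum_mul_left]
      simp only [pow_add]
      rw [ENNReal.tsum_mul_left, hgeo]
      ring
    simp only [e1]
    have e2 : ∀ k : ℕ, ∑' l : ℕ, C * (r : ℝ≥0∞) ^ d * (((1 - r)⁻¹ : ℝ≥0) : ℝ≥0∞) *
        (r : ℝ≥0∞) ^ k * (r : ℝ≥0∞) ^ l =
        C * (r : ℝ≥0∞) ^ d * (((1 - r)⁻¹ : ℝ≥0) : ℝ≥0∞) ^ 2 * (r : ℝ≥0∞) ^ k := by
      intro k
      rw [ENNReal.tsum_mul_left, hgeo]
      ring
    simp only [e2]
    rw [ENNReal.tsum_mul_left, hgeo]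
    ring
  unfold u3
  rw [oea6_VVV]
  calc ∑' k : ℕ, ∑' l : ℕ, ∑' m : ℕ, (Pop S)^[k + l + m] (pt z) x
      ≤ ∑' k : ℕ, ∑' l : ℕ, ∑' m : ℕ, C * (r : ℝ≥0∞) ^ d * (r : ℝ≥0∞) ^ (k + l + m) :=
        ENNReal.tsum_le_tsum fun k => ENNReal.tsum_le_tsum fun l =>
          ENNReal.tsum_le_tsum fun m => hterm _
    _ = ((C * ((1 - r)⁻¹) ^ 3 : ℝ≥0) : ℝ≥0∞) * (r : ℝ≥0∞) ^ d := by
        rw [h3]
        push_cast
        ring

end group
end Pool.Agent.Lib.MP_0f7bfe_al.OE
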