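import Pool.Agent.Lib.MP_0f7bfe_al.OE.Defs
import Pool.Agent.Lib.MP_0f7bfe_al.OE.A5
import Pool.Agent.Lib.MP_0f7bfe_al.OE.A6

open scoped Pointwise ENNReal NNReal

namespace Pool.Agent.Lib.MP_0f7bfe_al.OE

universe u v w

section group
variable {G : Type u} [Group G] {S : Finset G}

theorem oea7_card_pos (hS : Setup S) : (1 : ℝ≥0∞) ≤ (S.card : ℝ≥0∞) := by
  have h : 1 ≤ S.card := Finset.card_pos.2 ⟨1, hS.one⟩
  exact_mod_cast h

theorem oea7_adj (hS : Setup S) {x y : G} (h : (Cay S).Adj x y) : ∃ s ∈ S, y = x * s := by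
  rw [SimpleGraph.mulCayley_adj'] at h
  obtain ⟨_, g, hg, h | h⟩ := h
  · exact ⟨g, hg, h.symm⟩
  · refine ⟨g⁻¹, hS.symm g hg, ?_⟩
    rw [h, mul_inv_cancel_right]

/-- one step -/
theorem oea7_step (hS : Setup S) (w : G → ℝ≥0∞) {x y : G} (h : (Cay S).Adj x y) :
    V S w y ≤ (S.card : ℝ≥0∞) * V S w x := by
  obtain ⟨s, hs, rfl⟩ := oea7_adj hS h
  have h0 : (S.card : ℝ≥0∞) ≠ 0 := by
    have := oea7_card_pos hS
    intro h0
    rw [h0] at this
    exact absurd this (by simp)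
  have ht : (S.card : ℝ≥0∞) ≠ ∞ := ENNReal.natCast_ne_top _
  have h1 : V S w (x * s) ≤ ∑ s ∈ S, V S w (x * s) :=
    Finset.single_le_sum (f := fun s => V S w (x * s)) (fun _ _ => zero_le) hs
  have h2 : Pop S (V S w) x ≤ V S w x := by
    rw [V_eq w x]
    exact le_add_self
  calc V S w (x * s) ≤ ∑ s ∈ S, V S w (x * s) := h1
    _ = (S.card : ℝ≥0∞) * Pop S (V S w) x := by
        unfold Pop
        rw [ENNReal.mul_div_cancel h0 ht]
    _ ≤ (S.card : ℝ≥0∞) * V S w x := by gcongr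

theorem oea7_walk (hS : Setup S) (w : G → ℝ≥0∞) {x y : G} (p : (Cay S).Walk x y) :
    V S w y ≤ (S.card : ℝ≥0∞) ^ p.length * V S w x := by
  induction p with
  | nil => simp
  | cons h p ih =>
    rw [SimpleGraph.Walk.length_cons, pow_succ, mul_assoc]
    exact ih.trans (by gcongr; exact oea7_step hS w h)

/-- Harnack inequality for potentials -/
theorem oea7_harnack (hS : Setup S) (w : G → ℝ≥0∞) (x y : G) :
    V S w y ≤ (S.card : ℝ≥0∞) ^ ((Cay S).dist x y) * V S w x := by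
  obtain ⟨p, hp⟩ := (nice_cay hS).conn.exists_walk_length_eq_dist x y
  rw [← hp]
  exact oea7_walk hS w p

theorem u1_harnack (hS : Setup S) (x z z' : G) :
    u1 S x z ≤ (S.card : ℝ≥0∞) ^ ((Cay S).dist z z') * u1 S x z' := by
  rw [u1_symm hS x z, u1_symm hS x z', SimpleGraph.dist_comm]
  exact oea7_harnack hS (pt x) z' z

theorem u2_harnack (hS : Setup S) (x z z' : G) :
    u2 S x z ≤ (S.card : ℝ≥0∞) ^ ((Cay S).dist z z') * u2 S x z' := by
  rw [u2_symm hS x z, u2_symm hS x z', SimpleGraph.dist_comm]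
  exact oea7_harnack hS (V S (pt x)) z' z

theorem one_le_u1 (hS : Setup S) {κ : ℕ} {x z : G} (h : (Cay S).dist x z ≤ κ) :
    1 ≤ (S.card : ℝ≥0∞) ^ κ * u1 S x z := by
  have h1 : (1 : ℝ≥0∞) ≤ u1 S z z := by
    unfold u1
    rw [V_eq]
    have h2 : pt z z = (1 : ℝ≥0∞) := by
      unfold pt
      rw [Set.indicator_of_mem (Set.mem_singleton z)]
      rfl
    rw [h2]
    exact le_self_add
  refine h1.trans ?_
  have h2 := oea7_harnack hS (pt z) x z
  refine h2.trans ?_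
  have h3 : (S.card : ℝ≥0∞) ^ ((Cay S).dist x z) ≤ (S.card : ℝ≥0∞) ^ κ :=
    pow_le_pow_right₀ (oea7_card_pos hS) h
  unfold u1
  gcongr

end group

end Pool.Agent.Lib.MP_0f7bfe_al.OE
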