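import Pool.Agent.Lib.MP_0f7bfe_al.OE.A7

open scoped Pointwise ENNReal NNReal

namespace Pool.Agent.Lib.MP_0f7bfe_al.OE

universe u v w

section group
variable {G : Type u} [Group G] {S : Finset G}

theorem oea9_ball (hS : Setup S) (κ : ℕ) (a : G) :
    Set.ncard {y | (Cay S).dist a y ≤ κ} = Set.ncard {y | (Cay S).dist 1 y ≤ κ} := by
  have h1 : {y | (Cay S).dist a y ≤ κ} = (fun y => a * y) '' {y | (Cay S).dist 1 y ≤ κ} := by
    ext y
    simp only [Set.mem_image, Set.mem_setOf_eq]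
    constructor
    · intro h
      refine ⟨a⁻¹ * y, ?_, by group⟩
      rw [← dist_cay_smul hS a]
      simpa using h
    · rintro ⟨z, hz, rfl⟩
      have h2 := dist_cay_smul hS a 1 z
      rw [mul_one] at h2
      rw [h2]
      exact hz
  rw [h1, Set.ncard_image_of_injective _ (mul_right_injective a)]

theorem oea9_tsum_ball (hS : Setup S) (κ : ℕ) (a : G) :
    ∑' z, Set.indicator {y | (Cay S).dist a y ≤ κ} (1 : G → ℝ≥0∞) z =
      (Set.ncard {y | (Cay S).dist 1 y ≤ κ} : ℝ≥0∞) := by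
  rw [← tsum_subtype]
  have h1 : ∑' z : {y | (Cay S).dist a y ≤ κ}, (1 : G → ℝ≥0∞) z =
      ∑' _z : {y | (Cay S).dist a y ≤ κ}, (1 : ℝ≥0∞) := rfl
  rw [h1, ENNReal.tsum_set_one, ← oea9_ball hS κ a,
    ← Set.Finite.cast_ncard_eq ((nice_cay hS).ball a κ)]
  simp

theorem oea9_one (hS : Setup S) (κ : ℕ) (a x : G) :
    V S (Set.indicator {y | (Cay S).dist a y ≤ κ} (1 : G → ℝ≥0∞)) x ≤ cst S κ * u1 S x a := by
  have hc : (1 : ℝ≥0∞) ≤ (S.card : ℝ≥0∞) := by
    have : 0 < S.card := Finset.card_pos.2 ⟨1, hS.one⟩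
    exact_mod_cast this
  rw [V_eq_tsum]
  have h1 : ∀ z, u1 S x z * Set.indicator {y | (Cay S).dist a y ≤ κ} (1 : G → ℝ≥0∞) z ≤
      ((S.card : ℝ≥0∞) ^ κ * u1 S x a) *
        Set.indicator {y | (Cay S).dist a y ≤ κ} (1 : G → ℝ≥0∞) z := by
    intro z
    by_cases hz : z ∈ {y | (Cay S).dist a y ≤ κ}
    · gcongr
      refine (u1_harnack hS x z a).trans ?_
      have h2 : (Cay S).dist z a ≤ κ := by
        rw [SimpleGraph.dist_comm]
        exact hz
      have h3 : (S.card : ℝ≥0∞) ^ ((Cay S).dist z a) ≤ (S.card : ℝ≥0∞) ^ κ :=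
        pow_le_pow_right₀ hc h2
      gcongr
    · rw [Set.indicator_of_notMem hz, mul_zero, mul_zero]
  refine (ENNReal.tsum_le_tsum h1).trans ?_
  rw [ENNReal.tsum_mul_left, oea9_tsum_ball hS, cst]
  apply le_of_eq
  ring

theorem cost_le (hS : Setup S) (κ : ℕ) (A : Set G) (x : G) :
    cost S κ A x ≤ cst S κ * ∑' a : A, u1 S x a := by
  have h1 : cost S κ A x ≤
      V S (fun y => ∑' a : A, Set.indicator {y | (Cay S).dist (a : G) y ≤ κ} (1 : G → ℝ≥0∞) y) x := by
    refine V_mono (fun y => ?_) x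
    by_cases hy : y ∈ nb (Cay S) κ A
    · obtain ⟨a, ha, hay⟩ := id hy
      rw [Set.indicator_of_mem hy]
      refine le_trans ?_ (ENNReal.le_tsum (f := fun a : A =>
        Set.indicator {y | (Cay S).dist (a : G) y ≤ κ} (1 : G → ℝ≥0∞) y) ⟨a, ha⟩)
      have h2 : y ∈ {y | (Cay S).dist (a : G) y ≤ κ} := hay
      simp only [Set.indicator_of_mem h2]
      exact le_rfl
    · rw [Set.indicator_of_notMem hy]
      exact zero_le
  refine h1.trans ?_
  rw [V_tsum (fun (a : A) y => Set.indicator {y | (Cay S).dist (a : G) y ≤ κ} (1 : G → ℝ≥0∞) y) x,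
    ← ENNReal.tsum_mul_left]
  exact ENNReal.tsum_le_tsum fun a => oea9_one hS κ (a : G) x

theorem cost_range_le (hS : Setup S) (κ : ℕ) (r : ℕ → G) (x : G) :
    cost S κ (Set.range r) x ≤ cst S κ * ∑' t, u1 S x (r t) := by
  refine (cost_le hS κ _ x).trans ?_
  gcongr
  have hch : ∀ a : Set.range r, ∃ t, r t = a := fun a => a.2
  choose f hf using hch
  have hinj : Function.Injective f := by
    intro a b hab
    apply Subtype.ext
    rw [← hf a, ← hf b, hab]
  have h1 := ENNReal.tsum_comp_le_tsum_of_injective hinj (fun t => u1 S x (r t))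
  refine le_trans (le_of_eq ?_) h1
  refine tsum_congr fun a => ?_
  rw [hf a]

theorem cost_mono {κ : ℕ} {A B : Set G} (h : A ⊆ B) (x : G) : cost S κ A x ≤ cost S κ B x := by
  refine V_mono (fun y => ?_) x
  refine Set.indicator_le_indicator_of_subset ?_ (fun _ => zero_le) y
  rintro y ⟨a, ha, hy⟩
  exact ⟨a, h ha, hy⟩

theorem cost_union (κ : ℕ) (A B : Set G) (x : G) :
    cost S κ (A ∪ B) x ≤ cost S κ A x + cost S κ B x := by
  unfold cost
  rw [← V_add]
  refine V_mono (fun y => ?_) x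
  by_cases hy : y ∈ nb (Cay S) κ (A ∪ B)
  · obtain ⟨a, ha, hay⟩ := id hy
    rw [Set.indicator_of_mem hy]
    rcases ha with ha | ha
    · have h1 : y ∈ nb (Cay S) κ A := ⟨a, ha, hay⟩
      rw [Set.indicator_of_mem h1]
      exact le_self_add
    · have h1 : y ∈ nb (Cay S) κ B := ⟨a, ha, hay⟩
      rw [Set.indicator_of_mem h1]
      exact le_add_self
  · rw [Set.indicator_of_notMem hy]
    exact zero_le

theorem cost_smul (hS : Setup S) (κ : ℕ) (A : Set G) (g x : G) :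
    cost S κ (g • A) (g * x) = cost S κ A x := by
  unfold cost
  rw [← V_smul]
  congr 1
  funext y
  have h1 : (g * y ∈ nb (Cay S) κ (g • A)) ↔ y ∈ nb (Cay S) κ A := by
    constructor
    · rintro ⟨a, ha, hay⟩
      obtain ⟨b, hb, rfl⟩ := ha
      refine ⟨b, hb, ?_⟩
      rw [← dist_cay_smul hS g]
      exact hay
    · rintro ⟨b, hb, hby⟩
      refine ⟨g * b, ⟨b, hb, rfl⟩, ?_⟩
      rw [dist_cay_smul hS g]
      exact hby
  by_cases h2 : y ∈ nb (Cay S) κ A
  · rw [Set.indicator_of_mem h2, Set.indicator_of_mem (h1.2 h2)]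
    rfl
  · rw [Set.indicator_of_notMem h2, Set.indicator_of_notMem (fun h => h2 (h1.1 h))]

theorem cst_ne_top (hS : Setup S) (κ : ℕ) : cst S κ ≠ ∞ := by
  unfold cst
  exact ENNReal.mul_ne_top (ENNReal.natCast_ne_top _) (ENNReal.pow_ne_top (ENNReal.natCast_ne_top _))

/-- a ray of small weight avoids the neighbourhood -/
theorem far_of_tsum (hS : Setup S) {κ : ℕ} {A : Set G} {r : ℕ → G}
    (h : ∑' t, (nb (Cay S) κ A).indicator (1 : G → ℝ≥0∞) (r t) < 1) :
    Far (Cay S) κ (Set.range r) A := by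
  rintro x ⟨t, rfl⟩ a ha
  by_contra hcon
  rw [not_lt] at hcon
  have h1 : r t ∈ nb (Cay S) κ A := ⟨a, ha, by rw [SimpleGraph.dist_comm]; exact hcon⟩
  have h2 := ENNReal.le_tsum (f := fun t => (nb (Cay S) κ A).indicator (1 : G → ℝ≥0∞) (r t)) t
  rw [Set.indicator_of_mem h1] at h2
  exact absurd (lt_of_le_of_lt h2 h) (lt_irrefl _)

end group

end Pool.Agent.Lib.MP_0f7bfe_al.OE
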