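import Pool.Agent.Lib.MP_0f7bfe_al.OE.Defs

open scoped Pointwise ENNReal NNReal

namespace Pool.Agent.Lib.MP_0f7bfe_al.OE

universe u v w

section graph
variable {X : Type u} {Gr : SimpleGraph X}

/-! ### B1 Basic -/

theorem Far.symm {κ : ℕ} {A B : Set X} (h : Far Gr κ A B) : Far Gr κ B A := by
  intro b hb a ha
  rw [SimpleGraph.dist_comm]
  exact h a ha b hb

theorem Far.mono {κ κ' : ℕ} {A A' B B' : Set X} (h : Far Gr κ' A' B') (hκ : κ ≤ κ') (hA : A ⊆ A')
    (hB : B ⊆ B') : Far Gr κ A B :=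
  fun a ha b hb => lt_of_le_of_lt hκ (h a (hA ha) b (hB hb))

theorem RAdj.symm {F : Set (ℕ → X)} {a b : ℕ → X} (h : RAdj Gr F a b) : RAdj Gr F b a := by
  intro κ B hB
  obtain ⟨Q, hQ⟩ := h κ B hB
  exact ⟨Q, hQ.fc, hQ.disj, hQ.right, hQ.left, fun r hr h1 h2 => hQ.far r hr h2 h1⟩

theorem RAdj.mono {F F' : Set (ℕ → X)} {a b : ℕ → X} (h : RAdj Gr F' a b) (hF : F ⊆ F') :
    RAdj Gr F a b := by
  intro κ B hB
  obtain ⟨Q, hQ⟩ := h κ B hB
  exact ⟨Q, hQ.fc, hQ.disj, hQ.left, hQ.right, fun r hr h1 h2 => hQ.far r (hF hr) h1 h2⟩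

theorem fc_support {x y : X} (p : Gr.Walk x y) : FC Gr {z | z ∈ p.support} :=
  ⟨p.support.finite_toSet, p.connected_induce_support⟩

/-- geodesics -/
theorem fc_geod (hN : Nice Gr) (x y : X) : ∃ A : Set X, FC Gr A ∧ x ∈ A ∧ y ∈ A ∧
    (∀ z ∈ A, Gr.dist x z + Gr.dist z y = Gr.dist x y) ∧
    ∀ z ∈ A, ∀ z' ∈ A, (Gr.dist x z : ℤ) - Gr.dist x z' = Gr.dist z z' ∨
      (Gr.dist x z' : ℤ) - Gr.dist x z = Gr.dist z z' := by
  classical
  obtain ⟨p, hp⟩ := hN.conn.exists_walk_length_eq_dist x y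
  have key : ∀ i j : ℕ, i ≤ j → j ≤ p.length →
      Gr.dist (p.getVert i) (p.getVert j) = j - i := by
    intro i j hij hj
    have h1 : Gr.dist (p.getVert i) (p.getVert j) ≤ j - i := by
      have hw : ∀ k, i ≤ k → Gr.dist (p.getVert i) (p.getVert k) ≤ k - i := by
        intro k hk
        induction k, hk using Nat.le_induction with
        | base => simp
        | succ k hk ih =>
          have h2 := hN.conn.dist_triangle (u := p.getVert i) (v := p.getVert k)
            (w := p.getVert (k + 1))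
          have h3 : Gr.dist (p.getVert k) (p.getVert (k + 1)) ≤ 1 := by
            by_cases hk' : k < p.length
            · exact (SimpleGraph.dist_eq_one_iff_adj.2 (p.adj_getVert_succ hk')).le
            · push Not at hk'
              rw [p.getVert_of_length_le hk', p.getVert_of_length_le (by omega)]
              simp
          omega
      exact hw j hij
    have h0 : Gr.dist x (p.getVert i) ≤ i := by
      have := SimpleGraph.dist_le (p.take i)
      refine this.trans ?_
      rw [SimpleGraph.Walk.take_length]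
      exact min_le_left _ _
    have h2 : Gr.dist (p.getVert j) y ≤ p.length - j := by
      have := SimpleGraph.dist_le (p.drop j)
      rwa [SimpleGraph.Walk.drop_length] at this
    have h3 := hN.conn.dist_triangle (u := x) (v := p.getVert i) (w := y)
    have h4 := hN.conn.dist_triangle (u := p.getVert i) (v := p.getVert j) (w := y)
    omega
  refine ⟨{z | z ∈ p.support}, fc_support p, by simp, by simp, ?_, ?_⟩
  · intro z hz
    rw [Set.mem_ofPred_eq, SimpleGraph.Walk.mem_support_iff_exists_getVert] at hz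
    obtain ⟨i, rfl, hi⟩ := hz
    have h1 := key 0 i (Nat.zero_le _) hi
    have h2 := key i p.length hi le_rfl
    rw [p.getVert_zero] at h1
    rw [p.getVert_length] at h2
    omega
  · intro z hz z' hz'
    rw [Set.mem_ofPred_eq, SimpleGraph.Walk.mem_support_iff_exists_getVert] at hz hz'
    obtain ⟨i, rfl, hi⟩ := hz
    obtain ⟨j, rfl, hj⟩ := hz'
    have h1 := key 0 i (Nat.zero_le _) hi
    have h2 := key 0 j (Nat.zero_le _) hj
    rw [p.getVert_zero] at h1 h2
    rcases le_total i j with hij | hij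
    · right
      have h3 := key i j hij hj
      rw [h1, h2, h3]
      omega
    · left
      have h3 := key j i hij hi
      rw [SimpleGraph.dist_comm] at h3
      rw [h1, h2, h3]
      omega

theorem Fam.mono {F F' : Set (ℕ → X)} (h : Fam Gr F') (hF : F ⊆ F') : Fam Gr F :=
  ⟨h.fin.subset hF, fun r hr => h.ray r (hF hr), fun r hr r' hr' => h.dvg r (hF hr) r' (hF hr')⟩

theorem Rung.mono {κ κ' : ℕ} {B B' : Set X} {F F' : Set (ℕ → X)} {a b : ℕ → X} {Q : Set X}
    (h : Rung Gr κ' B' F' a b Q) (hκ : κ ≤ κ') (hB : B ⊆ B') (hF : F ⊆ F') :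
    Rung Gr κ B F a b Q :=
  ⟨h.fc, h.disj.mono_right hB, h.left, h.right, fun r hr h1 h2 =>
    (h.far r (hF hr) h1 h2).mono hκ subset_rfl subset_rfl⟩

theorem FC.union {A B : Set X} (hA : FC Gr A) (hB : FC Gr B) (h : (A ∩ B).Nonempty) :
    FC Gr (A ∪ B) :=
  ⟨hA.fin.union hB.fin, SimpleGraph.induce_union_connected hA.conn.preconnected
    hB.conn.preconnected h⟩

theorem fc_singleton (x : X) : FC Gr {x} := by
  refine ⟨Set.finite_singleton x, ?_⟩
  have : Nonempty ({x} : Set X) := ⟨⟨x, rfl⟩⟩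
  refine ⟨fun a b => ?_⟩
  have : a = b := Subsingleton.elim a b
  rw [this]

theorem fc_ball (hN : Nice Gr) (x : X) (n : ℕ) : FC Gr {y | Gr.dist x y ≤ n} := by
  refine ⟨hN.ball x n, ?_⟩
  have hx : x ∈ {y | Gr.dist x y ≤ n} := by simp
  have hne : Nonempty {y | Gr.dist x y ≤ n} := ⟨⟨x, hx⟩⟩
  have key : ∀ y : {y | Gr.dist x y ≤ n},
      (Gr.induce {y | Gr.dist x y ≤ n}).Reachable ⟨x, hx⟩ y := by
    rintro ⟨y, hy⟩
    obtain ⟨A, hA, hxA, hyA, h1, -⟩ := fc_geod hN x y
    have hsub : A ⊆ {y | Gr.dist x y ≤ n} := by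
      intro z hz
      have := h1 z hz
      have hy' : Gr.dist x y ≤ n := hy
      simp only [Set.mem_ofPred_eq]
      omega
    have h2 := hA.conn.preconnected ⟨x, hxA⟩ ⟨y, hyA⟩
    exact h2.map (SimpleGraph.induceHomOfLE Gr hsub).toHom
  exact ⟨fun a b => (key a).symm.trans (key b)⟩

/-- segments of rays -/
theorem fc_seg (hN : Nice Gr) {r : ℕ → X} (hr : ∀ n, Gr.dist (r n) (r (n + 1)) ≤ 1) {s t : ℕ}
    (hst : s ≤ t) : FC Gr (r '' Set.Icc s t) := by
  induction t, hst using Nat.le_induction with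
  | base =>
    have : r '' Set.Icc s s = {r s} := by simp
    rw [this]
    exact fc_singleton _
  | succ t ht ih =>
    have h1 : FC Gr {r t, r (t + 1)} := by
      rcases Nat.le_one_iff_eq_zero_or_eq_one.1 (hr t) with h | h
      · rw [hN.conn.dist_eq_zero_iff] at h
        rw [h, Set.pair_eq_singleton]
        exact fc_singleton _
      · rw [SimpleGraph.dist_eq_one_iff_adj] at h
        have := fc_support h.toWalk
        convert this using 1
        ext z
        simp
    have h2 : r '' Set.Icc s (t + 1) = r '' Set.Icc s t ∪ {r t, r (t + 1)} := by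
      ext z
      simp only [Set.mem_image, Set.mem_Icc, Set.mem_union, Set.mem_insert_iff,
        Set.mem_singleton_iff]
      constructor
      · rintro ⟨i, hi, rfl⟩
        by_cases h : i ≤ t
        · exact Or.inl ⟨i, ⟨hi.1, h⟩, rfl⟩
        · have : i = t + 1 := by omega
          subst this
          simp
      · rintro (⟨i, hi, rfl⟩ | rfl | rfl)
        · exact ⟨i, ⟨hi.1, by omega⟩, rfl⟩
        · exact ⟨t, ⟨ht, by omega⟩, rfl⟩
        · exact ⟨t + 1, ⟨by omega, le_rfl⟩, rfl⟩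
    rw [h2]
    exact ih.union h1 ⟨r t, ⟨t, ⟨ht, le_rfl⟩, rfl⟩, by simp⟩

/-- two points of a connected set are joined by a walk inside it -/
theorem FC.walk {A : Set X} (hA : FC Gr A) {x y : X} (hx : x ∈ A) (hy : y ∈ A) :
    ∃ p : Gr.Walk x y, ∀ z ∈ p.support, z ∈ A := by
  have key : ∀ a b : A, (Gr.induce A).Walk a b → ∃ p : Gr.Walk (a : X) b,
      ∀ z ∈ p.support, z ∈ A := by
    intro a b q
    induction q with
    | nil =>
      rename_i u
      exact ⟨SimpleGraph.Walk.nil, fun z hz => by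
        rw [SimpleGraph.Walk.support_nil, List.mem_singleton] at hz
        rw [hz]; exact u.2⟩
    | cons hadj q ih =>
      rename_i u v w
      obtain ⟨p, hp⟩ := ih
      have hadj' : Gr.Adj (u : X) (v : X) := hadj
      refine ⟨SimpleGraph.Walk.cons hadj' p, fun z hz => ?_⟩
      rw [SimpleGraph.Walk.support_cons, List.mem_cons] at hz
      rcases hz with rfl | hz
      · exact u.2
      · exact hp z hz
  obtain ⟨q⟩ := hA.conn.preconnected ⟨x, hx⟩ ⟨y, hy⟩
  exact key _ _ q

theorem nb_finite (hN : Nice Gr) (κ : ℕ) {A : Set X} (hA : A.Finite) : (nb Gr κ A).Finite := by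
  refine (hA.biUnion fun a _ => hN.ball a κ).subset ?_
  rintro x ⟨a, ha, hx⟩
  simp only [Set.mem_iUnion]
  exact ⟨a, ha, hx⟩

/-- points which are near to two divergent rays form a finite set -/
theorem Dvg.nb_inter (hN : Nice Gr) {r r' : ℕ → X} (h : Dvg Gr r r') (κ : ℕ) :
    (nb Gr κ (Set.range r) ∩ nb Gr κ (Set.range r')).Finite := by
  refine ((h (2 * κ)).biUnion fun p _ => hN.ball (r p.1) κ).subset ?_
  rintro x ⟨⟨_, ⟨s, rfl⟩, hs⟩, ⟨_, ⟨t, rfl⟩, ht⟩⟩
  simp only [Set.mem_iUnion]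
  refine ⟨(s, t), ?_, hs⟩
  have := hN.conn.dist_triangle (u := r s) (v := x) (w := r' t)
  rw [SimpleGraph.dist_comm (u := x)] at this
  simp only [Set.mem_ofPred_eq]
  omega

theorem Dvg.symm {r r' : ℕ → X} (h : Dvg Gr r r') : Dvg Gr r' r := by
  intro κ
  refine ((h κ).image Prod.swap).subset ?_
  rintro ⟨s, t⟩ hst
  refine ⟨(t, s), ?_, rfl⟩
  simp only [Set.mem_ofPred_eq] at hst ⊢
  rwa [SimpleGraph.dist_comm]

/-- a ray is eventually far from a divergent ray -/
theorem Dvg.far {r r' : ℕ → X} (h : Dvg Gr r r') (κ : ℕ) :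
    ∃ s0, ∀ s, s0 ≤ s → Far Gr κ {r s} (Set.range r') := by
  obtain ⟨s0, hs0⟩ := ((h κ).image Prod.fst).bddAbove
  refine ⟨s0 + 1, fun s hs => ?_⟩
  rintro _ rfl _ ⟨t, rfl⟩
  by_contra hc
  push Not at hc
  have : s ≤ s0 := hs0 ⟨(s, t), hc, rfl⟩
  omega

/-- a ray eventually leaves every finite set -/
theorem IsRay.leaves {r : ℕ → X} (h : IsRay Gr r) {B : Set X} (hB : B.Finite) :
    ∃ s0, ∀ s, s0 ≤ s → r s ∉ B := by
  obtain ⟨s0, hs0⟩ := (hB.biUnion fun x _ => h.proper x).bddAbove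
  refine ⟨s0 + 1, fun s hs hsB => ?_⟩
  have : s ≤ s0 := hs0 (by
    simp only [Set.mem_iUnion]
    exact ⟨r s, hsB, rfl⟩)
  omega

end graph

end Pool.Agent.Lib.MP_0f7bfe_al.OE
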