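import Pool.Agent.Lib.MP_0f7bfe_al.OE.Defs
import Pool.Agent.Lib.MP_0f7bfe_al.OE.A5
import Pool.Agent.Lib.MP_0f7bfe_al.OE.A6
import Pool.Agent.Lib.MP_0f7bfe_al.OE.A7
import Pool.Agent.Lib.MP_0f7bfe_al.OE.A9
import Pool.Agent.Lib.MP_0f7bfe_al.OE.B1

open scoped Pointwise ENNReal NNReal
open Filter Topology

namespace Pool.Agent.Lib.MP_0f7bfe_al.OE

universe u v w

section group
variable {G : Type u} [Group G] {S : Finset G}

theorem Ind.symm (hS : Setup S) {r r' : ℕ → G} (h : Ind S r r') : Ind S r' r := by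
  unfold Ind at h ⊢
  rw [ENNReal.tsum_comm] at h
  intro h2
  apply h
  rw [← h2]
  refine tsum_congr fun s => tsum_congr fun t => ?_
  exact u1_symm hS _ _

theorem oea10_card_pos (hS : Setup S) : (1 : ℝ≥0∞) ≤ (S.card : ℝ≥0∞) := by
  have h : 1 ≤ S.card := Finset.card_pos.2 ⟨1, hS.one⟩
  exact_mod_cast h

omit [Group G] in
theorem oea10_pow_ne_top (n : ℕ) : (S.card : ℝ≥0∞) ^ n ≠ ∞ :=
  ENNReal.pow_ne_top (ENNReal.natCast_ne_top _)

theorem Ind.dvg (hS : Setup S) {r r' : ℕ → G} (h : Ind S r r') : Dvg (Cay S) r r' := by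
  intro κ
  have h1 : ∑' p : ℕ × ℕ, u1 S (r p.1) (r' p.2) ≠ ∞ := by
    rw [ENNReal.tsum_prod (f := fun s t => u1 S (r s) (r' t))]
    exact h
  have hε : ((S.card : ℝ≥0∞) ^ κ)⁻¹ ≠ 0 := ENNReal.inv_ne_zero.2 (oea10_pow_ne_top κ)
  have h2 := ENNReal.finite_const_le_of_tsum_ne_top h1 hε
  refine h2.subset ?_
  intro p hp
  have h3 := one_le_u1 hS (κ := κ) hp
  change ((S.card : ℝ≥0∞) ^ κ)⁻¹ ≤ u1 S (r p.1) (r' p.2)
  have h0 : (S.card : ℝ≥0∞) ^ κ ≠ 0 := by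
    intro h0
    rw [h0, zero_mul] at h3
    exact absurd h3 (by simp)
  rw [ENNReal.inv_le_iff_le_mul (fun _ => h0) (fun h => absurd h (oea10_pow_ne_top κ))]
  exact h3

/-- Harnack inequality in the first variable -/
theorem oea10_harnack (hS : Setup S) (x y z : G) {D : ℕ} (h : (Cay S).dist x y ≤ D) :
    u1 S y z ≤ (S.card : ℝ≥0∞) ^ D * u1 S x z := by
  rw [u1_symm hS y z, u1_symm hS x z]
  refine (u1_harnack hS z y x).trans ?_
  have h1 : (S.card : ℝ≥0∞) ^ ((Cay S).dist y x) ≤ (S.card : ℝ≥0∞) ^ D := by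
    apply pow_le_pow_right₀ (oea10_card_pos hS)
    rw [SimpleGraph.dist_comm]
    exact h
  gcongr

theorem oea10_cost (hS : Setup S) {m r : ℕ → G} (h : Ind S m r) (κ D : ℕ) (ε : ℝ≥0∞)
    (hε : ε ≠ 0) :
    ∃ s0, ∀ s, s0 ≤ s → ∀ y, (Cay S).dist (m s) y ≤ D → cost S κ (Set.range r) y ≤ ε := by
  have h1 : Tendsto (fun s => ∑' t, u1 S (m s) (r t)) atTop (𝓝 0) := by
    rw [← Nat.cofinite_eq_atTop]
    exact ENNReal.tendsto_cofinite_zero_of_tsum_ne_top h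
  set K : ℝ≥0∞ := cst S κ * (S.card : ℝ≥0∞) ^ D with hK
  have hKt : K ≠ ∞ := ENNReal.mul_ne_top (cst_ne_top hS κ) (oea10_pow_ne_top D)
  have hpos : 0 < ε / K := ENNReal.div_pos hε hKt
  have h2 := h1.eventually (eventually_lt_nhds hpos)
  obtain ⟨s0, hs0⟩ := eventually_atTop.1 h2
  refine ⟨s0, fun s hs y hy => ?_⟩
  have h3 := (hs0 s hs).le
  calc cost S κ (Set.range r) y ≤ cst S κ * ∑' t, u1 S y (r t) := cost_range_le hS κ r y
    _ ≤ cst S κ * ∑' t, (S.card : ℝ≥0∞) ^ D * u1 S (m s) (r t) := by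
        gcongr with t
        exact oea10_harnack hS (m s) y (r t) hy
    _ = K * ∑' t, u1 S (m s) (r t) := by
        rw [ENNReal.tsum_mul_left, hK, mul_assoc]
    _ ≤ K * (ε / K) := by gcongr
    _ ≤ ε := ENNReal.mul_div_le

theorem Ind.cost (hS : Setup S) {m r : ℕ → G} (h : Ind S m r) (κ D : ℕ) (ε : ℝ≥0∞) (hε : ε ≠ 0) :
    ∃ s0, ∀ s, s0 ≤ s → ∀ y, (Cay S).dist (m s) y ≤ D → cost S κ (Set.range r) y ≤ ε :=
  oea10_cost hS h κ D ε hε

theorem not_ind_self (hS : Setup S) (r : ℕ → G) : ¬ Ind S r r := by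
  intro h
  apply h
  rw [eq_top_iff]
  have h1 : (∑' _ : ℕ, (1 : ℝ≥0∞)) = ∞ := ENNReal.tsum_const_eq_top_of_ne_zero one_ne_zero
  rw [← h1]
  refine ENNReal.tsum_le_tsum fun s => ?_
  have h2 := one_le_u1 hS (κ := 0) (x := r s) (z := r s) (by simp)
  rw [pow_zero, one_mul] at h2
  exact h2.trans (ENNReal.le_tsum s)

theorem cost_finite_tendsto (hS : Setup S) {m : ℕ → G} (hm : IsRay (Cay S) m) {B : Set G}
    (hB : B.Finite) (κ D : ℕ) (ε : ℝ≥0∞) (hε : ε ≠ 0) :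
    ∃ s0, ∀ s, s0 ≤ s → ∀ y, (Cay S).dist (m s) y ≤ D → cost S κ B y ≤ ε := by
  obtain ⟨C, q, hq, hCq⟩ := u3_decay hS
  have hnice := nice_cay hS
  -- decay along the ray
  have hdecay : ∀ b : G, Tendsto (fun s => u1 S (m s) b) atTop (𝓝 0) := by
    intro b
    rw [ENNReal.tendsto_nhds_zero]
    intro δ hδ
    have h1 : Tendsto (fun n : ℕ => (C : ℝ≥0∞) * (q : ℝ≥0∞) ^ n) atTop (𝓝 0) := by
      have h2 : Tendsto (fun n : ℕ => (q : ℝ≥0∞) ^ n) atTop (𝓝 0) :=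
        ENNReal.tendsto_pow_atTop_nhds_zero_of_lt_one (by exact_mod_cast hq)
      have h3 := ENNReal.Tendsto.const_mul (a := (C : ℝ≥0∞)) h2 (Or.inr ENNReal.coe_ne_top)
      rwa [mul_zero] at h3
    obtain ⟨n0, hn0⟩ := eventually_atTop.1 (h1.eventually (eventually_lt_nhds hδ))
    obtain ⟨s0, hs0⟩ := IsRay.leaves hm (hnice.ball b n0)
    refine eventually_atTop.2 ⟨s0, fun s hs => ?_⟩
    have h2 := hs0 s hs
    have h3 : n0 < (Cay S).dist b (m s) := by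
      by_contra hcon
      push Not at hcon
      exact h2 hcon
    have h4 := (u1_le_u2 (S := S) (m s) b).trans ((u2_le_u3 (m s) b).trans (hCq (m s) b))
    refine h4.trans ?_
    rw [SimpleGraph.dist_comm]
    exact (hn0 _ h3.le).le
  set Bf := hB.toFinset with hBf
  have hsum : Tendsto (fun s => ∑ b ∈ Bf, u1 S (m s) b) atTop (𝓝 0) := by
    have h1 := tendsto_finsetSum Bf (fun b _ => hdecay b)
    simpa using h1
  set K : ℝ≥0∞ := cst S κ * (S.card : ℝ≥0∞) ^ D with hK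
  have hKt : K ≠ ∞ := ENNReal.mul_ne_top (cst_ne_top hS κ) (oea10_pow_ne_top D)
  have hpos : 0 < ε / K := ENNReal.div_pos hε hKt
  obtain ⟨s0, hs0⟩ := eventually_atTop.1 (hsum.eventually (eventually_lt_nhds hpos))
  refine ⟨s0, fun s hs y hy => ?_⟩
  have h3 := (hs0 s hs).le
  have h4 : ∑' a : B, u1 S y a = ∑ b ∈ Bf, u1 S y b := by
    have h5 : B = (Bf : Set G) := by rw [hBf, Set.Finite.coe_toFinset]
    rw [h5]
    exact Finset.tsum_subtype Bf (fun b => u1 S y b)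
  calc cost S κ B y ≤ cst S κ * ∑' a : B, u1 S y a := cost_le hS κ B y
    _ = cst S κ * ∑ b ∈ Bf, u1 S y b := by rw [h4]
    _ ≤ cst S κ * ∑ b ∈ Bf, (S.card : ℝ≥0∞) ^ D * u1 S (m s) b := by
        gcongr with b _
        exact oea10_harnack hS (m s) y b hy
    _ = K * ∑ b ∈ Bf, u1 S (m s) b := by
        rw [← Finset.mul_sum, hK, mul_assoc]
    _ ≤ K * (ε / K) := by gcongr
    _ ≤ ε := ENNReal.mul_div_le

end group

end Pool.Agent.Lib.MP_0f7bfe_al.OE
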