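import Pool.Agent.Lib.MP_0f7bfe_al.OE.A8
import Pool.Agent.Lib.MP_0f7bfe_al.OE.A10

open scoped Pointwise ENNReal NNReal

namespace Pool.Agent.Lib.MP_0f7bfe_al.OE

universe u v w

section group
variable {G : Type u} [Group G] {S : Finset G}

theorem oea11_countable (hS : Setup S) : Countable G := by
  have hN := nice_cay hS
  have h1 : (Set.univ : Set G) = ⋃ n : ℕ, {y | (Cay S).dist 1 y ≤ n} := by
    ext y
    simp only [Set.mem_univ, Set.mem_iUnion, Set.mem_setOf_eq, true_iff]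
    exact ⟨_, le_rfl⟩
  have h2 : (Set.univ : Set G).Countable := by
    rw [h1]
    exact Set.countable_iUnion fun n => (hN.ball 1 n).countable
  exact Set.countable_univ_iff.1 h2

theorem oea11_u3 (hS : Setup S) (x z : G) : u3 S x z ≠ ∞ := by
  obtain ⟨C, q, _, h⟩ := u3_decay hS
  refine ne_top_of_le_ne_top ?_ (h x z)
  exact ENNReal.mul_ne_top ENNReal.coe_ne_top (ENNReal.pow_ne_top ENNReal.coe_ne_top)

theorem oea11_dist (S : Finset G) (g s : G) (hs : s ∈ S) : (Cay S).dist g (g * s) ≤ 1 := by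
  by_cases h : g = g * s
  · rw [← h, SimpleGraph.dist_self]
    exact Nat.zero_le _
  · have hadj : (Cay S).Adj g (g * s) := by
      rw [SimpleGraph.mulCayley_adj]
      refine ⟨h, Or.inl ?_⟩
      rw [inv_mul_cancel_left]
      exact Finset.mem_coe.2 hs
    exact (SimpleGraph.dist_eq_one_iff_adj.2 hadj).le

theorem new_ray (hS : Setup S) (F : Set (ℕ → G)) (hF : F.Finite) (hg : ∀ r ∈ F, Good S r) (x : G)
    (W : G → ℝ≥0∞) (hW : V S W x < 1) : ∃ r : ℕ → G, r 0 = x ∧ IsRay (Cay S) r ∧ Good S r ∧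
      (∀ r' ∈ F, Ind S r r') ∧ ∑' t, W (r t) < 1 := by
  have := oea11_countable hS
  have := hF.to_subtype
  let Wi : G ⊕ G ⊕ F → G → ℝ≥0∞ := fun i => match i with
    | Sum.inl z => pt z
    | Sum.inr (Sum.inl y0) => fun z => u2 S y0 z
    | Sum.inr (Sum.inr r') => fun y => ∑' t, u1 S y (r'.1 t)
  have hWi : ∀ i, V S (Wi i) x ≠ ∞ := by
    rintro (z | y0 | r')
    · exact ne_top_of_le_ne_top (oea11_u3 hS x z) ((u1_le_u2 x z).trans (u2_le_u3 x z))
    · have h1 : Wi (Sum.inr (Sum.inl y0)) = fun z => u2 S z y0 := by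
        funext z
        exact u2_symm hS y0 z
      rw [h1]
      exact oea11_u3 hS x y0
    · have h1 : V S (Wi (Sum.inr (Sum.inr r'))) x = ∑' t, u2 S x (r'.1 t) :=
        V_tsum (fun (t : ℕ) y => u1 S y (r'.1 t)) x
      rw [h1]
      exact hg r'.1 r'.2 x
  obtain ⟨r, hr0, hstep, hlt, hfin⟩ := ray_lemma hS x W hW Wi hWi
  refine ⟨r, hr0, ⟨fun n => ?_, fun z => ?_⟩, fun y0 => ?_, fun r' hr' => ?_, hlt⟩
  · obtain ⟨s, hs, he⟩ := hstep n
    rw [he]
    exact oea11_dist S _ s hs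
  · have h1 := ENNReal.finite_const_le_of_tsum_ne_top (hfin (Sum.inl z)) one_ne_zero
    refine h1.subset ?_
    intro n hn
    have h2 : r n = z := hn
    show 1 ≤ pt z (r n)
    rw [h2]
    unfold pt
    rw [Set.indicator_of_mem (Set.mem_singleton z)]
    exact le_rfl
  · exact hfin (Sum.inr (Sum.inl y0))
  · exact hfin (Sum.inr (Sum.inr ⟨r', hr'⟩))

theorem many_rays (hS : Setup S) (M : ℕ) : ∃ F : Finset (ℕ → G), F.card = M ∧
    (∀ r ∈ F, IsRay (Cay S) r ∧ Good S r) ∧ ∀ r ∈ F, ∀ r' ∈ F, r ≠ r' → Ind S r r' := by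
  classical
  induction M with
  | zero => exact ⟨∅, rfl, by simp, by simp⟩
  | succ M ih =>
    obtain ⟨F, hFc, hF1, hF2⟩ := ih
    have hV0 : V S (fun _ => (0 : ℝ≥0∞)) (1 : G) < 1 := by
      have h1 := V_mul (S := S) 0 (fun _ : G => (0 : ℝ≥0∞)) 1
      simp only [mul_zero, zero_mul] at h1
      rw [h1]
      exact one_pos
    obtain ⟨r, _, hr, hgood, hind, _⟩ := new_ray hS (F : Set (ℕ → G)) F.finite_toSet
      (fun r hr => (hF1 r hr).2) 1 _ hV0
    have hrF : r ∉ F := fun h => not_ind_self hS r (hind r h)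
    refine ⟨insert r F, by rw [Finset.card_insert_of_notMem hrF, hFc], ?_, ?_⟩
    · intro r' hr'
      rcases Finset.mem_insert.1 hr' with rfl | h
      · exact ⟨hr, hgood⟩
      · exact hF1 r' h
    · intro r1 h1 r2 h2 hne
      rcases Finset.mem_insert.1 h1 with e1 | e1
      · rcases Finset.mem_insert.1 h2 with e2 | e2
        · exact absurd (e1.trans e2.symm) hne
        · rw [e1]
          exact hind r2 (Finset.mem_coe.2 e2)
      · rcases Finset.mem_insert.1 h2 with e2 | e2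
        · rw [e2]
          exact Ind.symm hS (hind r1 (Finset.mem_coe.2 e1))
        · exact hF2 r1 e1 r2 e2 hne

end group

end Pool.Agent.Lib.MP_0f7bfe_al.OE
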