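import Pool.Agent.Lib.MP_0f7bfe_al.OE.Defs
import Pool.Agent.Lib.MP_0f7bfe_al.OE.B1
import Pool.Agent.Lib.MP_0f7bfe_al.OE.A5
import Pool.Agent.Lib.MP_0f7bfe_al.OE.A6

open scoped Pointwise ENNReal NNReal

namespace Pool.Agent.Lib.MP_0f7bfe_al.OE

universe u v w

section group
variable {G : Type u} [Group G] {S : Finset G}

/-! ### A12 -/

theorem oea12_dist_mul_le (y : G) {s : G} (hs : s ∈ S) : (Cay S).dist y (y * s) ≤ 1 := by
  by_cases h : y = y * s
  · rw [← h]; simp
  · have : (Cay S).Adj y (y * s) := by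
      rw [SimpleGraph.mulCayley_adj]
      refine ⟨h, Or.inl ?_⟩
      simpa using hs
    exact (SimpleGraph.dist_eq_one_iff_adj.2 this).le

theorem ball_growth (hS : Setup S) (x : G) (n : ℕ) :
    9 ^ n ≤ Set.ncard {y | (Cay S).dist x y ≤ n} := by
  classical
  have hN := nice_cay hS
  induction n with
  | zero =>
    have : {y | (Cay S).dist x y ≤ 0} = {x} := by
      ext y
      show (Cay S).dist x y ≤ 0 ↔ y = x
      rw [Nat.le_zero, hN.conn.dist_eq_zero_iff]
      exact eq_comm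
    rw [this]; simp
  | succ n ih =>
    set F : Finset G := (hN.ball x n).toFinset with hF
    have hFc : F.card = Set.ncard {y | (Cay S).dist x y ≤ n} := by
      rw [hF, Set.ncard_eq_toFinset_card _ (hN.ball x n)]
    have h1 := hS.exp F
    have h2 : (F : Set G) * (S : Set G) ⊆ {y | (Cay S).dist x y ≤ n + 1} := by
      rintro _ ⟨y, hy, s, hs, rfl⟩
      have hy' : (Cay S).dist x y ≤ n := by
        have := hy
        rw [hF, Set.Finite.coe_toFinset] at this
        exact this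
      have h3 := hN.conn.dist_triangle (u := x) (v := y) (w := y * s)
      have h4 := oea12_dist_mul_le (S := S) y hs
      show (Cay S).dist x (y * s) ≤ n + 1
      omega
    have h3 := Set.ncard_le_ncard h2 (hN.ball x (n + 1))
    rw [pow_succ]
    omega

theorem u2_small (hS : Setup S) (ε : ℝ≥0∞) (hε : ε ≠ 0) : ∃ d0 : ℕ, ∀ x z : G,
    d0 ≤ (Cay S).dist x z → u2 S x z ≤ ε := by
  obtain ⟨C, q, hq, h⟩ := u3_decay hS
  have hq' : (q : ℝ≥0∞) < 1 := by exact_mod_cast hq
  have ht : Filter.Tendsto (fun n : ℕ => (C : ℝ≥0∞) * (q : ℝ≥0∞) ^ n) Filter.atTop (nhds 0) := by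
    have := ENNReal.Tendsto.const_mul (ENNReal.tendsto_pow_atTop_nhds_zero_of_lt_one hq')
      (Or.inr (ENNReal.coe_ne_top (r := C)))
    simpa using this
  have hev := (ht.eventually (gt_mem_nhds (pos_iff_ne_zero.2 hε)))
  obtain ⟨d0, hd0⟩ := hev.exists
  refine ⟨d0, fun x z hxz => ?_⟩
  calc u2 S x z ≤ u3 S x z := u2_le_u3 x z
    _ ≤ C * q ^ ((Cay S).dist x z) := h x z
    _ ≤ C * q ^ d0 := by
        exact mul_le_mul' le_rfl (pow_le_pow_right_of_le_one' hq'.le hxz)
    _ ≤ ε := hd0.le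

end group

end Pool.Agent.Lib.MP_0f7bfe_al.OE
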