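import Pool.Agent.Lib.MP_0f7bfe_al.OE.Defs
import Pool.Agent.Lib.MP_0f7bfe_al.OE.B1
import Pool.Agent.Lib.MP_0f7bfe_al.OE.A5
import Pool.Agent.Lib.MP_0f7bfe_al.OE.A6
import Pool.Agent.Lib.MP_0f7bfe_al.OE.A9

open scoped Pointwise ENNReal NNReal

namespace Pool.Agent.Lib.MP_0f7bfe_al.OE

universe u v w

section group
variable {G : Type u} [Group G] {S : Finset G}

/-! ### A13 -/

theorem oea13_tsum_le (x : G) (A : Set G) (h : ℕ → ℝ≥0∞) (c : ℕ → ℝ≥0∞)
    (hA : ∀ k, ({a ∈ A | (Cay S).dist x a = k}.encard : ℝ≥0∞) ≤ c k) :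
    ∑' a : A, h ((Cay S).dist x a) ≤ ∑' k, c k * h k := by
  classical
  rw [← (Equiv.sigmaFiberEquiv (fun a : A => (Cay S).dist x a)).tsum_eq
    (fun a : A => h ((Cay S).dist x a)), ENNReal.tsum_sigma']
  refine ENNReal.tsum_le_tsum fun k => ?_
  have h1 : ∀ a : {a : A // (Cay S).dist x a = k},
      h ((Cay S).dist x ((Equiv.sigmaFiberEquiv (fun a : A => (Cay S).dist x a)) ⟨k, a⟩ : A)) =
        h k := by
    rintro ⟨a, ha⟩
    simp only [Equiv.sigmaFiberEquiv]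
    exact congrArg h ha
  rw [tsum_congr h1]
  have h2 : ∑' _ : {a : A // (Cay S).dist x a = k}, h k =
      ({a : A | (Cay S).dist x a = k}.encard : ℝ≥0∞) * h k :=
    ENNReal.tsum_set_const {a : A | (Cay S).dist x a = k} (h k)
  rw [h2]
  refine mul_le_mul' ?_ le_rfl
  refine le_trans ?_ (hA k)
  have h3 : (Subtype.val '' {a : A | (Cay S).dist x a = k}) = {a ∈ A | (Cay S).dist x a = k} := by
    ext y
    constructor
    · rintro ⟨a, ha, rfl⟩
      exact ⟨a.2, ha⟩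
    · rintro ⟨hy, hy'⟩
      exact ⟨⟨y, hy⟩, hy', rfl⟩
  rw [← h3, Subtype.val_injective.encard_image]

theorem oea13_summable (C q : ℝ≥0) (hq : q < 1) :
    ∑' k : ℕ, (((4 * k + 1 : ℕ) : ℝ≥0∞)) * ((C : ℝ≥0∞) * (q : ℝ≥0∞) ^ k) ≠ ∞ := by
  have h1 : Summable (fun k : ℕ => ((4 * k + 1 : ℕ) : ℝ) * ((C : ℝ) * (q : ℝ) ^ k)) := by
    have hq1 : ‖(q : ℝ)‖ < 1 := by
      rw [Real.norm_of_nonneg q.coe_nonneg]
      exact_mod_cast hq
    have h2 := summable_pow_mul_geometric_of_norm_lt_one (R := ℝ) 1 hq1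
    have h3 := summable_geometric_of_norm_lt_one hq1
    have h4 := ((h2.mul_left (4 * (C : ℝ))).add (h3.mul_left (C : ℝ)))
    refine h4.congr fun k => ?_
    push_cast
    ring
  have h2 : Summable (fun k : ℕ => ((4 * k + 1 : ℕ) : ℝ≥0) * (C * q ^ k)) := by
    rw [← NNReal.summable_coe]
    refine h1.congr fun k => ?_
    push_cast
    ring
  have h3 := ENNReal.tsum_coe_ne_top_iff_summable.2 h2
  refine ne_of_eq_of_ne (tsum_congr fun k => ?_) h3
  push_cast
  ring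

theorem oea13_gen (hS : Setup S) (κ : ℕ) (ε : ℝ≥0∞) (hε : ε ≠ 0) : ∃ d0 : ℕ,
    ∀ (A : Set G) (x : G), (∀ k : ℕ, ({a ∈ A | (Cay S).dist x a ≤ k}.encard : ℝ≥0∞) ≤
      ((4 * k + 1 : ℕ) : ℝ≥0∞)) → (∀ a ∈ A, d0 ≤ (Cay S).dist x a) → cost S κ A x ≤ ε := by
  classical
  obtain ⟨C, q, hq, h⟩ := u3_decay hS
  have hsum := oea13_summable C q hq
  have hcst := cst_ne_top hS κ
  have ht : Filter.Tendsto (fun d : ℕ => cst S κ * ∑' k : ℕ,
      (((4 * (k + d) + 1 : ℕ) : ℝ≥0∞)) * ((C : ℝ≥0∞) * (q : ℝ≥0∞) ^ (k + d))) Filter.atTop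
      (nhds 0) := by
    have h1 := ENNReal.tendsto_sum_nat_add _ hsum
    have h2 := ENNReal.Tendsto.const_mul h1 (Or.inr hcst)
    simpa using h2
  obtain ⟨d0, hd0⟩ := (ht.eventually (gt_mem_nhds (pos_iff_ne_zero.2 hε))).exists
  refine ⟨d0, fun A x hA hd => ?_⟩
  calc cost S κ A x ≤ cst S κ * ∑' a : A, u1 S x a := cost_le hS κ A x
    _ ≤ cst S κ * ∑' a : A, (C : ℝ≥0∞) * (q : ℝ≥0∞) ^ ((Cay S).dist x a) := by
        refine mul_le_mul' le_rfl (ENNReal.tsum_le_tsum fun a => ?_)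
        exact ((u1_le_u2 x a).trans (u2_le_u3 x a)).trans (h x a)
    _ ≤ cst S κ * ∑' k : ℕ, (if k < d0 then 0 else (((4 * k + 1 : ℕ) : ℝ≥0∞))) *
          ((C : ℝ≥0∞) * (q : ℝ≥0∞) ^ k) := by
        refine mul_le_mul' le_rfl (oea13_tsum_le x A (fun k => (C : ℝ≥0∞) * (q : ℝ≥0∞) ^ k)
          (fun k => if k < d0 then 0 else (((4 * k + 1 : ℕ) : ℝ≥0∞))) fun k => ?_)
        show _ ≤ (if k < d0 then (0 : ℝ≥0∞) else (((4 * k + 1 : ℕ) : ℝ≥0∞)))
        split_ifs with hk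
        · have : {a ∈ A | (Cay S).dist x a = k} = ∅ := by
            ext a
            simp only [Set.mem_empty_iff_false, iff_false]
            rintro ⟨ha, ha'⟩
            have := hd a ha
            omega
          rw [this]
          simp
        · refine le_trans ?_ (hA k)
          have h1 : {a ∈ A | (Cay S).dist x a = k} ⊆ {a ∈ A | (Cay S).dist x a ≤ k} :=
            fun a ha => ⟨ha.1, ha.2.le⟩
          exact_mod_cast Set.encard_le_encard h1
    _ = cst S κ * ∑' k : ℕ,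
      (((4 * (k + d0) + 1 : ℕ) : ℝ≥0∞)) * ((C : ℝ≥0∞) * (q : ℝ≥0∞) ^ (k + d0)) := by
        congr 1
        rw [← ENNReal.summable.sum_add_tsum_nat_add' (k := d0)]
        rw [Finset.sum_eq_zero, zero_add]
        · refine tsum_congr fun k => ?_
          rw [if_neg (by omega)]
        · intro k hk
          rw [if_pos (Finset.mem_range.1 hk), zero_mul]
    _ ≤ ε := hd0.le

theorem oea13_cycle (hS : Setup S) {N : ℕ} {f : ℤ → G} (hN : 0 < N) (hf : IsoCycle S N f) (x : G)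
    (k : ℕ) : ∃ i0 : ℤ, {a ∈ Set.range f | (Cay S).dist x a ≤ k} ⊆
      f '' (Set.Icc (i0 - 2 * k) (i0 + 2 * k)) := by
  have hconn := (nice_cay hS).conn
  have hper : ∀ (i m : ℤ), f (i + m * N) = f i := by
    intro i m
    induction m using Int.induction_on with
    | zero => simp
    | succ m ih =>
      rw [← ih, ← hf.per (i + m * N)]
      congr 1; ring
    | pred m ih =>
      rw [← ih, ← hf.per (i + (-m - 1) * N)]
      congr 1; ring
  by_cases h0 : ∃ i0, (Cay S).dist x (f i0) ≤ k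
  · obtain ⟨i0, hi0⟩ := h0
    refine ⟨i0, ?_⟩
    rintro _ ⟨⟨j, rfl⟩, hj⟩
    have hj : (Cay S).dist x (f j) ≤ k := hj
    -- normalise j
    obtain ⟨j', hj', hjj⟩ : ∃ j' : ℤ, f j' = f j ∧ 2 * |j' - i0| ≤ N := by
      have hN' : (0 : ℤ) < N := by exact_mod_cast hN
      set r := (j - i0) % N with hr
      have hr0 : 0 ≤ r := Int.emod_nonneg _ hN'.ne'
      have hr1 : r < N := Int.emod_lt_of_pos _ hN'
      have hr2 : j - i0 = r + N * ((j - i0) / N) := by
        rw [hr]; exact (Int.emod_add_mul_ediv (j - i0) N).symm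
      by_cases hh : 2 * r ≤ N
      · refine ⟨i0 + r, ?_, ?_⟩
        · rw [← hper (i0 + r) ((j - i0) / N)]
          congr 1
          linarith [mul_comm (N : ℤ) ((j - i0) / N)]
        · rw [show i0 + r - i0 = r by ring, abs_of_nonneg hr0]; exact hh
      · push Not at hh
        refine ⟨i0 + r - N, ?_, ?_⟩
        · rw [← hper (i0 + r - N) ((j - i0) / N + 1)]
          congr 1
          linarith [mul_comm (N : ℤ) ((j - i0) / N), add_mul ((j - i0) / N) 1 (N : ℤ)]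
        · rw [show i0 + r - N - i0 = -(N - r) by ring, abs_neg, abs_of_nonneg (by linarith)]
          linarith
    have hdist : ((Cay S).dist (f i0) (f j') : ℤ) = |j' - i0| := by
      rcases le_total i0 j' with h | h
      · rw [abs_of_nonneg (by linarith)] at hjj ⊢
        exact hf.iso i0 j' h hjj
      · rw [abs_of_nonpos (by linarith)] at hjj ⊢
        rw [SimpleGraph.dist_comm, hf.iso j' i0 h (by linarith)]
        ring
    have htri := hconn.dist_triangle (u := f i0) (v := x) (w := f j')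
    rw [SimpleGraph.dist_comm (u := f i0) (v := x), hj'] at htri
    rw [← hj'] at htri
    have h2 : ((Cay S).dist (f i0) (f j') : ℤ) ≤ 2 * k := by
      have h3 : (Cay S).dist (f i0) (f j') ≤ (Cay S).dist x (f i0) + (Cay S).dist x (f j') := htri
      rw [hj'] at h3
      have h4 : (Cay S).dist (f i0) (f j') ≤ 2 * k := by rw [hj']; omega
      exact_mod_cast h4
    rw [hdist, abs_le] at h2
    exact ⟨j', ⟨by linarith, by linarith⟩, hj'⟩
  · refine ⟨0, ?_⟩
    rintro _ ⟨⟨j, rfl⟩, hj⟩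
    exact absurd ⟨j, hj⟩ h0

theorem oea13_cycle_count (hS : Setup S) {N : ℕ} {f : ℤ → G} (hN : 0 < N) (hf : IsoCycle S N f)
    (x : G) (k : ℕ) : {a ∈ Set.range f | (Cay S).dist x a ≤ k}.encard ≤ ((4 * k + 1 : ℕ) : ℕ∞) := by
  obtain ⟨i0, hi0⟩ := oea13_cycle hS hN hf x k
  refine (Set.encard_le_encard hi0).trans ((Set.encard_image_le _ _).trans ?_)
  rw [← Finset.coe_Icc, Set.encard_coe_eq_coe_finsetCard, Int.card_Icc]
  refine Nat.cast_le.2 ?_
  omega

theorem cost_isoCycle (hS : Setup S) (κ : ℕ) (ε : ℝ≥0∞) (hε : ε ≠ 0) : ∃ d0 : ℕ,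
    ∀ (N : ℕ) (f : ℤ → G), 0 < N → IsoCycle S N f → ∀ x, (∀ i, d0 ≤ (Cay S).dist x (f i)) →
      cost S κ (Set.range f) x ≤ ε := by
  obtain ⟨d0, hd0⟩ := oea13_gen hS κ ε hε
  refine ⟨d0, fun N f hN hf x hx => hd0 (Set.range f) x (fun k => ?_) ?_⟩
  · exact_mod_cast oea13_cycle_count hS hN hf x k
  · rintro _ ⟨i, rfl⟩
    exact hx i

theorem oea13_geod_count (hS : Setup S) {A : Set G} {a : G} (hA : Geo S a A) (x : G) (k : ℕ) :
    {y ∈ A | (Cay S).dist x y ≤ k}.encard ≤ ((4 * k + 1 : ℕ) : ℕ∞) := by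
  have hconn := (nice_cay hS).conn
  by_cases h0 : ∃ y0 ∈ A, (Cay S).dist x y0 ≤ k
  · obtain ⟨y0, hy0, hy0k⟩ := h0
    have hinj : Set.InjOn (fun y => ((Cay S).dist a y : ℤ)) {y ∈ A | (Cay S).dist x y ≤ k} := by
      intro y hy z hz hyz
      have hyz : ((Cay S).dist a y : ℤ) = (Cay S).dist a z := hyz
      have h1 := hA.2 y hy.1 z hz.1
      have h2 : ((Cay S).dist y z : ℤ) = 0 := by
        rcases h1 with h | h
        · rw [← h]; linarith
        · rw [← h]; linarith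
      exact hconn.dist_eq_zero_iff.1 (by exact_mod_cast h2)
    have hsub : (fun y => ((Cay S).dist a y : ℤ)) '' {y ∈ A | (Cay S).dist x y ≤ k} ⊆
        (Finset.Icc (((Cay S).dist a y0 : ℤ) - 2 * k) (((Cay S).dist a y0 : ℤ) + 2 * k) :
          Finset ℤ) := by
      rintro _ ⟨y, ⟨hy, hyk⟩, rfl⟩
      rw [Finset.coe_Icc]
      have hyk : (Cay S).dist x y ≤ k := hyk
      have htri := hconn.dist_triangle (u := y) (v := x) (w := y0)
      rw [SimpleGraph.dist_comm (u := y) (v := x)] at htri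
      have h3 : ((Cay S).dist y y0 : ℤ) ≤ 2 * k := by
        have : (Cay S).dist y y0 ≤ 2 * k := by omega
        exact_mod_cast this
      have h1 := hA.2 y hy y0 hy0
      show ((Cay S).dist a y0 : ℤ) - 2 * k ≤ ((Cay S).dist a y : ℤ) ∧
        ((Cay S).dist a y : ℤ) ≤ ((Cay S).dist a y0 : ℤ) + 2 * k
      have h4 : (0 : ℤ) ≤ (Cay S).dist y y0 := Int.natCast_nonneg _
      rcases h1 with h | h
      · constructor <;> linarith
      · constructor <;> linarith
    rw [← hinj.encard_image]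
    refine (Set.encard_le_encard hsub).trans ?_
    rw [Set.encard_coe_eq_coe_finsetCard, Int.card_Icc]
    refine Nat.cast_le.2 ?_
    omega
  · have : {y ∈ A | (Cay S).dist x y ≤ k} = ∅ := by
      ext y
      simp only [Set.mem_empty_iff_false, iff_false]
      rintro ⟨hy, hyk⟩
      exact h0 ⟨y, hy, hyk⟩
    rw [this]; simp

theorem cost_geod (hS : Setup S) (κ : ℕ) (ε : ℝ≥0∞) (hε : ε ≠ 0) : ∃ d0 : ℕ,
    ∀ (A : Set G) (a : G), Geo S a A → ∀ x, (∀ y ∈ A, d0 ≤ (Cay S).dist x y) →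
      cost S κ A x ≤ ε := by
  obtain ⟨d0, hd0⟩ := oea13_gen hS κ ε hε
  refine ⟨d0, fun A a hA x hx => hd0 A x (fun k => ?_) hx⟩
  exact_mod_cast oea13_geod_count hS hA x k

end group

end Pool.Agent.Lib.MP_0f7bfe_al.OE
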