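import Pool.Agent.Lib.MP_0f7bfe_al.OE.Defs
import Pool.Agent.Lib.MP_0f7bfe_al.FM1
import Pool.Agent.Lib.MP_0f7bfe_al.SV8

open scoped Pointwise ENNReal NNReal

namespace Pool.Agent.Lib.MP_0f7bfe_al.OE

universe u v w

section group
variable {G : Type u} [Group G] {S : Finset G}

theorem exists_hall (hS : Setup S) :
    ∃ ψ : G × Fin 9 → G, Function.Injective ψ ∧ ∀ p, (p.1)⁻¹ * ψ p ∈ S := by
  classical
  let t : G × Fin 9 → Finset G := fun p => S.image fun s => p.1 * s
  have hall : ∀ s : Finset (G × Fin 9), s.card ≤ (s.biUnion t).card := by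
    intro s
    have h1 : s ⊆ (s.image Prod.fst) ×ˢ (Finset.univ : Finset (Fin 9)) := by
      intro p hp
      rw [Finset.mem_product]
      exact ⟨Finset.mem_image_of_mem _ hp, Finset.mem_univ _⟩
    have h2 := Finset.card_le_card h1
    rw [Finset.card_product, Finset.card_univ, Fintype.card_fin] at h2
    have h3 := hS.exp (s.image Prod.fst)
    have h4 : ((s.image Prod.fst : Finset G) : Set G) * (S : Set G) = ((s.biUnion t : Finset G) : Set G) := by
      ext x
      simp only [Set.mem_mul, Finset.mem_coe, Finset.mem_image, Finset.mem_biUnion, t]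
      constructor
      · rintro ⟨a, ⟨p, hp, rfl⟩, b, hb, rfl⟩
        exact ⟨p, hp, b, hb, rfl⟩
      · rintro ⟨p, hp, b, hb, rfl⟩
        exact ⟨p.1, ⟨p, hp, rfl⟩, b, hb, rfl⟩
    rw [h4, Set.ncard_coe_finset] at h3
    omega
  obtain ⟨ψ, h1, h2⟩ := (Finset.all_card_le_biUnion_card_iff_exists_injective t).mp hall
  refine ⟨ψ, h1, fun p => ?_⟩
  have h3 := h2 p
  simp only [t, Finset.mem_image] at h3
  obtain ⟨s, hs, h4⟩ := h3
  rw [← h4, inv_mul_cancel_left]
  exact hs

end group

end Pool.Agent.Lib.MP_0f7bfe_al.OE
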