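import Pool.Agent.Lib.MP_0f7bfe_al.OE.A2

/-!
Wave OE, section A3: the norm of the Markov operator.
-/

open scoped Pointwise ENNReal NNReal

namespace Pool.Agent.Lib.MP_0f7bfe_al.OE

universe u v w

section group
variable {G : Type u} [Group G] {S : Finset G}

theorem oea3_amgm (a b : ℝ≥0∞) : 2 * (a * b) ≤ a ^ 2 + b ^ 2 := by
  by_cases ha : a = ∞
  · rw [ha]; simp
  by_cases hb : b = ∞
  · rw [hb]; simp
  lift a to ℝ≥0 using ha
  lift b to ℝ≥0 using hb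
  have h : 2 * (a * b) ≤ a ^ 2 + b ^ 2 := by
    rw [← NNReal.coe_le_coe]
    push_cast
    nlinarith [sq_nonneg ((a : ℝ) - b)]
  exact_mod_cast h

/-- the weighted inequality for the special pairs -/
theorem oea3_amgm3 (a b : ℝ≥0∞) : 6 * (a * b) + 2 * a ^ 2 ≤ 3 * a ^ 2 + 9 * b ^ 2 := by
  by_cases ha : a = ∞
  · rw [ha]; simp
  by_cases hb : b = ∞
  · rw [hb]; simp
  lift a to ℝ≥0 using ha
  lift b to ℝ≥0 using hb
  have h : 6 * (a * b) + 2 * a ^ 2 ≤ 3 * a ^ 2 + 9 * b ^ 2 := by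
    rw [← NNReal.coe_le_coe]
    push_cast
    nlinarith [sq_nonneg ((a : ℝ) - 3 * b)]
  exact_mod_cast h

/-- translation invariance of the sum -/
theorem oea3_shift (f : G → ℝ≥0∞) (a : G) : ∑' x, f (x * a) = ∑' x, f x :=
  (Equiv.mulRight a).tsum_eq f

/-- the pair sums -/
noncomputable def oea3_T (f : G → ℝ≥0∞) (c : G) : ℝ≥0∞ := ∑' y, f y * f (y * c)

theorem oea3_T_le (f : G → ℝ≥0∞) (c : G) : 2 * oea3_T f c ≤ 2 * ∑' x, f x ^ 2 := by
  unfold oea3_T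
  rw [← ENNReal.tsum_mul_left]
  calc ∑' y, 2 * (f y * f (y * c)) ≤ ∑' y, (f y ^ 2 + f (y * c) ^ 2) :=
        ENNReal.tsum_le_tsum fun y => oea3_amgm _ _
    _ = ∑' y, f y ^ 2 + ∑' y, f (y * c) ^ 2 := ENNReal.tsum_add
    _ = 2 * ∑' x, f x ^ 2 := by
        rw [oea3_shift (fun x => f x ^ 2) c, two_mul]

/-- the pairs with the special elements -/
theorem oea3_special (hS : Setup S) (f : G → ℝ≥0∞) :
    6 * ∑ a ∈ S, oea3_T f a + 18 * ∑' x, f x ^ 2 ≤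
      6 * (S.card * ∑' x, f x ^ 2) + 6 * ∑' x, f x ^ 2 := by
  classical
  obtain ⟨ψ, hψ, hψS⟩ := exists_hall hS
  have hpt : ∀ y, 6 * ∑ a ∈ S, f y * f (y * a) + 18 * f y ^ 2 ≤
      3 * (S.card * f y ^ 2) + 3 * ∑ a ∈ S, f (y * a) ^ 2 + 6 * ∑ i : Fin 9, f (ψ (y, i)) ^ 2 := by
    intro y
    obtain ⟨A, hA⟩ : ∃ A : Finset G, A = Finset.univ.image (fun i : Fin 9 => y⁻¹ * ψ (y, i)) :=
      ⟨_, rfl⟩
    have hinj : Set.InjOn (fun i : Fin 9 => y⁻¹ * ψ (y, i)) (Finset.univ : Finset (Fin 9)) := by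
      intro i _ j _ hij
      have h1 : ψ (y, i) = ψ (y, j) := mul_left_cancel hij
      have h2 := hψ h1
      exact (Prod.mk.inj h2).2
    have hAS : A ⊆ S := by
      intro a ha
      rw [hA, Finset.mem_image] at ha
      obtain ⟨i, -, rfl⟩ := ha
      exact hψS (y, i)
    have hAsum : ∀ g : G → ℝ≥0∞, ∑ a ∈ A, g a = ∑ i : Fin 9, g (y⁻¹ * ψ (y, i)) := by
      intro g
      rw [hA, Finset.sum_image hinj]
    have hAcard : A.card = 9 := by
      rw [hA, Finset.card_image_of_injOn hinj]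
      simp
    have h1 : ∑ a ∈ A, f (y * a) ^ 2 = ∑ i : Fin 9, f (ψ (y, i)) ^ 2 := by
      rw [hAsum]
      refine Finset.sum_congr rfl fun i _ => ?_
      rw [mul_inv_cancel_left]
    have h2 : 6 * ∑ a ∈ A, f y * f (y * a) + 18 * f y ^ 2 ≤
        3 * (9 * f y ^ 2) + 9 * ∑ a ∈ A, f (y * a) ^ 2 := by
      have e1 : (18 : ℝ≥0∞) * f y ^ 2 = ∑ _a ∈ A, 2 * f y ^ 2 := by
        rw [Finset.sum_const, hAcard, nsmul_eq_mul, ← mul_assoc]
        norm_num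
      have e2 : (3 : ℝ≥0∞) * (9 * f y ^ 2) = ∑ _a ∈ A, 3 * f y ^ 2 := by
        rw [Finset.sum_const, hAcard, nsmul_eq_mul, ← mul_assoc, ← mul_assoc]
        norm_num
      rw [e1, e2, Finset.mul_sum, Finset.mul_sum, ← Finset.sum_add_distrib,
        ← Finset.sum_add_distrib]
      exact Finset.sum_le_sum fun a _ => oea3_amgm3 _ _
    have h3 : 6 * ∑ a ∈ S \ A, f y * f (y * a) ≤
        3 * ((S \ A).card * f y ^ 2) + 3 * ∑ a ∈ S \ A, f (y * a) ^ 2 := by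
      have e2 : (3 : ℝ≥0∞) * ((S \ A).card * f y ^ 2) = ∑ _a ∈ S \ A, 3 * f y ^ 2 := by
        rw [Finset.sum_const, nsmul_eq_mul]
        ring
      rw [e2, Finset.mul_sum, Finset.mul_sum, ← Finset.sum_add_distrib]
      refine Finset.sum_le_sum fun a _ => ?_
      calc 6 * (f y * f (y * a)) = 3 * (2 * (f y * f (y * a))) := by ring
        _ ≤ 3 * (f y ^ 2 + f (y * a) ^ 2) := by gcongr; exact oea3_amgm _ _
        _ = 3 * f y ^ 2 + 3 * f (y * a) ^ 2 := by ring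
    have hsplit : ∀ g : G → ℝ≥0∞, ∑ a ∈ S, g a = ∑ a ∈ S \ A, g a + ∑ a ∈ A, g a := fun g =>
      (Finset.sum_sdiff hAS).symm
    have hcard : (S.card : ℝ≥0∞) = (S \ A).card + 9 := by
      have := Finset.card_sdiff_add_card_eq_card hAS
      rw [hAcard] at this
      exact_mod_cast this.symm
    rw [hsplit (fun a => f y * f (y * a)), hsplit (fun a => f (y * a) ^ 2), hcard, ← h1]
    calc 6 * (∑ a ∈ S \ A, f y * f (y * a) + ∑ a ∈ A, f y * f (y * a)) + 18 * f y ^ 2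
        = 6 * ∑ a ∈ S \ A, f y * f (y * a) +
          (6 * ∑ a ∈ A, f y * f (y * a) + 18 * f y ^ 2) := by ring
      _ ≤ (3 * ((S \ A).card * f y ^ 2) + 3 * ∑ a ∈ S \ A, f (y * a) ^ 2) +
          (3 * (9 * f y ^ 2) + 9 * ∑ a ∈ A, f (y * a) ^ 2) := add_le_add h3 h2
      _ = _ := by ring
  have hT : ∑' y, ∑ a ∈ S, f y * f (y * a) = ∑ a ∈ S, oea3_T f a := by
    rw [Summable.tsum_finsetSum fun _ _ => ENNReal.summable]
    rfl
  have hsum := ENNReal.tsum_le_tsum hpt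
  rw [ENNReal.tsum_add, ENNReal.tsum_add, ENNReal.tsum_add, ENNReal.tsum_mul_left,
    ENNReal.tsum_mul_left, ENNReal.tsum_mul_left, ENNReal.tsum_mul_left, ENNReal.tsum_mul_left,
    ENNReal.tsum_mul_left, hT, Summable.tsum_finsetSum (fun _ _ => ENNReal.summable)] at hsum
  have hsh : ∑ a ∈ S, ∑' y, f (y * a) ^ 2 = S.card * ∑' x, f x ^ 2 := by
    rw [Finset.sum_congr rfl fun a _ => oea3_shift (fun x => f x ^ 2) a, Finset.sum_const,
      nsmul_eq_mul]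
  have hψsum : ∑' y, ∑ i : Fin 9, f (ψ (y, i)) ^ 2 ≤ ∑' x, f x ^ 2 := by
    have e1 : ∑' y, ∑ i : Fin 9, f (ψ (y, i)) ^ 2 = ∑' p : G × Fin 9, f (ψ p) ^ 2 := by
      rw [ENNReal.tsum_prod']
      refine tsum_congr fun y => ?_
      rw [tsum_fintype]
    rw [e1]
    exact ENNReal.tsum_comp_le_tsum_of_injective hψ (fun x => f x ^ 2)
  rw [hsh] at hsum
  refine hsum.trans ?_
  calc 3 * (S.card * ∑' x, f x ^ 2) + 3 * (S.card * ∑' x, f x ^ 2) +
        6 * ∑' y, ∑ i : Fin 9, f (ψ (y, i)) ^ 2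
      ≤ 3 * (S.card * ∑' x, f x ^ 2) + 3 * (S.card * ∑' x, f x ^ 2) + 6 * ∑' x, f x ^ 2 := by
        gcongr
    _ = _ := by ring

theorem oea3_card (hS : Setup S) : 9 ≤ S.card := by
  have h := hS.exp {1}
  rw [Finset.card_singleton, Finset.coe_singleton, Set.singleton_mul] at h
  have h2 : ((fun x => (1 : G) * x) '' (S : Set G)).ncard ≤ S.card := by
    refine (Set.ncard_image_le (Finset.finite_toSet S)).trans ?_
    rw [Set.ncard_coe_finset]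
  have h3 : (9 : ℕ) * 1 ≤ ((fun x => (1 : G) * x) '' (S : Set G)).ncard := h
  omega

theorem oea3_inv (hS : Setup S) (g : G → ℝ≥0∞) : ∑ s ∈ S, g s⁻¹ = ∑ s ∈ S, g s := by
  refine Finset.sum_nbij' (fun s => s⁻¹) (fun s => s⁻¹) (fun s hs => hS.symm s hs)
    (fun s hs => hS.symm s hs) (fun s _ => inv_inv s) (fun s _ => inv_inv s) (fun s _ => rfl)

theorem oea3_expand (hS : Setup S) (f : G → ℝ≥0∞) :
    ∑' x, (Pop S f x) ^ 2 = (∑ a ∈ S, ∑ b ∈ S, oea3_T f (a * b)) / (S.card : ℝ≥0∞) ^ 2 := by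
  have h1 : ∀ x, (Pop S f x) ^ 2 =
      (∑ s ∈ S, ∑ t ∈ S, f (x * s) * f (x * t)) / (S.card : ℝ≥0∞) ^ 2 := by
    intro x
    unfold Pop
    rw [ENNReal.div_eq_inv_mul, mul_pow, ENNReal.div_eq_inv_mul, ENNReal.inv_pow,
      sq (∑ s ∈ S, _), Finset.sum_mul_sum]
  rw [tsum_congr h1]
  simp only [ENNReal.div_eq_inv_mul]
  rw [ENNReal.tsum_mul_left, Summable.tsum_finsetSum (fun _ _ => ENNReal.summable)]
  congr 1
  rw [← oea3_inv hS]
  refine Finset.sum_congr rfl fun s _ => ?_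
  rw [Summable.tsum_finsetSum (fun _ _ => ENNReal.summable)]
  refine Finset.sum_congr rfl fun t _ => ?_
  unfold oea3_T
  rw [← oea3_shift (fun y => f y * f (y * (s * t))) s⁻¹]
  refine tsum_congr fun x => ?_
  rw [mul_assoc x s⁻¹, inv_mul_cancel_left]

theorem norm_bound (hS : Setup S) : ∃ q : ℝ≥0, q < 1 ∧ ∀ f : G → ℝ≥0∞,
    ∑' x, (Pop S f x) ^ 2 ≤ q * ∑' x, (f x) ^ 2 := by
  classical
  have hk9 := oea3_card hS
  obtain ⟨k, hk⟩ : ∃ k : ℕ, k = S.card := ⟨_, rfl⟩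
  rw [← hk] at hk9
  have hk2 : 2 < k ^ 2 := by nlinarith
  have hkpos : (0 : ℝ≥0) < (k : ℝ≥0) ^ 2 := by positivity
  refine ⟨((k ^ 2 - 2 : ℕ) : ℝ≥0) / (k : ℝ≥0) ^ 2, ?_, fun f => ?_⟩
  · rw [div_lt_one hkpos]
    have : k ^ 2 - 2 < k ^ 2 := by omega
    exact_mod_cast this
  · have hq : (((((k ^ 2 - 2 : ℕ) : ℝ≥0) / (k : ℝ≥0) ^ 2 : ℝ≥0)) : ℝ≥0∞) =
        ((k ^ 2 - 2 : ℕ) : ℝ≥0∞) / (k : ℝ≥0∞) ^ 2 := by
      rw [ENNReal.coe_div hkpos.ne']
      push_cast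
      rfl
    rw [hq]
    obtain ⟨N, hN⟩ : ∃ N : ℝ≥0∞, N = ∑' x, f x ^ 2 := ⟨_, rfl⟩
    have hk0' : (k : ℝ≥0∞) ^ 2 ≠ 0 := by
      have : (k : ℝ≥0∞) ≠ 0 := by exact_mod_cast (by omega : k ≠ 0)
      positivity
    have hktop : (k : ℝ≥0∞) ^ 2 ≠ ∞ := ENNReal.pow_ne_top (ENNReal.natCast_ne_top k)
    rw [← hN]
    by_cases hNtop : N = ∞
    · rw [hNtop, ENNReal.mul_top]
      · exact le_top
      · refine (ENNReal.div_pos ?_ hktop).ne'
        have : k ^ 2 - 2 ≠ 0 := by omega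
        exact_mod_cast this
    · obtain ⟨Tot, hTot⟩ : ∃ T : ℝ≥0∞, T = ∑ a ∈ S, ∑ b ∈ S, oea3_T f (a * b) := ⟨_, rfl⟩
      have hspec := oea3_special hS f
      rw [← hN, ← hk] at hspec
      have hsplit : Tot = ∑ a ∈ S, oea3_T f a + ∑ a ∈ S, ∑ b ∈ S.erase 1, oea3_T f (a * b) := by
        rw [hTot, ← Finset.sum_add_distrib]
        refine Finset.sum_congr rfl fun a _ => ?_
        rw [← Finset.add_sum_erase S _ hS.one, mul_one]
      have hcard : (k : ℝ≥0∞) = ((S.erase 1).card : ℝ≥0∞) + 1 := by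
        have := Finset.card_erase_add_one hS.one
        rw [← hk] at this
        exact_mod_cast this.symm
      have hrest : ∑ a ∈ S, ∑ b ∈ S.erase 1, oea3_T f (a * b) ≤ k * ((S.erase 1).card * N) := by
        have h1 : ∀ c, oea3_T f c ≤ N := by
          intro c
          have := oea3_T_le f c
          rw [← hN] at this
          exact (ENNReal.mul_le_mul_iff_right (by norm_num) (by norm_num)).1 this
        calc ∑ a ∈ S, ∑ b ∈ S.erase 1, oea3_T f (a * b)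
            ≤ ∑ _a ∈ S, ∑ _b ∈ S.erase 1, N :=
              Finset.sum_le_sum fun a _ => Finset.sum_le_sum fun b _ => h1 _
          _ = k * ((S.erase 1).card * N) := by
              rw [Finset.sum_const, Finset.sum_const, nsmul_eq_mul, nsmul_eq_mul, hk]
      have hall : 6 * Tot + 18 * N ≤ 6 * (((k ^ 2 - 2 : ℕ) : ℝ≥0∞) * N) + 18 * N := by
        have e1 : (k : ℝ≥0∞) ^ 2 = ((k ^ 2 - 2 : ℕ) : ℝ≥0∞) + 2 := by
          have : k ^ 2 = (k ^ 2 - 2) + 2 := by omega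
          exact_mod_cast this
        calc 6 * Tot + 18 * N = (6 * ∑ a ∈ S, oea3_T f a + 18 * N) +
              6 * ∑ a ∈ S, ∑ b ∈ S.erase 1, oea3_T f (a * b) := by rw [hsplit]; ring
          _ ≤ (6 * (k * N) + 6 * N) + 6 * (k * ((S.erase 1).card * N)) := by gcongr
          _ = 6 * (k * ((((S.erase 1).card : ℝ≥0∞) + 1) * N)) + 6 * N := by ring
          _ = 6 * ((k : ℝ≥0∞) ^ 2 * N) + 6 * N := by rw [← hcard]; ring
          _ = 6 * (((k ^ 2 - 2 : ℕ) : ℝ≥0∞) * N) + 18 * N := by rw [e1]; ring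
      have h18 : (18 : ℝ≥0∞) * N ≠ ∞ := ENNReal.mul_ne_top (by norm_num) hNtop
      have h6 : 6 * Tot ≤ 6 * (((k ^ 2 - 2 : ℕ) : ℝ≥0∞) * N) :=
        (ENNReal.add_le_add_iff_right h18).1 hall
      have h7 : Tot ≤ ((k ^ 2 - 2 : ℕ) : ℝ≥0∞) * N :=
        (ENNReal.mul_le_mul_iff_right (by norm_num) (by norm_num)).1 h6
      rw [oea3_expand hS, ← hTot, ← hk, ENNReal.div_le_iff hk0' hktop]
      refine h7.trans (le_of_eq ?_)
      rw [mul_right_comm, ENNReal.div_mul_cancel hk0' hktop]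

end group
end Pool.Agent.Lib.MP_0f7bfe_al.OE
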