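import Pool.Agent.Lib.MP_0f7bfe_al.OE.A3

/-!
Wave OE, section A4: adjointness and the heat kernel bound.
-/

open scoped Pointwise ENNReal NNReal

namespace Pool.Agent.Lib.MP_0f7bfe_al.OE

universe u v w

section group
variable {G : Type u} [Group G] {S : Finset G}

theorem Pop_adjoint (hS : Setup S) (f g : G → ℝ≥0∞) :
    ∑' x, Pop S f x * g x = ∑' x, f x * Pop S g x := by
  have h1 : ∀ (f g : G → ℝ≥0∞), ∑' x, Pop S f x * g x =
      (S.card : ℝ≥0∞)⁻¹ * ∑ s ∈ S, ∑' x, f (x * s) * g x := by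
    intro f g
    rw [← Summable.tsum_finsetSum (fun _ _ => ENNReal.summable), ← ENNReal.tsum_mul_left]
    refine tsum_congr fun x => ?_
    unfold Pop
    rw [ENNReal.div_eq_inv_mul, mul_assoc, Finset.sum_mul]
  have h2 : ∑' x, f x * Pop S g x = ∑' x, Pop S g x * f x :=
    tsum_congr fun x => mul_comm _ _
  rw [h2, h1, h1]
  congr 1
  rw [← oea3_inv hS]
  refine Finset.sum_congr rfl fun s _ => ?_
  rw [← oea3_shift (fun x => g (x * s) * f x) s⁻¹]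
  refine tsum_congr fun x => ?_
  rw [inv_mul_cancel_right, mul_comm]

theorem oea4_iter_adjoint (hS : Setup S) (n : ℕ) : ∀ (f g : G → ℝ≥0∞),
    ∑' x, (Pop S)^[n] f x * g x = ∑' x, f x * (Pop S)^[n] g x := by
  induction n with
  | zero => intro f g; rfl
  | succ n ih =>
    intro f g
    rw [Function.iterate_succ_apply', Pop_adjoint hS, ih, Function.iterate_succ_apply]

theorem oea4_pt_sum (z : G) (g : G → ℝ≥0∞) : ∑' x, pt z x * g x = g z := by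
  classical
  rw [tsum_eq_single z]
  · simp [pt]
  · intro x hx
    simp [pt, hx]

theorem oea4_sq (hS : Setup S) {q : ℝ≥0}
    (hq : ∀ f : G → ℝ≥0∞, ∑' x, (Pop S f x) ^ 2 ≤ q * ∑' x, (f x) ^ 2) (n : ℕ) (z : G) :
    ∑' x, ((Pop S)^[n] (pt z) x) ^ 2 ≤ (q : ℝ≥0∞) ^ n := by
  induction n with
  | zero =>
    simp only [Function.iterate_zero, id, pow_zero]
    have : ∑' x, pt z x ^ 2 = ∑' x, pt z x * pt z x := tsum_congr fun x => sq _
    rw [this, oea4_pt_sum]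
    simp [pt]
  | succ n ih =>
    rw [Function.iterate_succ_apply', pow_succ']
    exact (hq _).trans (mul_le_mul_right ih _)

theorem oea4_even (hS : Setup S) {q : ℝ≥0}
    (hq : ∀ f : G → ℝ≥0∞, ∑' x, (Pop S f x) ^ 2 ≤ q * ∑' x, (f x) ^ 2) (n : ℕ) (x z : G) :
    (Pop S)^[n + n] (pt z) x ≤ (q : ℝ≥0∞) ^ n := by
  have h1 : (Pop S)^[n + n] (pt z) x =
      ∑' y, (Pop S)^[n] (pt x) y * (Pop S)^[n] (pt z) y := by
    rw [oea4_iter_adjoint hS n, oea4_pt_sum, Function.iterate_add_apply]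
  rw [h1]
  have h2 : 2 * ∑' y, (Pop S)^[n] (pt x) y * (Pop S)^[n] (pt z) y ≤ 2 * (q : ℝ≥0∞) ^ n := by
    rw [← ENNReal.tsum_mul_left]
    calc ∑' y, 2 * ((Pop S)^[n] (pt x) y * (Pop S)^[n] (pt z) y)
        ≤ ∑' y, ((Pop S)^[n] (pt x) y ^ 2 + (Pop S)^[n] (pt z) y ^ 2) :=
          ENNReal.tsum_le_tsum fun y => oea3_amgm _ _
      _ = ∑' y, (Pop S)^[n] (pt x) y ^ 2 + ∑' y, (Pop S)^[n] (pt z) y ^ 2 := ENNReal.tsum_add
      _ ≤ (q : ℝ≥0∞) ^ n + (q : ℝ≥0∞) ^ n := add_le_add (oea4_sq hS hq n x) (oea4_sq hS hq n z)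
      _ = 2 * (q : ℝ≥0∞) ^ n := (two_mul _).symm
  exact (ENNReal.mul_le_mul_iff_right (by norm_num) (by norm_num)).1 h2

theorem oea4_avg (hS : Setup S) {f : G → ℝ≥0∞} {c : ℝ≥0∞} (h : ∀ x, f x ≤ c) (x : G) :
    Pop S f x ≤ c := by
  have hk : (S.card : ℝ≥0∞) ≠ 0 := by
    have := oea3_card hS
    exact_mod_cast (by omega : S.card ≠ 0)
  unfold Pop
  rw [ENNReal.div_le_iff hk (ENNReal.natCast_ne_top _)]
  calc ∑ s ∈ S, f (x * s) ≤ ∑ _s ∈ S, c := Finset.sum_le_sum fun s _ => h _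
    _ = c * S.card := by rw [Finset.sum_const, nsmul_eq_mul, mul_comm]

theorem heat_bound (hS : Setup S) : ∃ C q : ℝ≥0, q < 1 ∧ ∀ (n : ℕ) (x z : G),
    (Pop S)^[n] (pt z) x ≤ C * q ^ n := by
  obtain ⟨q, hq1, hq⟩ := norm_bound hS
  obtain ⟨r, hr⟩ : ∃ r : ℝ≥0, r = NNReal.sqrt (max q (1 / 4)) := ⟨_, rfl⟩
  have hr2 : r ^ 2 = max q (1 / 4) := by rw [hr, NNReal.sq_sqrt]
  have hqr : q ≤ r ^ 2 := by rw [hr2]; exact le_max_left _ _
  have hr1 : r < 1 := by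
    have h1 : r ^ 2 < 1 := by
      rw [hr2]
      refine max_lt hq1 ?_
      rw [← NNReal.coe_lt_coe]
      push_cast
      norm_num
    by_contra h
    exact absurd h1 (not_lt.2 (one_le_pow₀ (not_lt.1 h)))
  have hrh : 1 / 2 ≤ r := by
    have h1 : (1 / 4 : ℝ≥0) ≤ r ^ 2 := by rw [hr2]; exact le_max_right _ _
    have h2 : (1 / 4 : ℝ) ≤ (r : ℝ) ^ 2 := by exact_mod_cast h1
    have h3 : (0 : ℝ) ≤ r := r.2
    have h4 : (1 / 2 : ℝ) ≤ r := by nlinarith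
    rw [← NNReal.coe_le_coe]
    push_cast
    exact h4
  have hqn : ∀ n, (q : ℝ≥0∞) ^ n ≤ (r : ℝ≥0∞) ^ (n + n) := by
    intro n
    have : q ^ n ≤ r ^ (n + n) := by
      rw [← two_mul, pow_mul]
      exact pow_le_pow_left₀ zero_le hqr n
    exact_mod_cast this
  refine ⟨2, r, hr1, fun n x z => ?_⟩
  rcases Nat.even_or_odd' n with ⟨m, rfl | rfl⟩
  · rw [two_mul]
    refine (oea4_even hS hq m x z).trans ((hqn m).trans ?_)
    refine le_mul_of_one_le_left zero_le ?_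
    norm_num
  · rw [Function.iterate_succ_apply']
    refine (oea4_avg hS (fun y => ?_) x).trans (b := (r : ℝ≥0∞) ^ (m + m)) ?_
    · rw [two_mul]
      exact (oea4_even hS hq m y z).trans (hqn m)
    · have h5 : (1 : ℝ≥0∞) ≤ (2 : ℝ≥0) * r := by
        have : (1 : ℝ≥0) ≤ 2 * r := by
          calc (1 : ℝ≥0) = 2 * (1 / 2) := by norm_num
            _ ≤ 2 * r := by gcongr
        exact_mod_cast this
      calc (r : ℝ≥0∞) ^ (m + m) = 1 * r ^ (m + m) := (one_mul _).symm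
        _ ≤ (2 : ℝ≥0) * r * r ^ (m + m) := by gcongr
        _ = (2 : ℝ≥0) * r ^ (2 * m + 1) := by ring

end group
end Pool.Agent.Lib.MP_0f7bfe_al.OE
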