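import Pool.Agent.Lib.MP_0f7bfe_al.OE.A5

open scoped Pointwise ENNReal NNReal

namespace Pool.Agent.Lib.MP_0f7bfe_al.OE

universe u v w

section group
variable {G : Type u} [Group G] {S : Finset G}

/-- some step decreases the average -/
theorem oea8_step (hS : Setup S) (f : G → ℝ≥0∞) (y : G) : ∃ s ∈ S, f (y * s) ≤ Pop S f y := by
  have hne : S.Nonempty := ⟨1, hS.one⟩
  have hc : (S.card : ℝ≥0∞) ≠ 0 := by
    exact_mod_cast (Finset.card_pos.2 hne).ne'
  by_contra hcon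
  push Not at hcon
  have h1 := ENNReal.sum_lt_sum_of_nonempty hne hcon
  rw [Finset.sum_const, nsmul_eq_mul, Pop, ENNReal.mul_div_cancel hc (ENNReal.natCast_ne_top _)]
    at h1
  exact lt_irrefl _ h1

theorem ray_lemma {ι : Type v} [Countable ι] (hS : Setup S) (x : G) (W : G → ℝ≥0∞)
    (hW : V S W x < 1) (Wi : ι → G → ℝ≥0∞) (hWi : ∀ i, V S (Wi i) x ≠ ∞) :
    ∃ r : ℕ → G, r 0 = x ∧ (∀ n, ∃ s ∈ S, r (n + 1) = r n * s) ∧ ∑' n, W (r n) < 1 ∧
      ∀ i, ∑' n, Wi i (r n) ≠ ∞ := by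
  have hδ : (1 : ℝ≥0∞) - V S W x ≠ 0 := (tsub_pos_iff_lt.2 hW).ne'
  obtain ⟨ε', hε'0, hε'⟩ := ENNReal.exists_pos_sum_of_countable' hδ ι
  -- the weights
  have hc0 : ∀ i, V S (Wi i) x + 1 ≠ 0 := fun i => by
    intro h
    exact one_ne_zero (add_eq_zero.1 h).2
  have hct : ∀ i, V S (Wi i) x + 1 ≠ ∞ := fun i => ENNReal.add_ne_top.2 ⟨hWi i, ENNReal.one_ne_top⟩
  set ε : ι → ℝ≥0∞ := fun i => ε' i / (V S (Wi i) x + 1) with hεdef
  have hε0 : ∀ i, ε i ≠ 0 := fun i => (ENNReal.div_pos (hε'0 i).ne' (hct i)).ne'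
  have hεle : ∀ i, ε i * V S (Wi i) x ≤ ε' i := by
    intro i
    calc ε i * V S (Wi i) x ≤ ε i * (V S (Wi i) x + 1) := by gcongr; exact le_self_add
      _ = ε' i := ENNReal.div_mul_cancel (hc0 i) (hct i)
  set W' : G → ℝ≥0∞ := fun y => W y + ∑' i, ε i * Wi i y with hW'def
  have hVW' : V S W' x < 1 := by
    have h1 : V S W' x = V S W x + ∑' i, ε i * V S (Wi i) x := by
      rw [hW'def, V_add W (fun y => ∑' i, ε i * Wi i y) x, V_tsum (fun i y => ε i * Wi i y) x]
      congr 1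
      refine tsum_congr fun i => ?_
      exact V_mul (ε i) (Wi i) x
    rw [h1]
    have h2 : ∑' i, ε i * V S (Wi i) x ≤ ∑' i, ε' i := ENNReal.tsum_le_tsum hεle
    exact lt_of_le_of_lt (add_le_add_right h2 _) (lt_tsub_iff_left.1 hε')
  choose nx hnxS hnx using oea8_step hS (V S W')
  let r : ℕ → G := fun n => Nat.rec x (fun _ y => y * nx y) n
  have hr0 : r 0 = x := rfl
  have hrs : ∀ n, r (n + 1) = r n * nx (r n) := fun n => rfl
  have hstep : ∀ y, W' y + V S W' (y * nx y) ≤ V S W' y := by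
    intro y
    conv_rhs => rw [V_eq W' y]
    exact add_le_add_right (hnx y) _
  have htel : ∀ N, ∑ n ∈ Finset.range N, W' (r n) + V S W' (r N) ≤ V S W' x := by
    intro N
    induction N with
    | zero => simp [hr0]
    | succ N ih =>
      rw [Finset.sum_range_succ, hrs, add_assoc]
      exact (add_le_add_right (hstep (r N)) _).trans ih
  have htsum : ∑' n, W' (r n) < 1 := by
    refine lt_of_le_of_lt (ENNReal.tsum_le_of_sum_range_le fun N => ?_) hVW'
    exact le_self_add.trans (htel N)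
  refine ⟨r, hr0, fun n => ⟨nx (r n), hnxS _, hrs n⟩, ?_, fun i => ?_⟩
  · refine lt_of_le_of_lt (ENNReal.tsum_le_tsum fun n => ?_) htsum
    exact le_self_add
  · intro h
    have h1 : ε i * ∑' n, Wi i (r n) ≤ ∑' n, W' (r n) := by
      rw [← ENNReal.tsum_mul_left]
      refine ENNReal.tsum_le_tsum fun n => ?_
      exact (ENNReal.le_tsum (f := fun i => ε i * Wi i (r n)) i).trans le_add_self
    rw [h, ENNReal.mul_top (hε0 i), top_le_iff] at h1
    rw [h1] at htsum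
    exact absurd htsum (not_lt.2 le_top)

end group

end Pool.Agent.Lib.MP_0f7bfe_al.OE
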