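import Mathlib

namespace Pool.Agent.Lib.MP_0f7bfe_al.OE

universe u v w

/-- the kernel of `f` is the normal closure of `R` if `R` is killed by `f` and the quotient by
the normal closure of `R` admits an inverse map -/
theorem oeac1_ker {P Q : Type*} [Group P] [Group Q] (f : P →* Q) (R : Set P)
    (hR : ∀ r ∈ R, f r = 1) (g : Q →* P ⧸ Subgroup.normalClosure R)
    (hg : ∀ x, g (f x) = QuotientGroup.mk' (Subgroup.normalClosure R) x) :
    f.ker = Subgroup.normalClosure R := by
  apply le_antisymm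
  · intro x hx
    have h1 : g (f x) = 1 := by rw [MonoidHom.mem_ker.1 hx, map_one]
    rw [hg x] at h1
    exact (QuotientGroup.eq_one_iff x).1 h1
  · exact Subgroup.normalClosure_le_normal fun r hr => MonoidHom.mem_ker.2 (hR r hr)

theorem fp_pushoutI {ι : Type} [Finite ι] {K : ι → Type u} [∀ i, Group (K i)] {C : Type u}
    [Group C] [Finite C] (φ : ∀ i, C →* K i) (h : ∀ i, Group.IsFinitelyPresented (K i)) :
    Group.IsFinitelyPresented (Monoid.PushoutI φ) := by
  classical
  choose n ψ hψ hker using fun i => (h i).out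
  choose s hsf hsc using hker
  choose w hw using fun (p : ι × C) => hψ p.1 (φ p.1 p.2)
  -- the group `P` and the map onto the pushout
  let mp : ∀ i, FreeGroup (Fin (n i)) →* FreeGroup (Σ i, Fin (n i)) :=
    fun i => FreeGroup.map (fun j => (⟨i, j⟩ : Σ i, Fin (n i)))
  let P := Monoid.Coprod (FreeGroup (Σ i, Fin (n i))) C
  let f0 : FreeGroup (Σ i, Fin (n i)) →* Monoid.PushoutI φ :=
    FreeGroup.lift (fun p => Monoid.PushoutI.of p.1 (ψ p.1 (FreeGroup.of p.2)))
  let f : P →* Monoid.PushoutI φ := Monoid.Coprod.lift f0 (Monoid.PushoutI.base φ)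
  have hfl : ∀ x, f (Monoid.Coprod.inl x) = f0 x := fun x =>
    Monoid.Coprod.lift_apply_inl f0 (Monoid.PushoutI.base φ) x
  have hfr : ∀ c, f (Monoid.Coprod.inr c) = Monoid.PushoutI.base φ c := fun c =>
    Monoid.Coprod.lift_apply_inr f0 (Monoid.PushoutI.base φ) c
  have hf0 : ∀ i (x : FreeGroup (Fin (n i))), f0 (mp i x) = Monoid.PushoutI.of i (ψ i x) := by
    intro i x
    have : f0.comp (mp i) = (Monoid.PushoutI.of i).comp (ψ i) := by
      ext j
      simp [f0, mp]
    exact DFunLike.congr_fun this x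
  let R : Set P := (⋃ i, (fun x => Monoid.Coprod.inl (mp i x)) '' s i) ∪
    Set.range (fun p : ι × C => (Monoid.Coprod.inl (mp p.1 (w p)) : P) *
      (Monoid.Coprod.inr p.2)⁻¹)
  have hRfin : R.Finite := by
    apply Set.Finite.union
    · exact Set.finite_iUnion fun i => (hsf i).image _
    · exact Set.finite_range _
  let N := Subgroup.normalClosure R
  let mk : P →* P ⧸ N := QuotientGroup.mk' N
  have hmkR : ∀ r ∈ R, mk r = 1 := fun r hr =>
    (QuotientGroup.eq_one_iff r).2 (Subgroup.subset_normalClosure hr)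
  -- inverse
  let q : ∀ i, FreeGroup (Fin (n i)) →* P ⧸ N := fun i =>
    mk.comp (Monoid.Coprod.inl.comp (mp i))
  have hq : ∀ i, (ψ i).ker ≤ (q i).ker := by
    intro i
    rw [← hsc i]
    refine Subgroup.normalClosure_le_normal fun x hx => MonoidHom.mem_ker.2 ?_
    exact hmkR _ (Or.inl (Set.mem_iUnion.2 ⟨i, x, hx, rfl⟩))
  let k : ∀ i, K i →* P ⧸ N := fun i =>
    (ψ i).liftOfSurjective (hψ i) ⟨q i, hq i⟩
  have hk : ∀ i x, k i (ψ i x) = q i x := by
    intro i x
    exact MonoidHom.liftOfRightInverse_comp_apply (ψ i) _ _ ⟨q i, hq i⟩ x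
  have hcomp : ∀ i, (k i).comp (φ i) = mk.comp Monoid.Coprod.inr := by
    intro i
    ext c
    show k i (φ i c) = mk (Monoid.Coprod.inr c)
    rw [← hw (i, c), hk]
    have h1 := hmkR _ (Or.inr ⟨(i, c), rfl⟩)
    rw [map_mul, map_inv, mul_inv_eq_one] at h1
    exact h1
  let g : Monoid.PushoutI φ →* P ⧸ N :=
    Monoid.PushoutI.lift k (mk.comp Monoid.Coprod.inr) hcomp
  have hgf : g.comp f = mk := by
    apply Monoid.Coprod.hom_ext
    · ext p
      show g (f (Monoid.Coprod.inl (FreeGroup.of p))) = mk (Monoid.Coprod.inl (FreeGroup.of p))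
      have h1 : f (Monoid.Coprod.inl (FreeGroup.of p)) =
          Monoid.PushoutI.of p.1 (ψ p.1 (FreeGroup.of p.2)) := by
        rw [hfl]; simp [f0]
      rw [h1]
      have h2 : g (Monoid.PushoutI.of p.1 (ψ p.1 (FreeGroup.of p.2))) =
          k p.1 (ψ p.1 (FreeGroup.of p.2)) := by
        simp [g]
      rw [h2, hk]
      simp [q, mp]
    · ext c
      show g (f (Monoid.Coprod.inr c)) = mk (Monoid.Coprod.inr c)
      rw [hfr]
      exact Monoid.PushoutI.lift_base k (mk.comp Monoid.Coprod.inr) hcomp c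
  have hfR : ∀ r ∈ R, f r = 1 := by
    rintro r (hr | ⟨p, rfl⟩)
    · obtain ⟨i, x, hx, rfl⟩ := Set.mem_iUnion.1 hr
      show f (Monoid.Coprod.inl (mp i x)) = 1
      rw [hfl, hf0]
      have h2 : ψ i x = 1 := by
        have : x ∈ (ψ i).ker := by
          rw [← hsc i]; exact Subgroup.subset_normalClosure hx
        exact MonoidHom.mem_ker.1 this
      rw [h2, map_one]
    · show f ((Monoid.Coprod.inl (mp p.1 (w p)) : P) * (Monoid.Coprod.inr p.2)⁻¹) = 1
      rw [map_mul, map_inv, hfl, hfr, hf0, hw p, Monoid.PushoutI.of_apply_eq_base,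
        mul_inv_cancel]
  have hsurj : Function.Surjective f := by
    intro x
    induction x using Monoid.PushoutI.induction_on with
    | of i g =>
      obtain ⟨y, rfl⟩ := hψ i g
      refine ⟨Monoid.Coprod.inl (mp i y), ?_⟩
      rw [hfl, hf0]
    | base c =>
      exact ⟨Monoid.Coprod.inr c, hfr c⟩
    | mul x y hx hy =>
      obtain ⟨a, rfl⟩ := hx
      obtain ⟨b, rfl⟩ := hy
      exact ⟨a * b, map_mul _ _ _⟩
  have hPfp : Group.IsFinitelyPresented P := inferInstance
  refine Group.IsFinitelyPresented.of_surjective f hsurj ⟨R, hRfin, ?_⟩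
  exact (oeac1_ker f R hfR g fun x => DFunLike.congr_fun hgf x).symm

end Pool.Agent.Lib.MP_0f7bfe_al.OE
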