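import Mathlib

namespace Pool.Agent.Lib.MP_0f7bfe_al.OE

universe u v w

theorem oeac2_ker {P Q : Type*} [Group P] [Group Q] (f : P →* Q) (R : Set P)
    (hR : ∀ r ∈ R, f r = 1) (g : Q →* P ⧸ Subgroup.normalClosure R)
    (hg : ∀ x, g (f x) = QuotientGroup.mk' (Subgroup.normalClosure R) x) :
    f.ker = Subgroup.normalClosure R := by
  apply le_antisymm
  · intro x hx
    have h1 : g (f x) = 1 := by rw [MonoidHom.mem_ker.1 hx, map_one]
    rw [hg x] at h1
    exact (QuotientGroup.eq_one_iff x).1 h1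
  · exact Subgroup.normalClosure_le_normal fun r hr => MonoidHom.mem_ker.2 (hR r hr)

theorem fp_hnn {K : Type u} [Group K] {A B : Subgroup K} [Finite A] (φ : A ≃* B)
    (h : Group.IsFinitelyPresented K) : Group.IsFinitelyPresented (HNNExtension K A B φ) := by
  classical
  let P := Monoid.Coprod K (Multiplicative ℤ)
  let τ : P := Monoid.Coprod.inr (Multiplicative.ofAdd 1)
  let f : P →* HNNExtension K A B φ :=
    Monoid.Coprod.lift HNNExtension.of (zpowersHom _ HNNExtension.t)
  have hfτ : f τ = HNNExtension.t := by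
    have h1 : f τ = zpowersHom _ HNNExtension.t (Multiplicative.ofAdd 1) :=
      Monoid.Coprod.lift_apply_inr HNNExtension.of (zpowersHom _ HNNExtension.t) _
    rw [h1]; simp
  have hfl : ∀ x, f (Monoid.Coprod.inl x) = HNNExtension.of x := fun x =>
    Monoid.Coprod.lift_apply_inl HNNExtension.of (zpowersHom _ HNNExtension.t) x
  have hfinv : ∀ x, f x⁻¹ = (f x)⁻¹ := fun x => eq_inv_of_mul_eq_one_left (by
    rw [← map_mul, inv_mul_cancel, map_one])
  let R : Set P := Set.range (fun a : A => τ * Monoid.Coprod.inl (a : K) * τ⁻¹ *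
    (Monoid.Coprod.inl ((φ a : B) : K))⁻¹)
  have hRfin : R.Finite := Set.finite_range _
  let N := Subgroup.normalClosure R
  let mk : P →* P ⧸ N := QuotientGroup.mk' N
  have hmkR : ∀ r ∈ R, mk r = 1 := fun r hr =>
    (QuotientGroup.eq_one_iff r).2 (Subgroup.subset_normalClosure hr)
  have hx : ∀ a : A, mk τ * (mk.comp Monoid.Coprod.inl) (a : K) =
      (mk.comp Monoid.Coprod.inl) ((φ a : B) : K) * mk τ := by
    intro a
    have h1 := hmkR _ ⟨a, rfl⟩
    have h1 : mk τ * mk (Monoid.Coprod.inl (a : K)) * (mk τ)⁻¹ *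
      (mk (Monoid.Coprod.inl ((φ a : B) : K)))⁻¹ = 1 := h1
    rw [mul_inv_eq_one] at h1
    show mk τ * mk (Monoid.Coprod.inl (a : K)) = mk (Monoid.Coprod.inl ((φ a : B) : K)) * mk τ
    rw [← h1]
    group
  let g : HNNExtension K A B φ →* P ⧸ N :=
    HNNExtension.lift (mk.comp Monoid.Coprod.inl) (mk τ) hx
  have hgf : g.comp f = mk := by
    apply Monoid.Coprod.hom_ext
    · ext x
      show g (f (Monoid.Coprod.inl x)) = mk (Monoid.Coprod.inl x)
      rw [hfl]
      simp [g]
    · apply MonoidHom.ext_mint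
      show g (f τ) = mk τ
      rw [hfτ]
      simp [g]
  have hfR : ∀ r ∈ R, f r = 1 := by
    rintro r ⟨a, rfl⟩
    show f (τ * Monoid.Coprod.inl (a : K) * τ⁻¹ * (Monoid.Coprod.inl ((φ a : B) : K))⁻¹) = 1
    rw [map_mul, map_mul, map_mul, hfinv, hfinv, hfτ, hfl, hfl, HNNExtension.equiv_eq_conj,
      mul_inv_cancel]
  have hsurj : Function.Surjective f := by
    intro x
    induction x using HNNExtension.induction_on with
    | of x => exact ⟨Monoid.Coprod.inl x, hfl x⟩
    | t => exact ⟨τ, hfτ⟩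
    | mul x y hx hy =>
      obtain ⟨a, rfl⟩ := hx
      obtain ⟨b, rfl⟩ := hy
      exact ⟨a * b, map_mul _ _ _⟩
    | inv x hx =>
      obtain ⟨a, rfl⟩ := hx
      exact ⟨a⁻¹, hfinv a⟩
  have hPfp : Group.IsFinitelyPresented P := inferInstance
  refine Group.IsFinitelyPresented.of_surjective f hsurj ⟨R, hRfin, ?_⟩
  exact (oeac2_ker f R hfR g fun x => DFunLike.congr_fun hgf x).symm

end Pool.Agent.Lib.MP_0f7bfe_al.OE
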