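import Pool.Agent.Lib.MP_0f7bfe_al.OE.Defs
import Pool.Agent.Lib.MP_0f7bfe_al.FM1
import Pool.Agent.Lib.MP_0f7bfe_al.SV8

open scoped Pointwise ENNReal NNReal

namespace Pool.Agent.Lib.MP_0f7bfe_al.OE

universe u v w

section group
variable {G : Type u} [Group G] {S : Finset G}

/-- value of a letter -/
def oee1_val (S : Finset G) (x : S × Bool) : G := cond x.2 (x.1 : G) (x.1 : G)⁻¹

/-- value of a word -/
def oee1_ev (S : Finset G) (w : List (S × Bool)) : G := (w.map (oee1_val S)).prod

theorem oee1_ev_append (w w' : List (S × Bool)) :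
    oee1_ev S (w ++ w') = oee1_ev S w * oee1_ev S w' := by
  simp [oee1_ev]

theorem oee1_lift (w : List (S × Bool)) :
    FreeGroup.lift (fun s : S => (s : G)) (FreeGroup.mk w) = oee1_ev S w := by
  rw [FreeGroup.lift_mk]
  rfl

theorem oee1_ev_inv (w : List (S × Bool)) :
    oee1_ev S (FreeGroup.invRev w) = (oee1_ev S w)⁻¹ := by
  rw [← oee1_lift, ← oee1_lift, ← map_inv, FreeGroup.inv_mk]

theorem oee1_adj (x : G) (s : S × Bool) : x = x * oee1_val S s ∨ (Cay S).Adj x (x * oee1_val S s) := by
  by_cases h : x = x * oee1_val S s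
  · exact Or.inl h
  · right
    rw [SimpleGraph.mulCayley_adj']
    refine ⟨h, s.1, s.1.2, ?_⟩
    obtain ⟨s, b⟩ := s
    cases b
    · right; simp [oee1_val]
    · left; simp [oee1_val]

theorem oee1_word {x y : G} (p : (Cay S).Walk x y) :
    ∃ q : List (S × Bool), q.length = p.length ∧ x * oee1_ev S q = y := by
  induction p with
  | nil => exact ⟨[], by simp [oee1_ev]⟩
  | @cons u v w h p ih =>
    obtain ⟨q, hq1, hq2⟩ := ih
    rw [SimpleGraph.mulCayley_adj'] at h
    obtain ⟨-, g, hg, h | h⟩ := h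
    · refine ⟨(⟨g, hg⟩, true) :: q, by simp [hq1], ?_⟩
      rw [← hq2, ← h]
      simp [oee1_ev, oee1_val, mul_assoc]
    · refine ⟨(⟨g, hg⟩, false) :: q, by simp [hq1], ?_⟩
      rw [← hq2, h]
      simp [oee1_ev, oee1_val, mul_assoc]

/-- segments of a bi-infinite word -/
def oee1_W (g : ℤ → S × Bool) (i : ℤ) (k : ℕ) : List (S × Bool) :=
  (List.range k).map fun t : ℕ => g (i + t)

omit [Group G] in
theorem oee1_W_length (g : ℤ → S × Bool) (i : ℤ) (k : ℕ) : (oee1_W g i k).length = k := by
  simp [oee1_W]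

omit [Group G] in
theorem oee1_W_succ (g : ℤ → S × Bool) (i : ℤ) (k : ℕ) :
    oee1_W g i (k + 1) = oee1_W g i k ++ [g (i + k)] := by
  simp [oee1_W, List.range_succ]

omit [Group G] in
theorem oee1_W_add (g : ℤ → S × Bool) (i : ℤ) (k l : ℕ) :
    oee1_W g i (k + l) = oee1_W g i k ++ oee1_W g (i + k) l := by
  induction l with
  | zero => simp [oee1_W]
  | succ l ih =>
    rw [← add_assoc, oee1_W_succ, ih, oee1_W_succ, List.append_assoc]
    congr 3
    push_cast
    rw [add_assoc]

theorem oee1_path (g : ℤ → S × Bool) (f : ℤ → G) (hf : ∀ i, f (i + 1) = f i * oee1_val S (g i))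
    (i : ℤ) (k : ℕ) : f (i + k) = f i * oee1_ev S (oee1_W g i k) ∧
      ∃ p : (Cay S).Walk (f i) (f (i + k)), p.length ≤ k := by
  induction k with
  | zero =>
    refine ⟨by simp [oee1_ev, oee1_W], ?_⟩
    refine ⟨SimpleGraph.Walk.nil.copy rfl (by simp), by simp⟩
  | succ k ih =>
    obtain ⟨h1, p, hp⟩ := ih
    have h2 : f (i + (k + 1 : ℕ)) = f (i + k) * oee1_val S (g (i + k)) := by
      rw [← hf]; congr 1; push_cast; ring
    refine ⟨?_, ?_⟩
    · rw [h2, h1, oee1_W_succ, oee1_ev_append, mul_assoc]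
      simp [oee1_ev]
    · rw [h2]
      rcases oee1_adj (f (i + k)) (g (i + k)) with h | h
      · exact ⟨p.copy rfl h, by simp; omega⟩
      · exact ⟨p.concat h, by simp; omega⟩

omit [Group G] in
theorem oee1_rot (K : Subgroup (FreeGroup S)) [K.Normal] (g : ℤ → S × Bool) {N : ℕ} (hN : 0 < N)
    (hg : ∀ i, g (i + N) = g i) (i : ℤ) :
    FreeGroup.mk (oee1_W g (i + 1) N) ∈ K ↔ FreeGroup.mk (oee1_W g i N) ∈ K := by
  obtain ⟨M, rfl⟩ : ∃ M, N = M + 1 := ⟨N - 1, by omega⟩
  have e1 : oee1_W g i (M + 1) = [g i] ++ oee1_W g (i + 1) M := by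
    rw [add_comm M 1, oee1_W_add]
    simp [oee1_W]
  have e2 : oee1_W g (i + 1) (M + 1) = oee1_W g (i + 1) M ++ [g i] := by
    rw [oee1_W_succ]
    congr 2
    rw [← hg i]
    congr 1
    push_cast
    ring
  rw [e1, e2, ← FreeGroup.mul_mk, ← FreeGroup.mul_mk]
  exact Subgroup.Normal.mem_comm_iff inferInstance

theorem oee1_main (K : Subgroup (FreeGroup S)) [K.Normal] (L : ℕ)
    (hK : ∀ w : List (S × Bool), w.length ≤ L → oee1_ev S w = 1 → FreeGroup.mk w ∈ K)
    (hno : ∀ (N : ℕ) (f : ℤ → G), 0 < N → IsoCycle S N f → N < L) :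
    ∀ (N : ℕ) (w : List (S × Bool)), w.length = N → oee1_ev S w = 1 → FreeGroup.mk w ∈ K := by
  intro N
  induction N using Nat.strong_induction_on with
  | _ N ih =>
  intro w hw hev
  by_cases hNL : N ≤ L
  · exact hK w (by omega) hev
  push Not at hNL
  have hN0 : 0 < N := by omega
  have hNz : (N : ℤ) ≠ 0 := by omega
  have hmod : ∀ i : ℤ, (i % N).toNat < w.length := by
    intro i
    have h1 := Int.emod_nonneg i hNz
    have h2 := Int.emod_lt_of_pos i (by omega : (0 : ℤ) < N)
    omega
  let g : ℤ → S × Bool := fun i => w[(i % N).toNat]'(hmod i)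
  let f : ℤ → G := fun i => oee1_ev S (w.take (i % N).toNat)
  have hgper : ∀ i, g (i + N) = g i := by
    intro i
    simp only [g, Int.add_emod_right]
  have hfper : ∀ i, f (i + N) = f i := by
    intro i
    simp only [f, Int.add_emod_right]
  have hstep : ∀ i, f (i + 1) = f i * oee1_val S (g i) := by
    intro i
    have h1 := Int.emod_nonneg i hNz
    have h2 := Int.emod_lt_of_pos i (by omega : (0 : ℤ) < N)
    have h3 : oee1_ev S (w.take ((i % N).toNat + 1)) = f i * oee1_val S (g i) := by
      rw [List.take_succ_eq_append_getElem (hmod i), oee1_ev_append]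
      simp [f, g, oee1_ev]
    rw [← h3]
    have h7 : i + 1 = (i % N + 1) + N * (i / N) := by
      have := Int.emod_add_mul_ediv i N
      linarith
    by_cases h4 : i % N + 1 < N
    · have h5 : (i + 1) % N = i % N + 1 := by
        rw [h7, Int.add_mul_emod_self_left, Int.emod_eq_of_lt (by omega) h4]
      simp only [f]
      rw [h5]
      congr 2
      omega
    · have h5 : (i + 1) % N = 0 := by
        have h8 : i % N + 1 = N := by omega
        rw [h7, Int.add_mul_emod_self_left, h8, Int.emod_self]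
      simp only [f]
      rw [h5]
      have h6 : (i % N).toNat + 1 = w.length := by omega
      rw [h6, List.take_length, hev]
      simp [oee1_ev]
  have hW0 : oee1_W g 0 N = w := by
    apply List.ext_getElem
    · rw [oee1_W_length, hw]
    · intro k h1 h2
      simp only [oee1_W, List.getElem_map, List.getElem_range, g]
      congr 1
      rw [zero_add, Int.emod_eq_of_lt (by omega) (by omega)]
      simp
  have hrot : ∀ i : ℤ, FreeGroup.mk (oee1_W g i N) ∈ K ↔ FreeGroup.mk w ∈ K := by
    intro i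
    induction i using Int.induction_on with
    | zero => rw [hW0]
    | succ i ih' => rw [oee1_rot K g hN0 hgper]; exact ih'
    | pred i ih' =>
      rw [← ih', ← oee1_rot K g hN0 hgper (-(i : ℤ) - 1)]
      simp
  -- a shortcut
  have hnot : ¬ IsoCycle S N f := fun h => by
    have := hno N f hN0 h
    omega
  have hex : ∃ i j : ℤ, i ≤ j ∧ 2 * (j - i) ≤ N ∧ ((Cay S).dist (f i) (f j) : ℤ) ≠ j - i := by
    by_contra hc
    push Not at hc
    exact hnot ⟨hfper, hc⟩
  obtain ⟨i, j, hij, hj2, hd⟩ := hex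
  obtain ⟨l, rfl⟩ : ∃ l : ℕ, j = i + l := ⟨(j - i).toNat, by omega⟩
  obtain ⟨h1, p, hp⟩ := oee1_path g f hstep i l
  have hdl : (Cay S).dist (f i) (f (i + l)) ≤ l := (SimpleGraph.dist_le p).trans hp
  have hdl' : (Cay S).dist (f i) (f (i + l)) < l := by
    rcases lt_or_eq_of_le hdl with h | h
    · exact h
    · exfalso; apply hd; rw [h]; ring
  obtain ⟨p', hp'⟩ := p.reachable.exists_walk_length_eq_dist
  obtain ⟨q, hq1, hq2⟩ := oee1_word p'
  have hqe : oee1_ev S q = oee1_ev S (oee1_W g i l) := by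
    rw [h1] at hq2
    exact mul_left_cancel hq2
  have hlN : l ≤ N := by omega
  have hsplit : oee1_W g i N = oee1_W g i l ++ oee1_W g (i + l) (N - l) := by
    rw [← oee1_W_add]
    congr 1
    omega
  have hevN : oee1_ev S (oee1_W g i N) = 1 := by
    have := (oee1_path g f hstep i N).1
    rw [hfper] at this
    exact (mul_eq_left.1 this.symm)
  have hA := ih (oee1_W g i l ++ FreeGroup.invRev q).length
    (by rw [List.length_append, oee1_W_length, FreeGroup.invRev_length, hq1, hp']; omega) _ rfl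
    (by rw [oee1_ev_append, oee1_ev_inv, hqe, mul_inv_cancel])
  have hB := ih (q ++ oee1_W g (i + l) (N - l)).length
    (by rw [List.length_append, oee1_W_length, hq1, hp']; omega) _ rfl
    (by rw [oee1_ev_append, hqe, ← oee1_ev_append, ← hsplit, hevN])
  rw [← hrot i, hsplit]
  have := K.mul_mem hA hB
  rw [← FreeGroup.mul_mk, ← FreeGroup.mul_mk, ← FreeGroup.inv_mk] at this
  rw [← FreeGroup.mul_mk]
  convert this using 1
  group

theorem exists_isoCycle (S : Finset G) (hgen : Subgroup.closure (S : Set G) = ⊤)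
    (hfp : ¬ Group.IsFinitelyPresented G) (L : ℕ) :
    ∃ (N : ℕ) (f : ℤ → G), L ≤ N ∧ 0 < N ∧ IsoCycle S N f := by
  classical
  by_contra hc
  push Not at hc
  apply hfp
  have hno : ∀ (N : ℕ) (f : ℤ → G), 0 < N → IsoCycle S N f → N < L := by
    intro N f hN hf
    by_contra h
    exact hc N f (not_lt.1 h) hN hf
  let R : Set (FreeGroup S) := FreeGroup.mk '' {w : List (S × Bool) | w.length ≤ L ∧ oee1_ev S w = 1}
  have hR : R.Finite := by
    apply Set.Finite.image
    exact (List.finite_length_le (S × Bool) L).subset fun w hw => hw.1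
  let φ : FreeGroup S →* G := FreeGroup.lift (fun s : S => (s : G))
  have hker : Subgroup.normalClosure R = φ.ker := by
    apply le_antisymm
    · apply Subgroup.normalClosure_le_normal
      rintro _ ⟨w, hw, rfl⟩
      show FreeGroup.mk w ∈ φ.ker
      rw [MonoidHom.mem_ker]
      show FreeGroup.lift (fun s : S => (s : G)) (FreeGroup.mk w) = 1
      rw [oee1_lift]
      exact hw.2
    · intro x hx
      have hx' : φ x = 1 := hx
      rw [← FreeGroup.mk_toWord (x := x)] at hx' ⊢
      refine oee1_main (Subgroup.normalClosure R) L ?_ hno _ _ rfl ?_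
      · intro w hw1 hw2
        exact Subgroup.subset_normalClosure ⟨w, ⟨hw1, hw2⟩, rfl⟩
      · rw [← oee1_lift]; exact hx'
  refine Group.IsFinitelyPresented.of_surjective φ ?_ ⟨R, hR, hker⟩
  rw [← MonoidHom.range_eq_top]
  show (FreeGroup.lift (fun s : S => (s : G))).range = ⊤
  rw [FreeGroup.range_lift_eq_closure]
  have hr : (Set.range fun s : S => (s : G)) = (S : Set G) := by
    ext x
    simp
  rw [hr]
  exact hgen

end group

end Pool.Agent.Lib.MP_0f7bfe_al.OE
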