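import Pool.Agent.Lib.MP_0f7bfe_al.OE.Defs
import Pool.Agent.Lib.MP_0f7bfe_al.FM1
import Pool.Agent.Lib.MP_0f7bfe_al.SV8

open scoped Pointwise ENNReal NNReal

namespace Pool.Agent.Lib.MP_0f7bfe_al.OE

universe u v w

section group
variable {G : Type u} [Group G] {S : Finset G}

theorem shared_segment (hN : Nice (Cay S))
    (hdist : ∀ g x y : G, (Cay S).dist (g * x) (g * y) = (Cay S).dist x y)
    (h : ∀ L : ℕ, ∃ (N : ℕ) (f : ℤ → G), L ≤ N ∧ 0 < N ∧ IsoCycle S N f) (R M : ℕ) :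
    ∃ (N1 N2 : ℕ) (f1 f2 : ℤ → G), M ≤ N1 ∧ 10 * N1 ≤ N2 ∧ 0 < N1 ∧ IsoCycle S N1 f1 ∧
      IsoCycle S N2 f2 ∧ ∀ i : ℤ, |i| ≤ R → f1 i = f2 i := by
  -- normalised cycles
  have h' : ∀ L : ℕ, ∃ (N : ℕ) (f : ℤ → G), L ≤ N ∧ 0 < N ∧ IsoCycle S N f ∧ f 0 = 1 := by
    intro L
    obtain ⟨N, f, h1, h2, h3⟩ := h L
    refine ⟨N, fun i => (f 0)⁻¹ * f i, h1, h2, ⟨fun i => ?_, fun i j hij hN' => ?_⟩, by simp⟩
    · simp only [h3.per i]
    · rw [hdist]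
      exact h3.iso i j hij hN'
  choose N f hL hN0 hI h1 using h'
  have hball : ∀ L : ℕ, 2 * R ≤ L → ∀ i : ℤ, |i| ≤ R → (Cay S).dist 1 (f L i) ≤ R := by
    intro L hL2 i hi
    have hb := hL L
    rw [abs_le] at hi
    rcases le_total 0 i with h0 | h0
    · have := (hI L).iso 0 i h0 (by omega)
      rw [h1 L] at this
      omega
    · have := (hI L).iso i 0 h0 (by omega)
      rw [h1 L, SimpleGraph.dist_comm] at this
      omega
  have : Finite {y : G // (Cay S).dist 1 y ≤ R} := (hN.ball 1 R).to_subtype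
  let ι := Set.Icc (-(R : ℤ)) (R : ℤ)
  have hmem : ∀ i : ι, |(i : ℤ)| ≤ R := fun i => abs_le.mpr ⟨i.2.1, i.2.2⟩
  let Φ : ℕ → (ι → {y : G // (Cay S).dist 1 y ≤ R}) := fun k i =>
    ⟨f (k + (2 * R + M)) i, hball _ (by omega) _ (hmem i)⟩
  obtain ⟨y, hy⟩ := Finite.exists_infinite_fiber Φ
  have hy' : (Φ ⁻¹' {y}).Infinite := Set.infinite_coe_iff.mp hy
  obtain ⟨a, ha⟩ := hy'.nonempty
  obtain ⟨b, hb, hab⟩ := hy'.exists_gt (10 * N (a + (2 * R + M)))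
  refine ⟨N (a + (2 * R + M)), N (b + (2 * R + M)), f (a + (2 * R + M)), f (b + (2 * R + M)),
    ?_, ?_, hN0 _, hI _, hI _, ?_⟩
  · have := hL (a + (2 * R + M))
    omega
  · have := hL (b + (2 * R + M))
    omega
  · intro i hi
    have hab' : Φ a = Φ b := by
      rw [Set.mem_preimage, Set.mem_singleton_iff] at ha hb
      rw [ha, hb]
    have h2 := congrFun hab' ⟨i, (abs_le.mp hi).1, (abs_le.mp hi).2⟩
    exact congrArg Subtype.val h2

end group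

end Pool.Agent.Lib.MP_0f7bfe_al.OE
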