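import Pool.Agent.Lib.MP_0f7bfe_al.OE.Defs

/-!
Section E3: the theta graph formed by two isometric cycles which share a long segment.
-/

namespace Pool.Agent.Lib.MP_0f7bfe_al.OE

universe u

section group
variable {G : Type u} [Group G] {S : Finset G}

theorem oee3_per {N : ℕ} {f : ℤ → G} (h : IsoCycle S N f) (i k : ℤ) : f (i + k * N) = f i := by
  induction k using Int.induction_on with
  | zero => simp
  | succ k ih =>
    have e : i + ((k : ℤ) + 1) * N = (i + k * N) + N := by ring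
    rw [e, h.per, ih]
  | pred k ih =>
    have e : i + (-(k : ℤ)) * N = (i + (-(k : ℤ) - 1) * N) + N := by ring
    rw [← ih, e, h.per]

theorem oee3_norm {N : ℕ} {f : ℤ → G} (h : IsoCycle S N f) (hN : 0 < N) (j : ℤ) :
    ∃ j' : ℤ, f j' = f j ∧ -(N : ℤ) ≤ 2 * j' ∧ 2 * j' ≤ N := by
  have h1 := Int.emod_add_mul_ediv (2 * j + N) (2 * N)
  have h2 := Int.emod_nonneg (2 * j + N) (b := 2 * (N : ℤ)) (by omega)
  have h3 := Int.emod_lt_of_pos (2 * j + N) (b := 2 * (N : ℤ)) (by omega)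
  refine ⟨j + (-((2 * j + N) / (2 * N))) * N, oee3_per h j _, ?_, ?_⟩
  · have e : 2 * (j + (-((2 * j + (N : ℤ)) / (2 * N))) * N) =
        (2 * j + N) - 2 * N * ((2 * j + N) / (2 * N)) - N := by ring
    rw [e]
    omega
  · have e : 2 * (j + (-((2 * j + (N : ℤ)) / (2 * N))) * N) =
        (2 * j + N) - 2 * N * ((2 * j + N) / (2 * N)) - N := by ring
    rw [e]
    omega

/-- distances on an isometric cycle, short differences -/
theorem oee3_dist {N : ℕ} {f : ℤ → G} (h : IsoCycle S N f) (i j : ℤ) (h1 : 2 * (j - i) ≤ N)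
    (h2 : 2 * (i - j) ≤ N) : ((Cay S).dist (f i) (f j) : ℤ) = |i - j| := by
  rcases le_total i j with hij | hij
  · rw [h.iso i j hij h1, abs_of_nonpos (by omega)]
    ring
  · rw [SimpleGraph.dist_comm, h.iso j i hij h2, abs_of_nonneg (by omega)]

/-- lower bound for distances on an isometric cycle -/
theorem oee3_ge {N : ℕ} {f : ℤ → G} (h : IsoCycle S N f) (i j t : ℤ) (h1 : t ≤ j - i)
    (h2 : j - i ≤ N - t) : t ≤ ((Cay S).dist (f i) (f j) : ℤ) := by
  rcases lt_or_ge t 0 with ht | ht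
  · exact ht.le.trans (Int.natCast_nonneg _)
  · by_cases h3 : 2 * (j - i) ≤ N
    · rw [h.iso i j (by omega) h3]
      exact h1
    · have h4 := h.iso j (i + N) (by omega) (by omega)
      rw [h.per] at h4
      rw [SimpleGraph.dist_comm, h4]
      omega

theorem oee3_step {N : ℕ} {f : ℤ → G} (h : IsoCycle S N f) (hN : 2 ≤ N) (i : ℤ) :
    ((Cay S).dist (f i) (f (i + 1)) : ℤ) = 1 := by
  rw [h.iso i (i + 1) (by omega) (by omega)]
  omega

theorem theta (hN : Nice (Cay S)) {N1 N2 R κ D : ℕ} {f1 f2 : ℤ → G} (h1 : IsoCycle S N1 f1)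
    (h2 : IsoCycle S N2 f2) (hR : 10 * D ≤ R) (hD : 10 * κ + 10 ≤ D) (hN1 : 10 * R ≤ N1)
    (hN2 : 10 * N1 ≤ N2) (hsh : ∀ i : ℤ, |i| ≤ R → f1 i = f2 i) :
    ∃ i1 ia i2 j1 j2 : ℤ, (R : ℤ) ≤ i1 ∧ i1 < ia ∧ ia < i2 ∧ i2 ≤ N1 - R ∧
      (R : ℤ) - κ ≤ j1 ∧ j1 ≤ N1 ∧ (R : ℤ) - κ ≤ j2 ∧ j2 ≤ N1 ∧
      (Cay S).dist (f1 i1) (f2 j1) ≤ κ ∧ (Cay S).dist (f1 i2) (f2 (-j2)) ≤ κ ∧
      (∀ i, i1 < i → i < i2 → ∀ j, κ < (Cay S).dist (f1 i) (f2 j)) ∧
      ∀ j, D ≤ (Cay S).dist (f1 ia) (f2 j) := by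
  classical
  have tri : ∀ x y z : G, (Cay S).dist x z ≤ (Cay S).dist x y + (Cay S).dist y z :=
    fun x y z => hN.conn.dist_triangle
  have cm : ∀ x y : G, (Cay S).dist x y = (Cay S).dist y x := fun x y => SimpleGraph.dist_comm
  have h0 : f1 0 = f2 0 := hsh 0 (by simp)
  -- distance from the base point on the first cycle
  have d1 : ∀ i : ℤ, (R : ℤ) ≤ i → i ≤ N1 - R → (R : ℤ) ≤ (Cay S).dist (f1 i) (f1 0) ∧
      2 * ((Cay S).dist (f1 i) (f1 0) : ℤ) ≤ N1 := by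
    intro i hi hi'
    constructor
    · have := oee3_ge h1 0 i R (by omega) (by omega)
      rw [cm]
      exact this
    · by_cases h3 : 2 * i ≤ N1
      · have := oee3_dist h1 i 0 (by omega) (by omega)
        rw [this, sub_zero, abs_of_nonneg (by omega)]
        exact h3
      · have := oee3_dist h1 i (0 + N1) (by omega) (by omega)
        rw [h1.per] at this
        rw [this, abs_of_nonpos (by omega)]
        omega
  -- normalised indices on the second cycle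
  have d2 : ∀ j : ℤ, -(N2 : ℤ) ≤ 2 * j → 2 * j ≤ N2 →
      ((Cay S).dist (f2 j) (f2 0) : ℤ) = |j| := by
    intro j hj hj'
    rw [oee3_dist h2 j 0 (by omega) (by omega), sub_zero]
  have key : ∀ (i j : ℤ) (t : ℕ), (R : ℤ) ≤ i → i ≤ N1 - R → t ≤ D →
      (Cay S).dist (f1 i) (f2 j) ≤ t → ∃ j' : ℤ, f2 j' = f2 j ∧ (R : ℤ) - t ≤ |j'| ∧ |j'| ≤ N1 := by
    intro i j t hi hi' ht hij
    obtain ⟨j', hj', ha, hb⟩ := oee3_norm h2 (by omega) j
    refine ⟨j', hj', ?_, ?_⟩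
    · rw [← d2 j' ha hb, hj', ← h0]
      have := (d1 i hi hi').1
      have := tri (f1 i) (f2 j) (f1 0)
      omega
    · rw [← d2 j' ha hb, hj', ← h0]
      have := (d1 i hi hi').2
      have := tri (f2 j) (f1 i) (f1 0)
      have := cm (f2 j) (f1 i)
      omega
  -- the last point near the positive part
  have hfR : f1 (N1 - R : ℤ) = f2 (-(R : ℤ)) := by
    have e : (N1 - R : ℤ) = -(R : ℤ) + N1 := by ring
    rw [e, h1.per]
    apply hsh
    rw [abs_neg, abs_of_nonneg (by omega)]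
  have hbdd1 : ∃ b : ℤ, ∀ z : ℤ, ((R : ℤ) ≤ z ∧ z ≤ N1 - R ∧
      ∃ j : ℤ, 0 < j ∧ j ≤ N1 ∧ (Cay S).dist (f1 z) (f2 j) ≤ κ) → z ≤ b :=
    ⟨N1 - R, fun z hz => hz.2.1⟩
  obtain ⟨i1, ⟨hi1, hi1', j1, hj1, hj1', hd1⟩, hmax⟩ := Int.exists_greatest_of_bdd hbdd1
    ⟨R, le_rfl, by omega, R, by omega, by omega, by
      rw [hsh R (by rw [abs_of_nonneg (by omega)]), SimpleGraph.dist_self]
      omega⟩
  have hlt : i1 < N1 - R := by
    rcases lt_or_eq_of_le hi1' with h | h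
    · exact h
    · exfalso
      rw [h, hfR] at hd1
      have := oee3_dist h2 (-(R : ℤ)) j1 (by omega) (by omega)
      rw [abs_of_nonpos (by omega)] at this
      omega
  obtain ⟨i2, ⟨hi12, hi2', j2', hd2⟩, hmin⟩ := Int.exists_least_of_bdd
    (P := fun z : ℤ => i1 < z ∧ z ≤ N1 - R ∧ ∃ j : ℤ, (Cay S).dist (f1 z) (f2 j) ≤ κ)
    ⟨i1, fun z hz => hz.1.le⟩
    ⟨N1 - R, hlt, le_rfl, -(R : ℤ), by rw [hfR, SimpleGraph.dist_self]; omega⟩
  obtain ⟨j2, hj2, hj2a, hj2b⟩ := key i2 j2' κ (by omega) hi2' (by omega) hd2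
  rw [← hj2] at hd2
  have hneg : j2 < 0 := by
    by_contra hcon
    rw [not_lt] at hcon
    rw [abs_of_nonneg hcon] at hj2a hj2b
    have := hmax i2 ⟨by omega, hi2', j2, by omega, hj2b, hd2⟩
    omega
  rw [abs_of_neg hneg] at hj2a hj2b
  have hj1a : (R : ℤ) - κ ≤ j1 := by
    have h3 := d2 j1 (by omega) (by omega)
    rw [abs_of_nonneg hj1.le, ← h0] at h3
    rw [← h3]
    have := (d1 i1 hi1 hi1').1
    have := tri (f1 i1) (f2 j1) (f1 0)
    omega
  have hfar : ∀ i, i1 < i → i < i2 → ∀ j, κ < (Cay S).dist (f1 i) (f2 j) := by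
    intro i ha hb j
    by_contra hcon
    rw [not_lt] at hcon
    have := hmin i ⟨ha, by omega, j, hcon⟩
    omega
  -- a point which is deep
  have hdeep : ∃ ia : ℤ, i1 < ia ∧ ia < i2 ∧ ∀ j, D ≤ (Cay S).dist (f1 ia) (f2 j) := by
    by_contra hcon
    push Not at hcon
    have hall : ∀ i : ℤ, i1 ≤ i → i ≤ i2 → ∃ j, (Cay S).dist (f1 i) (f2 j) < D := by
      intro i ha hb
      rcases eq_or_lt_of_le ha with rfl | ha
      · exact ⟨j1, by omega⟩
      · rcases eq_or_lt_of_le hb with rfl | hb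
        · exact ⟨j2, by omega⟩
        · exact hcon i ha hb
    obtain ⟨i3, ⟨hi3, hi3', j3, hj3, hj3', hd3⟩, hmax3⟩ := Int.exists_greatest_of_bdd
      (P := fun z : ℤ => i1 ≤ z ∧ z ≤ i2 ∧ ∃ j : ℤ, 0 < j ∧ j ≤ N1 ∧
        (Cay S).dist (f1 z) (f2 j) < D)
      ⟨i2, fun z hz => hz.2.1⟩ ⟨i1, le_rfl, hi12.le, j1, hj1, hj1', by omega⟩
    have hj3a : (R : ℤ) - D ≤ j3 := by
      have h3 := d2 j3 (by omega) (by omega)
      rw [abs_of_nonneg hj3.le, ← h0] at h3
      rw [← h3]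
      have := (d1 i3 (by omega) (by omega)).1
      have := tri (f1 i3) (f2 j3) (f1 0)
      omega
    have hi3lt : i3 < i2 := by
      rcases lt_or_eq_of_le hi3' with h | h
      · exact h
      · exfalso
        subst h
        have := oee3_dist h2 j2 j3 (by omega) (by omega)
        rw [abs_of_nonpos (by omega)] at this
        have := tri (f2 j2) (f1 i3) (f2 j3)
        have := cm (f2 j2) (f1 i3)
        omega
    obtain ⟨j4', hd4'⟩ := hall (i3 + 1) (by omega) (by omega)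
    obtain ⟨j4, hj4, hj4a, hj4b⟩ := key (i3 + 1) j4' D (by omega) (by omega) le_rfl hd4'.le
    rw [← hj4] at hd4'
    have hneg4 : j4 < 0 := by
      by_contra hc
      rw [not_lt] at hc
      rw [abs_of_nonneg hc] at hj4a hj4b
      have := hmax3 (i3 + 1) ⟨by omega, by omega, j4, by omega, hj4b, hd4'⟩
      omega
    rw [abs_of_neg hneg4] at hj4a hj4b
    have e1 := oee3_dist h2 j4 j3 (by omega) (by omega)
    rw [abs_of_nonpos (by omega)] at e1
    have e2 := oee3_step h1 (by omega) i3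
    have e3 := tri (f2 j4) (f1 (i3 + 1)) (f2 j3)
    have e4 := tri (f1 (i3 + 1)) (f1 i3) (f2 j3)
    have e5 := cm (f2 j4) (f1 (i3 + 1))
    have e6 := cm (f1 (i3 + 1)) (f1 i3)
    omega
  obtain ⟨ia, hia, hia', hdia⟩ := hdeep
  refine ⟨i1, ia, i2, j1, -j2, hi1, hia, hia', hi2', hj1a, hj1', by omega, by omega, hd1, ?_, hfar,
    hdia⟩
  rw [neg_neg]
  exact hd2

end group

end Pool.Agent.Lib.MP_0f7bfe_al.OE
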