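import Pool.Agent.Lib.MP_0f7bfe_al.OE.Defs
import Pool.Agent.Lib.MP_0f7bfe_al.OE.B1
import Pool.Agent.Lib.MP_0f7bfe_al.OE.A6
import Pool.Agent.Lib.MP_0f7bfe_al.OE.A12
import Pool.Agent.Lib.MP_0f7bfe_al.OE.A13

open scoped Pointwise ENNReal NNReal

namespace Pool.Agent.Lib.MP_0f7bfe_al.OE

universe u v w

section group
variable {G : Type u} [Group G] {S : Finset G}

/-! ### E4 -/

theorem oee4_ball_card (hS : Setup S) (x : G) (n : ℕ) :
    Set.ncard {y | (Cay S).dist x y ≤ n} = Set.ncard {y | (Cay S).dist 1 y ≤ n} := by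
  have h : {y | (Cay S).dist x y ≤ n} = (fun y => x * y) '' {y | (Cay S).dist 1 y ≤ n} := by
    ext y
    constructor
    · intro hy
      refine ⟨x⁻¹ * y, ?_, by simp⟩
      show (Cay S).dist 1 (x⁻¹ * y) ≤ n
      rw [← dist_cay_smul hS x 1 (x⁻¹ * y)]
      simpa using hy
    · rintro ⟨z, hz, rfl⟩
      have hz : (Cay S).dist 1 z ≤ n := hz
      show (Cay S).dist x (x * z) ≤ n
      have := dist_cay_smul hS x 1 z
      rw [mul_one] at this
      rw [this]; exact hz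
  rw [h]
  exact Set.ncard_image_of_injective _ (mul_right_injective x)

theorem oee4_bad (hS : Setup S) (d0 R1 : ℕ) {N : ℕ} {f : ℤ → G} (hN : 0 < N)
    (hf : IsoCycle S N f) (x : G) :
    Set.ncard {y | (Cay S).dist x y ≤ R1 ∧ ∃ i, (Cay S).dist y (f i) < d0} ≤
      (4 * (R1 + d0) + 1) * Set.ncard {y | (Cay S).dist 1 y ≤ d0} := by
  classical
  have hNice := nice_cay hS
  set A : Set G := {a ∈ Set.range f | (Cay S).dist x a ≤ R1 + d0} with hA
  have hAc : A.encard ≤ ((4 * (R1 + d0) + 1 : ℕ) : ℕ∞) := by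
    have := oea13_cycle_count hS hN hf x (R1 + d0)
    exact_mod_cast this
  have hAf : A.Finite := Set.finite_of_encard_le_coe hAc
  have hAc' : hAf.toFinset.card ≤ 4 * (R1 + d0) + 1 := by
    rw [← Set.ncard_eq_toFinset_card _ hAf]
    have h1 := hAf.cast_ncard_eq
    rw [← h1] at hAc
    exact_mod_cast hAc
  have hsub : {y | (Cay S).dist x y ≤ R1 ∧ ∃ i, (Cay S).dist y (f i) < d0} ⊆
      (hAf.toFinset.biUnion fun a => (hNice.ball a d0).toFinset : Finset G) := by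
    rintro y ⟨hy, i, hi⟩
    rw [Finset.coe_biUnion]
    simp only [Set.mem_iUnion]
    have htri := hNice.conn.dist_triangle (u := x) (v := y) (w := f i)
    refine ⟨f i, ?_, ?_⟩
    · rw [SetLike.mem_coe, Set.Finite.mem_toFinset]
      exact ⟨⟨i, rfl⟩, by omega⟩
    · rw [SetLike.mem_coe, Set.Finite.mem_toFinset]
      show (Cay S).dist (f i) y ≤ d0
      rw [SimpleGraph.dist_comm]; omega
  refine (Set.ncard_le_ncard hsub (Finset.finite_toSet _)).trans ?_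
  rw [Set.ncard_coe_finset]
  refine (Finset.card_biUnion_le_card_mul _ _ (Set.ncard {y | (Cay S).dist 1 y ≤ d0})
    fun a _ => ?_).trans (Nat.mul_le_mul_right _ hAc')
  rw [← Set.ncard_eq_toFinset_card _ (hNice.ball a d0), oee4_ball_card hS a d0]

theorem oee4_pow (b d : ℕ) : ∃ R : ℕ, 2 * ((4 * (R + d) + 1) * b) < 9 ^ R := by
  have h1 : ∀ n : ℕ, n < 2 ^ n := fun n => Nat.lt_two_pow_self
  refine ⟨b + d + 5, ?_⟩
  set R := b + d + 5 with hR
  have h2 : b ≤ 2 ^ R := (by omega : b ≤ R).trans (h1 R).le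
  have h3 : 4 * (R + d) + 1 ≤ 2 ^ R * 9 := by
    have : d ≤ R := by omega
    have := h1 R
    omega
  have h4 : 2 * ((4 * (R + d) + 1) * b) ≤ 2 * ((2 ^ R * 9) * 2 ^ R) := by gcongr
  have h5 : 2 * ((2 ^ R * 9) * 2 ^ R) = 18 * 4 ^ R := by
    have : (4 : ℕ) ^ R = 2 ^ R * 2 ^ R := by rw [show (4 : ℕ) = 2 * 2 by rfl, mul_pow]
    rw [this]; ring
  have h6 : (9 : ℕ) ^ R = 9 ^ (b + d) * 9 ^ 5 := by rw [← pow_add]
  have h7 : (4 : ℕ) ^ R = 4 ^ (b + d) * 4 ^ 5 := by rw [← pow_add]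
  have h8 : (4 : ℕ) ^ (b + d) ≤ 9 ^ (b + d) := Nat.pow_le_pow_left (by norm_num) _
  have h9 : 0 < (9 : ℕ) ^ (b + d) := by positivity
  rw [h6]
  rw [h5, h7] at h4
  have h10 : (4 : ℕ) ^ 5 = 1024 := by norm_num
  have h11 : (9 : ℕ) ^ 5 = 59049 := by norm_num
  rw [h10] at h4
  rw [h11]
  omega

theorem deep_point (hS : Setup S) (d0 : ℕ) : ∃ R1 : ℕ, ∀ (N1 N2 : ℕ) (f1 f2 : ℤ → G), 0 < N1 →
    0 < N2 → IsoCycle S N1 f1 → IsoCycle S N2 f2 → ∀ x, ∃ y, (Cay S).dist x y ≤ R1 ∧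
      (∀ i, d0 ≤ (Cay S).dist y (f1 i)) ∧ ∀ i, d0 ≤ (Cay S).dist y (f2 i) := by
  classical
  have hNice := nice_cay hS
  obtain ⟨R1, hR1⟩ := oee4_pow (Set.ncard {y | (Cay S).dist 1 y ≤ d0}) d0
  refine ⟨R1, fun N1 N2 f1 f2 hN1 hN2 h1 h2 x => ?_⟩
  by_contra hcon
  push Not at hcon
  have hb1 := oee4_bad hS d0 R1 hN1 h1 x
  have hb2 := oee4_bad hS d0 R1 hN2 h2 x
  have hg := ball_growth hS x R1
  have hsub : {y | (Cay S).dist x y ≤ R1} ⊆
      {y | (Cay S).dist x y ≤ R1 ∧ ∃ i, (Cay S).dist y (f1 i) < d0} ∪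
      {y | (Cay S).dist x y ≤ R1 ∧ ∃ i, (Cay S).dist y (f2 i) < d0} := by
    intro y hy
    have hy : (Cay S).dist x y ≤ R1 := hy
    by_cases h : ∃ i, (Cay S).dist y (f1 i) < d0
    · exact Or.inl ⟨hy, h⟩
    · push Not at h
      exact Or.inr ⟨hy, hcon y hy h⟩
  have hfin : ({y | (Cay S).dist x y ≤ R1 ∧ ∃ i, (Cay S).dist y (f1 i) < d0} ∪
      {y | (Cay S).dist x y ≤ R1 ∧ ∃ i, (Cay S).dist y (f2 i) < d0}).Finite :=
    ((hNice.ball x R1).subset fun y hy => hy.1).union ((hNice.ball x R1).subset fun y hy => hy.1)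
  have h3 := Set.ncard_le_ncard hsub hfin
  have h4 := Set.ncard_union_le {y | (Cay S).dist x y ≤ R1 ∧ ∃ i, (Cay S).dist y (f1 i) < d0}
      {y | (Cay S).dist x y ≤ R1 ∧ ∃ i, (Cay S).dist y (f2 i) < d0}
  omega

end group

end Pool.Agent.Lib.MP_0f7bfe_al.OE
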