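import Pool.Agent.Lib.MP_0f7bfe_al.OE.B1
import Pool.Agent.Lib.MP_0f7bfe_al.OE.A6
import Pool.Agent.Lib.MP_0f7bfe_al.OE.E2
import Pool.Agent.Lib.MP_0f7bfe_al.OE.E3
import Pool.Agent.Lib.MP_0f7bfe_al.OE.E4

/-!
Section E5a: the geometry of the crossing gadget.
-/

open scoped Pointwise ENNReal NNReal

namespace Pool.Agent.Lib.MP_0f7bfe_al.OE

universe u v w

section group
variable {G : Type u} [Group G] {S : Finset G}

theorem oee5a_le {N : ℕ} {f : ℤ → G} (h : IsoCycle S N f) (hN : 0 < N) (i j : ℤ) :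
    2 * ((Cay S).dist (f i) (f j) : ℤ) ≤ N := by
  have hs : IsoCycle S N (fun t => f (t + i)) := by
    refine ⟨fun t => ?_, fun s t hst hst' => ?_⟩
    · have e : t + (N : ℤ) + i = (t + i) + N := by ring
      simp only [e, h.per]
    · have := h.iso (s + i) (t + i) (by omega) (by omega)
      simp only [this]
      omega
  obtain ⟨j', hj, ha, hb⟩ := oee3_norm hs hN (j - i)
  simp only [sub_add_cancel] at hj
  have h3 := oee3_dist h i (j' + i) (by omega) (by omega)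
  rw [← hj, h3]
  have e : i - (j' + i) = - j' := by ring
  rw [e, abs_neg]
  rcases le_total 0 j' with h4 | h4
  · rw [abs_of_nonneg h4]; omega
  · rw [abs_of_nonpos h4]; omega

/-- intervals on a cycle are connected -/
theorem oee5a_fc (hN : Nice (Cay S)) {N : ℕ} {f : ℤ → G} (h : IsoCycle S N f) (hN2 : 2 ≤ N)
    {a b : ℤ} (hab : a ≤ b) : FC (Cay S) (f '' Set.Icc a b) := by
  have h1 := fc_seg hN (r := fun k : ℕ => f (a + k)) (fun k => by
    have h2 := oee3_step h hN2 (a + k)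
    have e : a + ((k + 1 : ℕ) : ℤ) = a + k + 1 := by push_cast; ring
    simp only [e]
    omega) (s := 0) (t := (b - a).toNat) (Nat.zero_le _)
  have h2 : (fun k : ℕ => f (a + k)) '' Set.Icc 0 (b - a).toNat = f '' Set.Icc a b := by
    ext x
    constructor
    · rintro ⟨k, hk, rfl⟩
      refine ⟨a + k, ?_, rfl⟩
      rw [Set.mem_Icc] at hk ⊢
      omega
    · rintro ⟨t, ht, rfl⟩
      rw [Set.mem_Icc] at ht
      refine ⟨(t - a).toNat, ?_, ?_⟩
      · rw [Set.mem_Icc]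
        omega
      · simp only
        congr 1
        omega
  rwa [h2] at h1

/-- adding geodesics to deep points at the four terminals -/
theorem oee5a_abs (hN : Nice (Cay S)) {κ d0 R1 D : ℕ} (hD : 10 * (R1 + d0 + κ + 2) ≤ D)
    {N1 N2 : ℕ} (hN1 : 0 < N1) (hN2 : 0 < N2) {f1 f2 : ℤ → G} (h1 : IsoCycle S N1 f1)
    (h2 : IsoCycle S N2 f2) (x : Fin 4 → G) (B : Fin 4 → Fin 4 → Set G) (δ δ' : Set G) (b b' : G)
    (hδ : Geo S b δ) (hδ' : Geo S b' δ')
    (hB : ∀ i j, i ≠ j → FC (Cay S) (B i j)) (hl : ∀ i j, i ≠ j → x i ∈ B i j)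
    (hr : ∀ i j, i ≠ j → x j ∈ B i j)
    (hsub : ∀ i j, i ≠ j → B i j ⊆ Set.range f1 ∪ Set.range f2 ∪ δ ∪ δ')
    (hfar : ∀ i j k l, i ≠ j → k ≠ l → i ≠ k → i ≠ l → j ≠ k → j ≠ l →
      Far (Cay S) κ (B i j) (B k l))
    (hfx : ∀ i k l, k ≠ l → i ≠ k → i ≠ l → Far (Cay S) (κ + R1) {x i} (B k l))
    (hxx : ∀ i j, i ≠ j → D ≤ (Cay S).dist (x i) (x j))
    (hδn : ∀ y ∈ δ ∪ δ', ∃ j, (Cay S).dist y (f2 j) ≤ κ)
    (hdeep : ∀ x, ∃ y, (Cay S).dist x y ≤ R1 ∧
      (∀ i, d0 + κ ≤ (Cay S).dist y (f1 i)) ∧ ∀ i, d0 + κ ≤ (Cay S).dist y (f2 i)) :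
    ∃ (N1 N2 : ℕ) (f1 f2 : ℤ → G) (w : Fin 4 → G) (C : Fin 4 → Fin 4 → Set G) (γ : Fin 4 → Set G)
      (δ δ' : Set G) (a : Fin 4 → G) (b b' : G), 0 < N1 ∧ 0 < N2 ∧ IsoCycle S N1 f1 ∧
      IsoCycle S N2 f2 ∧ (∀ i, Geo S (a i) (γ i)) ∧ Geo S b δ ∧ Geo S b' δ' ∧
      (∀ i j, i ≠ j → FC (Cay S) (C i j)) ∧ (∀ i j, i ≠ j → w i ∈ C i j) ∧
      (∀ i j, i ≠ j → w j ∈ C i j) ∧
      (∀ i j k l, i ≠ j → k ≠ l → i ≠ k → i ≠ l → j ≠ k → j ≠ l →
        Far (Cay S) κ (C i j) (C k l)) ∧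
      (∀ i j, i ≠ j → C i j ⊆ Set.range f1 ∪ Set.range f2 ∪ γ i ∪ γ j ∪ δ ∪ δ') ∧
      (∀ i, (∀ j, d0 ≤ (Cay S).dist (w i) (f1 j)) ∧ (∀ j, d0 ≤ (Cay S).dist (w i) (f2 j)) ∧
        (∀ y ∈ δ ∪ δ', d0 ≤ (Cay S).dist (w i) y) ∧
        ∀ j, j ≠ i → ∀ y ∈ γ j, d0 ≤ (Cay S).dist (w i) y) ∧
      ∀ i j, i ≠ j → d0 ≤ (Cay S).dist (w i) (w j) := by
  have tri : ∀ x y z : G, (Cay S).dist x z ≤ (Cay S).dist x y + (Cay S).dist y z :=
    fun x y z => hN.conn.dist_triangle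
  have cm : ∀ x y : G, (Cay S).dist x y = (Cay S).dist y x := fun x y => SimpleGraph.dist_comm
  choose w hw hw1 hw2 using fun i => hdeep (x i)
  choose γ hγf hγx hγw hγs hγg using fun i => fc_geod hN (x i) (w i)
  have hγR : ∀ i, ∀ y ∈ γ i, (Cay S).dist (x i) y ≤ R1 := by
    intro i y hy
    have := hγs i y hy
    have := hw i
    omega
  have hGG : ∀ i j, i ≠ j → ∀ y ∈ γ i, ∀ z ∈ γ j, κ + d0 < (Cay S).dist y z := by
    intro i j hij y hy z hz
    have e1 := hγR i y hy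
    have e2 := hγR j z hz
    have e3 := hxx i j hij
    have e4 := tri (x i) y (x j)
    have e5 := tri y z (x j)
    have e6 := cm z (x j)
    omega
  have hGB : ∀ i k l, k ≠ l → i ≠ k → i ≠ l → ∀ y ∈ γ i, ∀ z ∈ B k l,
      κ < (Cay S).dist y z := by
    intro i k l hkl hik hil y hy z hz
    have e1 := hγR i y hy
    have e2 := hfx i k l hkl hik hil (x i) rfl z hz
    have e3 := tri (x i) y z
    omega
  refine ⟨N1, N2, f1, f2, w, fun i j => γ i ∪ B i j ∪ γ j, γ, δ, δ', x, b, b', hN1, hN2, h1, h2,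
    fun i => ⟨(hγf i).fin, hγg i⟩, hδ, hδ', ?_, ?_, ?_, ?_, ?_, ?_, ?_⟩
  · intro i j hij
    exact ((hγf i).union (hB i j hij) ⟨x i, hγx i, hl i j hij⟩).union (hγf j)
      ⟨x j, Or.inr (hr i j hij), hγx j⟩
  · intro i j _
    exact Or.inl (Or.inl (hγw i))
  · intro i j _
    exact Or.inr (hγw j)
  · intro i j k l hij hkl hik hil hjk hjl y hy z hz
    rcases hy with (hy | hy) | hy
    · rcases hz with (hz | hz) | hz
      · have := hGG i k hik y hy z hz
        omega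
      · exact hGB i k l hkl hik hil y hy z hz
      · have := hGG i l hil y hy z hz
        omega
    · rcases hz with (hz | hz) | hz
      · rw [cm]
        exact hGB k i j hij hik.symm hjk.symm z hz y hy
      · exact hfar i j k l hij hkl hik hil hjk hjl y hy z hz
      · rw [cm]
        exact hGB l i j hij hil.symm hjl.symm z hz y hy
    · rcases hz with (hz | hz) | hz
      · have := hGG j k hjk y hy z hz
        omega
      · exact hGB j k l hkl hjk hjl y hy z hz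
      · have := hGG j l hjl y hy z hz
        omega
  · intro i j hij y hy
    rcases hy with (hy | hy) | hy
    · exact Or.inl (Or.inl (Or.inl (Or.inr hy)))
    · rcases hsub i j hij hy with ((hy | hy) | hy) | hy
      · exact Or.inl (Or.inl (Or.inl (Or.inl (Or.inl hy))))
      · exact Or.inl (Or.inl (Or.inl (Or.inl (Or.inr hy))))
      · exact Or.inl (Or.inr hy)
      · exact Or.inr hy
    · exact Or.inl (Or.inl (Or.inr hy))
  · intro i
    refine ⟨fun j => (Nat.le_add_right _ _).trans (hw1 i j),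
      fun j => (Nat.le_add_right _ _).trans (hw2 i j), fun y hy => ?_, fun j hji y hy => ?_⟩
    · obtain ⟨j, hj⟩ := hδn y hy
      have := hw2 i j
      have := tri (w i) y (f2 j)
      omega
    · have := hGG i j hji.symm (w i) (hγw i) y hy
      omega
  · intro i j hij
    have := hGG i j hij (w i) (hγw i) (w j) (hγw j)
    omega

theorem core_geom (hS : Setup S)
    (h : ∀ L : ℕ, ∃ (N : ℕ) (f : ℤ → G), L ≤ N ∧ 0 < N ∧ IsoCycle S N f) (κ d0 : ℕ) :
    ∃ (N1 N2 : ℕ) (f1 f2 : ℤ → G) (w : Fin 4 → G) (C : Fin 4 → Fin 4 → Set G) (γ : Fin 4 → Set G)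
      (δ δ' : Set G) (a : Fin 4 → G) (b b' : G), 0 < N1 ∧ 0 < N2 ∧ IsoCycle S N1 f1 ∧
      IsoCycle S N2 f2 ∧ (∀ i, Geo S (a i) (γ i)) ∧ Geo S b δ ∧ Geo S b' δ' ∧
      (∀ i j, i ≠ j → FC (Cay S) (C i j)) ∧ (∀ i j, i ≠ j → w i ∈ C i j) ∧
      (∀ i j, i ≠ j → w j ∈ C i j) ∧
      (∀ i j k l, i ≠ j → k ≠ l → i ≠ k → i ≠ l → j ≠ k → j ≠ l →
        Far (Cay S) κ (C i j) (C k l)) ∧
      (∀ i j, i ≠ j → C i j ⊆ Set.range f1 ∪ Set.range f2 ∪ γ i ∪ γ j ∪ δ ∪ δ') ∧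
      (∀ i, (∀ j, d0 ≤ (Cay S).dist (w i) (f1 j)) ∧ (∀ j, d0 ≤ (Cay S).dist (w i) (f2 j)) ∧
        (∀ y ∈ δ ∪ δ', d0 ≤ (Cay S).dist (w i) y) ∧
        ∀ j, j ≠ i → ∀ y ∈ γ j, d0 ≤ (Cay S).dist (w i) y) ∧
      ∀ i j, i ≠ j → d0 ≤ (Cay S).dist (w i) (w j) := by
  have hN : Nice (Cay S) := nice_cay hS
  obtain ⟨R1, hR1⟩ := deep_point hS (d0 + κ)
  obtain ⟨D, hDdef⟩ : ∃ D : ℕ, D = 10 * (R1 + d0 + κ + 2) := ⟨_, rfl⟩
  obtain ⟨R, hRdef⟩ : ∃ R : ℕ, R = 10 * D := ⟨_, rfl⟩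
  obtain ⟨N1, N2, f1, f2, hM, hN12, hN1, h1, h2, hsh⟩ :=
    shared_segment hN (fun g x y => dist_cay_smul hS g x y) h R (10 * R)
  obtain ⟨i1, ia, i2, j1, j2, hi1, hia1, hia2, hi2, hj1, hj1', hj2, hj2', hd1, hd2, hout, hia⟩ :=
    theta hN h1 h2 (κ := κ) (D := D) (by omega) (by omega) hM hN12 hsh
  have tri : ∀ x y z : G, (Cay S).dist x z ≤ (Cay S).dist x y + (Cay S).dist y z :=
    fun x y z => hN.conn.dist_triangle
  have cm : ∀ x y : G, (Cay S).dist x y = (Cay S).dist y x := fun x y => SimpleGraph.dist_comm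
  obtain ⟨q, hq1, hq2⟩ : ∃ q : ℤ, 2 * q ≤ N2 ∧ (N2 : ℤ) ≤ 2 * q + 1 :=
    ⟨(N2 : ℤ) / 2, by omega, by omega⟩
  obtain ⟨hh, hhdef⟩ : ∃ hh : ℤ, hh = 2 * D := ⟨_, rfl⟩
  obtain ⟨δ, hδf, hδx, hδy, hδs, hδg⟩ := fc_geod hN (f1 i1) (f2 j1)
  obtain ⟨δ', hδf', hδx', hδy', hδs', hδg'⟩ := fc_geod hN (f1 i2) (f2 (-j2))
  -- distances
  have eδ : ∀ y ∈ δ, (Cay S).dist y (f2 j1) ≤ κ ∧ (Cay S).dist (f1 i1) y ≤ κ := by
    intro y hy
    have := hδs y hy
    omega
  have eδ' : ∀ y ∈ δ', (Cay S).dist y (f2 (-j2)) ≤ κ ∧ (Cay S).dist (f1 i2) y ≤ κ := by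
    intro y hy
    have := hδs' y hy
    omega
  have p1 : ∀ a b : ℤ, -j2 ≤ a → a ≤ -hh → hh ≤ b → b ≤ q →
      4 * D ≤ (Cay S).dist (f2 a) (f2 b) := by
    intro a b ha ha' hb hb'
    have := oee3_ge h2 a b (4 * D) (by omega) (by omega)
    omega
  have p1' : ∀ a b : ℤ, q - N2 ≤ a → a ≤ -hh → hh ≤ b → b ≤ j1 →
      4 * D ≤ (Cay S).dist (f2 a) (f2 b) := by
    intro a b ha ha' hb hb'
    have := oee3_ge h2 a b (4 * D) (by omega) (by omega)
    omega
  have p2 : ∀ a i : ℤ, -hh ≤ a → a ≤ hh → (R : ℤ) ≤ i → i ≤ N1 - R →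
      8 * D ≤ (Cay S).dist (f2 a) (f1 i) := by
    intro a i ha ha' hi hi'
    rw [← hsh a (abs_le.2 ⟨by omega, by omega⟩)]
    have := oee3_ge h1 a i (8 * D) (by omega) (by omega)
    omega
  have p3 : ∀ a : ℤ, -j2 ≤ a → a ≤ j1 → N1 ≤ (Cay S).dist (f2 a) (f2 q) := by
    intro a ha ha'
    have := oee3_ge h2 a q N1 (by omega) (by omega)
    omega
  have p4 : ∀ i : ℤ, N1 ≤ (Cay S).dist (f1 i) (f2 q) := by
    intro i
    have e1 := oee5a_le h1 hN1 0 i
    have e2 := oee3_dist h2 0 q (by omega) (by omega)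
    rw [zero_sub, abs_neg, abs_of_nonneg (by omega), ← hsh 0 (by simp)] at e2
    have e3 := tri (f1 0) (f1 i) (f2 q)
    omega
  have p5 : ∀ a b : ℤ, -hh ≤ a → a ≤ hh → j1 ≤ b → b ≤ q →
      2 * D ≤ (Cay S).dist (f2 a) (f2 b) := by
    intro a b ha ha' hb hb'
    have := oee3_ge h2 a b (2 * D) (by omega) (by omega)
    omega
  have p6 : 4 * D ≤ (Cay S).dist (f2 (-hh)) (f2 hh) := by
    have := oee3_ge h2 (-hh) hh (4 * D) (by omega) (by omega)
    omega
  have p7 : ∀ a : ℤ, -hh ≤ a → a ≤ hh → N1 ≤ (Cay S).dist (f2 a) (f2 q) := by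
    intro a ha ha'
    exact p3 a (by omega) (by omega)
  -- the basic sets
  obtain ⟨B01, hB01⟩ : ∃ B, B = f2 '' Set.Icc (-hh) hh := ⟨_, rfl⟩
  obtain ⟨B23, hB23⟩ : ∃ B, B = f1 '' Set.Icc i1 ia ∪ δ ∪ f2 '' Set.Icc j1 q := ⟨_, rfl⟩
  obtain ⟨B02, hB02⟩ : ∃ B, B = f2 '' Set.Icc (-j2) (-hh) ∪ δ' ∪ f1 '' Set.Icc ia i2 := ⟨_, rfl⟩
  obtain ⟨B13, hB13⟩ : ∃ B, B = f2 '' Set.Icc hh q := ⟨_, rfl⟩
  obtain ⟨B12, hB12⟩ : ∃ B, B = f2 '' Set.Icc hh j1 ∪ δ ∪ f1 '' Set.Icc i1 ia := ⟨_, rfl⟩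
  obtain ⟨B03, hB03⟩ : ∃ B, B = f2 '' Set.Icc (q - N2) (-hh) := ⟨_, rfl⟩
  have c01 : FC (Cay S) B01 := by
    rw [hB01]; exact oee5a_fc hN h2 (by omega) (by omega)
  have c13 : FC (Cay S) B13 := by
    rw [hB13]; exact oee5a_fc hN h2 (by omega) (by omega)
  have c03 : FC (Cay S) B03 := by
    rw [hB03]; exact oee5a_fc hN h2 (by omega) (by omega)
  have c23 : FC (Cay S) B23 := by
    rw [hB23]
    refine ((oee5a_fc hN h1 (by omega) (by omega)).union hδf
      ⟨f1 i1, ⟨i1, ⟨le_rfl, by omega⟩, rfl⟩, hδx⟩).union (oee5a_fc hN h2 (by omega) (by omega))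
      ⟨f2 j1, Or.inr hδy, ⟨j1, ⟨le_rfl, by omega⟩, rfl⟩⟩
  have c02 : FC (Cay S) B02 := by
    rw [hB02]
    refine ((oee5a_fc hN h2 (by omega) (by omega)).union hδf'
      ⟨f2 (-j2), ⟨-j2, ⟨le_rfl, by omega⟩, rfl⟩, hδy'⟩).union
      (oee5a_fc hN h1 (by omega) (by omega))
      ⟨f1 i2, Or.inr hδx', ⟨i2, ⟨by omega, le_rfl⟩, rfl⟩⟩
  have c12 : FC (Cay S) B12 := by
    rw [hB12]
    refine ((oee5a_fc hN h2 (by omega) (by omega)).union hδf
      ⟨f2 j1, ⟨j1, ⟨by omega, le_rfl⟩, rfl⟩, hδy⟩).union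
      (oee5a_fc hN h1 (by omega) (by omega))
      ⟨f1 i1, Or.inr hδx, ⟨i1, ⟨le_rfl, by omega⟩, rfl⟩⟩
  -- terminals in the sets
  have m01_0 : f2 (-hh) ∈ B01 := by
    rw [hB01]; exact ⟨-hh, ⟨le_rfl, by omega⟩, rfl⟩
  have m01_1 : f2 hh ∈ B01 := by
    rw [hB01]; exact ⟨hh, ⟨by omega, le_rfl⟩, rfl⟩
  have m23_2 : f1 ia ∈ B23 := by
    rw [hB23]; exact Or.inl (Or.inl ⟨ia, ⟨by omega, le_rfl⟩, rfl⟩)
  have m23_3 : f2 q ∈ B23 := by
    rw [hB23]; exact Or.inr ⟨q, ⟨by omega, le_rfl⟩, rfl⟩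
  have m02_0 : f2 (-hh) ∈ B02 := by
    rw [hB02]; exact Or.inl (Or.inl ⟨-hh, ⟨by omega, le_rfl⟩, rfl⟩)
  have m02_2 : f1 ia ∈ B02 := by
    rw [hB02]; exact Or.inr ⟨ia, ⟨le_rfl, by omega⟩, rfl⟩
  have m13_1 : f2 hh ∈ B13 := by
    rw [hB13]; exact ⟨hh, ⟨le_rfl, by omega⟩, rfl⟩
  have m13_3 : f2 q ∈ B13 := by
    rw [hB13]; exact ⟨q, ⟨by omega, le_rfl⟩, rfl⟩
  have m12_1 : f2 hh ∈ B12 := by
    rw [hB12]; exact Or.inl (Or.inl ⟨hh, ⟨le_rfl, by omega⟩, rfl⟩)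
  have m12_2 : f1 ia ∈ B12 := by
    rw [hB12]; exact Or.inr ⟨ia, ⟨by omega, le_rfl⟩, rfl⟩
  have m03_0 : f2 (-hh) ∈ B03 := by
    rw [hB03]; exact ⟨-hh, ⟨by omega, le_rfl⟩, rfl⟩
  have m03_3 : f2 q ∈ B03 := by
    rw [hB03]
    refine ⟨q - N2, ⟨le_rfl, by omega⟩, ?_⟩
    have := h2.per (q - N2)
    rw [sub_add_cancel] at this
    exact this.symm
  -- inclusions
  have s2 : ∀ a b : ℤ, f2 '' Set.Icc a b ⊆ Set.range f1 ∪ Set.range f2 ∪ δ ∪ δ' := by
    rintro a b _ ⟨t, -, rfl⟩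
    exact Or.inl (Or.inl (Or.inr ⟨t, rfl⟩))
  have s1 : ∀ a b : ℤ, f1 '' Set.Icc a b ⊆ Set.range f1 ∪ Set.range f2 ∪ δ ∪ δ' := by
    rintro a b _ ⟨t, -, rfl⟩
    exact Or.inl (Or.inl (Or.inl ⟨t, rfl⟩))
  have sδ : δ ⊆ Set.range f1 ∪ Set.range f2 ∪ δ ∪ δ' := fun y hy => Or.inl (Or.inr hy)
  have sδ' : δ' ⊆ Set.range f1 ∪ Set.range f2 ∪ δ ∪ δ' := fun y hy => Or.inr hy
  have s01 : B01 ⊆ Set.range f1 ∪ Set.range f2 ∪ δ ∪ δ' := by rw [hB01]; exact s2 _ _
  have s13 : B13 ⊆ Set.range f1 ∪ Set.range f2 ∪ δ ∪ δ' := by rw [hB13]; exact s2 _ _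
  have s03 : B03 ⊆ Set.range f1 ∪ Set.range f2 ∪ δ ∪ δ' := by rw [hB03]; exact s2 _ _
  have s23 : B23 ⊆ Set.range f1 ∪ Set.range f2 ∪ δ ∪ δ' := by
    rw [hB23]; exact Set.union_subset (Set.union_subset (s1 _ _) sδ) (s2 _ _)
  have s02 : B02 ⊆ Set.range f1 ∪ Set.range f2 ∪ δ ∪ δ' := by
    rw [hB02]; exact Set.union_subset (Set.union_subset (s2 _ _) sδ') (s1 _ _)
  have s12 : B12 ⊆ Set.range f1 ∪ Set.range f2 ∪ δ ∪ δ' := by
    rw [hB12]; exact Set.union_subset (Set.union_subset (s2 _ _) sδ) (s1 _ _)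
  -- the first pairing
  have F1 : Far (Cay S) (κ + R1) B01 B23 := by
    rw [hB01, hB23]
    rintro _ ⟨a, ⟨ha, ha'⟩, rfl⟩ z hz
    rcases hz with (⟨i, ⟨hi, hi'⟩, rfl⟩ | hz) | ⟨b, ⟨hb, hb'⟩, rfl⟩
    · have := p2 a i ha ha' (by omega) (by omega)
      omega
    · have e1 := p2 a i1 ha ha' (by omega) (by omega)
      have e2 := (eδ z hz).2
      have e3 := tri (f2 a) z (f1 i1)
      have e4 := cm z (f1 i1)
      omega
    · have := p5 a b ha ha' hb hb'
      omega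
  -- the second pairing
  have F2 : Far (Cay S) κ B02 B13 := by
    rw [hB02, hB13]
    rintro y hy _ ⟨b, ⟨hb, hb'⟩, rfl⟩
    rcases hy with (⟨a, ⟨ha, ha'⟩, rfl⟩ | hy) | ⟨i, ⟨hi, hi'⟩, rfl⟩
    · have := p1 a b ha ha' hb hb'
      omega
    · have e1 := p1 (-j2) b le_rfl (by omega) hb hb'
      have e2 := (eδ' y hy).1
      have e3 := tri (f2 (-j2)) y (f2 b)
      have e4 := cm (f2 (-j2)) y
      omega
    · rcases eq_or_lt_of_le hi' with rfl | hi'
      · have e1 := p1 (-j2) b le_rfl (by omega) hb hb'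
        have e3 := tri (f2 (-j2)) (f1 i) (f2 b)
        have e4 := cm (f2 (-j2)) (f1 i)
        omega
      · exact hout i (by omega) hi' b
  -- the third pairing
  have F3 : Far (Cay S) κ B12 B03 := by
    rw [hB12, hB03]
    rintro y hy _ ⟨a, ⟨ha, ha'⟩, rfl⟩
    rcases hy with (⟨b, ⟨hb, hb'⟩, rfl⟩ | hy) | ⟨i, ⟨hi, hi'⟩, rfl⟩
    · have := p1' a b ha ha' hb hb'
      rw [cm]
      omega
    · have e1 := p1' a j1 ha ha' (by omega) le_rfl
      have e2 := (eδ y hy).1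
      have e3 := tri (f2 a) y (f2 j1)
      have e4 := cm (f2 a) y
      omega
    · rcases eq_or_lt_of_le hi with rfl | hi
      · have e1 := p1' a j1 ha ha' (by omega) le_rfl
        have e3 := tri (f2 a) (f1 i1) (f2 j1)
        have e4 := cm (f2 a) (f1 i1)
        omega
      · exact hout i hi (by omega) a
  -- terminals against sets
  have x2 : ∀ a b : ℤ, Far (Cay S) (κ + R1) {f1 ia} (f2 '' Set.Icc a b) := by
    rintro a b _ rfl _ ⟨t, -, rfl⟩
    have := hia t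
    omega
  have X0_13 : Far (Cay S) (κ + R1) {f2 (-hh)} B13 := by
    rw [hB13]
    rintro _ rfl _ ⟨t, ⟨ht, ht'⟩, rfl⟩
    have := p1 (-hh) t (by omega) le_rfl ht ht'
    omega
  have X0_12 : Far (Cay S) (κ + R1) {f2 (-hh)} B12 := by
    rw [hB12]
    rintro _ rfl z hz
    rcases hz with (⟨b, ⟨hb, hb'⟩, rfl⟩ | hz) | ⟨i, ⟨hi, hi'⟩, rfl⟩
    · have := p1' (-hh) b (by omega) le_rfl hb hb'
      omega
    · have e1 := p1' (-hh) j1 (by omega) le_rfl (by omega) le_rfl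
      have e2 := (eδ z hz).1
      have e3 := tri (f2 (-hh)) z (f2 j1)
      omega
    · have := p2 (-hh) i le_rfl (by omega) (by omega) (by omega)
      omega
  have X1_02 : Far (Cay S) (κ + R1) {f2 hh} B02 := by
    rw [hB02]
    rintro _ rfl z hz
    rcases hz with (⟨a, ⟨ha, ha'⟩, rfl⟩ | hz) | ⟨i, ⟨hi, hi'⟩, rfl⟩
    · have := p1 a hh ha ha' le_rfl (by omega)
      rw [cm]
      omega
    · have e1 := p1 (-j2) hh le_rfl (by omega) le_rfl (by omega)
      have e2 := (eδ' z hz).1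
      have e3 := tri (f2 hh) z (f2 (-j2))
      have e4 := cm (f2 hh) (f2 (-j2))
      omega
    · have := p2 hh i (by omega) le_rfl (by omega) (by omega)
      omega
  have X1_03 : Far (Cay S) (κ + R1) {f2 hh} B03 := by
    rw [hB03]
    rintro _ rfl _ ⟨a, ⟨ha, ha'⟩, rfl⟩
    have := p1' a hh ha ha' le_rfl (by omega)
    rw [cm]
    omega
  have X2_13 : Far (Cay S) (κ + R1) {f1 ia} B13 := by rw [hB13]; exact x2 _ _
  have X2_03 : Far (Cay S) (κ + R1) {f1 ia} B03 := by rw [hB03]; exact x2 _ _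
  have X3_02 : Far (Cay S) (κ + R1) {f2 q} B02 := by
    rw [hB02]
    rintro _ rfl z hz
    rcases hz with (⟨a, ⟨ha, ha'⟩, rfl⟩ | hz) | ⟨i, -, rfl⟩
    · have := p3 a ha (by omega)
      rw [cm]
      omega
    · have e1 := p3 (-j2) le_rfl (by omega)
      have e2 := (eδ' z hz).1
      have e3 := tri (f2 q) z (f2 (-j2))
      have e4 := cm (f2 q) (f2 (-j2))
      omega
    · have := p4 i
      rw [cm]
      omega
  have X3_12 : Far (Cay S) (κ + R1) {f2 q} B12 := by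
    rw [hB12]
    rintro _ rfl z hz
    rcases hz with (⟨a, ⟨ha, ha'⟩, rfl⟩ | hz) | ⟨i, -, rfl⟩
    · have := p3 a (by omega) ha'
      rw [cm]
      omega
    · have e1 := p3 j1 (by omega) le_rfl
      have e2 := (eδ z hz).1
      have e3 := tri (f2 q) z (f2 j1)
      have e4 := cm (f2 q) (f2 j1)
      omega
    · have := p4 i
      rw [cm]
      omega
  have X0_23 : Far (Cay S) (κ + R1) {f2 (-hh)} B23 :=
    fun y hy z hz => by rw [Set.mem_singleton_iff] at hy; subst hy; exact F1 _ m01_0 z hz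
  have X1_23 : Far (Cay S) (κ + R1) {f2 hh} B23 :=
    fun y hy z hz => by rw [Set.mem_singleton_iff] at hy; subst hy; exact F1 _ m01_1 z hz
  have X2_01 : Far (Cay S) (κ + R1) {f1 ia} B01 := by rw [hB01]; exact x2 _ _
  have X3_01 : Far (Cay S) (κ + R1) {f2 q} B01 :=
    fun y hy z hz => by
      rw [Set.mem_singleton_iff] at hy; subst hy; rw [cm]; exact F1 z hz _ m23_3
  have F1' : Far (Cay S) κ B01 B23 := fun y hy z hz => by
    have := F1 y hy z hz
    omega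
  -- distances of the terminals
  have t01 : D ≤ (Cay S).dist (f2 (-hh)) (f2 hh) := by omega
  have t02 : D ≤ (Cay S).dist (f2 (-hh)) (f1 ia) := by rw [cm]; exact hia _
  have t12 : D ≤ (Cay S).dist (f2 hh) (f1 ia) := by rw [cm]; exact hia _
  have t23 : D ≤ (Cay S).dist (f1 ia) (f2 q) := hia _
  have t03 : D ≤ (Cay S).dist (f2 (-hh)) (f2 q) := by
    have := p7 (-hh) le_rfl (by omega)
    omega
  have t13 : D ≤ (Cay S).dist (f2 hh) (f2 q) := by
    have := p7 hh (by omega) le_rfl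
    omega
  refine oee5a_abs hN (κ := κ) (d0 := d0) (R1 := R1) (D := D) (by omega) hN1 (by omega) h1 h2
    ![f2 (-hh), f2 hh, f1 ia, f2 q]
    ![![∅, B01, B02, B03], ![B01, ∅, B12, B13], ![B02, B12, ∅, B23], ![B03, B13, B23, ∅]]
    δ δ' (f1 i1) (f1 i2) ⟨hδf.fin, hδg⟩ ⟨hδf'.fin, hδg'⟩ ?_ ?_ ?_ ?_ ?_ ?_ ?_ ?_ ?_
  · intro i j hij
    fin_cases i <;> fin_cases j <;> first
      | exact absurd rfl hij
      | exact c01
      | exact c02
      | exact c03
      | exact c12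
      | exact c13
      | exact c23
  · intro i j hij
    fin_cases i <;> fin_cases j <;> first
      | exact absurd rfl hij
      | exact m01_0
      | exact m01_1
      | exact m02_0
      | exact m02_2
      | exact m03_0
      | exact m03_3
      | exact m12_1
      | exact m12_2
      | exact m13_1
      | exact m13_3
      | exact m23_2
      | exact m23_3
  · intro i j hij
    fin_cases i <;> fin_cases j <;> first
      | exact absurd rfl hij
      | exact m01_0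
      | exact m01_1
      | exact m02_0
      | exact m02_2
      | exact m03_0
      | exact m03_3
      | exact m12_1
      | exact m12_2
      | exact m13_1
      | exact m13_3
      | exact m23_2
      | exact m23_3
  · intro i j hij
    fin_cases i <;> fin_cases j <;> first
      | exact absurd rfl hij
      | exact s01
      | exact s02
      | exact s03
      | exact s12
      | exact s13
      | exact s23
  · intro i j k l hij hkl hik hil hjk hjl
    fin_cases i <;> fin_cases j <;> first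
      | exact absurd rfl hij
      | (fin_cases k <;> first
          | exact absurd rfl hik
          | exact absurd rfl hjk
          | (fin_cases l <;> first
              | exact absurd rfl hkl
              | exact absurd rfl hil
              | exact absurd rfl hjl
              | exact F1'
              | exact F2
              | exact F3
              | exact F1'.symm
              | exact F2.symm
              | exact F3.symm))
  · intro i k l hkl hik hil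
    fin_cases i <;> fin_cases k <;> first
      | exact absurd rfl hik
      | (fin_cases l <;> first
          | exact absurd rfl hkl
          | exact absurd rfl hil
          | exact X0_12
          | exact X0_13
          | exact X0_23
          | exact X1_02
          | exact X1_03
          | exact X1_23
          | exact X2_01
          | exact X2_03
          | exact X2_13
          | exact X3_01
          | exact X3_02
          | exact X3_12)
  · intro i j hij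
    fin_cases i <;> fin_cases j <;> first
      | exact absurd rfl hij
      | exact t01
      | exact t02
      | exact t03
      | exact t12
      | exact t13
      | exact t23
      | (rw [cm]; exact t01)
      | (rw [cm]; exact t02)
      | (rw [cm]; exact t03)
      | (rw [cm]; exact t12)
      | (rw [cm]; exact t13)
      | (rw [cm]; exact t23)
  · intro y hy
    rcases hy with hy | hy
    · exact ⟨j1, (eδ y hy).1⟩
    · exact ⟨-j2, (eδ' y hy).1⟩
  · exact fun x => hR1 N1 N2 f1 f2 hN1 (by omega) h1 h2 x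

end group

end Pool.Agent.Lib.MP_0f7bfe_al.OE
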