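import Pool.Agent.Lib.MP_0f7bfe_al.OE.Defs
import Pool.Agent.Lib.MP_0f7bfe_al.OE.A9
import Pool.Agent.Lib.MP_0f7bfe_al.OE.A12
import Pool.Agent.Lib.MP_0f7bfe_al.OE.A13
import Pool.Agent.Lib.MP_0f7bfe_al.OE.E5a

open scoped Pointwise ENNReal NNReal

namespace Pool.Agent.Lib.MP_0f7bfe_al.OE

universe u v w

section group
variable {G : Type u} [Group G] {S : Finset G}

/-! ### E5 -/

theorem exists_core (hS : Setup S)
    (h : ∀ L : ℕ, ∃ (N : ℕ) (f : ℤ → G), L ≤ N ∧ 0 < N ∧ IsoCycle S N f) (κ : ℕ) (ε : ℝ≥0∞)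
    (hε : ε ≠ 0) : Nonempty (Core S κ ε) := by
  have hε6 : ε / 6 ≠ 0 := (ENNReal.div_pos hε (by norm_num)).ne'
  obtain ⟨dA, hdA⟩ := cost_isoCycle hS κ (ε / 6) hε6
  obtain ⟨dB, hdB⟩ := cost_geod hS κ (ε / 6) hε6
  obtain ⟨dC, hdC⟩ := u2_small hS ε hε
  obtain ⟨N1, N2, f1, f2, w, C, γ, δ, δ', a, b, b', hN1, hN2, hf1, hf2, hγ, hδ, hδ', hfc, hl, hr,
    hfar, hsub, hdist, hww⟩ := core_geom hS h κ (max dA (max dB dC))
  refine ⟨⟨w, C, hfc, hl, hr, hfar, ?_, ?_⟩⟩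
  · intro i j k hij hik hjk
    obtain ⟨h1, h2, h3, h4⟩ := hdist i
    have hc1 : cost S κ (Set.range f1) (w i) ≤ ε / 6 :=
      hdA N1 f1 hN1 hf1 (w i) fun t => le_trans (le_max_left _ _) (h1 t)
    have hc2 : cost S κ (Set.range f2) (w i) ≤ ε / 6 :=
      hdA N2 f2 hN2 hf2 (w i) fun t => le_trans (le_max_left _ _) (h2 t)
    have hB : dB ≤ max dA (max dB dC) := (le_max_left _ _).trans (le_max_right _ _)
    have hc3 : cost S κ (γ j) (w i) ≤ ε / 6 :=
      hdB (γ j) (a j) (hγ j) (w i) fun y hy => hB.trans (h4 j hij.symm y hy)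
    have hc4 : cost S κ (γ k) (w i) ≤ ε / 6 :=
      hdB (γ k) (a k) (hγ k) (w i) fun y hy => hB.trans (h4 k hik.symm y hy)
    have hc5 : cost S κ δ (w i) ≤ ε / 6 :=
      hdB δ b hδ (w i) fun y hy => hB.trans (h3 y (Or.inl hy))
    have hc6 : cost S κ δ' (w i) ≤ ε / 6 :=
      hdB δ' b' hδ' (w i) fun y hy => hB.trans (h3 y (Or.inr hy))
    calc cost S κ (C j k) (w i)
        ≤ cost S κ (Set.range f1 ∪ Set.range f2 ∪ γ j ∪ γ k ∪ δ ∪ δ') (w i) :=
          cost_mono (hsub j k hjk) _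
      _ ≤ cost S κ (Set.range f1 ∪ Set.range f2 ∪ γ j ∪ γ k ∪ δ) (w i) + cost S κ δ' (w i) :=
          cost_union _ _ _ _
      _ ≤ (cost S κ (Set.range f1 ∪ Set.range f2 ∪ γ j ∪ γ k) (w i) + cost S κ δ (w i)) +
            cost S κ δ' (w i) := by gcongr; exact cost_union _ _ _ _
      _ ≤ ((cost S κ (Set.range f1 ∪ Set.range f2 ∪ γ j) (w i) + cost S κ (γ k) (w i)) +
            cost S κ δ (w i)) + cost S κ δ' (w i) := by gcongr; exact cost_union _ _ _ _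
      _ ≤ (((cost S κ (Set.range f1 ∪ Set.range f2) (w i) + cost S κ (γ j) (w i)) +
            cost S κ (γ k) (w i)) + cost S κ δ (w i)) + cost S κ δ' (w i) := by
          gcongr; exact cost_union _ _ _ _
      _ ≤ ((((cost S κ (Set.range f1) (w i) + cost S κ (Set.range f2) (w i)) +
            cost S κ (γ j) (w i)) + cost S κ (γ k) (w i)) + cost S κ δ (w i)) +
            cost S κ δ' (w i) := by gcongr; exact cost_union _ _ _ _
      _ ≤ ((((ε / 6 + ε / 6) + ε / 6) + ε / 6) + ε / 6) + ε / 6 := by gcongr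
      _ = 6 * (ε / 6) := by ring
      _ = ε := ENNReal.mul_div_cancel (by norm_num) (by norm_num)
  · intro i j hij
    exact hdC _ _ (((le_max_right _ _).trans (le_max_right _ _)).trans (hww i j hij))

end group

end Pool.Agent.Lib.MP_0f7bfe_al.OE
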