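import Pool.Agent.Lib.MP_0f7bfe_al.OE.B1

open scoped Pointwise ENNReal NNReal

namespace Pool.Agent.Lib.MP_0f7bfe_al.OE

universe u v w

section graph
variable {X : Type u} {Gr : SimpleGraph X}

theorem central {n : ℕ} (hns : NoSpider Gr n) {L1 L2 : List (ℕ → X)} {m : ℕ → X}
    (hF : Fam Gr {r | r ∈ L1 ++ m :: L2}) (hnd : (L1 ++ m :: L2).Nodup)
    (hch : List.IsChain (RAdj Gr {r | r ∈ L1 ++ m :: L2}) (L1 ++ m :: L2))
    (hl1 : 2 * n ≤ L1.length) (hl2 : 2 * n ≤ L2.length) {t : ℕ → X} (ht : t ∈ L1 ++ m :: L2)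
    (htm : t ≠ m) (h : RAdj Gr {r | r ∈ L1 ++ m :: L2} m t) :
    L1.getLast? = some t ∨ L2.head? = some t := by
  have hsymm : ∀ a b, RAdj Gr {r | r ∈ L1 ++ m :: L2} a b →
      RAdj Gr {r | r ∈ L1 ++ m :: L2} b a := fun a b h => h.symm
  have hns' : ∀ (l1 l2 : List (ℕ → X)) (z a : ℕ → X), n ≤ l1.length → n ≤ l2.length →
      List.Sublist (l1 ++ z :: l2) (L1 ++ m :: L2) → a ∉ l1 ++ z :: l2 → a ∈ L1 ++ m :: L2 →
      List.IsChain (RAdj Gr {r | r ∈ L1 ++ m :: L2}) (l1 ++ z :: l2) →
      ¬ RAdj Gr {r | r ∈ L1 ++ m :: L2} z a := by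
    intro l1 l2 z a h1 h2 h3 h4 h5 h6
    refine hns _ hF l1 l2 z a h1 h2 (List.nodup_cons.2 ⟨h4, hnd.sublist h3⟩) ?_ h6
    intro x hx
    rcases List.mem_cons.1 hx with rfl | hx
    · exact h5
    · exact h3.subset hx
  clear hns hF
  generalize RAdj Gr {r | r ∈ L1 ++ m :: L2} = R at *
  rw [List.mem_append, List.mem_cons] at ht
  rcases ht with ht | ht | ht
  · left
    by_contra hlast
    obtain ⟨X', Y, rfl⟩ := List.append_of_mem ht
    have hY : Y ≠ [] := by
      rintro rfl
      apply hlast
      simp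
    obtain ⟨Y', y, rfl⟩ := (List.eq_nil_or_concat' Y).resolve_left hY
    have e1 : X' ++ t :: (Y' ++ [y]) ++ m :: L2 = (X' ++ [t]) ++ ((Y' ++ [y]) ++ m :: L2) := by
      simp
    rw [e1] at hch hnd hns'
    rw [List.isChain_append] at hch
    obtain ⟨hc1, hc2, hc3⟩ := hch
    have hc2' := hc2
    rw [List.isChain_append] at hc2'
    obtain ⟨hd1, hd2, hd3⟩ := hc2'
    have hym : R y m := hd3 y (by simp) m (by simp)
    have hlen : X'.length + 1 + (Y'.length + 1) = (X' ++ t :: (Y' ++ [y])).length := by
      simp; omega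
    by_cases hcase : n ≤ (Y' ++ [y]).length
    · refine hns' (Y' ++ [y]) L2 m t hcase (by omega) (List.sublist_append_right _ _) ?_
        (by simp) hc2 h
      rw [List.nodup_append] at hnd
      intro hmem
      exact hnd.2.2 t (by simp) t hmem rfl
    · refine hns' (X' ++ [t]) L2 m y ?_ (by omega) ?_ ?_ (by simp) ?_ (hsymm _ _ hym)
      · simp at hcase ⊢
        omega
      · exact (List.Sublist.refl _).append (List.sublist_append_right _ _)
      · have hnd' := hnd
        rw [List.nodup_append] at hnd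
        obtain ⟨n1, n2, n3⟩ := hnd
        rw [List.mem_append]
        rintro (hmem | hmem)
        · exact n3 y hmem y (by simp) rfl
        · rw [List.nodup_append] at n2
          exact n2.2.2 y (by simp) y hmem rfl
      · rw [List.isChain_append]
        refine ⟨hc1, hd2, ?_⟩
        intro x hx y' hy'
        simp at hx hy'
        subst hx hy'
        exact hsymm _ _ h
  · exact absurd ht htm
  · right
    by_contra hhead
    obtain ⟨Y1, Y2, rfl⟩ := List.append_of_mem ht
    obtain ⟨b, Y, rfl⟩ : ∃ b Y, Y1 = b :: Y := by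
      cases Y1 with
      | nil => exact absurd (by simp) hhead
      | cons b Y => exact ⟨b, Y, rfl⟩
    have e1 : L1 ++ m :: (b :: Y ++ t :: Y2) = (L1 ++ m :: (b :: Y)) ++ (t :: Y2) := by
      simp
    rw [e1] at hch hnd hns'
    rw [List.isChain_append] at hch
    obtain ⟨hc1, hc2, hc3⟩ := hch
    have hc1' := hc1
    rw [List.isChain_append] at hc1'
    obtain ⟨hd1, hd2, hd3⟩ := hc1'
    have hmb : R m b := by
      rw [List.isChain_cons_cons] at hd2
      exact hd2.1
    rw [List.nodup_append] at hnd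
    obtain ⟨n1, n2, n3⟩ := hnd
    by_cases hcase : n ≤ (b :: Y).length
    · refine hns' L1 (b :: Y) m t (by omega) hcase (List.sublist_append_left _ _) ?_
        (by simp) hc1 h
      intro hmem
      exact n3 t hmem t (by simp) rfl
    · refine hns' L1 (t :: Y2) m b (by omega) ?_ ?_ ?_ (by simp) ?_ hmb
      · simp at hcase hl2 ⊢
        omega
      · rw [List.append_assoc]
        refine (List.Sublist.refl _).append ?_
        rw [List.cons_append]
        exact (List.sublist_append_right _ _).cons_cons _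
      · rw [List.mem_append]
        have n1' := n1
        rw [List.nodup_append] at n1'
        rintro (hmem | hmem)
        · exact n1'.2.2 b hmem b (by simp) rfl
        · rcases List.mem_cons.1 hmem with hbm | hmem
          · have := n1'.2.1
            rw [List.nodup_cons] at this
            exact this.1 (by simp [hbm])
          · exact n3 b (by simp) b hmem rfl
      · rw [List.isChain_append]
        refine ⟨hd1, ?_, ?_⟩
        · rw [List.isChain_cons_cons]
          exact ⟨h, hc2⟩
        · intro x hx y' hy'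
          exact hd3 x hx y' (by simpa using hy')

end graph

end Pool.Agent.Lib.MP_0f7bfe_al.OE
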