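import Pool.Agent.Lib.MP_0f7bfe_al.OE.B1

open scoped Pointwise ENNReal NNReal

namespace Pool.Agent.Lib.MP_0f7bfe_al.OE

universe u v w

section graph
variable {X : Type u} {Gr : SimpleGraph X}

theorem locality (hN : Nice Gr) {F F' : Set (ℕ → X)} {m t ℓ : ℕ → X} {κ : ℕ} {B : Set X}
    (hno : ¬ ∃ Q, Rung Gr κ B F m t Q) (K : Set X) (hK : FC Gr K) (hKB : Disjoint K B)
    (hKm : ∃ s, m s ∈ K) (hKl : ℓ 0 ∈ K) (hKF : ∀ r ∈ F, r ≠ m → Far Gr κ K (Set.range r))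
    (hstep : ∀ n, Gr.dist (ℓ n) (ℓ (n + 1)) ≤ 1) (hlB : Disjoint (Set.range ℓ) B)
    (hlF : ∀ r ∈ F, r ≠ m → Far Gr κ (Set.range ℓ) (Set.range r)) (hl : ℓ ∉ F) (ht : t ∈ F)
    (htm : t ≠ m) (hFF : F ⊆ F') (hB : B.Finite) : ¬ RAdj Gr F' ℓ t := by
  intro h
  obtain ⟨Q', hQ'⟩ := h κ B hB
  obtain ⟨s, hs⟩ := hQ'.left
  obtain ⟨s', hs'⟩ := hQ'.right
  apply hno
  have hseg := fc_seg hN hstep (Nat.zero_le s)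
  have hsub : ℓ '' Set.Icc 0 s ⊆ Set.range ℓ := Set.image_subset_range _ _
  refine ⟨K ∪ ℓ '' Set.Icc 0 s ∪ Q', ?_⟩
  refine ⟨(hK.union hseg ⟨ℓ 0, hKl, ⟨0, ⟨le_rfl, Nat.zero_le s⟩, rfl⟩⟩).union hQ'.fc
    ⟨ℓ s, Or.inr ⟨s, ⟨Nat.zero_le s, le_rfl⟩, rfl⟩, hs⟩, ?_, ?_, ⟨s', Or.inr hs'⟩, ?_⟩
  · rw [Set.disjoint_union_left, Set.disjoint_union_left]
    exact ⟨⟨hKB, hlB.mono_left hsub⟩, hQ'.disj⟩
  · obtain ⟨i, hi⟩ := hKm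
    exact ⟨i, Or.inl (Or.inl hi)⟩
  · intro r hr hrm hrt a ha b hb
    rcases ha with (ha | ha) | ha
    · exact hKF r hr hrm a ha b hb
    · exact hlF r hr hrm a (hsub ha) b hb
    · exact hQ'.far r (hFF hr) (fun h => hl (h ▸ hr)) hrt a ha b hb

end graph

end Pool.Agent.Lib.MP_0f7bfe_al.OE
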