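import Pool.Agent.Lib.MP_0f7bfe_al.OE.B1

open scoped Pointwise ENNReal NNReal

namespace Pool.Agent.Lib.MP_0f7bfe_al.OE

universe u v w

section graph
variable {X : Type u} {Gr : SimpleGraph X}

/-! ### B2 -/

theorem oneEnd_connect (hN : Nice Gr) (h1 : OneEnd Gr) {r r' : ℕ → X} (hr : IsRay Gr r)
    (hr' : IsRay Gr r') {B : Set X} (hB : B.Finite) :
    ∃ s t, ∃ p : Gr.Walk (r s) (r' t), ∀ z ∈ p.support, z ∉ B := by
  obtain ⟨s0, hs0⟩ := hr.leaves hB
  let Y : Set X := {x | ∃ p : Gr.Walk (r s0) x, ∀ z ∈ p.support, z ∉ B}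
  have hext : ∀ x y, x ∈ Y → Gr.Adj x y → y ∉ B → y ∈ Y := by
    rintro x y ⟨p, hp⟩ hxy hy
    refine ⟨p.append (SimpleGraph.Walk.cons hxy SimpleGraph.Walk.nil), fun z hz => ?_⟩
    rw [SimpleGraph.Walk.mem_support_append_iff] at hz
    rcases hz with hz | hz
    · exact hp z hz
    · simp only [SimpleGraph.Walk.support_cons, SimpleGraph.Walk.support_nil, List.mem_cons,
        List.not_mem_nil, or_false] at hz
      rcases hz with rfl | rfl
      · exact hp z p.end_mem_support
      · exact hy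
  have hnotB : ∀ x ∈ Y, x ∉ B := by
    rintro x ⟨p, hp⟩
    exact hp x p.end_mem_support
  have hbd : (bdry Gr Y).Finite := by
    refine (nb_finite hN 1 hB).subset ?_
    rintro x ⟨y, hxy, hne⟩
    by_cases hx : x ∈ Y
    · have hy : y ∉ Y := fun hy => hne ⟨fun _ => hy, fun _ => hx⟩
      have hyB : y ∈ B := by
        by_contra hyB
        exact hy (hext x y hx hxy hyB)
      exact ⟨y, hyB, by rw [SimpleGraph.dist_comm]; exact (SimpleGraph.dist_eq_one_iff_adj.2 hxy).le⟩
    · have hy : y ∈ Y := by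
        by_contra hy
        exact hne ⟨fun h => absurd h hx, fun h => absurd h hy⟩
      have hxB : x ∈ B := by
        by_contra hxB
        exact hx (hext y x hy hxy.symm hxB)
      exact ⟨x, hxB, by simp⟩
  have hrY : ∀ s, s0 ≤ s → r s ∈ Y := by
    intro s hs
    induction s, hs using Nat.le_induction with
    | base =>
      exact ⟨SimpleGraph.Walk.nil, fun z hz => by
        rw [SimpleGraph.Walk.support_nil, List.mem_singleton] at hz
        subst hz
        exact hs0 _ le_rfl⟩
    | succ n hn ih =>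
      have h2 := hr.step n
      rcases Nat.eq_or_lt_of_le h2 with h3 | h3
      · rw [SimpleGraph.dist_eq_one_iff_adj] at h3
        exact hext _ _ ih h3 (hs0 _ (by omega))
      · have h4 : Gr.dist (r n) (r (n + 1)) = 0 := by omega
        rw [hN.conn.dist_eq_zero_iff] at h4
        rwa [← h4]
  rcases h1 Y hbd with hY | hY
  · obtain ⟨s1, hs1⟩ := hr.leaves hY
    exact absurd (hrY (max s0 s1) (le_max_left _ _)) (hs1 _ (le_max_right _ _))
  · obtain ⟨t0, ht0⟩ := hr'.leaves hY
    have := ht0 t0 le_rfl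
    rw [Set.mem_compl_iff, not_not] at this
    obtain ⟨p, hp⟩ := this
    exact ⟨s0, t0, p, hp⟩

end graph

end Pool.Agent.Lib.MP_0f7bfe_al.OE
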