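import Pool.Agent.Lib.MP_0f7bfe_al.OE.B1
import Pool.Agent.Lib.MP_0f7bfe_al.OE.B2

open scoped Pointwise ENNReal NNReal

namespace Pool.Agent.Lib.MP_0f7bfe_al.OE

universe u v w

section graph
variable {X : Type u} {Gr : SimpleGraph X}

/-! ### B3 -/

/-- points which are near to two members of the family -/
def oeb3_near (Gr : SimpleGraph X) (κ : ℕ) (F : Set (ℕ → X)) : Set X :=
  {x | ∃ r ∈ F, ∃ r' ∈ F, r ≠ r' ∧ x ∈ nb Gr κ (Set.range r) ∧ x ∈ nb Gr κ (Set.range r')}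

theorem oeb3_near_finite (hN : Nice Gr) (κ : ℕ) {F : Set (ℕ → X)} (hF : Fam Gr F) :
    (oeb3_near Gr κ F).Finite := by
  have h1 : (⋃ r ∈ F, ⋃ r' ∈ F, {x | r ≠ r' ∧ x ∈ nb Gr κ (Set.range r) ∧
      x ∈ nb Gr κ (Set.range r')}).Finite := by
    refine hF.fin.biUnion fun r hr => hF.fin.biUnion fun r' hr' => ?_
    by_cases h : r = r'
    · refine Set.finite_empty.subset ?_
      rintro x ⟨h2, -⟩
      exact h2 h
    · refine ((hF.dvg r hr r' hr' h).nb_inter hN κ).subset ?_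
      rintro x ⟨-, h2, h3⟩
      exact ⟨h2, h3⟩
  refine h1.subset ?_
  rintro x ⟨r, hr, r', hr', h2, h3, h4⟩
  simp only [Set.mem_iUnion]
  exact ⟨r, hr, r', hr', h2, h3, h4⟩

/-- the set to be avoided by walks -/
def oeb3_bad (Gr : SimpleGraph X) (κ : ℕ) (B : Set X) (F : Set (ℕ → X)) : Set X :=
  nb Gr κ B ∪ nb Gr κ (oeb3_near Gr κ F)

theorem oeb3_bad_finite (hN : Nice Gr) (κ : ℕ) {B : Set X} (hB : B.Finite) {F : Set (ℕ → X)}
    (hF : Fam Gr F) : (oeb3_bad Gr κ B F).Finite :=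
  (nb_finite hN κ hB).union (nb_finite hN κ (oeb3_near_finite hN κ hF))

theorem oeb3_self_nb {κ : ℕ} {A : Set X} {x : X} (hx : x ∈ A) : x ∈ nb Gr κ A :=
  ⟨x, hx, by simp⟩

theorem oeb3_far_iff {κ : ℕ} {Q A : Set X} :
    Far Gr κ Q A ↔ ∀ z ∈ Q, z ∉ nb Gr κ A := by
  constructor
  · rintro h z hz ⟨a, ha, hd⟩
    have := h z hz a ha
    rw [SimpleGraph.dist_comm] at this
    omega
  · intro h z hz a ha
    by_contra hd
    push Not at hd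
    exact h z hz ⟨a, ha, by rw [SimpleGraph.dist_comm]; exact hd⟩

/-- the geodesic from a point of the walk to the ray nearby -/
theorem oeb3_tail (hN : Nice Gr) {κ : ℕ} {B : Set X} {F : Set (ℕ → X)} {a : ℕ → X} (ha : a ∈ F)
    {x : X} (hx : x ∉ oeb3_bad Gr κ B F) (hxa : x ∈ nb Gr κ (Set.range a)) :
    ∃ Q : Set X, FC Gr Q ∧ x ∈ Q ∧ (∃ s, a s ∈ Q) ∧ Disjoint Q B ∧
      ∀ r ∈ F, r ≠ a → Far Gr κ Q (Set.range r) := by
  obtain ⟨_, ⟨s, rfl⟩, hs⟩ := hxa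
  obtain ⟨Q, hQ, hQ1, hQ2, hQ3, -⟩ := fc_geod hN (a s) x
  refine ⟨Q, hQ, hQ2, ⟨s, hQ1⟩, ?_, ?_⟩
  · rw [Set.disjoint_left]
    intro z hz hzB
    apply hx
    left
    have := hQ3 z hz
    exact ⟨z, hzB, by omega⟩
  · intro r hr hra
    rw [oeb3_far_iff]
    intro z hz hzr
    apply hx
    right
    have := hQ3 z hz
    refine ⟨z, ⟨r, hr, a, ha, hra, hzr, ⟨a s, ⟨s, rfl⟩, by omega⟩⟩, by omega⟩

/-- a walk from the neighbourhood of `a` to the neighbourhood of `b` gives a rung -/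
theorem oeb3_piece (hN : Nice Gr) {κ : ℕ} {B : Set X} {F : Set (ℕ → X)} {a b : ℕ → X} (ha : a ∈ F)
    (hb : b ∈ F) {x y : X} (p : Gr.Walk x y) (hp : ∀ z ∈ p.support, z ∉ oeb3_bad Gr κ B F)
    (hx : x ∈ nb Gr κ (Set.range a)) (hy : y ∈ nb Gr κ (Set.range b))
    (hfar : ∀ z ∈ p.support, ∀ r ∈ F, r ≠ a → r ≠ b → z ∉ nb Gr κ (Set.range r)) :
    ∃ Q, Rung Gr κ B F a b Q := by
  obtain ⟨Q1, h1, h2, h3, h4, h5⟩ := oeb3_tail hN ha (hp x p.start_mem_support) hx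
  obtain ⟨Q2, g1, g2, g3, g4, g5⟩ := oeb3_tail hN hb (hp y p.end_mem_support) hy
  have hw := fc_support p
  refine ⟨Q1 ∪ {z | z ∈ p.support} ∪ Q2, ?_, ?_, ?_, ?_, ?_⟩
  · refine (h1.union hw ⟨x, h2, p.start_mem_support⟩).union g1 ⟨y, Or.inr p.end_mem_support, g2⟩
  · rw [Set.disjoint_left]
    rintro z ((hz | hz) | hz) hzB
    · exact Set.disjoint_left.1 h4 hz hzB
    · exact hp z hz (Or.inl (oeb3_self_nb hzB))
    · exact Set.disjoint_left.1 g4 hz hzB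
  · obtain ⟨s, hs⟩ := h3
    exact ⟨s, Or.inl (Or.inl hs)⟩
  · obtain ⟨s, hs⟩ := g3
    exact ⟨s, Or.inr hs⟩
  · intro r hr hra hrb
    rw [oeb3_far_iff]
    rintro z ((hz | hz) | hz)
    · exact oeb3_far_iff.1 (h5 r hr hra) z hz
    · exact hfar z hz r hr hra hrb
    · exact oeb3_far_iff.1 (g5 r hr hrb) z hz

/-- shortest walk between two sets -/
theorem oeb3_min_walk {A1 A2 D : Set X} (h : ∃ x ∈ A1, ∃ y ∈ A2, ∃ p : Gr.Walk x y,
    ∀ z ∈ p.support, z ∉ D) :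
    ∃ x ∈ A1, ∃ y ∈ A2, ∃ p : Gr.Walk x y, (∀ z ∈ p.support, z ∉ D) ∧
      (∀ z ∈ p.support, z ∈ A1 → z = x) ∧ ∀ z ∈ p.support, z ∈ A2 → z = y := by
  classical
  have hex : ∃ n : ℕ, ∃ x ∈ A1, ∃ y ∈ A2, ∃ p : Gr.Walk x y,
      (∀ z ∈ p.support, z ∉ D) ∧ p.length = n := by
    obtain ⟨x, hx, y, hy, p, hp⟩ := h
    exact ⟨p.length, x, hx, y, hy, p, hp, rfl⟩
  obtain ⟨x, hx, y, hy, p, hp, hlen⟩ := Nat.find_spec hex
  have hmin := fun m (hm : m < Nat.find hex) => Nat.find_min hex hm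
  refine ⟨x, hx, y, hy, p, hp, ?_, ?_⟩
  · intro z hz hzA
    by_contra hne
    have hspec := congrArg SimpleGraph.Walk.length (p.take_spec hz)
    rw [SimpleGraph.Walk.length_append] at hspec
    have hpos : 0 < (p.takeUntil z hz).length := by
      rw [Nat.pos_iff_ne_zero]
      intro h0
      exact hne (SimpleGraph.Walk.eq_of_length_eq_zero h0).symm
    refine hmin (p.dropUntil z hz).length (by omega) ⟨z, hzA, y, hy, p.dropUntil z hz, ?_, rfl⟩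
    intro w hw
    exact hp w (p.support_dropUntil_subset_support hz hw)
  · intro z hz hzA
    by_contra hne
    have hspec := congrArg SimpleGraph.Walk.length (p.take_spec hz)
    rw [SimpleGraph.Walk.length_append] at hspec
    have hpos : 0 < (p.dropUntil z hz).length := by
      rw [Nat.pos_iff_ne_zero]
      intro h0
      exact hne (SimpleGraph.Walk.eq_of_length_eq_zero h0)
    refine hmin (p.takeUntil z hz).length (by omega) ⟨x, hx, z, hzA, p.takeUntil z hz, ?_, rfl⟩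
    intro w hw
    exact hp w (p.support_takeUntil_subset_support hz hw)

theorem radj_connected (hN : Nice Gr) (h1 : OneEnd Gr) {F : Set (ℕ → X)} (hF : Fam Gr F)
    (F1 F2 : Set (ℕ → X)) (hU : F1 ∪ F2 = F) (hd : Disjoint F1 F2) (h1n : F1.Nonempty)
    (h2n : F2.Nonempty) : ∃ a ∈ F1, ∃ b ∈ F2, RAdj Gr F a b := by
  by_contra hcon
  push Not at hcon
  have hF1 : F1 ⊆ F := hU ▸ Set.subset_union_left
  have hF2 : F2 ⊆ F := hU ▸ Set.subset_union_right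
  -- the data of the pairs
  have hdat : ∀ e : (ℕ → X) × (ℕ → X), ∃ d : ℕ × Set X, d.2.Finite ∧
      (e.1 ∈ F1 → e.2 ∈ F2 → ¬ ∃ Q, Rung Gr d.1 d.2 F e.1 e.2 Q) := by
    rintro ⟨a, b⟩
    by_cases hab : a ∈ F1 ∧ b ∈ F2
    · have := hcon a hab.1 b hab.2
      unfold RAdj at this
      push Not at this
      obtain ⟨κ, B, hB, h⟩ := this
      refine ⟨(κ, B), hB, fun _ _ => ?_⟩
      rintro ⟨Q, hQ⟩
      exact h Q hQ
    · exact ⟨(0, ∅), Set.finite_empty, fun ha hb => absurd ⟨ha, hb⟩ hab⟩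
  choose d hd1 hd2 using hdat
  have hP : (F1 ×ˢ F2).Finite := (hF.fin.subset hF1).prod (hF.fin.subset hF2)
  obtain ⟨κ, hκ⟩ : ∃ κ : ℕ, ∀ e ∈ F1 ×ˢ F2, (d e).1 ≤ κ := by
    obtain ⟨κ, hκ⟩ := (hP.image (fun e => (d e).1)).bddAbove
    exact ⟨κ, fun e he => hκ ⟨e, he, rfl⟩⟩
  let B : Set X := ⋃ e ∈ F1 ×ˢ F2, (d e).2
  have hB : B.Finite := hP.biUnion fun e _ => hd1 e
  have hno : ∀ a ∈ F1, ∀ b ∈ F2, ¬ ∃ Q, Rung Gr κ B F a b Q := by
    rintro a ha b hb ⟨Q, hQ⟩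
    refine hd2 (a, b) ha hb ⟨Q, hQ.mono (hκ (a, b) ⟨ha, hb⟩) ?_ le_rfl⟩
    exact Set.subset_biUnion_of_mem (u := fun e => (d e).2) (show (a, b) ∈ F1 ×ˢ F2 from ⟨ha, hb⟩)
  obtain ⟨a, ha⟩ := h1n
  obtain ⟨b, hb⟩ := h2n
  obtain ⟨s, t, p, hp⟩ := oneEnd_connect hN h1 (hF.ray a (hF1 ha)) (hF.ray b (hF2 hb))
    (oeb3_bad_finite hN κ hB hF)
  obtain ⟨x, hx, y, hy, q, hq, hq1, hq2⟩ := oeb3_min_walk
    (A1 := {x | ∃ r ∈ F1, x ∈ nb Gr κ (Set.range r)})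
    (A2 := {x | ∃ r ∈ F2, x ∈ nb Gr κ (Set.range r)})
    ⟨a s, ⟨a, ha, oeb3_self_nb ⟨s, rfl⟩⟩, b t, ⟨b, hb, oeb3_self_nb ⟨t, rfl⟩⟩, p, hp⟩
  obtain ⟨a', ha', hxa⟩ := hx
  obtain ⟨b', hb', hyb⟩ := hy
  refine hno a' ha' b' hb' (oeb3_piece hN (hF1 ha') (hF2 hb') q hq hxa hyb ?_)
  intro z hz r hr hra hrb hzr
  have hr' : r ∈ F1 ∨ r ∈ F2 := by
    rw [← hU] at hr
    exact hr
  rcases hr' with hr1 | hr1
  · have : z = x := hq1 z hz ⟨r, hr1, hzr⟩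
    subst this
    exact hq z hz (Or.inr (oeb3_self_nb ⟨r, hr, a', hF1 ha', hra, hzr, hxa⟩))
  · have : z = y := hq2 z hz ⟨r, hr1, hzr⟩
    subst this
    exact hq z hz (Or.inr (oeb3_self_nb ⟨r, hr, b', hF2 hb', hrb, hzr, hyb⟩))

end graph

end Pool.Agent.Lib.MP_0f7bfe_al.OE
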