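import Pool.Agent.Lib.MP_0f7bfe_al.OE.B1
import Pool.Agent.Lib.MP_0f7bfe_al.OE.B3

open scoped Pointwise ENNReal NNReal

namespace Pool.Agent.Lib.MP_0f7bfe_al.OE

universe u v w

section graph
variable {X : Type u} {Gr : SimpleGraph X}

/-! ### B4 -/

theorem oeb4_dichotomy (hN : Nice Gr) {F : Set (ℕ → X)} {ν : ℕ → X} (hF : Fam Gr (insert ν F))
    (hν : ν ∉ F) {a b : ℕ → X} (ha : a ∈ F) (hb : b ∈ F) (h : RAdj Gr F a b) (κ : ℕ)
    {B : Set X} (hB : B.Finite) :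
    (∃ Q, Rung Gr κ B (insert ν F) a b Q) ∨ ∃ Q, Rung Gr κ B (insert ν F) a ν Q := by
  have hνF : ν ∈ insert ν F := Set.mem_insert _ _
  have haF : a ∈ insert ν F := Set.mem_insert_of_mem _ ha
  have hbF : b ∈ insert ν F := Set.mem_insert_of_mem _ hb
  have hνb : ν ≠ b := fun e => hν (e ▸ hb)
  obtain ⟨Q0, hQ0⟩ := h κ (oeb3_bad Gr κ B (insert ν F)) (oeb3_bad_finite hN κ hB hF)
  obtain ⟨s, hs⟩ := hQ0.left
  obtain ⟨t, ht⟩ := hQ0.right
  obtain ⟨p, hp⟩ := hQ0.fc.walk hs ht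
  obtain ⟨x, hx, y, hy, q, hq, hq1, hq2⟩ := oeb3_min_walk
    (A1 := nb Gr κ (Set.range a)) (A2 := nb Gr κ (Set.range ν) ∪ nb Gr κ (Set.range b)) (D := Q0ᶜ)
    ⟨a s, oeb3_self_nb ⟨s, rfl⟩, b t, Or.inr (oeb3_self_nb ⟨t, rfl⟩), p,
      fun z hz => by simpa using hp z hz⟩
  have hqQ : ∀ z ∈ q.support, z ∈ Q0 := fun z hz => by simpa using hq z hz
  have hqbad : ∀ z ∈ q.support, z ∉ oeb3_bad Gr κ B (insert ν F) := fun z hz hzb =>
    Set.disjoint_left.1 hQ0.disj (hqQ z hz) hzb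
  have hfar : ∀ z ∈ q.support, ∀ r ∈ F, r ≠ a → r ≠ b → z ∉ nb Gr κ (Set.range r) :=
    fun z hz r hr hra hrb => oeb3_far_iff.1 (hQ0.far r hr hra hrb) z (hqQ z hz)
  rcases hy with hy | hy
  · right
    refine oeb3_piece hN haF hνF q hqbad hx hy ?_
    intro z hz r hr hra hrν hzr
    rcases hr with rfl | hr
    · exact hrν rfl
    · by_cases hrb : r = b
      · subst hrb
        have : z = y := hq2 z hz (Or.inr hzr)
        subst this
        exact hqbad z hz (Or.inr (oeb3_self_nb ⟨r, hbF, ν, hνF, hrν, hzr, hy⟩))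
      · exact hfar z hz r hr hra hrb hzr
  · left
    refine oeb3_piece hN haF hbF q hqbad hx hy ?_
    intro z hz r hr hra hrb hzr
    rcases hr with rfl | hr
    · have : z = y := hq2 z hz (Or.inl hzr)
      subst this
      exact hqbad z hz (Or.inr (oeb3_self_nb ⟨r, hνF, b, hbF, hνb, hzr, hy⟩))
    · exact hfar z hz r hr hra hrb hzr

theorem oeb4_half (hN : Nice Gr) {F : Set (ℕ → X)} {ν : ℕ → X} (hF : Fam Gr (insert ν F))
    (hν : ν ∉ F) {a b : ℕ → X} (ha : a ∈ F) (hb : b ∈ F) (h : RAdj Gr F a b)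
    (hno : ¬ RAdj Gr (insert ν F) a b) : RAdj Gr (insert ν F) a ν := by
  unfold RAdj at hno
  push Not at hno
  obtain ⟨κ1, B1, hB1, h1⟩ := hno
  intro κ B hB
  rcases oeb4_dichotomy hN hF hν ha hb h (max κ κ1) (hB.union hB1) with ⟨Q, hQ⟩ | ⟨Q, hQ⟩
  · exact absurd (hQ.mono (le_max_right _ _) Set.subset_union_right le_rfl) (h1 Q)
  · exact ⟨Q, hQ.mono (le_max_left _ _) Set.subset_union_left le_rfl⟩

theorem radj_proj (hN : Nice Gr) {F : Set (ℕ → X)} {ν : ℕ → X} (hF : Fam Gr (insert ν F))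
    (hν : ν ∉ F) {a b : ℕ → X} (ha : a ∈ F) (hb : b ∈ F) (hab : a ≠ b) (h : RAdj Gr F a b) :
    RAdj Gr (insert ν F) a b ∨ (RAdj Gr (insert ν F) a ν ∧ RAdj Gr (insert ν F) ν b) := by
  by_cases hno : RAdj Gr (insert ν F) a b
  · exact Or.inl hno
  · right
    refine ⟨oeb4_half hN hF hν ha hb h hno, ?_⟩
    exact (oeb4_half hN hF hν hb ha h.symm (fun h' => hno h'.symm)).symm

end graph

end Pool.Agent.Lib.MP_0f7bfe_al.OE
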