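import Pool.Agent.Lib.MP_0f7bfe_al.OE.B1

open scoped Pointwise ENNReal NNReal

namespace Pool.Agent.Lib.MP_0f7bfe_al.OE

universe u v w

section graph
variable {X : Type u} {Gr : SimpleGraph X}

/-! ### B5 -/

theorem radj_contract (hN : Nice Gr) {F : Set (ℕ → X)} {m : ℕ → X} (hF : Fam Gr (insert m F))
    (hm : m ∉ F) {a b : ℕ → X} (ha : a ∈ F) (hb : b ∈ F) (h1 : RAdj Gr (insert m F) a m)
    (h2 : RAdj Gr (insert m F) m b) : RAdj Gr F a b := by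
  intro κ B hB
  have hmF : m ∈ insert m F := Set.mem_insert _ _
  have hray := hF.ray m hmF
  obtain ⟨s1, hs1⟩ := hray.leaves hB
  have hFfin : F.Finite := hF.fin.subset (Set.subset_insert _ _)
  have hex : ∀ r : ℕ → X, ∃ s0 : ℕ, r ∈ F → ∀ s, s0 ≤ s → Far Gr κ {m s} (Set.range r) := by
    intro r
    by_cases hr : r ∈ F
    · have hne : m ≠ r := fun e => hm (e ▸ hr)
      obtain ⟨s0, hs0⟩ := (hF.dvg m hmF r (Set.mem_insert_of_mem _ hr) hne).far κ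
      exact ⟨s0, fun _ => hs0⟩
    · exact ⟨0, fun h => absurd h hr⟩
  choose f hf using hex
  obtain ⟨s2, hs2⟩ : ∃ s2 : ℕ, ∀ r ∈ F, f r ≤ s2 := by
    obtain ⟨s2, hs2⟩ := (hFfin.image f).bddAbove
    exact ⟨s2, fun r hr => hs2 ⟨r, hr, rfl⟩⟩
  have hfar : ∀ s, s2 ≤ s → ∀ r ∈ F, Far Gr κ {m s} (Set.range r) := fun s hs r hr =>
    hf r hr s ((hs2 r hr).trans hs)
  have hBfin : (B ∪ m '' Set.Iic (max s1 s2)).Finite := hB.union ((Set.finite_Iic _).image _)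
  obtain ⟨Q1, hQ1⟩ := h1 κ _ hBfin
  obtain ⟨Q2, hQ2⟩ := h2 κ _ hBfin
  obtain ⟨u, hu⟩ := hQ1.right
  obtain ⟨v, hv⟩ := hQ2.left
  have hu' : max s1 s2 < u := by
    by_contra hcon
    exact Set.disjoint_left.1 hQ1.disj hu (Or.inr ⟨u, not_lt.1 hcon, rfl⟩)
  have hv' : max s1 s2 < v := by
    by_contra hcon
    exact Set.disjoint_left.1 hQ2.disj hv (Or.inr ⟨v, not_lt.1 hcon, rfl⟩)
  have hseg : FC Gr (m '' Set.Icc (min u v) (max u v)) :=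
    fc_seg hN hray.step (min_le_max)
  have hsegm : ∀ z ∈ m '' Set.Icc (min u v) (max u v), ∃ s, max s1 s2 ≤ s ∧ m s = z := by
    rintro z ⟨s, hs, rfl⟩
    have := hs.1
    exact ⟨s, by omega, rfl⟩
  refine ⟨Q1 ∪ m '' Set.Icc (min u v) (max u v) ∪ Q2, ?_, ?_, ?_, ?_, ?_⟩
  · refine (hQ1.fc.union hseg ⟨m u, hu, ⟨u, ⟨min_le_left _ _, le_max_left _ _⟩, rfl⟩⟩).union
      hQ2.fc ⟨m v, Or.inr ⟨v, ⟨min_le_right _ _, le_max_right _ _⟩, rfl⟩, hv⟩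
  · rw [Set.disjoint_left]
    rintro z ((hz | hz) | hz) hzB
    · exact Set.disjoint_left.1 hQ1.disj hz (Or.inl hzB)
    · obtain ⟨s, hs, rfl⟩ := hsegm z hz
      exact hs1 s ((le_max_left _ _).trans hs) hzB
    · exact Set.disjoint_left.1 hQ2.disj hz (Or.inl hzB)
  · obtain ⟨s, hs⟩ := hQ1.left
    exact ⟨s, Or.inl (Or.inl hs)⟩
  · obtain ⟨s, hs⟩ := hQ2.right
    exact ⟨s, Or.inr hs⟩
  · intro r hr hra hrb
    have hrm : r ≠ m := fun e => hm (e ▸ hr)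
    rintro z ((hz | hz) | hz)
    · exact hQ1.far r (Set.mem_insert_of_mem _ hr) hra hrm z hz
    · obtain ⟨s, hs, rfl⟩ := hsegm z hz
      exact hfar s ((le_max_right _ _).trans hs) r hr _ rfl
    · exact hQ2.far r (Set.mem_insert_of_mem _ hr) hrm hrb z hz

end graph

end Pool.Agent.Lib.MP_0f7bfe_al.OE
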