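import Pool.Agent.Lib.MP_0f7bfe_al.OE.Defs

/-!
Wave OE (problem MP_0f7bfe_al), section D1: insertion of a vertex into a path (abstract form).
-/

namespace Pool.Agent.Lib.MP_0f7bfe_al.OE

universe v

private theorem oed1_split_first {W : Type v} (N : W → Prop) : ∀ M : List W, (∃ x ∈ M, N x) →
    ∃ X u Y, M = X ++ u :: Y ∧ N u ∧ ∀ x ∈ X, ¬ N x
  | [], h => by
    obtain ⟨x, hx, -⟩ := h
    exact absurd hx (List.not_mem_nil)
  | a :: M, h => by
    by_cases ha : N a
    · exact ⟨[], a, M, rfl, ha, fun x hx => absurd hx (List.not_mem_nil)⟩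
    · have h' : ∃ x ∈ M, N x := by
        obtain ⟨x, hx, hNx⟩ := h
        rcases List.mem_cons.mp hx with h1 | h1
        · rw [h1] at hNx
          exact absurd hNx ha
        · exact ⟨x, h1, hNx⟩
      obtain ⟨X, u, Y, e, hu, hX⟩ := oed1_split_first N M h'
      refine ⟨a :: X, u, Y, by rw [e]; rfl, hu, fun x hx => ?_⟩
      rcases List.mem_cons.mp hx with h1 | h1
      · rw [h1]
        exact ha
      · exact hX x h1

private theorem oed1_split_last {W : Type v} (N : W → Prop) (M : List W) (h : ∃ x ∈ M, N x) :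
    ∃ X u Y, M = X ++ u :: Y ∧ N u ∧ ∀ x ∈ Y, ¬ N x := by
  obtain ⟨X, u, Y, e, hu, hX⟩ := oed1_split_first N M.reverse (by
    obtain ⟨x, hx, hNx⟩ := h
    exact ⟨x, List.mem_reverse.mpr hx, hNx⟩)
  refine ⟨Y.reverse, u, X.reverse, ?_, hu, fun x hx => hX x (List.mem_reverse.mp hx)⟩
  have h1 := congrArg List.reverse e
  rw [List.reverse_reverse] at h1
  rw [h1]
  simp

private theorem oed1_chain_left {W : Type v} {R R' : W → W → Prop} {ν : W} {T : List W}
    (hper : ∀ x ∈ T, ∀ y ∈ T, x ≠ y → R x y → R' x y ∨ (R' x ν ∧ R' ν y))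
    (L : List W) (u : W) (hch : List.IsChain R (L ++ [u])) (hnd : (L ++ [u]).Nodup)
    (hT : ∀ x ∈ L ++ [u], x ∈ T) (hL : ∀ x ∈ L, ¬ R' x ν) : List.IsChain R' (L ++ [u]) := by
  rw [List.isChain_iff_getElem] at hch ⊢
  intro i hi
  have h1 := hch i hi
  have hlen : i < L.length := by
    simp only [List.length_append, List.length_singleton] at hi
    omega
  have hne : (L ++ [u])[i] ≠ (L ++ [u])[i + 1] := by
    intro h
    have := (List.Nodup.getElem_inj_iff hnd).mp h
    omega
  have hmem : (L ++ [u])[i] ∈ L := by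
    rw [List.getElem_append_left hlen]
    exact List.getElem_mem hlen
  rcases hper _ (hT _ (List.getElem_mem _)) _ (hT _ (List.getElem_mem _)) hne h1 with h2 | h2
  · exact h2
  · exact absurd h2.1 (hL _ hmem)

private theorem oed1_chain_right {W : Type v} {R R' : W → W → Prop} {ν : W} {T : List W}
    (hs : ∀ a b, R' a b → R' b a)
    (hper : ∀ x ∈ T, ∀ y ∈ T, x ≠ y → R x y → R' x y ∨ (R' x ν ∧ R' ν y))
    (L : List W) (u : W) (hch : List.IsChain R (u :: L)) (hnd : (u :: L).Nodup)
    (hT : ∀ x ∈ u :: L, x ∈ T) (hL : ∀ x ∈ L, ¬ R' x ν) : List.IsChain R' (u :: L) := by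
  rw [List.isChain_iff_getElem] at hch ⊢
  intro i hi
  have h1 := hch i hi
  have hne : (u :: L)[i] ≠ (u :: L)[i + 1] := by
    intro h
    have := (List.Nodup.getElem_inj_iff hnd).mp h
    omega
  have hmem : (u :: L)[i + 1] ∈ L := by
    rw [List.getElem_cons_succ]
    exact List.getElem_mem _
  rcases hper _ (hT _ (List.getElem_mem _)) _ (hT _ (List.getElem_mem _)) hne h1 with h2 | h2
  · exact h2
  · exact absurd (hs _ _ h2.2) (hL _ hmem)

theorem insert_abs {W : Type v} (R R' : W → W → Prop) (hs : ∀ a b, R' a b → R' b a) (n : ℕ)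
    (A M B : List W) (ν : W) (hch : List.IsChain R (A ++ M ++ B))
    (hnd : (ν :: (A ++ M ++ B)).Nodup) (hA : n ≤ A.length) (hB : n ≤ B.length)
    (hper : ∀ x ∈ A ++ M ++ B, ∀ y ∈ A ++ M ++ B, x ≠ y → R x y → R' x y ∨ (R' x ν ∧ R' ν y))
    (hloc : ∀ x, x ∈ A ∨ x ∈ B → ¬ R' x ν) (hne : ∃ x ∈ M, R' x ν)
    (hns : ∀ (l1 l2 : List W) (z a : W), n ≤ l1.length → n ≤ l2.length →
      (a :: (l1 ++ z :: l2)).Nodup → (∀ x ∈ a :: (l1 ++ z :: l2), x ∈ ν :: (A ++ M ++ B)) →
      List.IsChain R' (l1 ++ z :: l2) → ¬ R' z a) :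
    ∃ M1 M2, M = M1 ++ M2 ∧ M1 ≠ [] ∧ M2 ≠ [] ∧
      List.IsChain R' (A ++ M1 ++ ν :: (M2 ++ B)) := by
  obtain ⟨X, u, Y, rfl, hu, hX⟩ := oed1_split_first (fun x => R' x ν) M hne
  have hνnd := List.nodup_cons.mp hnd
  -- the chain up to u
  have hlist : A ++ (X ++ u :: Y) ++ B = (A ++ X) ++ u :: (Y ++ B) := by simp
  have hch' := hch
  rw [hlist, List.isChain_split] at hch'
  have hnd' := hνnd.2
  rw [hlist] at hnd'
  have hcl : List.IsChain R' ((A ++ X) ++ [u]) := by
    refine oed1_chain_left hper (A ++ X) u hch'.1 ?_ ?_ ?_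
    · refine hnd'.sublist ?_
      refine List.Sublist.append_left ?_ _
      exact List.singleton_sublist.mpr List.mem_cons_self
    · intro x hx
      rw [hlist]
      simp only [List.mem_append, List.mem_cons, List.not_mem_nil, or_false] at hx ⊢
      tauto
    · intro x hx
      rcases List.mem_append.mp hx with h1 | h1
      · exact hloc x (Or.inl h1)
      · exact hX x h1
  by_cases hY : ∃ x ∈ Y, R' x ν
  · obtain ⟨Z, u', Y', rfl, hu', hY'⟩ := oed1_split_last (fun x => R' x ν) Y hY
    have hlist2 : A ++ (X ++ u :: (Z ++ u' :: Y')) ++ B = (A ++ X ++ u :: Z) ++ u' :: (Y' ++ B) := by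
      simp
    have hch2 := hch
    rw [hlist2, List.isChain_split] at hch2
    have hnd2 := hνnd.2
    rw [hlist2] at hnd2
    have hcr : List.IsChain R' (u' :: (Y' ++ B)) := by
      refine oed1_chain_right hs hper (Y' ++ B) u' hch2.2 ?_ ?_ ?_
      · exact hnd2.sublist (List.sublist_append_right _ _)
      · intro x hx
        rw [hlist2]
        exact List.mem_append_right _ hx
      · intro x hx
        rcases List.mem_append.mp hx with h1 | h1
        · exact hY' x h1
        · exact hloc x (Or.inr h1)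
    -- the chain through ν
    have hthrough : List.IsChain R' ((A ++ X) ++ u :: ν :: u' :: (Y' ++ B)) := by
      rw [List.isChain_split]
      exact ⟨hcl, List.IsChain.cons_cons hu (List.IsChain.cons_cons (hs _ _ hu') hcr)⟩
    cases Z with
    | nil =>
      refine ⟨X ++ [u], u' :: Y', by simp, by simp, by simp, ?_⟩
      have : A ++ (X ++ [u]) ++ ν :: (u' :: Y' ++ B) = (A ++ X) ++ u :: ν :: u' :: (Y' ++ B) := by
        simp
      rw [this]
      exact hthrough
    | cons v Z =>
      exfalso
      have hnd3 : (ν :: (A ++ (X ++ u :: (v :: Z ++ u' :: Y')) ++ B)).Nodup := hnd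
      have hRuv : R u v := by
        have h1 := hch'.2
        rw [List.cons_append, List.cons_append] at h1
        exact (List.isChain_cons_cons.mp h1).1
      have huv : u ≠ v := by
        intro h
        have h1 := hνnd.2
        rw [hlist] at h1
        rw [List.nodup_append] at h1
        have h2 := (List.nodup_cons.mp h1.2.1).1
        apply h2
        rw [h]
        simp
      have humem : u ∈ A ++ (X ++ u :: (v :: Z ++ u' :: Y')) ++ B := by simp
      have hvmem : v ∈ A ++ (X ++ u :: (v :: Z ++ u' :: Y')) ++ B := by simp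
      -- rearrangement of the list
      have hperm : List.Perm (v :: ((A ++ X) ++ u :: ν :: u' :: (Y' ++ B)) ++ Z)
          (ν :: (A ++ (X ++ u :: (v :: Z ++ u' :: Y')) ++ B)) := by
        classical
        rw [List.perm_iff_count]
        intro c
        simp only [List.count_append, List.count_cons, List.cons_append]
        omega
      have hndp : (v :: ((A ++ X) ++ u :: ν :: u' :: (Y' ++ B))).Nodup := by
        have h1 := hperm.nodup_iff.mpr hnd3
        exact h1.sublist (List.sublist_append_left _ _)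
      have hmemp : ∀ x ∈ v :: ((A ++ X) ++ u :: ν :: u' :: (Y' ++ B)),
          x ∈ ν :: (A ++ (X ++ u :: (v :: Z ++ u' :: Y')) ++ B) := by
        intro x hx
        exact hperm.mem_iff.mp (List.mem_append_left _ hx)
      rcases hper u humem v hvmem huv hRuv with h2 | h2
      · refine hns (A ++ X) (ν :: u' :: (Y' ++ B)) u v ?_ ?_ hndp hmemp hthrough h2
        · rw [List.length_append]; omega
        · simp only [List.length_cons, List.length_append]; omega
      · have e1 : (A ++ X) ++ u :: ν :: u' :: (Y' ++ B) =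
            ((A ++ X) ++ [u]) ++ ν :: (u' :: (Y' ++ B)) := by simp
        rw [e1] at hndp hmemp hthrough
        refine hns ((A ++ X) ++ [u]) (u' :: (Y' ++ B)) ν v ?_ ?_ hndp hmemp hthrough h2.2
        · rw [List.length_append, List.length_append]; omega
        · simp only [List.length_cons, List.length_append]; omega
  · exfalso
    have hY0 : ∀ x ∈ Y, ¬ R' x ν := fun x hx h => hY ⟨x, hx, h⟩
    have hcr : List.IsChain R' (u :: (Y ++ B)) := by
      refine oed1_chain_right hs hper (Y ++ B) u hch'.2 ?_ ?_ ?_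
      · exact hnd'.sublist (List.sublist_append_right _ _)
      · intro x hx
        rw [hlist]
        exact List.mem_append_right _ hx
      · intro x hx
        rcases List.mem_append.mp hx with h1 | h1
        · exact hY0 x h1
        · exact hloc x (Or.inr h1)
    refine hns (A ++ X) (Y ++ B) u ν ?_ ?_ ?_ ?_ (List.isChain_split.mpr ⟨hcl, hcr⟩) hu
    · rw [List.length_append]; omega
    · rw [List.length_append]; omega
    · rw [← hlist]
      exact hnd
    · rw [← hlist]
      exact fun x hx => hx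

end Pool.Agent.Lib.MP_0f7bfe_al.OE
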