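import Pool.Agent.Lib.MP_0f7bfe_al.OE.B1
import Pool.Agent.Lib.MP_0f7bfe_al.OE.B3
import Pool.Agent.Lib.MP_0f7bfe_al.OE.B4
import Pool.Agent.Lib.MP_0f7bfe_al.OE.B5
import Pool.Agent.Lib.MP_0f7bfe_al.OE.D1
import Pool.Agent.Lib.MP_0f7bfe_al.FM1

open scoped Pointwise ENNReal NNReal

namespace Pool.Agent.Lib.MP_0f7bfe_al.OE

universe u v w

section graph
variable {X : Type u} {Gr : SimpleGraph X}

/-- removing a vertex from a chain in the ray graph -/
theorem oed4_remove (hN : Nice Gr) {P Q : List (ℕ → X)} {m : ℕ → X} {F : Set (ℕ → X)}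
    (hF : Fam Gr (insert m F)) (hm : m ∉ F)
    (hPF : ∀ x ∈ P, x ∈ F) (hQF : ∀ x ∈ Q, x ∈ F)
    (hch : List.IsChain (RAdj Gr (insert m F)) (P ++ m :: Q)) :
    List.IsChain (RAdj Gr F) (P ++ Q) := by
  rw [List.isChain_append, List.isChain_cons] at hch
  obtain ⟨c1, ⟨c2, c3⟩, c4⟩ := hch
  have hsub : F ⊆ insert m F := Set.subset_insert m F
  refine List.IsChain.append (c1.imp fun _ _ h => h.mono hsub) (c3.imp fun _ _ h => h.mono hsub) ?_
  intro x hx y hy
  have hx' : x ∈ P := List.mem_of_getLast? hx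
  have hy' : y ∈ Q := List.mem_of_head? hy
  exact radj_contract hN hF hm (hPF x hx') (hQF y hy') (c4 x hx m (by simp)) (c2 y hy)

theorem oed4_step (hN : Nice Gr) (h1 : OneEnd Gr) {n : ℕ} (hns : NoSpider Gr n)
    {A B xs : List (ℕ → X)} {a b ν : ℕ → X}
    (hF : Fam Gr (insert ν {r | r ∈ A ++ (a :: (xs ++ [b])) ++ B}))
    (hnd : (ν :: (A ++ (a :: (xs ++ [b])) ++ B)).Nodup)
    (hch : List.IsChain (RAdj Gr {r | r ∈ A ++ (a :: (xs ++ [b])) ++ B})
      (A ++ (a :: (xs ++ [b])) ++ B))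
    (hA : n ≤ A.length) (hB : n ≤ B.length)
    (hloc : ∀ x, x ∈ A ∨ x ∈ B →
      ¬ RAdj Gr (insert ν {r | r ∈ A ++ (a :: (xs ++ [b])) ++ B}) x ν) :
    ∃ U W, xs = U ++ W ∧ List.IsChain
      (RAdj Gr (insert ν {r | r ∈ A ++ (a :: (xs ++ [b])) ++ B}))
      (A ++ (a :: ((U ++ ν :: W) ++ [b])) ++ B) := by
  have hν : ν ∉ {r | r ∈ A ++ (a :: (xs ++ [b])) ++ B} := (List.nodup_cons.1 hnd).1
  obtain ⟨M1, M2, e, hM1, hM2, hc⟩ := insert_abs
    (RAdj Gr {r | r ∈ A ++ (a :: (xs ++ [b])) ++ B})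
    (RAdj Gr (insert ν {r | r ∈ A ++ (a :: (xs ++ [b])) ++ B})) (fun _ _ h => h.symm) n
    A (a :: (xs ++ [b])) B ν hch hnd hA hB
    (fun x hx y hy hxy h => radj_proj hN hF hν hx hy hxy h) hloc
    (by
      obtain ⟨x, hx, y, hy, hxy⟩ := radj_connected hN h1 hF
        {r | r ∈ A ++ (a :: (xs ++ [b])) ++ B} {ν}
        (by rw [Set.union_comm]; rfl) (Set.disjoint_singleton_right.2 hν)
        ⟨a, by simp⟩ ⟨ν, rfl⟩
      rw [Set.mem_singleton_iff] at hy
      subst hy
      have hx' : x ∈ A ++ (a :: (xs ++ [b])) ++ B := hx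
      rw [List.mem_append, List.mem_append] at hx'
      rcases hx' with (hx1 | hx1) | hx1
      · exact absurd hxy (hloc x (Or.inl hx1))
      · exact ⟨x, hx1, hxy⟩
      · exact absurd hxy (hloc x (Or.inr hx1)))
    (fun l1 l2 z c hl1 hl2 hn hmem hch' =>
      hns _ hF l1 l2 z c hl1 hl2 hn (fun x hx => by
        have := hmem x hx
        rw [List.mem_cons] at this
        exact this) hch')
  -- analyse the splitting
  obtain ⟨c, U, rfl⟩ := List.exists_cons_of_ne_nil hM1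
  rw [List.cons_append, List.cons.injEq] at e
  obtain ⟨rfl, e⟩ := e
  rcases List.eq_nil_or_concat M2 with h2 | ⟨W, d, rfl⟩
  · exact absurd h2 hM2
  · rw [List.concat_eq_append, ← List.append_assoc] at e
    rw [List.concat_eq_append] at hc
    obtain ⟨e1, e2⟩ := List.append_inj' e rfl
    rw [List.cons.injEq] at e2
    obtain ⟨rfl, -⟩ := e2
    refine ⟨U, W, e1, ?_⟩
    have e3 : A ++ (a :: ((U ++ ν :: W) ++ [b])) ++ B =
        A ++ (a :: U) ++ ν :: (W ++ [b] ++ B) := by simp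
    rw [e3]
    exact hc

theorem oed4_iter (hN : Nice Gr) (h1 : OneEnd Gr) {n : ℕ} (hns : NoSpider Gr n)
    {A B : List (ℕ → X)} {m a b : ℕ → X} {ℓ : Fin 4 → ℕ → X}
    (hF : Fam Gr ({r | r ∈ A ++ (a :: m :: b :: B)} ∪ Set.range ℓ))
    (hnd : (A ++ (a :: m :: b :: B)).Nodup)
    (hinj : Function.Injective ℓ) (hℓ : ∀ i, ℓ i ∉ A ++ (a :: m :: b :: B))
    (hch : List.IsChain (RAdj Gr {r | r ∈ A ++ (a :: m :: b :: B)}) (A ++ (a :: m :: b :: B)))
    (hl1 : n ≤ A.length) (hl2 : n ≤ B.length)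
    (hloc : ∀ i, ∀ F' : Set (ℕ → X), {r | r ∈ A ++ (a :: m :: b :: B)} ⊆ F' →
      ∀ t, t ∈ A ∨ t ∈ B → ¬ RAdj Gr F' (ℓ i) t) (s : List (Fin 4)) (hs : s.Nodup) :
    ∃ xs : List (ℕ → X), xs.Perm (m :: s.map ℓ) ∧
      List.IsChain (RAdj Gr {r | r ∈ A ++ (a :: (xs ++ [b])) ++ B})
        (A ++ (a :: (xs ++ [b])) ++ B) := by
  induction s with
  | nil =>
    refine ⟨[m], List.Perm.refl _, ?_⟩
    have e : A ++ (a :: ([m] ++ [b])) ++ B = A ++ (a :: m :: b :: B) := by simp
    rw [e]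
    exact hch
  | cons i s ih =>
    obtain ⟨xs, hp, hc⟩ := ih (List.nodup_cons.1 hs).2
    have hmem : ∀ x, x ∈ A ++ (a :: (xs ++ [b])) ++ B ↔
        x ∈ A ++ (a :: m :: b :: B) ∨ x ∈ s.map ℓ := fun x => by
      have := hp.mem_iff (a := x)
      simp only [List.mem_append, List.mem_cons, List.mem_singleton, List.append_assoc,
        List.cons_append, List.nil_append, List.not_mem_nil, or_false] at this ⊢
      tauto
    have hperm : (A ++ (a :: (xs ++ [b])) ++ B).Perm (s.map ℓ ++ (A ++ (a :: m :: b :: B))) := by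
      have e1 : (A ++ (a :: (xs ++ [b])) ++ B) = (A ++ [a]) ++ (xs ++ (b :: B)) := by simp
      have e2 : (A ++ (a :: m :: b :: B)) = (A ++ [a]) ++ (m :: b :: B) := by simp
      rw [e1, e2]
      have p1 : ((A ++ [a]) ++ (xs ++ (b :: B))).Perm
          ((A ++ [a]) ++ ((m :: s.map ℓ) ++ (b :: B))) :=
        List.Perm.append_left _ (hp.append_right _)
      refine p1.trans ?_
      have p2 : ((A ++ [a]) ++ ((m :: s.map ℓ) ++ (b :: B))).Perm
          ((A ++ [a]) ++ (s.map ℓ ++ (m :: b :: B))) := by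
        refine List.Perm.append_left _ ?_
        exact List.perm_middle.symm
      refine p2.trans ?_
      rw [← List.append_assoc, ← List.append_assoc]
      exact List.Perm.append_right _ List.perm_append_comm
    have hnd' : (ℓ i :: (A ++ (a :: (xs ++ [b])) ++ B)).Nodup := by
      have h2 : (ℓ i :: (A ++ (a :: (xs ++ [b])) ++ B)).Perm
          ((i :: s).map ℓ ++ (A ++ (a :: m :: b :: B))) := by
        rw [List.map_cons, List.cons_append]
        exact hperm.cons _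
      rw [h2.nodup_iff]
      refine List.nodup_append.2 ⟨hs.map hinj, hnd, ?_⟩
      intro x hx y hy hxy
      subst hxy
      obtain ⟨j, -, rfl⟩ := List.mem_map.1 hx
      exact hℓ j hy
    have hFF : insert (ℓ i) {r | r ∈ A ++ (a :: (xs ++ [b])) ++ B} ⊆
        {r | r ∈ A ++ (a :: m :: b :: B)} ∪ Set.range ℓ := by
      intro x hx
      rcases hx with rfl | hx
      · exact Or.inr ⟨i, rfl⟩
      · rcases (hmem x).1 hx with h | h
        · exact Or.inl h
        · obtain ⟨j, -, rfl⟩ := List.mem_map.1 h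
          exact Or.inr ⟨j, rfl⟩
    obtain ⟨U, W, rfl, hc'⟩ := oed4_step hN h1 hns (hF.mono hFF) hnd' hc hl1 hl2
      (fun x hx h => hloc i _ (fun r hr => Or.inr ((hmem r).2 (Or.inl hr))) x hx h.symm)
    refine ⟨U ++ ℓ i :: W, ?_, ?_⟩
    · refine List.perm_middle.trans ?_
      rw [List.map_cons]
      exact (hp.cons _).trans (List.Perm.swap _ _ _)
    · have e : {r | r ∈ A ++ (a :: ((U ++ ℓ i :: W) ++ [b])) ++ B} =
          insert (ℓ i) {r | r ∈ A ++ (a :: ((U ++ W) ++ [b])) ++ B} := by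
        have e5 : (A ++ (a :: ((U ++ ℓ i :: W) ++ [b])) ++ B).Perm
            (ℓ i :: (A ++ (a :: ((U ++ W) ++ [b])) ++ B)) := by
          have e6 : A ++ (a :: ((U ++ ℓ i :: W) ++ [b])) ++ B =
              (A ++ (a :: U)) ++ ℓ i :: (W ++ [b] ++ B) := by simp
          have e7 : A ++ (a :: ((U ++ W) ++ [b])) ++ B =
              (A ++ (a :: U)) ++ (W ++ [b] ++ B) := by simp
          rw [e6, e7]
          exact List.perm_middle
        ext x
        exact e5.mem_iff.trans List.mem_cons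
      rw [e]
      exact hc'

theorem legs_insert (hN : Nice Gr) (h1 : OneEnd Gr) {n : ℕ} (hns : NoSpider Gr n)
    {L1 L2 : List (ℕ → X)} {m a b : ℕ → X} {ℓ : Fin 4 → ℕ → X}
    (hF : Fam Gr ({r | r ∈ L1 ++ m :: L2} ∪ Set.range ℓ)) (hnd : (L1 ++ m :: L2).Nodup)
    (hinj : Function.Injective ℓ) (hℓ : ∀ i, ℓ i ∉ L1 ++ m :: L2)
    (hch : List.IsChain (RAdj Gr {r | r ∈ L1 ++ m :: L2}) (L1 ++ m :: L2))
    (hl1 : n + 1 ≤ L1.length) (hl2 : n + 1 ≤ L2.length) (ha : L1.getLast? = some a)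
    (hb : L2.head? = some b)
    (hloc : ∀ i, ∀ F' : Set (ℕ → X), {r | r ∈ L1 ++ m :: L2} ⊆ F' → ∀ t ∈ L1 ++ m :: L2, t ≠ m →
      t ≠ a → t ≠ b → ¬ RAdj Gr F' (ℓ i) t) :
    ∃ σ : Equiv.Perm (Fin 4),
      List.IsChain (RAdj Gr {r | r ∈ L1 ++ ℓ (σ 0) :: ℓ (σ 1) :: ℓ (σ 2) :: ℓ (σ 3) :: L2})
        (L1 ++ ℓ (σ 0) :: ℓ (σ 1) :: ℓ (σ 2) :: ℓ (σ 3) :: L2) := by
  obtain ⟨A, rfl⟩ : ∃ A, L1 = A ++ [a] := ⟨L1.dropLast, (List.dropLast_append_getLast? a ha).symm⟩
  obtain ⟨B, rfl⟩ : ∃ B, L2 = b :: B := by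
    cases L2 with
    | nil => simp at hb
    | cons c B => simp at hb; exact ⟨B, by rw [hb]⟩
  have e0 : (A ++ [a]) ++ m :: b :: B = A ++ (a :: m :: b :: B) := by simp
  rw [e0] at hnd hch hF
  simp only [e0] at hℓ hloc
  have hlA : n ≤ A.length := by simpa using hl1
  have hlB : n ≤ B.length := by simpa using hl2
  obtain ⟨xs, hp, hc⟩ := oed4_iter hN h1 hns hF hnd hinj hℓ hch hlA hlB
    (fun i F' hF' t ht => hloc i F' hF' t
      (by
        rw [List.mem_append]
        rcases ht with h | h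
        · exact Or.inl h
        · exact Or.inr (by simp [h]))
      (by
        rintro rfl
        rcases ht with h | h
        · exact (List.disjoint_of_nodup_append hnd) h (by simp)
        · have := (List.nodup_append.1 hnd).2.1
          simp [h] at this)
      (by
        rintro rfl
        rcases ht with h | h
        · exact (List.disjoint_of_nodup_append hnd) h (by simp)
        · have := (List.nodup_append.1 hnd).2.1
          simp [h] at this)
      (by
        rintro rfl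
        rcases ht with h | h
        · exact (List.disjoint_of_nodup_append hnd) h (by simp)
        · have := (List.nodup_append.1 hnd).2.1
          simp [h] at this)) (List.finRange 4) (List.nodup_finRange 4)
  have hmxs : m ∈ xs := (hp.mem_iff).2 (by simp)
  obtain ⟨U, W, rfl⟩ := List.append_of_mem hmxs
  have hUW : (U ++ W).Perm ((List.finRange 4).map ℓ) := by
    have : (m :: (U ++ W)).Perm (m :: (List.finRange 4).map ℓ) := List.perm_middle.symm.trans hp
    exact (List.perm_cons m).1 this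
  have hlen : (U ++ W).length = 4 := by
    rw [hUW.length_eq]
    simp
  have hndUW : (U ++ W).Nodup := by
    rw [hUW.nodup_iff]
    exact (List.nodup_finRange 4).map hinj
  have hmemUW : ∀ x ∈ U ++ W, ∃ i, ℓ i = x := fun x hx => by
    have := (hUW.mem_iff).1 hx
    obtain ⟨i, -, hi⟩ := List.mem_map.1 this
    exact ⟨i, hi⟩
  -- the permutation
  choose g hg using fun j : Fin 4 => hmemUW ((U ++ W)[(j : ℕ)]'(by rw [hlen]; exact j.2))
    (List.getElem_mem _)
  have hginj : Function.Injective g := by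
    intro j k hjk
    have h3 : (U ++ W)[(j : ℕ)]'(by rw [hlen]; exact j.2) =
        (U ++ W)[(k : ℕ)]'(by rw [hlen]; exact k.2) := by rw [← hg j, ← hg k, hjk]
    exact Fin.ext ((hndUW.getElem_inj_iff).1 h3)
  let σ : Equiv.Perm (Fin 4) := Equiv.ofBijective g (Finite.injective_iff_bijective.1 hginj)
  have hσ : ∀ j, σ j = g j := fun j => rfl
  refine ⟨σ, ?_⟩
  have hlist : U ++ W = [ℓ (σ 0), ℓ (σ 1), ℓ (σ 2), ℓ (σ 3)] := by
    apply List.ext_getElem
    · rw [hlen]; rfl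
    · intro k hk1 hk2
      rw [hlen] at hk1
      have h4 := hg ⟨k, hk1⟩
      interval_cases k
      · exact h4.symm
      · exact h4.symm
      · exact h4.symm
      · exact h4.symm
  -- removal of m
  have e1 : (A ++ [a]) ++ ℓ (σ 0) :: ℓ (σ 1) :: ℓ (σ 2) :: ℓ (σ 3) :: (b :: B) =
      (A ++ (a :: U)) ++ (W ++ (b :: B)) := by
    have e2 : (A ++ (a :: U)) ++ (W ++ (b :: B)) = (A ++ [a]) ++ ((U ++ W) ++ (b :: B)) := by simp
    rw [e2, hlist]
    rfl
  rw [e1]
  have e3 : A ++ (a :: ((U ++ m :: W) ++ [b])) ++ B =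
      (A ++ (a :: U)) ++ m :: (W ++ (b :: B)) := by simp
  rw [e3] at hc
  have e4 : {r | r ∈ (A ++ (a :: U)) ++ m :: (W ++ (b :: B))} =
      insert m {r | r ∈ (A ++ (a :: U)) ++ (W ++ (b :: B))} := by
    ext x
    simp only [Set.mem_insert_iff, Set.mem_ofPred_eq, List.mem_append, List.mem_cons]
    tauto
  rw [e4] at hc
  have hmem : ∀ x, x ∈ (A ++ (a :: U)) ++ m :: (W ++ (b :: B)) ↔
      x ∈ A ++ (a :: m :: b :: B) ∨ x ∈ U ++ W := fun x => by
    simp only [List.mem_append, List.mem_cons]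
    tauto
  refine oed4_remove hN (F := {r | r ∈ (A ++ (a :: U)) ++ (W ++ (b :: B))}) ?_ ?_
    (fun x hx => List.mem_append.2 (Or.inl hx)) (fun x hx => List.mem_append.2 (Or.inr hx))
    hc
  · rw [← e4]
    refine hF.mono fun x hx => ?_
    rcases (hmem x).1 hx with h | h
    · exact Or.inl h
    · obtain ⟨i, rfl⟩ := hmemUW x h
      exact Or.inr ⟨i, rfl⟩
  · intro hm
    have hm' : m ∈ (A ++ (a :: U)) ++ (W ++ (b :: B)) := hm
    have hm2 : m ∉ U ++ W := fun h => by
      obtain ⟨i, hi⟩ := hmemUW m h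
      exact hℓ i (by rw [hi]; simp)
    have hm3 : m ∉ A := fun h => (List.disjoint_of_nodup_append hnd) h (by simp)
    have hm4 := (List.nodup_append.1 hnd).2.1
    simp only [List.nodup_cons, List.mem_cons, not_or] at hm4
    simp only [List.mem_append, List.mem_cons] at hm' hm2
    have h5 : m ≠ a := fun h => hm4.1.1 h.symm
    have h6 := hm4.2.1
    tauto

end graph

end Pool.Agent.Lib.MP_0f7bfe_al.OE
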