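import Pool.Agent.Lib.MP_0f7bfe_al.OE.Defs
import Pool.Agent.Lib.MP_0f7bfe_al.OE.A5
import Pool.Agent.Lib.MP_0f7bfe_al.OE.A9
import Pool.Agent.Lib.MP_0f7bfe_al.OE.A10
import Pool.Agent.Lib.MP_0f7bfe_al.OE.A11
import Pool.Agent.Lib.MP_0f7bfe_al.OE.B1

open scoped Pointwise ENNReal NNReal

namespace Pool.Agent.Lib.MP_0f7bfe_al.OE

universe u v w

section group
variable {G : Type u} [Group G] {S : Finset G}

/-- the weight used for the leg `i`, given the previous legs -/
noncomputable def oef1_W (S : Finset G) (κ : ℕ) (K : ℝ≥0∞) (w : Fin 4 → G)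
    (C : Fin 4 → Fin 4 → Set G) (g : G) (O : Set G) (ℓ : Fin 4 → ℕ → G) (i : Fin 4) (y : G) :
    ℝ≥0∞ :=
  O.indicator 1 y +
    (∑ j : Fin 4, ∑ k : Fin 4, if j ≠ k ∧ i ≠ j ∧ i ≠ k then
      (nb (Cay S) κ (g • C j k)).indicator 1 y else 0) +
    (∑ j : Fin 4, if j < i then (nb (Cay S) κ (Set.range (ℓ j))).indicator 1 y else 0) +
    ∑ j : Fin 4, if j ≠ i then K * u1 S (g * w j) y else 0

theorem oef1_V_sum {ι : Type v} (s : Finset ι) (f : ι → G → ℝ≥0∞) (x : G) :
    V S (fun y => ∑ i ∈ s, f i y) x = ∑ i ∈ s, V S (f i) x := by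
  classical
  induction s using Finset.induction_on with
  | empty =>
    have h := V_mul (S := S) 0 (fun _ => 0) x
    simpa using h
  | insert a s ha ih =>
    rw [Finset.sum_insert ha, ← ih, ← V_add]
    congr 1
    funext y
    rw [Finset.sum_insert ha]

theorem oef1_V_ite (P : Prop) [Decidable P] (f : G → ℝ≥0∞) (x : G) :
    V S (fun y => if P then f y else 0) x = if P then V S f x else 0 := by
  split_ifs with h
  · rfl
  · have h := V_mul (S := S) 0 (fun _ => 0) x
    simpa using h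

theorem oef1_V_W (κ : ℕ) (K : ℝ≥0∞) (w : Fin 4 → G) (C : Fin 4 → Fin 4 → Set G) (g : G)
    (O : Set G) (ℓ : Fin 4 → ℕ → G) (i : Fin 4) (x : G) :
    V S (oef1_W S κ K w C g O ℓ i) x = V S (O.indicator 1) x +
      (∑ j : Fin 4, ∑ k : Fin 4, if j ≠ k ∧ i ≠ j ∧ i ≠ k then cost S κ (g • C j k) x else 0) +
      (∑ j : Fin 4, if j < i then cost S κ (Set.range (ℓ j)) x else 0) +
      ∑ j : Fin 4, if j ≠ i then K * V S (fun y => u1 S (g * w j) y) x else 0 := by
  have e : oef1_W S κ K w C g O ℓ i = fun y => (((O.indicator 1 y : ℝ≥0∞) +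
    (∑ j : Fin 4, ∑ k : Fin 4, if j ≠ k ∧ i ≠ j ∧ i ≠ k then
      (nb (Cay S) κ (g • C j k)).indicator 1 y else 0)) +
    (∑ j : Fin 4, if j < i then (nb (Cay S) κ (Set.range (ℓ j))).indicator 1 y else 0)) +
    ∑ j : Fin 4, if j ≠ i then K * u1 S (g * w j) y else 0 := rfl
  rw [e, V_add, V_add, V_add]
  congr 1
  · congr 1
    · congr 1
      rw [oef1_V_sum]
      refine Finset.sum_congr rfl fun j _ => ?_
      rw [oef1_V_sum]
      refine Finset.sum_congr rfl fun k _ => ?_
      rw [oef1_V_ite]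
      rfl
    · rw [oef1_V_sum]
      refine Finset.sum_congr rfl fun j _ => ?_
      rw [oef1_V_ite]
      rfl
  · rw [oef1_V_sum]
    refine Finset.sum_congr rfl fun j _ => ?_
    rw [oef1_V_ite, V_mul]

/-- what the legs with index less than `n` satisfy -/
structure oef1_Leg (S : Finset G) (κ : ℕ) (K : ℝ≥0∞) (w : Fin 4 → G)
    (C : Fin 4 → Fin 4 → Set G) (g : G) (F : Set (ℕ → G)) (O : Set G) (n : ℕ)
    (ℓ : Fin 4 → ℕ → G) : Prop where
  start : ∀ i : Fin 4, (i : ℕ) < n → ℓ i 0 = g * w i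
  ray : ∀ i : Fin 4, (i : ℕ) < n → IsRay (Cay S) (ℓ i)
  good : ∀ i : Fin 4, (i : ℕ) < n → Good S (ℓ i)
  ind : ∀ i j : Fin 4, (i : ℕ) < n → j < i → Ind S (ℓ i) (ℓ j)
  indF : ∀ i : Fin 4, (i : ℕ) < n → ∀ r ∈ F, Ind S (ℓ i) r
  wt : ∀ i : Fin 4, (i : ℕ) < n → ∑' t, oef1_W S κ K w C g O ℓ i (ℓ i t) < 1

theorem oef1_W_congr (κ : ℕ) (K : ℝ≥0∞) (w : Fin 4 → G) (C : Fin 4 → Fin 4 → Set G) (g : G)
    (O : Set G) (ℓ ℓ' : Fin 4 → ℕ → G) (i : Fin 4) (h : ∀ j, j < i → ℓ j = ℓ' j) (y : G) :
    oef1_W S κ K w C g O ℓ i y = oef1_W S κ K w C g O ℓ' i y := by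
  unfold oef1_W
  congr 2
  refine Finset.sum_congr rfl fun j _ => ?_
  by_cases hj : j < i
  · rw [if_pos hj, if_pos hj, h j hj]
  · rw [if_neg hj, if_neg hj]

theorem oef1_u1_sum (κ : ℕ) (K : ℝ≥0∞) (w : Fin 4 → G) (C : Fin 4 → Fin 4 → Set G) (g : G)
    (O : Set G) (ℓ : Fin 4 → ℕ → G) (i j : Fin 4) (hij : j ≠ i) (r : ℕ → G)
    (h : ∑' t, oef1_W S κ K w C g O ℓ i (r t) < 1) : K * ∑' t, u1 S (g * w j) (r t) ≤ 1 := by
  refine le_trans ?_ h.le
  rw [← ENNReal.tsum_mul_left]
  refine ENNReal.tsum_le_tsum fun t => ?_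
  have h1 : K * u1 S (g * w j) (r t) ≤ ∑ j : Fin 4, if j ≠ i then K * u1 S (g * w j) (r t) else 0 := by
    have h2 := Finset.single_le_sum
      (f := fun j : Fin 4 => if j ≠ i then K * u1 S (g * w j) (r t) else 0)
      (fun _ _ => zero_le) (Finset.mem_univ j)
    simp only [if_pos hij] at h2
    exact h2
  refine h1.trans ?_
  unfold oef1_W
  exact le_add_self

/-! ### F1 -/

theorem legs (hS : Setup S) (κ : ℕ) : ∃ ε : ℝ≥0∞, ε ≠ 0 ∧ ∀ (co : Core S κ ε) (g : G)
    (F : Set (ℕ → G)), F.Finite → (∀ r ∈ F, Good S r) → ∀ (O : Set G),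
    (∀ i, V S (O.indicator 1) (g * co.w i) ≤ ε) →
    ∃ ℓ : Fin 4 → ℕ → G, (∀ i, ℓ i 0 = g * co.w i) ∧ (∀ i, IsRay (Cay S) (ℓ i)) ∧
      (∀ i, Good S (ℓ i)) ∧ (∀ i j, i ≠ j → Ind S (ℓ i) (ℓ j)) ∧ (∀ i, ∀ r ∈ F, Ind S (ℓ i) r) ∧
      (∀ i, Disjoint (Set.range (ℓ i)) O) ∧
      (∀ i j, i ≠ j → Far (Cay S) κ (Set.range (ℓ i)) (Set.range (ℓ j))) ∧
      ∀ i j k, i ≠ j → i ≠ k → j ≠ k → Far (Cay S) κ (Set.range (ℓ i)) (g • co.C j k) := by
  set K : ℝ≥0∞ := 16 * cst S κ + 16 with hK
  have hKt : K ≠ ∞ := ENNReal.add_ne_top.2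
    ⟨ENNReal.mul_ne_top (by norm_num) (cst_ne_top hS κ), by norm_num⟩
  have hK16 : 16 ≤ K := le_add_self
  have hK0 : K ≠ 0 := by
    intro h
    rw [h] at hK16
    exact absurd hK16 (by norm_num)
  set ε : ℝ≥0∞ := (1000 * K)⁻¹ with hε
  have hε0 : ε ≠ 0 := ENNReal.inv_ne_zero.2 (ENNReal.mul_ne_top (by norm_num) hKt)
  refine ⟨ε, hε0, ?_⟩
  intro co g F hF hFg O hO
  have hKε : K * ε = 1 / 1000 := by
    rw [hε, ENNReal.mul_inv (Or.inl (by norm_num)) (Or.inl (by norm_num)), mul_left_comm,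
      ENNReal.mul_inv_cancel hK0 hKt, mul_one, one_div]
  have hε2 : ε ≤ 1 / 1000 := by
    calc ε = 1 * ε := (one_mul _).symm
      _ ≤ K * ε := by
          gcongr
          exact le_trans (by norm_num) hK16
      _ = 1 / 1000 := hKε
  -- induction
  have main : ∀ n : ℕ, n ≤ 4 → ∃ ℓ : Fin 4 → ℕ → G, oef1_Leg S κ K co.w co.C g F O n ℓ := by
    intro n
    induction n with
    | zero =>
      intro _
      exact ⟨fun _ _ => 1, ⟨fun i hi => absurd hi (Nat.not_lt_zero _),
        fun i hi => absurd hi (Nat.not_lt_zero _), fun i hi => absurd hi (Nat.not_lt_zero _),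
        fun i _ hi => absurd hi (Nat.not_lt_zero _), fun i hi => absurd hi (Nat.not_lt_zero _),
        fun i hi => absurd hi (Nat.not_lt_zero _)⟩⟩
    | succ n ih =>
      intro hn
      obtain ⟨ℓ, hℓ⟩ := ih (by omega)
      set i : Fin 4 := ⟨n, by omega⟩ with hi
      have hlt : ∀ j : Fin 4, j < i → (j : ℕ) < n := fun j hj => hj
      -- the potential of the weight
      have hVW : V S (oef1_W S κ K co.w co.C g O ℓ i) (g * co.w i) < 1 := by
        rw [oef1_V_W]
        have h1 : (∑ j : Fin 4, ∑ k : Fin 4, if j ≠ k ∧ i ≠ j ∧ i ≠ k then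
            cost S κ (g • co.C j k) (g * co.w i) else 0) ≤ 16 * (1 / 1000) := by
          have h2 : ∀ j k : Fin 4, (if j ≠ k ∧ i ≠ j ∧ i ≠ k then
              cost S κ (g • co.C j k) (g * co.w i) else 0) ≤ 1 / 1000 := by
            intro j k
            split_ifs with h
            · rw [cost_smul hS]
              exact (co.cost i j k h.2.1 h.2.2 h.1).trans hε2
            · exact zero_le
          calc _ ≤ ∑ _j : Fin 4, ∑ _k : Fin 4, (1 / 1000 : ℝ≥0∞) :=
                Finset.sum_le_sum fun j _ => Finset.sum_le_sum fun k _ => h2 j k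
            _ = 16 * (1 / 1000) := by
                simp only [Finset.sum_const, Finset.card_univ, Fintype.card_fin, nsmul_eq_mul,
                  ← mul_assoc]
                norm_num
        have h3 : (∑ j : Fin 4, if j < i then cost S κ (Set.range (ℓ j)) (g * co.w i) else 0) ≤
            4 * (1 / 16) := by
          have h4 : ∀ j : Fin 4, (if j < i then cost S κ (Set.range (ℓ j)) (g * co.w i) else 0) ≤
              1 / 16 := by
            intro j
            split_ifs with h
            · have h5 := oef1_u1_sum κ K co.w co.C g O ℓ j i (ne_of_gt h) (ℓ j)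
                (hℓ.wt j (hlt j h))
              refine (cost_range_le hS κ (ℓ j) (g * co.w i)).trans ?_
              rw [ENNReal.le_div_iff_mul_le (Or.inl (by norm_num)) (Or.inl (by norm_num))]
              refine le_trans ?_ h5
              rw [mul_comm _ (16 : ℝ≥0∞), ← mul_assoc]
              gcongr
              rw [hK]
              exact le_self_add
            · exact zero_le
          calc _ ≤ ∑ _j : Fin 4, (1 / 16 : ℝ≥0∞) := Finset.sum_le_sum fun j _ => h4 j
            _ = 4 * (1 / 16) := by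
                simp only [Finset.sum_const, Finset.card_univ, Fintype.card_fin, nsmul_eq_mul]
                norm_num
        have h5 : (∑ j : Fin 4, if j ≠ i then
            K * V S (fun y => u1 S (g * co.w j) y) (g * co.w i) else 0) ≤ 4 * (1 / 1000) := by
          have h6 : ∀ j : Fin 4, (if j ≠ i then
              K * V S (fun y => u1 S (g * co.w j) y) (g * co.w i) else 0) ≤ 1 / 1000 := by
            intro j
            split_ifs with h
            · have h7 : (fun y => u1 S (g * co.w j) y) = V S (pt (g * co.w j)) := by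
                funext y
                rw [u1_symm hS]
                rfl
              rw [h7]
              have h8 : V S (V S (pt (g * co.w j))) (g * co.w i) = u2 S (co.w i) (co.w j) :=
                u2_smul g (co.w i) (co.w j)
              rw [h8, ← hKε]
              gcongr
              exact co.u i j (Ne.symm h)
            · exact zero_le
          calc _ ≤ ∑ _j : Fin 4, (1 / 1000 : ℝ≥0∞) := Finset.sum_le_sum fun j _ => h6 j
            _ = 4 * (1 / 1000) := by
                simp only [Finset.sum_const, Finset.card_univ, Fintype.card_fin, nsmul_eq_mul]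
                norm_num
        have h9 := (hO i).trans hε2
        refine lt_of_le_of_lt (add_le_add (add_le_add (add_le_add h9 h1) h3) h5) ?_
        have e1 : (1 / 1000 : ℝ≥0∞) = ((1 / 1000 : ℝ≥0) : ℝ≥0∞) := by
          rw [ENNReal.coe_div (by norm_num)]
          norm_num
        have e2 : (1 / 16 : ℝ≥0∞) = ((1 / 16 : ℝ≥0) : ℝ≥0∞) := by
          rw [ENNReal.coe_div (by norm_num)]
          norm_num
        rw [e1, e2]
        have e3 : ((1 / 1000 : ℝ≥0) : ℝ≥0∞) + 16 * ((1 / 1000 : ℝ≥0) : ℝ≥0∞) +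
            4 * ((1 / 16 : ℝ≥0) : ℝ≥0∞) + 4 * ((1 / 1000 : ℝ≥0) : ℝ≥0∞) =
            (((1 / 1000 : ℝ≥0) + 16 * (1 / 1000 : ℝ≥0) + 4 * (1 / 16 : ℝ≥0) +
              4 * (1 / 1000 : ℝ≥0) : ℝ≥0) : ℝ≥0∞) := by
          push_cast
          rfl
        rw [e3]
        have e4 : ((1 / 1000 : ℝ≥0) + 16 * (1 / 1000 : ℝ≥0) + 4 * (1 / 16 : ℝ≥0) +
              4 * (1 / 1000 : ℝ≥0)) < 1 := by
          rw [← NNReal.coe_lt_coe]
          push_cast
          norm_num
        exact_mod_cast e4
      -- the family of the rays chosen so far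
      have hF' : (F ∪ (ℓ '' {j | j < i})).Finite := hF.union (Set.toFinite _)
      obtain ⟨r, hr0, hr1, hr2, hr3, hr4⟩ := new_ray hS (F ∪ (ℓ '' {j | j < i})) hF' (by
        intro r hr
        rcases hr with hr | ⟨j, hj, rfl⟩
        · exact hFg r hr
        · exact hℓ.good j (hlt j hj)) (g * co.w i) _ hVW
      refine ⟨Function.update ℓ i r, ?_⟩
      have hup : ∀ j : Fin 4, (j : ℕ) < n → Function.update ℓ i r j = ℓ j := by
        intro j hj
        apply Function.update_of_ne
        intro h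
        rw [h] at hj
        exact absurd hj (lt_irrefl _)
      have hupi : Function.update ℓ i r i = r := Function.update_self _ _ _
      have hcase : ∀ j : Fin 4, (j : ℕ) < n + 1 → (j : ℕ) < n ∨ j = i := by
        intro j hj
        rcases Nat.lt_succ_iff_lt_or_eq.1 hj with h | h
        · exact Or.inl h
        · exact Or.inr (Fin.ext h)
      have hWc : ∀ j : Fin 4, (j : ℕ) < n + 1 → ∀ y,
          oef1_W S κ K co.w co.C g O (Function.update ℓ i r) j y =
            oef1_W S κ K co.w co.C g O ℓ j y := by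
        intro j hj y
        apply oef1_W_congr
        intro j' hj'
        apply hup
        have : (j' : ℕ) < j := hj'
        omega
      constructor
      · intro j hj
        rcases hcase j hj with h | rfl
        · rw [hup j h]
          exact hℓ.start j h
        · rw [hupi]
          exact hr0
      · intro j hj
        rcases hcase j hj with h | rfl
        · rw [hup j h]
          exact hℓ.ray j h
        · rw [hupi]
          exact hr1
      · intro j hj
        rcases hcase j hj with h | rfl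
        · rw [hup j h]
          exact hℓ.good j h
        · rw [hupi]
          exact hr2
      · intro j j' hj hj'
        have hjj : (j' : ℕ) < j := hj'
        rw [hup j' (by omega)]
        rcases hcase j hj with h | rfl
        · rw [hup j h]
          exact hℓ.ind j j' h hj'
        · rw [hupi]
          exact hr3 _ (Or.inr ⟨j', hj', rfl⟩)
      · intro j hj r' hr'
        rcases hcase j hj with h | rfl
        · rw [hup j h]
          exact hℓ.indF j h r' hr'
        · rw [hupi]
          exact hr3 _ (Or.inl hr')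
      · intro j hj
        have h1 : ∑' t, oef1_W S κ K co.w co.C g O (Function.update ℓ i r) j
            (Function.update ℓ i r j t) = ∑' t, oef1_W S κ K co.w co.C g O ℓ j
            (Function.update ℓ i r j t) := tsum_congr fun t => hWc j hj _
        rw [h1]
        rcases hcase j hj with h | rfl
        · rw [hup j h]
          exact hℓ.wt j h
        · rw [hupi]
          exact hr4
  obtain ⟨ℓ, hℓ⟩ := main 4 le_rfl
  have h4 : ∀ i : Fin 4, (i : ℕ) < 4 := fun i => i.2
  have hInd : ∀ i j, i ≠ j → Ind S (ℓ i) (ℓ j) := by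
    intro i j hij
    rcases lt_or_gt_of_ne hij with h | h
    · exact Ind.symm hS (hℓ.ind j i (h4 j) h)
    · exact hℓ.ind i j (h4 i) h
  have hfar : ∀ i j : Fin 4, j < i → Far (Cay S) κ (Set.range (ℓ i)) (Set.range (ℓ j)) := by
    intro i j hij
    apply far_of_tsum hS
    refine lt_of_le_of_lt ?_ (hℓ.wt i (h4 i))
    refine ENNReal.tsum_le_tsum fun t => ?_
    have h1 := Finset.single_le_sum
      (f := fun j : Fin 4 => if j < i then
        (nb (Cay S) κ (Set.range (ℓ j))).indicator (1 : G → ℝ≥0∞) (ℓ i t) else 0)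
      (fun _ _ => zero_le) (Finset.mem_univ j)
    simp only [if_pos hij] at h1
    refine h1.trans ?_
    unfold oef1_W
    exact le_trans le_add_self le_self_add
  refine ⟨ℓ, fun i => hℓ.start i (h4 i), fun i => hℓ.ray i (h4 i), fun i => hℓ.good i (h4 i),
    hInd, fun i r hr => hℓ.indF i (h4 i) r hr, ?_, ?_, ?_⟩
  · intro i
    rw [Set.disjoint_left]
    rintro _ ⟨t, rfl⟩ ht
    have h1 := hℓ.wt i (h4 i)
    have h2 := (ENNReal.le_tsum (f := fun t => oef1_W S κ K co.w co.C g O ℓ i (ℓ i t)) t)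
    have h3 : (1 : ℝ≥0∞) ≤ oef1_W S κ K co.w co.C g O ℓ i (ℓ i t) := by
      have h5 : (O.indicator 1 (ℓ i t) : ℝ≥0∞) = 1 := by
        rw [Set.indicator_of_mem ht]
        rfl
      unfold oef1_W
      rw [h5, add_assoc, add_assoc]
      exact le_self_add
    exact absurd (h3.trans h2) (not_le.2 h1)
  · intro i j hij
    rcases lt_or_gt_of_ne hij with h | h
    · exact (hfar j i h).symm
    · exact hfar i j h
  · intro i j k hij hik hjk
    apply far_of_tsum hS
    refine lt_of_le_of_lt ?_ (hℓ.wt i (h4 i))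
    refine ENNReal.tsum_le_tsum fun t => ?_
    have h1 := Finset.single_le_sum
      (f := fun k : Fin 4 => if j ≠ k ∧ i ≠ j ∧ i ≠ k then
        (nb (Cay S) κ (g • co.C j k)).indicator (1 : G → ℝ≥0∞) (ℓ i t) else 0)
      (fun _ _ => zero_le) (Finset.mem_univ k)
    simp only [if_pos (⟨hjk, hij, hik⟩ : j ≠ k ∧ i ≠ j ∧ i ≠ k)] at h1
    have h2 := Finset.single_le_sum
      (f := fun j : Fin 4 => ∑ k : Fin 4, if j ≠ k ∧ i ≠ j ∧ i ≠ k then
        (nb (Cay S) κ (g • co.C j k)).indicator (1 : G → ℝ≥0∞) (ℓ i t) else 0)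
      (fun _ _ => zero_le) (Finset.mem_univ j)
    refine h1.trans (h2.trans ?_)
    unfold oef1_W
    exact le_trans le_add_self (le_trans le_self_add le_self_add)

end group

end Pool.Agent.Lib.MP_0f7bfe_al.OE
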