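import Pool.Agent.Lib.MP_0f7bfe_al.OE.B1
import Pool.Agent.Lib.MP_0f7bfe_al.OE.D2
import Pool.Agent.Lib.MP_0f7bfe_al.OE.D3
import Pool.Agent.Lib.MP_0f7bfe_al.OE.D4
import Pool.Agent.Lib.MP_0f7bfe_al.OE.A5
import Pool.Agent.Lib.MP_0f7bfe_al.OE.A6
import Pool.Agent.Lib.MP_0f7bfe_al.OE.A9
import Pool.Agent.Lib.MP_0f7bfe_al.OE.A10
import Pool.Agent.Lib.MP_0f7bfe_al.OE.F1

open scoped Pointwise ENNReal NNReal

namespace Pool.Agent.Lib.MP_0f7bfe_al.OE

universe u v w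

section group
variable {G : Type u} [Group G] {S : Finset G}

theorem oef2_V_sum {ι : Type v} (s : Finset ι) (w : ι → G → ℝ≥0∞) (x : G) :
    V S (fun y => ∑ i ∈ s, w i y) x = ∑ i ∈ s, V S (w i) x := by
  classical
  induction s using Finset.induction_on with
  | empty =>
    have h := V_mul (S := S) 0 (fun _ => (0 : ℝ≥0∞)) x
    simpa using h
  | insert a s ha ih =>
    simp only [Finset.sum_insert ha]
    rw [V_add (w a) (fun y => ∑ i ∈ s, w i y) x, ih]

theorem oef2_fc_smul (g : G) {A : Set G} (h : FC (Cay S) A) : FC (Cay S) (g • A) := by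
  refine ⟨h.fin.smul_set, ?_⟩
  have e : (Cay S).induce A ≃g (Cay S).induce (g • A) :=
    { toFun := fun a => ⟨g * a.1, Set.smul_mem_smul_set a.2⟩
      invFun := fun b => ⟨g⁻¹ * b.1, by
        obtain ⟨a, ha, hb⟩ := b.2
        rw [← hb]
        simpa using ha⟩
      left_inv := fun a => by simp
      right_inv := fun b => by simp
      map_rel_iff' := by
        intro a b
        simp only [SimpleGraph.comap_adj, Function.Embedding.subtype_apply, Equiv.coe_fn_mk]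
        exact SimpleGraph.mulCayley_adj_mul_iff_right }
  exact e.connected_iff.1 h.conn

theorem crossing (hS : Setup S) (h1 : OneEnd (Cay S))
    (hcore : ∀ (κ : ℕ) (ε : ℝ≥0∞), ε ≠ 0 → Nonempty (Core S κ ε)) (κ n : ℕ)
    (hns : NoSpider (Cay S) n) {L1 L2 : List (ℕ → G)} {m : ℕ → G} (hPF : PF S (L1 ++ m :: L2))
    (hl1 : 2 * n + 2 ≤ L1.length) (hl2 : 2 * n + 2 ≤ L2.length) {B : Set G} (hB : B.Finite) :
    ∃ l0 l1 l2 l3 C C', Crossing S κ B L1 L2 l0 l1 l2 l3 C C' := by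
  classical
  have hN := nice_cay hS
  set F : Set (ℕ → G) := {r | r ∈ L1 ++ m :: L2} with hFdef
  have hFin : F.Finite := List.finite_toSet _
  have hF : Fam (Cay S) F :=
    ⟨hFin, hPF.ray, fun r hr r' hr' hne => (hPF.ind r hr r' hr' hne).dvg hS⟩
  have hmF : m ∈ F := by simp [hFdef]
  obtain ⟨a, ha⟩ : ∃ a, L1.getLast? = some a := by
    rw [← Option.isSome_iff_exists, List.getLast?_isSome]
    rintro rfl
    simp at hl1
  obtain ⟨b, hb⟩ : ∃ b, L2.head? = some b := by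
    rw [← Option.isSome_iff_exists, List.isSome_head?]
    rintro rfl
    simp at hl2
  -- the constants
  have hex : ∀ t, ∃ (κt : ℕ) (Bt : Set G), Bt.Finite ∧ (t ∈ F → t ≠ m → t ≠ a → t ≠ b →
      ¬ ∃ Q, Rung (Cay S) κt Bt F m t Q) := by
    intro t
    by_cases ht : t ∈ F ∧ t ≠ m ∧ t ≠ a ∧ t ≠ b
    · have hno : ¬ RAdj (Cay S) F m t := by
        intro h
        rcases central hns hF hPF.nodup hPF.chain (by omega) (by omega) ht.1 ht.2.1 h with h' | h'
        · rw [ha] at h'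
          exact ht.2.2.1 (Option.some.inj h').symm
        · rw [hb] at h'
          exact ht.2.2.2 (Option.some.inj h').symm
      unfold RAdj at hno
      push Not at hno
      obtain ⟨κt, Bt, hBt, hQ⟩ := hno
      exact ⟨κt, Bt, hBt, fun _ _ _ _ ⟨Q, h⟩ => hQ Q h⟩
    · exact ⟨0, ∅, Set.finite_empty, fun h1 h2 h3 h4 => absurd ⟨h1, h2, h3, h4⟩ ht⟩
  choose κt Bt hBt hno using hex
  set κ1 : ℕ := κ + ∑ t ∈ hFin.toFinset, κt t with hκ1
  set B1 : Set G := B ∪ ⋃ t ∈ F, Bt t with hB1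
  have hB1fin : B1.Finite := hB.union (hFin.biUnion fun t _ => hBt t)
  have hκκ1 : κ ≤ κ1 := Nat.le_add_right _ _
  have hno1 : ∀ t ∈ F, t ≠ m → t ≠ a → t ≠ b → ¬ ∃ Q, Rung (Cay S) κ1 B1 F m t Q := by
    rintro t ht h1 h2 h3 ⟨Q, hQ⟩
    refine hno t ht h1 h2 h3 ⟨Q, hQ.mono ?_ ?_ subset_rfl⟩
    · have : κt t ≤ ∑ t ∈ hFin.toFinset, κt t :=
        Finset.single_le_sum (f := κt) (fun _ _ => Nat.zero_le _) (hFin.mem_toFinset.2 ht)
      omega
    · exact (Set.subset_biUnion_of_mem (u := Bt) ht).trans Set.subset_union_right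
  obtain ⟨ε, hε, hlegs⟩ := legs hS κ1
  obtain ⟨co⟩ := hcore κ1 ε hε
  -- size of the gadget
  set Z : Set G := Set.range co.w ∪ ⋃ i, ⋃ j, ⋃ (_ : i ≠ j), co.C i j with hZ
  have hZfin : Z.Finite := by
    refine (Set.finite_range _).union (Set.finite_iUnion fun i => Set.finite_iUnion fun j =>
      Set.finite_iUnion fun hij => (co.fc i j hij).fin)
  obtain ⟨D0, hD0⟩ := (hZfin.image (fun z => (Cay S).dist 1 z)).bddAbove
  have hD : ∀ z ∈ Z, (Cay S).dist 1 z ≤ D0 := fun z hz => hD0 ⟨z, hz, rfl⟩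
  -- small costs
  set ε' : ℝ≥0∞ := ε / ((hFin.toFinset.card : ℝ≥0∞) + 1) with hε'
  have hε'0 : ε' ≠ 0 := by
    rw [hε']
    refine (ENNReal.div_pos hε ?_).ne'
    exact ENNReal.add_ne_top.2 ⟨ENNReal.natCast_ne_top _, ENNReal.one_ne_top⟩
  have hm : IsRay (Cay S) m := hPF.ray m hmF
  have e1 : ∀ᶠ s in Filter.atTop, ∀ y, (Cay S).dist (m s) y ≤ D0 → cost S 0 B1 y ≤ ε' := by
    obtain ⟨s0, hs0⟩ := cost_finite_tendsto hS hm hB1fin 0 D0 ε' hε'0
    exact Filter.eventually_atTop.2 ⟨s0, hs0⟩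
  have e2 : ∀ᶠ s in Filter.atTop, ∀ r ∈ F, r ≠ m → ∀ y, (Cay S).dist (m s) y ≤ D0 →
      cost S κ1 (Set.range r) y ≤ ε' := by
    refine (Filter.eventually_all_finite hFin).2 fun r hr => ?_
    by_cases hrm : r = m
    · exact Filter.Eventually.of_forall fun s h => absurd hrm h
    · obtain ⟨s0, hs0⟩ := (hPF.ind m hmF r hr (Ne.symm hrm)).cost hS κ1 D0 ε' hε'0
      exact Filter.eventually_atTop.2 ⟨s0, fun s hs _ => hs0 s hs⟩
  have e3 : ∀ᶠ s in Filter.atTop, ∀ r ∈ F, r ≠ m → Far (Cay S) (κ1 + D0) {m s} (Set.range r) := by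
    refine (Filter.eventually_all_finite hFin).2 fun r hr => ?_
    by_cases hrm : r = m
    · exact Filter.Eventually.of_forall fun s h => absurd hrm h
    · obtain ⟨s0, hs0⟩ := (hF.dvg m hmF r hr (Ne.symm hrm)).far (κ1 + D0)
      exact Filter.eventually_atTop.2 ⟨s0, fun s hs _ => hs0 s hs⟩
  have e4 : ∀ᶠ s in Filter.atTop, m s ∉ nb (Cay S) D0 B1 := by
    obtain ⟨s0, hs0⟩ := hm.leaves (nb_finite hN D0 hB1fin)
    exact Filter.eventually_atTop.2 ⟨s0, hs0⟩
  obtain ⟨s, hs1, hs2, hs3, hs4⟩ := (e1.and (e2.and (e3.and e4))).exists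
  set g : G := m s with hg
  set K : Set G := {y | (Cay S).dist g y ≤ D0} with hK
  have hKfc : FC (Cay S) K := fc_ball hN g D0
  have hgZ : ∀ z ∈ Z, g * z ∈ K := by
    intro z hz
    show (Cay S).dist g (g * z) ≤ D0
    have := dist_cay_smul hS g 1 z
    rw [mul_one] at this
    rw [this]
    exact hD z hz
  have hKB : Disjoint K B1 := by
    rw [Set.disjoint_left]
    intro y hy hyB
    apply hs4
    exact ⟨y, hyB, by rw [SimpleGraph.dist_comm]; exact hy⟩
  have hKF : ∀ r ∈ F, r ≠ m → Far (Cay S) κ1 K (Set.range r) := by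
    intro r hr hrm y hy z hz
    have h2 := hs3 r hr hrm g rfl z hz
    have h3 := hN.conn.dist_triangle (u := g) (v := y) (w := z)
    have h4 : (Cay S).dist g y ≤ D0 := hy
    omega
  -- the obstacle
  set O : Set G := B1 ∪ ⋃ r ∈ (F \ {m}), nb (Cay S) κ1 (Set.range r) with hO
  have hV : ∀ i, V S (O.indicator 1) (g * co.w i) ≤ ε := by
    intro i
    have hy : (Cay S).dist g (g * co.w i) ≤ D0 := hgZ _ (Or.inl ⟨i, rfl⟩)
    have hle : ∀ y, O.indicator (1 : G → ℝ≥0∞) y ≤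
        (nb (Cay S) 0 B1).indicator (1 : G → ℝ≥0∞) y +
        ∑ r ∈ (hFin.toFinset.erase m), (nb (Cay S) κ1 (Set.range r)).indicator (1 : G → ℝ≥0∞) y := by
      intro y
      by_cases hyO : y ∈ O
      · rw [Set.indicator_of_mem hyO]
        rcases hyO with h | h
        · have : y ∈ nb (Cay S) 0 B1 := ⟨y, h, by simp⟩
          rw [Set.indicator_of_mem this]
          exact le_self_add
        · simp only [Set.mem_iUnion] at h
          obtain ⟨r, hr, hyr⟩ := h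
          have hr' : r ∈ hFin.toFinset.erase m := by
            rw [Finset.mem_erase, hFin.mem_toFinset]
            exact ⟨fun h => hr.2 h, hr.1⟩
          have h5 := Finset.single_le_sum
            (f := fun r => (nb (Cay S) κ1 (Set.range r)).indicator (1 : G → ℝ≥0∞) y)
            (fun _ _ => zero_le) hr'
          rw [Set.indicator_of_mem hyr] at h5
          exact h5.trans le_add_self
      · rw [Set.indicator_of_notMem hyO]
        exact zero_le
    refine (V_mono hle _).trans ?_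
    rw [V_add ((nb (Cay S) 0 B1).indicator (1 : G → ℝ≥0∞)) (fun y =>
      ∑ r ∈ (hFin.toFinset.erase m), (nb (Cay S) κ1 (Set.range r)).indicator (1 : G → ℝ≥0∞) y),
      oef2_V_sum]
    have h6 : V S ((nb (Cay S) 0 B1).indicator (1 : G → ℝ≥0∞)) (g * co.w i) ≤ ε' := hs1 _ hy
    have h7 : ∑ r ∈ (hFin.toFinset.erase m),
        V S ((nb (Cay S) κ1 (Set.range r)).indicator (1 : G → ℝ≥0∞)) (g * co.w i) ≤
        ∑ _r ∈ (hFin.toFinset.erase m), ε' := by
      refine Finset.sum_le_sum fun r hr => ?_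
      rw [Finset.mem_erase, hFin.mem_toFinset] at hr
      exact hs2 r hr.2 hr.1 _ hy
    rw [Finset.sum_const, nsmul_eq_mul] at h7
    have h8 : (((hFin.toFinset.erase m).card : ℕ) : ℝ≥0∞) ≤ (hFin.toFinset.card : ℝ≥0∞) := by
      exact_mod_cast Finset.card_le_card (Finset.erase_subset _ _)
    calc _ ≤ ε' + ((hFin.toFinset.erase m).card : ℝ≥0∞) * ε' := add_le_add h6 h7
      _ ≤ ε' + (hFin.toFinset.card : ℝ≥0∞) * ε' := by gcongr
      _ = ((hFin.toFinset.card : ℝ≥0∞) + 1) * ε' := by ring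
      _ ≤ ε := by rw [hε']; exact ENNReal.mul_div_le
  obtain ⟨ℓ, hℓ0, hℓray, hℓgood, hℓind, hℓF, hℓO, hℓfar, hℓC⟩ :=
    hlegs co g F hFin hPF.good O hV
  have hinj : Function.Injective ℓ := by
    intro i j hij
    by_contra hne
    have := hℓind i j hne
    rw [hij] at this
    exact not_ind_self hS _ this
  have hℓnot : ∀ i, ℓ i ∉ L1 ++ m :: L2 := fun i hi => not_ind_self hS _ (hℓF i _ hi)
  have hℓFar : ∀ i, ∀ r ∈ F, r ≠ m → Far (Cay S) κ1 (Set.range (ℓ i)) (Set.range r) := by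
    intro i r hr hrm x hx y hy
    by_contra hc
    have : x ∈ O := by
      right
      simp only [Set.mem_iUnion]
      exact ⟨r, ⟨hr, hrm⟩, y, hy, by rw [SimpleGraph.dist_comm]; omega⟩
    exact (Set.disjoint_left.1 (hℓO i)) hx this
  have hℓB1 : ∀ i, Disjoint (Set.range (ℓ i)) B1 := fun i =>
    (hℓO i).mono_right Set.subset_union_left
  have hmK : ∃ s, m s ∈ K := ⟨s, by show (Cay S).dist g (m s) ≤ D0; rw [← hg]; simp⟩
  have hℓK : ∀ i, ℓ i 0 ∈ K := fun i => by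
    rw [hℓ0]
    exact hgZ _ (Or.inl ⟨i, rfl⟩)
  have hFam : Fam (Cay S) (F ∪ Set.range ℓ) := by
    refine ⟨hFin.union (Set.finite_range _), ?_, ?_⟩
    · rintro r (hr | ⟨i, rfl⟩)
      · exact hPF.ray r hr
      · exact hℓray i
    · rintro r (hr | ⟨i, rfl⟩) r' (hr' | ⟨j, rfl⟩) hne
      · exact hF.dvg r hr r' hr' hne
      · exact ((hℓF j r hr).dvg hS).symm
      · exact (hℓF i r' hr').dvg hS
      · exact (hℓind i j (fun h => hne (by rw [h]))).dvg hS
  have hloc : ∀ i, ∀ F' : Set (ℕ → G), F ⊆ F' → ∀ t ∈ L1 ++ m :: L2, t ≠ m →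
      t ≠ a → t ≠ b → ¬ RAdj (Cay S) F' (ℓ i) t := by
    intro i F' hFF' t ht htm hta htb
    exact locality hN (hno1 t ht htm hta htb) K hKfc hKB hmK (hℓK i) hKF (hℓray i).step
      (hℓB1 i) (hℓFar i) (hℓnot i) ht htm hFF' hB1fin
  obtain ⟨σ, hσ⟩ := legs_insert hN h1 hns hFam hPF.nodup hinj hℓnot hPF.chain (by omega)
    (by omega) ha hb hloc
  have hnd := hPF.nodup
  rw [List.nodup_append] at hnd
  obtain ⟨hnd1, hnd2, hnd3⟩ := hnd
  rw [List.nodup_cons] at hnd2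
  have hL12 : ∀ r, r ∈ L1 ∨ r ∈ L2 → r ∈ F ∧ r ≠ m := by
    rintro r (hr | hr)
    · exact ⟨List.mem_append_left _ hr, hnd3 r hr m (by simp)⟩
    · exact ⟨List.mem_append_right _ (List.mem_cons_of_mem _ hr), fun h => hnd2.1 (h ▸ hr)⟩
  have hσne : ∀ i j, i ≠ j → σ i ≠ σ j := fun i j h h' => h (σ.injective h')
  have hmem : ∀ r, r ∈ L1 ++ ℓ (σ 0) :: ℓ (σ 1) :: ℓ (σ 2) :: ℓ (σ 3) :: L2 →
      r ∈ F ∨ ∃ i, r = ℓ i := by
    intro r hr
    simp only [List.mem_append, List.mem_cons] at hr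
    rcases hr with h | h | h | h | h | h
    · exact Or.inl (hL12 r (Or.inl h)).1
    · exact Or.inr ⟨_, h⟩
    · exact Or.inr ⟨_, h⟩
    · exact Or.inr ⟨_, h⟩
    · exact Or.inr ⟨_, h⟩
    · exact Or.inl (hL12 r (Or.inr h)).1
  have hCK : ∀ i j, i ≠ j → g • co.C i j ⊆ K := by
    rintro i j hij _ ⟨z, hz, rfl⟩
    exact hgZ z (Or.inr (by simp only [Set.mem_iUnion]; exact ⟨i, j, hij, hz⟩))
  have hBB1 : B ⊆ B1 := Set.subset_union_left
  have hleg : ∀ l, l = ℓ (σ 0) ∨ l = ℓ (σ 1) ∨ l = ℓ (σ 2) ∨ l = ℓ (σ 3) → ∃ i, l = ℓ i := by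
    rintro l (h | h | h | h) <;> exact ⟨_, h⟩
  refine ⟨ℓ (σ 0), ℓ (σ 1), ℓ (σ 2), ℓ (σ 3), g • co.C (σ 0) (σ 2), g • co.C (σ 1) (σ 3), ?_⟩
  have h01 : σ 0 ≠ σ 1 := hσne _ _ (by decide)
  have h02 : σ 0 ≠ σ 2 := hσne _ _ (by decide)
  have h03 : σ 0 ≠ σ 3 := hσne _ _ (by decide)
  have h12 : σ 1 ≠ σ 2 := hσne _ _ (by decide)
  have h13 : σ 1 ≠ σ 3 := hσne _ _ (by decide)
  have h23 : σ 2 ≠ σ 3 := hσne _ _ (by decide)
  have hfarK : ∀ {A A' : Set G}, Far (Cay S) κ1 A A' → Far (Cay S) κ A A' := fun h =>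
    h.mono hκκ1 subset_rfl subset_rfl
  constructor
  · -- the path family
    refine ⟨?_, ?_, ?_, ?_, hσ⟩
    · rw [List.nodup_append]
      refine ⟨hnd1, ?_, ?_⟩
      · have hn : ∀ i, ℓ i ∉ L2 := fun i h =>
          hℓnot i (List.mem_append_right _ (List.mem_cons_of_mem _ h))
        simp only [List.nodup_cons, List.mem_cons, not_or]
        exact ⟨⟨hinj.ne h01, hinj.ne h02, hinj.ne h03, hn _⟩,
          ⟨hinj.ne h12, hinj.ne h13, hn _⟩, ⟨hinj.ne h23, hn _⟩, hn _, hnd2.2⟩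
      · intro x hx y hy hxy
        subst hxy
        have hn : ∀ i, x ≠ ℓ i := fun i h => hℓnot i (List.mem_append_left _ (h ▸ hx))
        simp only [List.mem_cons] at hy
        rcases hy with h | h | h | h | h
        · exact hn _ h
        · exact hn _ h
        · exact hn _ h
        · exact hn _ h
        · exact hnd3 x hx x (List.mem_cons_of_mem _ h) rfl
    · intro r hr
      rcases hmem r hr with h | ⟨i, rfl⟩
      · exact hPF.ray r h
      · exact hℓray i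
    · intro r hr
      rcases hmem r hr with h | ⟨i, rfl⟩
      · exact hPF.good r h
      · exact hℓgood i
    · intro r hr r' hr' hne
      rcases hmem r hr with h | ⟨i, rfl⟩ <;> rcases hmem r' hr' with h' | ⟨j, rfl⟩
      · exact hPF.ind r h r' h' hne
      · exact (hℓF j r h).symm hS
      · exact hℓF i r' h'
      · exact hℓind i j (fun h => hne (by rw [h]))
  · exact oef2_fc_smul g (co.fc _ _ h02)
  · exact oef2_fc_smul g (co.fc _ _ h13)
  · rw [hℓ0]; exact Set.smul_mem_smul_set (co.left _ _ h02)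
  · rw [hℓ0]; exact Set.smul_mem_smul_set (co.right _ _ h02)
  · rw [hℓ0]; exact Set.smul_mem_smul_set (co.left _ _ h13)
  · rw [hℓ0]; exact Set.smul_mem_smul_set (co.right _ _ h13)
  · exact hKB.mono (hCK _ _ h02) hBB1
  · exact hKB.mono (hCK _ _ h13) hBB1
  · intro l hl
    obtain ⟨i, rfl⟩ := hleg l hl
    exact (hℓB1 i).mono_right hBB1
  · rintro _ ⟨x, hx, rfl⟩ _ ⟨y, hy, rfl⟩
    show κ < (Cay S).dist (g * x) (g * y)
    rw [dist_cay_smul hS]
    exact lt_of_le_of_lt hκκ1 (co.far _ _ _ _ h02 h13 h01 h03 h12.symm h23 x hx y hy)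
  · simp only [List.pairwise_cons, List.mem_cons, List.not_mem_nil, or_false, forall_eq_or_imp,
      forall_eq, false_implies, implies_true, List.Pairwise.nil, and_true]
    exact ⟨⟨hfarK (hℓfar _ _ h01), hfarK (hℓfar _ _ h02), hfarK (hℓfar _ _ h03)⟩,
      ⟨hfarK (hℓfar _ _ h12), hfarK (hℓfar _ _ h13)⟩, hfarK (hℓfar _ _ h23)⟩
  · exact (hfarK (hℓC _ _ _ h01.symm h12 h02)).symm
  · exact (hfarK (hℓC _ _ _ h03.symm h23.symm h02)).symm
  · exact (hfarK (hℓC _ _ _ h01 h03 h13)).symm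
  · exact (hfarK (hℓC _ _ _ h12.symm h23 h13)).symm
  · intro r hr
    obtain ⟨hrF, hrm⟩ := hL12 r hr
    exact ⟨(hKF r hrF hrm).mono hκκ1 (hCK _ _ h02) subset_rfl,
      (hKF r hrF hrm).mono hκκ1 (hCK _ _ h13) subset_rfl⟩
  · intro l hl r hr
    obtain ⟨i, rfl⟩ := hleg l hl
    obtain ⟨hrF, hrm⟩ := hL12 r hr
    exact hfarK (hℓFar i r hrF hrm)

end group

end Pool.Agent.Lib.MP_0f7bfe_al.OE
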