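import Pool.Agent.Lib.MP_0f7bfe_al.OE.Defs
import Pool.Agent.Lib.MP_0f7bfe_al.OE.B1

open scoped Pointwise ENNReal NNReal

namespace Pool.Agent.Lib.MP_0f7bfe_al.OE

universe u v w

section graph
variable {X : Type u} {Gr : SimpleGraph X}

variable {τ : Type v}

/-! ### C1 -/

theorem oec1_far {κ : ℕ} {A K : Set X} (h : Disjoint A (nb Gr κ K)) : Far Gr κ K A := by
  intro a ha b hb
  by_contra hlt
  exact Set.disjoint_left.1 h hb ⟨a, ha, not_lt.1 hlt⟩

theorem oec1_far' {κ : ℕ} {A K : Set X} (h : Disjoint A (nb Gr κ K)) : Far Gr κ A K :=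
  (oec1_far h).symm

/-- a token may be stopped late enough to be far from the other rays -/
theorem oec1_exists (κ : ℕ) {T : Set τ} (hT : T.Finite) {c : τ → ℕ → X} {r : ℕ → X}
    (hr : IsRay Gr r) {i : τ} (hd : ∀ j ∈ T, j ≠ i → Dvg Gr r (c j)) {B : Set X}
    (hB : B.Finite) : ∃ s0, ∀ s, s0 ≤ s → r s ∉ B ∧
      ∀ j ∈ T, j ≠ i → Far Gr κ {r s} (Set.range (c j)) := by
  have h1 : ∀ᶠ s in Filter.atTop, r s ∉ B := by
    rw [Filter.eventually_atTop]
    exact hr.leaves hB
  have h2 : ∀ᶠ s in Filter.atTop, ∀ j ∈ T, j ≠ i → Far Gr κ {r s} (Set.range (c j)) := by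
    rw [Filter.eventually_all_finite hT]
    intro j hj
    by_cases hji : j = i
    · exact Filter.Eventually.of_forall fun s h => absurd hji h
    · have h3 : ∀ᶠ s in Filter.atTop, Far Gr κ {r s} (Set.range (c j)) := by
        rw [Filter.eventually_atTop]
        exact (hd j hj hji).far κ
      filter_upwards [h3] with s hs _
      exact hs
  obtain ⟨s0, hs0⟩ := Filter.eventually_atTop.1 (h1.and h2)
  exact ⟨s0, hs0⟩

theorem completable_done (hN : Nice Gr) (κ : ℕ) {T : Set τ} (hT : T.Finite) {c : τ → ℕ → X}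
    (hr : ∀ i ∈ T, IsRay Gr (c i)) (hd : ∀ i ∈ T, ∀ j ∈ T, i ≠ j → Dvg Gr (c i) (c j)) :
    Completable Gr κ T c ∅ := by
  intro B hB
  have h1 : ∀ i, ∃ t, i ∈ T → c i t ∉ B ∧
      ∀ j ∈ T, j ≠ i → Far Gr κ {c i t} (Set.range (c j)) := by
    intro i
    by_cases hi : i ∈ T
    · obtain ⟨s0, hs0⟩ := oec1_exists κ hT (hr i hi) (i := i)
        (fun j hj hji => hd i hi j hj (Ne.symm hji)) hB
      exact ⟨s0, fun _ => hs0 s0 le_rfl⟩
    · exact ⟨0, fun h => absurd h hi⟩
  choose t ht using h1
  refine ⟨⟨fun i => {c i (t i)}, fun _ => ∅, t, fun i _ => fc_singleton _, ?_, ?_, ?_, ?_, ?_, ?_,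
    ?_, ?_, ?_, ?_⟩⟩
  · intro i hi
    exact Set.disjoint_singleton_left.2 (ht i hi).1
  · intro i _
    exact rfl
  · intro e he
    exact absurd he (Set.notMem_empty e)
  · intro e he
    exact absurd he (Set.notMem_empty e)
  · intro e he
    exact absurd he (Set.notMem_empty e)
  · intro i hi j hj hij
    exact ((ht i hi).2 j hj (Ne.symm hij)).mono le_rfl subset_rfl
      (Set.singleton_subset_iff.2 ⟨t j, rfl⟩)
  · intro i hi j hj hij
    exact ((ht i hi).2 j hj (Ne.symm hij)).mono le_rfl subset_rfl (Set.image_subset_range _ _)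
  · intro e he
    exact absurd he (Set.notMem_empty e)
  · intro e he
    exact absurd he (Set.notMem_empty e)
  · intro e he
    exact absurd he (Set.notMem_empty e)

theorem completable_drop (hN : Nice Gr) (κ : ℕ) {T : Set τ} (hT : T.Finite) {c : τ → ℕ → X}
    (hr : ∀ i ∈ T, IsRay Gr (c i)) (hd : ∀ i ∈ T, ∀ j ∈ T, i ≠ j → Dvg Gr (c i) (c j))
    {E : Set (Sym2 τ)} (i : τ) (hi : ∀ e ∈ E, i ∉ e) (h : Completable Gr κ (T \ {i}) c E) :
    Completable Gr κ T c E := by
  classical
  by_cases hiT : i ∈ T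
  swap
  · rwa [Set.sdiff_singleton_eq_self hiT] at h
  intro B hB
  obtain ⟨s0, hs0⟩ := oec1_exists κ hT (hr i hiT) (i := i)
    (fun j hj hji => hd i hiT j hj (Ne.symm hji)) hB
  obtain ⟨hs1, hs2⟩ := hs0 s0 le_rfl
  have hK : (nb Gr κ (c i '' Set.Iic s0)).Finite :=
    nb_finite hN κ ((Set.finite_Iic s0).image _)
  obtain ⟨γ⟩ := h (B ∪ nb Gr κ (c i '' Set.Iic s0)) (hB.union hK)
  have hmem : ∀ j, j ∈ T → j ≠ i → j ∈ T \ {i} := fun j hj hji => ⟨hj, hji⟩
  have hA : ∀ j, j ∈ T → j ≠ i → Disjoint (γ.A j) B ∧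
      Disjoint (γ.A j) (nb Gr κ (c i '' Set.Iic s0)) := fun j hj hji =>
    ⟨(γ.disjA j (hmem j hj hji)).mono_right Set.subset_union_left,
      (γ.disjA j (hmem j hj hji)).mono_right Set.subset_union_right⟩
  have hP : ∀ e ∈ E, Disjoint (γ.P e) B ∧
      Disjoint (γ.P e) (nb Gr κ (c i '' Set.Iic s0)) := fun e he =>
    ⟨(γ.disjP e he).mono_right Set.subset_union_left,
      (γ.disjP e he).mono_right Set.subset_union_right⟩
  have hsub : {c i s0} ⊆ c i '' Set.Iic s0 :=
    Set.singleton_subset_iff.2 ⟨s0, Set.mem_Iic.2 le_rfl, rfl⟩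
  refine ⟨⟨Function.update γ.A i {c i s0}, γ.P, Function.update γ.t i s0, ?_, ?_, ?_, γ.fcP,
    fun e he => (hP e he).1, ?_, ?_, ?_, γ.farPP, ?_, ?_⟩⟩
  · intro j hj
    by_cases hji : j = i
    · subst hji
      rw [Function.update_self]
      exact fc_singleton _
    · rw [Function.update_of_ne hji]
      exact γ.fcA j (hmem j hj hji)
  · intro j hj
    by_cases hji : j = i
    · subst hji
      rw [Function.update_self]
      exact Set.disjoint_singleton_left.2 hs1
    · rw [Function.update_of_ne hji]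
      exact (hA j hj hji).1
  · intro j hj
    by_cases hji : j = i
    · subst hji
      rw [Function.update_self, Function.update_self]
      exact rfl
    · rw [Function.update_of_ne hji, Function.update_of_ne hji]
      exact γ.mem j (hmem j hj hji)
  · intro e he j hj
    have hji : j ≠ i := fun h => hi e he (h ▸ hj)
    rw [Function.update_of_ne hji]
    exact γ.meet e he j hj
  · intro j hj k hk hjk
    by_cases hji : j = i
    · subst hji
      rw [Function.update_self, Function.update_of_ne (Ne.symm hjk)]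
      exact (oec1_far (hA k hk (Ne.symm hjk)).2).mono le_rfl hsub subset_rfl
    · rw [Function.update_of_ne hji]
      by_cases hki : k = i
      · subst hki
        rw [Function.update_self]
        exact (oec1_far' (hA j hj hji).2).mono le_rfl subset_rfl hsub
      · rw [Function.update_of_ne hki]
        exact γ.farAA j (hmem j hj hji) k (hmem k hk hki) hjk
  · intro j hj k hk hjk
    by_cases hji : j = i
    · subst hji
      rw [Function.update_self, Function.update_of_ne (Ne.symm hjk)]
      exact (hs2 k hk (Ne.symm hjk)).mono le_rfl subset_rfl (Set.image_subset_range _ _)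
    · rw [Function.update_of_ne hji]
      by_cases hki : k = i
      · subst hki
        rw [Function.update_self]
        exact oec1_far' (hA j hj hji).2
      · rw [Function.update_of_ne hki]
        exact γ.farAc j (hmem j hj hji) k (hmem k hk hki) hjk
  · intro e he j hj hje
    by_cases hji : j = i
    · subst hji
      rw [Function.update_self]
      exact (oec1_far' (hP e he).2).mono le_rfl subset_rfl hsub
    · rw [Function.update_of_ne hji]
      exact γ.farPA e he j (hmem j hj hji) hje
  · intro e he j hj hje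
    by_cases hji : j = i
    · subst hji
      rw [Function.update_self]
      exact oec1_far' (hP e he).2
    · rw [Function.update_of_ne hji]
      exact γ.farPc e he j (hmem j hj hji) hje

end graph

end Pool.Agent.Lib.MP_0f7bfe_al.OE
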