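import Pool.Agent.Lib.MP_0f7bfe_al.OE.Defs
import Pool.Agent.Lib.MP_0f7bfe_al.OE.B1
import Pool.Agent.Lib.MP_0f7bfe_al.OE.C1

open scoped Pointwise ENNReal NNReal

namespace Pool.Agent.Lib.MP_0f7bfe_al.OE

universe u v w

section graph
variable {X : Type u} {Gr : SimpleGraph X}

variable {τ : Type v}

/-! ### C2 -/

/-- a completion may be modified such that the token `i` is stopped earlier -/
theorem oec2_shrink (hN : Nice Gr) {κ : ℕ} {B B' : Set X} {T : Set τ} {c : τ → ℕ → X}
    {E : Set (Sym2 τ)} (γ : Completion Gr κ B' T c E) (hBB : B ⊆ B') {i : τ} (hi : i ∈ T)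
    (hr : IsRay Gr (c i)) {s1 : ℕ} (hs1 : s1 ≤ γ.t i)
    (hs : ∀ s, s1 ≤ s → c i s ∉ B ∧ ∀ j ∈ T, j ≠ i → Far Gr κ {c i s} (Set.range (c j))) :
    ∃ γ' : Completion Gr κ B T c E, γ'.t i = s1 ∧ γ'.P = γ.P ∧
      ∀ j, j ≠ i → γ'.A j = γ.A j ∧ γ'.t j = γ.t j := by
  classical
  have hseg : FC Gr (c i '' Set.Icc s1 (γ.t i)) := fc_seg hN hr.step hs1
  have hfc : FC Gr (c i '' Set.Icc s1 (γ.t i) ∪ γ.A i) :=
    hseg.union (γ.fcA i hi) ⟨c i (γ.t i), ⟨γ.t i, ⟨hs1, le_rfl⟩, rfl⟩, γ.mem i hi⟩
  have hsub : c i '' Set.Icc s1 (γ.t i) ⊆ c i '' Set.Iic (γ.t i) :=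
    Set.image_mono fun x hx => hx.2
  have hsub' : c i '' Set.Iic s1 ⊆ c i '' Set.Iic (γ.t i) :=
    Set.image_mono fun x hx => le_trans hx hs1
  have hunion : ∀ {κ : ℕ} {K A A' : Set X}, Far Gr κ A K → Far Gr κ A' K → Far Gr κ (A ∪ A') K := by
    intro κ K A A' h h' a ha b hb
    rcases ha with ha | ha
    · exact h a ha b hb
    · exact h' a ha b hb
  have hsegfar : ∀ j ∈ T, j ≠ i → Far Gr κ (c i '' Set.Icc s1 (γ.t i)) (Set.range (c j)) := by
    rintro j hj hji _ ⟨s, hs', rfl⟩ b hb
    exact (hs s hs'.1).2 j hj hji _ rfl b hb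
  refine ⟨⟨Function.update γ.A i (c i '' Set.Icc s1 (γ.t i) ∪ γ.A i), γ.P,
    Function.update γ.t i s1, ?_, ?_, ?_, γ.fcP, fun e he => (γ.disjP e he).mono_right hBB, ?_,
    ?_, ?_, γ.farPP, ?_, ?_⟩, by simp, rfl, fun j hj => ⟨by simp [hj], by simp [hj]⟩⟩
  · intro j hj
    by_cases hji : j = i
    · subst hji
      rw [Function.update_self]
      exact hfc
    · rw [Function.update_of_ne hji]
      exact γ.fcA j hj
  · intro j hj
    by_cases hji : j = i
    · subst hji
      rw [Function.update_self, Set.disjoint_union_left]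
      refine ⟨?_, (γ.disjA j hj).mono_right hBB⟩
      rw [Set.disjoint_left]
      rintro _ ⟨s, hs', rfl⟩
      exact (hs s hs'.1).1
    · rw [Function.update_of_ne hji]
      exact (γ.disjA j hj).mono_right hBB
  · intro j hj
    by_cases hji : j = i
    · subst hji
      rw [Function.update_self, Function.update_self]
      exact Or.inl ⟨s1, ⟨le_rfl, hs1⟩, rfl⟩
    · rw [Function.update_of_ne hji, Function.update_of_ne hji]
      exact γ.mem j hj
  · intro e he j hj
    by_cases hji : j = i
    · subst hji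
      rw [Function.update_self]
      exact (γ.meet e he j hj).mono (Set.inter_subset_inter_right _ Set.subset_union_right)
    · rw [Function.update_of_ne hji]
      exact γ.meet e he j hj
  · intro j hj k hk hjk
    by_cases hji : j = i
    · subst hji
      rw [Function.update_self, Function.update_of_ne (Ne.symm hjk)]
      exact hunion ((γ.farAc k hk j hj (Ne.symm hjk)).symm.mono le_rfl hsub subset_rfl)
        (γ.farAA j hj k hk hjk)
    · rw [Function.update_of_ne hji]
      by_cases hki : k = i
      · subst hki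
        rw [Function.update_self]
        exact (hunion ((γ.farAc j hj k hk hjk).symm.mono le_rfl hsub subset_rfl)
          (γ.farAA k hk j hj (Ne.symm hjk))).symm
      · rw [Function.update_of_ne hki]
        exact γ.farAA j hj k hk hjk
  · intro j hj k hk hjk
    by_cases hji : j = i
    · subst hji
      rw [Function.update_self, Function.update_of_ne (Ne.symm hjk)]
      exact hunion ((hsegfar k hk (Ne.symm hjk)).mono le_rfl subset_rfl
        (Set.image_subset_range _ _)) (γ.farAc j hj k hk hjk)
    · rw [Function.update_of_ne hji]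
      by_cases hki : k = i
      · subst hki
        rw [Function.update_self]
        exact (γ.farAc j hj k hk hjk).mono le_rfl subset_rfl hsub'
      · rw [Function.update_of_ne hki]
        exact γ.farAc j hj k hk hjk
  · intro e he j hj hje
    by_cases hji : j = i
    · subst hji
      rw [Function.update_self]
      exact (hunion ((γ.farPc e he j hj hje).symm.mono le_rfl hsub subset_rfl)
        (γ.farPA e he j hj hje).symm).symm
    · rw [Function.update_of_ne hji]
      exact γ.farPA e he j hj hje
  · intro e he j hj hje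
    by_cases hji : j = i
    · subst hji
      rw [Function.update_self]
      exact (γ.farPc e he j hj hje).mono le_rfl subset_rfl hsub'
    · rw [Function.update_of_ne hji]
      exact γ.farPc e he j hj hje

theorem completable_slide (hN : Nice Gr) (κ : ℕ) {F : Set (ℕ → X)} (hF : Fam Gr F) {T : Set τ}
    (hT : T.Finite) {c c' : τ → ℕ → X} {E : Set (Sym2 τ)} {i : τ} (hi : i ∈ T)
    (hc : ∀ j ∈ T, c j ∈ F) (hc' : ∀ j ∈ T, c' j ∈ F) (hinj : Set.InjOn c T)
    (heq : ∀ j ∈ T, j ≠ i → c' j = c j) (hfree : ∀ j ∈ T, j ≠ i → c j ≠ c' i)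
    (hR : RAdj Gr F (c i) (c' i)) (h : Completable Gr κ T c' E) : Completable Gr κ T c E := by
  classical
  intro B hB
  have hcb : ∀ j ∈ T, j ≠ i → c' j ≠ c' i := fun j hj hji => by
    rw [heq j hj hji]
    exact hfree j hj hji
  obtain ⟨s0, hs0⟩ := oec1_exists κ hT (hF.ray _ (hc' i hi)) (i := i) (c := c')
    (fun j hj hji => hF.dvg _ (hc' i hi) _ (hc' j hj) (Ne.symm (hcb j hj hji))) hB
  obtain ⟨Q, hQ⟩ := hR κ (B ∪ c' i '' Set.Iic s0) (hB.union ((Set.finite_Iic s0).image _))
  obtain ⟨s1, hs1⟩ := hQ.left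
  obtain ⟨s2, hs2⟩ := hQ.right
  have hs02 : s0 < s2 := by
    by_contra hlt
    exact Set.disjoint_left.1 hQ.disj hs2 (Or.inr ⟨s2, not_lt.1 hlt, rfl⟩)
  -- the finite set to be avoided
  let K : Set X := Q ∪ c i '' Set.Iic s1 ∪ c' i '' Set.Iic s2
  have hK : K.Finite := (hQ.fc.fin.union ((Set.finite_Iic s1).image _)).union
    ((Set.finite_Iic s2).image _)
  obtain ⟨γ₀⟩ := h (B ∪ nb Gr κ K) (hB.union (nb_finite hN κ hK))
  have hKnb : K ⊆ nb Gr κ K := fun x hx => ⟨x, hx, by simp⟩
  have ht : s2 ≤ γ₀.t i := by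
    by_contra hlt
    refine Set.disjoint_left.1 (γ₀.disjA i hi) (γ₀.mem i hi) (Or.inr (hKnb (Or.inr ?_)))
    exact ⟨γ₀.t i, (not_le.1 hlt).le, rfl⟩
  obtain ⟨γ, hγt, hγP, hγA⟩ := oec2_shrink hN γ₀ (B := B) Set.subset_union_left hi
    (hF.ray _ (hc' i hi)) ht (fun s hs => hs0 s (hs02.le.trans hs))
  have hAK : ∀ j ∈ T, j ≠ i → Disjoint (γ.A j) (nb Gr κ K) := fun j hj hji => by
    rw [(hγA j hji).1]
    exact (γ₀.disjA j hj).mono_right Set.subset_union_right
  have hPK : ∀ e ∈ E, Disjoint (γ.P e) (nb Gr κ K) := fun e he => by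
    rw [hγP]
    exact (γ₀.disjP e he).mono_right Set.subset_union_right
  have hQK : Q ⊆ K := fun x hx => Or.inl (Or.inl hx)
  have haK : c i '' Set.Iic s1 ⊆ K := fun x hx => Or.inl (Or.inr hx)
  have hunion : ∀ {κ : ℕ} {K A A' : Set X}, Far Gr κ A K → Far Gr κ A' K → Far Gr κ (A ∪ A') K := by
    intro κ K A A' h h' a ha b hb
    rcases ha with ha | ha
    · exact h a ha b hb
    · exact h' a ha b hb
  refine ⟨⟨Function.update γ.A i (Q ∪ γ.A i), γ.P, Function.update γ.t i s1, ?_, ?_, ?_, γ.fcP,
    γ.disjP, ?_, ?_, ?_, γ.farPP, ?_, ?_⟩⟩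
  · intro j hj
    by_cases hji : j = i
    · subst hji
      rw [Function.update_self]
      refine hQ.fc.union (γ.fcA j hj) ⟨c' j s2, hs2, ?_⟩
      have := γ.mem j hj
      rwa [hγt] at this
    · rw [Function.update_of_ne hji]
      exact γ.fcA j hj
  · intro j hj
    by_cases hji : j = i
    · subst hji
      rw [Function.update_self, Set.disjoint_union_left]
      exact ⟨hQ.disj.mono_right Set.subset_union_left, γ.disjA j hj⟩
    · rw [Function.update_of_ne hji]
      exact γ.disjA j hj
  · intro j hj
    by_cases hji : j = i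
    · subst hji
      rw [Function.update_self, Function.update_self]
      exact Or.inl hs1
    · rw [Function.update_of_ne hji, Function.update_of_ne hji, ← heq j hj hji]
      exact γ.mem j hj
  · intro e he j hj
    by_cases hji : j = i
    · subst hji
      rw [Function.update_self]
      exact (γ.meet e he j hj).mono (Set.inter_subset_inter_right _ Set.subset_union_right)
    · rw [Function.update_of_ne hji]
      exact γ.meet e he j hj
  · intro j hj k hk hjk
    by_cases hji : j = i
    · subst hji
      rw [Function.update_self, Function.update_of_ne (Ne.symm hjk)]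
      exact hunion ((oec1_far (hAK k hk (Ne.symm hjk))).mono le_rfl hQK subset_rfl)
        (γ.farAA j hj k hk hjk)
    · rw [Function.update_of_ne hji]
      by_cases hki : k = i
      · subst hki
        rw [Function.update_self]
        exact (hunion ((oec1_far (hAK j hj hjk)).mono le_rfl hQK subset_rfl)
          (γ.farAA k hk j hj (Ne.symm hjk))).symm
      · rw [Function.update_of_ne hki]
        exact γ.farAA j hj k hk hjk
  · intro j hj k hk hjk
    by_cases hji : j = i
    · subst hji
      rw [Function.update_self, Function.update_of_ne (Ne.symm hjk)]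
      refine hunion ((hQ.far _ (hc k hk) ?_ ?_).mono le_rfl subset_rfl
        (Set.image_subset_range _ _)) ?_
      · exact fun h => hjk (hinj hk hj h).symm
      · exact hfree k hk (Ne.symm hjk)
      · rw [← heq k hk (Ne.symm hjk)]
        exact γ.farAc j hj k hk hjk
    · rw [Function.update_of_ne hji]
      by_cases hki : k = i
      · subst hki
        rw [Function.update_self]
        exact (oec1_far' (hAK j hj hji)).mono le_rfl subset_rfl haK
      · rw [Function.update_of_ne hki, ← heq k hk hki]
        exact γ.farAc j hj k hk hjk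
  · intro e he j hj hje
    by_cases hji : j = i
    · subst hji
      rw [Function.update_self]
      exact (hunion ((oec1_far (hPK e he)).mono le_rfl hQK subset_rfl)
        (γ.farPA e he j hj hje).symm).symm
    · rw [Function.update_of_ne hji]
      exact γ.farPA e he j hj hje
  · intro e he j hj hje
    by_cases hji : j = i
    · subst hji
      rw [Function.update_self]
      exact (oec1_far' (hPK e he)).mono le_rfl subset_rfl haK
    · rw [Function.update_of_ne hji, ← heq j hj hji]
      exact γ.farPc e he j hj hje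

end graph

end Pool.Agent.Lib.MP_0f7bfe_al.OE
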