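import Pool.Agent.Lib.MP_0f7bfe_al.OE.Defs
import Pool.Agent.Lib.MP_0f7bfe_al.OE.B1
import Pool.Agent.Lib.MP_0f7bfe_al.OE.C2

open scoped Pointwise ENNReal NNReal

namespace Pool.Agent.Lib.MP_0f7bfe_al.OE

universe u v w

section graph
variable {X : Type u} {Gr : SimpleGraph X}

variable {τ : Type v}

/-! ### C3 -/

theorem completable_link (hN : Nice Gr) (κ : ℕ) {F : Set (ℕ → X)} (hF : Fam Gr F) {T : Set τ}
    (hT : T.Finite) {c : τ → ℕ → X} {E : Set (Sym2 τ)} {i j : τ} (hi : i ∈ T) (hj : j ∈ T)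
    (hij : i ≠ j) (hc : ∀ j ∈ T, c j ∈ F) (hinj : Set.InjOn c T) (hR : RAdj Gr F (c i) (c j))
    (h : Completable Gr κ T c (E \ {s(i, j)})) : Completable Gr κ T c E := by
  classical
  by_cases hE : s(i, j) ∈ E
  swap
  · rwa [Set.sdiff_singleton_eq_self hE] at h
  intro B hB
  have hdvg : ∀ k ∈ T, ∀ l ∈ T, l ≠ k → Dvg Gr (c k) (c l) := fun k hk l hl hlk =>
    hF.dvg _ (hc k hk) _ (hc l hl) fun h => hlk (hinj hk hl h).symm
  obtain ⟨si, hsi⟩ := oec1_exists κ hT (hF.ray _ (hc i hi)) (i := i) (hdvg i hi) hB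
  obtain ⟨sj, hsj⟩ := oec1_exists κ hT (hF.ray _ (hc j hj)) (i := j) (hdvg j hj) hB
  obtain ⟨Q, hQ⟩ := hR κ (B ∪ (c i '' Set.Iic si ∪ c j '' Set.Iic sj))
    (hB.union (((Set.finite_Iic si).image _).union ((Set.finite_Iic sj).image _)))
  obtain ⟨s1, hs1⟩ := hQ.left
  obtain ⟨s2, hs2⟩ := hQ.right
  have h01 : si < s1 := by
    by_contra hlt
    exact Set.disjoint_left.1 hQ.disj hs1 (Or.inr (Or.inl ⟨s1, not_lt.1 hlt, rfl⟩))
  have h02 : sj < s2 := by
    by_contra hlt
    exact Set.disjoint_left.1 hQ.disj hs2 (Or.inr (Or.inr ⟨s2, not_lt.1 hlt, rfl⟩))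
  -- the finite set to be avoided
  let K : Set X := Q ∪ c i '' Set.Iic s1 ∪ c j '' Set.Iic s2
  have hK : K.Finite := (hQ.fc.fin.union ((Set.finite_Iic s1).image _)).union
    ((Set.finite_Iic s2).image _)
  obtain ⟨γ₀⟩ := h (B ∪ nb Gr κ K) (hB.union (nb_finite hN κ hK))
  have hKnb : K ⊆ nb Gr κ K := fun x hx => ⟨x, hx, by simp⟩
  have hti : s1 ≤ γ₀.t i := by
    by_contra hlt
    refine Set.disjoint_left.1 (γ₀.disjA i hi) (γ₀.mem i hi) (Or.inr (hKnb (Or.inl (Or.inr ?_))))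
    exact ⟨γ₀.t i, (not_le.1 hlt).le, rfl⟩
  have htj : s2 ≤ γ₀.t j := by
    by_contra hlt
    refine Set.disjoint_left.1 (γ₀.disjA j hj) (γ₀.mem j hj) (Or.inr (hKnb (Or.inr ?_)))
    exact ⟨γ₀.t j, (not_le.1 hlt).le, rfl⟩
  obtain ⟨γ₁, h1t, h1P, h1A⟩ := oec2_shrink hN γ₀ (B := B) Set.subset_union_left hi
    (hF.ray _ (hc i hi)) hti (fun s hs => hsi s (h01.le.trans hs))
  obtain ⟨γ, h2t, h2P, h2A⟩ := oec2_shrink hN γ₁ (B := B) subset_rfl hj
    (hF.ray _ (hc j hj)) (by rw [(h1A j (Ne.symm hij)).2]; exact htj)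
    (fun s hs => hsj s (h02.le.trans hs))
  have hγti : γ.t i = s1 := by rw [(h2A i hij).2, h1t]
  have hγA : ∀ k, k ≠ i → k ≠ j → γ.A k = γ₀.A k := fun k hki hkj => by
    rw [(h2A k hkj).1, (h1A k hki).1]
  have hγP : γ.P = γ₀.P := by rw [h2P, h1P]
  have hAK : ∀ k ∈ T, k ≠ i → k ≠ j → Disjoint (γ.A k) (nb Gr κ K) := fun k hk hki hkj => by
    rw [hγA k hki hkj]
    exact (γ₀.disjA k hk).mono_right Set.subset_union_right
  have hPK : ∀ e ∈ E \ {s(i, j)}, Disjoint (γ.P e) (nb Gr κ K) := fun e he => by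
    rw [hγP]
    exact (γ₀.disjP e he).mono_right Set.subset_union_right
  have hQK : Q ⊆ K := fun x hx => Or.inl (Or.inl hx)
  refine ⟨⟨γ.A, Function.update γ.P s(i, j) Q, γ.t, γ.fcA, γ.disjA, γ.mem, ?_, ?_, ?_, γ.farAA,
    γ.farAc, ?_, ?_, ?_⟩⟩
  · intro e he
    by_cases hee : e = s(i, j)
    · subst hee
      rw [Function.update_self]
      exact hQ.fc
    · rw [Function.update_of_ne hee]
      exact γ.fcP e ⟨he, hee⟩
  · intro e he
    by_cases hee : e = s(i, j)
    · subst hee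
      rw [Function.update_self]
      exact hQ.disj.mono_right Set.subset_union_left
    · rw [Function.update_of_ne hee]
      exact γ.disjP e ⟨he, hee⟩
  · intro e he k hk
    by_cases hee : e = s(i, j)
    · subst hee
      rw [Function.update_self]
      rcases Sym2.mem_iff.1 hk with rfl | rfl
      · refine ⟨c k s1, hs1, ?_⟩
        have := γ.mem k hi
        rwa [hγti] at this
      · refine ⟨c k s2, hs2, ?_⟩
        have := γ.mem k hj
        rwa [h2t] at this
    · rw [Function.update_of_ne hee]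
      exact γ.meet e ⟨he, hee⟩ k hk
  · intro e he f hf hef
    by_cases hee : e = s(i, j)
    · subst hee
      rw [Function.update_self, Function.update_of_ne (Ne.symm hef)]
      exact (oec1_far (hPK f ⟨hf, Ne.symm hef⟩)).mono le_rfl hQK subset_rfl
    · rw [Function.update_of_ne hee]
      by_cases hff : f = s(i, j)
      · subst hff
        rw [Function.update_self]
        exact (oec1_far' (hPK e ⟨he, hee⟩)).mono le_rfl subset_rfl hQK
      · rw [Function.update_of_ne hff]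
        exact γ.farPP e ⟨he, hee⟩ f ⟨hf, hff⟩ hef
  · intro e he k hk hke
    by_cases hee : e = s(i, j)
    · subst hee
      rw [Function.update_self]
      have hki : k ≠ i := fun h => hke (h ▸ Sym2.mem_mk_left i j)
      have hkj : k ≠ j := fun h => hke (h ▸ Sym2.mem_mk_right i j)
      exact (oec1_far (hAK k hk hki hkj)).mono le_rfl hQK subset_rfl
    · rw [Function.update_of_ne hee]
      exact γ.farPA e ⟨he, hee⟩ k hk hke
  · intro e he k hk hke
    by_cases hee : e = s(i, j)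
    · subst hee
      rw [Function.update_self]
      have hki : k ≠ i := fun h => hke (h ▸ Sym2.mem_mk_left i j)
      have hkj : k ≠ j := fun h => hke (h ▸ Sym2.mem_mk_right i j)
      exact (hQ.far _ (hc k hk) (fun h => hki (hinj hk hi h)) (fun h => hkj (hinj hk hj h))).mono
        le_rfl subset_rfl (Set.image_subset_range _ _)
    · rw [Function.update_of_ne hee]
      exact γ.farPc e ⟨he, hee⟩ k hk hke

end graph

end Pool.Agent.Lib.MP_0f7bfe_al.OE
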