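import Pool.Agent.Lib.MP_0f7bfe_al.OE.Defs
import Pool.Agent.Lib.MP_0f7bfe_al.OE.B1
import Pool.Agent.Lib.MP_0f7bfe_al.OE.A6

open scoped Pointwise ENNReal NNReal

namespace Pool.Agent.Lib.MP_0f7bfe_al.OE

universe u v w

section graph
variable {X : Type u} {Gr : SimpleGraph X}

theorem oef3_far_union {κ : ℕ} {A A' B : Set X} (h : Far Gr κ A B) (h' : Far Gr κ A' B) :
    Far Gr κ (A ∪ A') B := by
  rintro a (ha | ha) b hb
  · exact h a ha b hb
  · exact h' a ha b hb

theorem oef3_far_union_right {κ : ℕ} {A B B' : Set X} (h : Far Gr κ A B) (h' : Far Gr κ A B') :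
    Far Gr κ A (B ∪ B') := by
  rintro a ha b (hb | hb)
  · exact h a ha b hb
  · exact h' a ha b hb

theorem oef3_far_sub {κ : ℕ} {A A' B B' : Set X} (h : Far Gr κ A' B') (hA : A ⊆ A')
    (hB : B ⊆ B') : Far Gr κ A B := fun a ha b hb => h a (hA ha) b (hB hb)

theorem oef3_far_empty {κ : ℕ} (B : Set X) : Far Gr κ ∅ B := fun _ ha => ha.elim

theorem oef3_far_empty' {κ : ℕ} (B : Set X) : Far Gr κ B ∅ := fun _ _ _ hb => hb.elim

theorem oef3_far_of_disj {κ : ℕ} {Q B F : Set X} (h : Disjoint Q B) (hF : nb Gr κ F ⊆ B) :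
    Far Gr κ Q F := by
  intro q hq f hf
  by_contra hcon
  rw [SimpleGraph.dist_comm] at hcon
  exact (Set.disjoint_left.1 h) hq (hF ⟨f, hf, not_lt.1 hcon⟩)

theorem oef3_nb_mono {κ : ℕ} {A B : Set X} (h : A ⊆ B) : nb Gr κ A ⊆ nb Gr κ B := by
  rintro x ⟨a, ha, hx⟩
  exact ⟨a, h ha, hx⟩

/-- the general gluing: the sets `A' i` of a completion of `c'` are enlarged by finite sets `F i`
and by the initial parts of the rays `c' i`, for `i ∈ {x, y}`. -/
theorem oef3_glue {τ : Type v} (κ : ℕ) {T : Set τ} {c c' : τ → ℕ → X} {E : Set (Sym2 τ)}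
    {B B' : Set X} (K : Completion Gr κ B' T c' E) (hBB : B ⊆ B') (F M : τ → Set X) (t : τ → ℕ)
    (hF : ∀ i, nb Gr κ (F i) ⊆ B')
    (hM : ∀ i, M i = ∅ ∨ M i = c' i '' Set.Iic (K.t i))
    (hR : ∀ i ∈ T, nb Gr κ (c i '' Set.Iic (t i)) ⊆ B' ∨ (c' i = c i ∧ t i = K.t i))
    (hfc : ∀ i ∈ T, FC Gr (F i ∪ M i ∪ K.A i))
    (hFB : ∀ i, Disjoint (F i) B) (hMB : ∀ i, Disjoint (M i) B)
    (hmem : ∀ i ∈ T, c i (t i) ∈ F i ∪ M i ∪ K.A i)
    (hFF : ∀ i ∈ T, ∀ j ∈ T, i ≠ j → Far Gr κ (F i) (F j))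
    (hFM : ∀ i ∈ T, ∀ j ∈ T, i ≠ j → Far Gr κ (F i) (M j))
    (hMM : ∀ i ∈ T, ∀ j ∈ T, i ≠ j → Far Gr κ (M i) (M j))
    (hFR : ∀ i ∈ T, ∀ j ∈ T, i ≠ j → Far Gr κ (F i) (c j '' Set.Iic (t j)))
    (hMR : ∀ i ∈ T, ∀ j ∈ T, i ≠ j → Far Gr κ (M i) (c j '' Set.Iic (t j))) :
    Nonempty (Completion Gr κ B T c E) := by
  have hMf : ∀ (Z : Set X) (i : τ), Far Gr κ Z (c' i '' Set.Iic (K.t i)) → Far Gr κ Z (M i) := by
    intro Z i h
    rcases hM i with h1 | h1
    · rw [h1]
      exact oef3_far_empty' _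
    · rw [h1]
      exact h
  have hAF : ∀ i ∈ T, ∀ j, Far Gr κ (K.A i) (F j) := fun i hi j =>
    oef3_far_of_disj (K.disjA i hi) (hF j)
  have hPF : ∀ e ∈ E, ∀ j, Far Gr κ (K.P e) (F j) := fun e he j =>
    oef3_far_of_disj (K.disjP e he) (hF j)
  refine ⟨⟨fun i => F i ∪ M i ∪ K.A i, K.P, t, hfc, ?_, hmem, K.fcP, ?_, ?_, ?_, ?_, K.farPP,
    ?_, ?_⟩⟩
  · intro i hi
    rw [Set.disjoint_union_left, Set.disjoint_union_left]
    exact ⟨⟨hFB i, hMB i⟩, (K.disjA i hi).mono_right hBB⟩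
  · intro e he
    exact (K.disjP e he).mono_right hBB
  · intro e he i hi
    obtain ⟨z, hz, hz'⟩ := K.meet e he i hi
    exact ⟨z, hz, Or.inr hz'⟩
  · intro i hi j hj hij
    have hMA : ∀ i ∈ T, ∀ j ∈ T, i ≠ j → Far Gr κ (K.A i) (M j) := fun i hi j hj hij =>
      hMf _ _ (K.farAc i hi j hj hij)
    refine oef3_far_union (oef3_far_union ?_ ?_) ?_
    · exact oef3_far_union_right (oef3_far_union_right (hFF i hi j hj hij) (hFM i hi j hj hij))
        (hAF j hj i).symm
    · exact oef3_far_union_right (oef3_far_union_right (hFM j hj i hi hij.symm).symm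
        (hMM i hi j hj hij)) (hMA j hj i hi hij.symm).symm
    · exact oef3_far_union_right (oef3_far_union_right (hAF i hi j) (hMA i hi j hj hij))
        (K.farAA i hi j hj hij)
  · intro i hi j hj hij
    refine oef3_far_union (oef3_far_union (hFR i hi j hj hij) (hMR i hi j hj hij)) ?_
    rcases hR j hj with h | ⟨h1, h2⟩
    · exact oef3_far_of_disj (K.disjA i hi) h
    · rw [← h1, h2]
      exact K.farAc i hi j hj hij
  · intro e he i hi hie
    exact oef3_far_union_right (oef3_far_union_right (hPF e he i)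
      (hMf _ _ (K.farPc e he i hi hie))) (K.farPA e he i hi hie)
  · intro e he i hi hie
    rcases hR i hi with h | ⟨h1, h2⟩
    · exact oef3_far_of_disj (K.disjP e he) h
    · rw [← h1, h2]
      exact K.farPc e he i hi hie

end graph

section group
variable {G : Type u} [Group G] {S : Finset G}

theorem completable_swap {τ : Type v} (hS : Setup S) (κ : ℕ) {T : Set τ} (hT : T.Finite)
    {c : τ → ℕ → G} {E : Set (Sym2 τ)} {L1 L2 : List (ℕ → G)} {x y : τ} (hx : x ∈ T) (hy : y ∈ T)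
    (hxy : x ≠ y) (hcx : L1.getLast? = some (c x)) (hcy : L2.head? = some (c y))
    (hc : ∀ j ∈ T, c j ∈ L1 ∨ c j ∈ L2) (hinj : Set.InjOn c T)
    (h : ∀ B : Set G, B.Finite → ∃ l0 l1 l2 l3 C C', Crossing S κ B L1 L2 l0 l1 l2 l3 C C' ∧
      ∀ c' : τ → ℕ → G, c' x = l2 → c' y = l1 → (∀ j ∈ T, j ≠ x → j ≠ y → c' j = c j) →
        Completable (Cay S) κ T c' E) : Completable (Cay S) κ T c E := by
  classical
  have hN := nice_cay hS
  intro B hB
  obtain ⟨l0, l1, l2, l3, C, C', hX, hcomp⟩ := h B hB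
  set Fn : Set (ℕ → G) := {r | r ∈ L1 ++ l0 :: l1 :: l2 :: l3 :: L2} with hFn
  have hch := hX.pf.chain
  have hnd := hX.pf.nodup
  have hcxL : c x ∈ L1 := List.mem_of_getLast? hcx
  have hcyL : c y ∈ L2 := List.mem_of_head? hcy
  -- the two adjacencies
  have hR1 : RAdj (Cay S) Fn (c x) l0 := by
    have h1 := (List.isChain_append.1 hch).2.2
    exact h1 (c x) (by rw [hcx]; exact Option.mem_some_self _) l0 (by simp)
  have hR2 : RAdj (Cay S) Fn l3 (c y) := by
    have h1 := (List.isChain_append.1 hch).2.1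
    rw [List.isChain_cons, List.isChain_cons, List.isChain_cons, List.isChain_cons] at h1
    exact h1.2.2.2.1 (c y) (by rw [hcy]; exact Option.mem_some_self _)
  -- disjointness of the list members
  rw [List.nodup_append] at hnd
  obtain ⟨-, hnd2, hnd3⟩ := hnd
  rw [List.nodup_cons, List.nodup_cons, List.nodup_cons, List.nodup_cons] at hnd2
  obtain ⟨n0, n1, n2, n3, -⟩ := hnd2
  have e01 : l0 ≠ l1 := fun h => n0 (by rw [h]; simp)
  have e02 : l0 ≠ l2 := fun h => n0 (by rw [h]; simp)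
  have e03 : l0 ≠ l3 := fun h => n0 (by rw [h]; simp)
  have e12 : l1 ≠ l2 := fun h => n1 (by rw [h]; simp)
  have e13 : l1 ≠ l3 := fun h => n1 (by rw [h]; simp)
  have e23 : l2 ≠ l3 := fun h => n2 (by rw [h]; simp)
  have m0 : l0 ∈ Fn := by simp [hFn]
  have m1 : l1 ∈ Fn := by simp [hFn]
  have m2 : l2 ∈ Fn := by simp [hFn]
  have m3 : l3 ∈ Fn := by simp [hFn]
  have mL : ∀ r, r ∈ L1 ∨ r ∈ L2 → r ∈ Fn := by
    intro r hr
    rw [hFn, Set.mem_ofPred_eq, List.mem_append]
    rcases hr with hr | hr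
    · exact Or.inl hr
    · right
      simp [hr]
  have neL : ∀ r, r ∈ L1 ∨ r ∈ L2 → r ≠ l0 ∧ r ≠ l1 ∧ r ≠ l2 ∧ r ≠ l3 := by
    intro r hr
    rcases hr with hr | hr
    · exact ⟨hnd3 r hr l0 (by simp), hnd3 r hr l1 (by simp), hnd3 r hr l2 (by simp),
        hnd3 r hr l3 (by simp)⟩
    · refine ⟨fun h => n0 ?_, fun h => n1 ?_, fun h => n2 ?_, fun h => n3 ?_⟩
      · rw [← h]; simp [hr]
      · rw [← h]; simp [hr]
      · rw [← h]; simp [hr]
      · rw [← h]; exact hr
  have hfinCC : (C ∪ C').Finite := hX.fc.fin.union hX.fc'.fin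
  -- first rung
  obtain ⟨Q1, hQ1⟩ := hR1 κ (B ∪ nb (Cay S) κ (C ∪ C')) (hB.union (nb_finite hN κ hfinCC))
  obtain ⟨s1, hs1⟩ := hQ1.left
  obtain ⟨s1', hs1'⟩ := hQ1.right
  -- second rung
  obtain ⟨Q2, hQ2⟩ := hR2 κ (B ∪ nb (Cay S) κ (C ∪ C' ∪ Q1))
    (hB.union (nb_finite hN κ (hfinCC.union hQ1.fc.fin)))
  obtain ⟨s2', hs2'⟩ := hQ2.left
  obtain ⟨s2, hs2⟩ := hQ2.right
  have st0 := (hX.pf.ray l0 (by simp)).step
  have st1 := (hX.pf.ray l1 (by simp)).step
  have st2 := (hX.pf.ray l2 (by simp)).step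
  have st3 := (hX.pf.ray l3 (by simp)).step
  set Fx : Set G := Q1 ∪ l0 '' Set.Icc 0 s1' ∪ C with hFx
  set Fy : Set G := Q2 ∪ l3 '' Set.Icc 0 s2' ∪ C' with hFy
  have fcx : FC (Cay S) Fx := by
    refine FC.union (FC.union hQ1.fc (fc_seg hN st0 (Nat.zero_le _)) ?_) hX.fc ?_
    · exact ⟨l0 s1', hs1', s1', ⟨Nat.zero_le _, le_rfl⟩, rfl⟩
    · exact ⟨l0 0, Or.inr ⟨0, ⟨le_rfl, Nat.zero_le _⟩, rfl⟩, hX.mem0⟩
  have fcy : FC (Cay S) Fy := by
    refine FC.union (FC.union hQ2.fc (fc_seg hN st3 (Nat.zero_le _)) ?_) hX.fc' ?_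
    · exact ⟨l3 s2', hs2', s2', ⟨Nat.zero_le _, le_rfl⟩, rfl⟩
    · exact ⟨l3 0, Or.inr ⟨0, ⟨le_rfl, Nat.zero_le _⟩, rfl⟩, hX.mem3⟩
  have hsub : ∀ (r : ℕ → G) (s : Set ℕ), r '' s ⊆ Set.range r := by
    rintro r s _ ⟨t, _, rfl⟩
    exact ⟨t, rfl⟩
  -- the excluded set
  set Z : Set G := Fx ∪ Fy ∪ (c x '' Set.Iic s1 ∪ c y '' Set.Iic s2) with hZ
  have hZf : Z.Finite := (fcx.fin.union fcy.fin).union
    (((Set.finite_Iic s1).image _).union ((Set.finite_Iic s2).image _))
  set c' : τ → ℕ → G := fun j => if j = x then l2 else if j = y then l1 else c j with hc'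
  have hcx' : c' x = l2 := by simp [hc']
  have hcy' : c' y = l1 := by simp [hc', hxy.symm]
  have hco' : ∀ j, j ≠ x → j ≠ y → c' j = c j := by
    intro j h1 h2
    simp [hc', h1, h2]
  obtain ⟨K⟩ := hcomp c' hcx' hcy' (fun j _ h1 h2 => hco' j h1 h2) (B ∪ nb (Cay S) κ Z)
    (hB.union (nb_finite hN κ hZf))
  -- the leg distances
  have hlegs := hX.legs
  rw [List.pairwise_cons, List.pairwise_cons, List.pairwise_cons] at hlegs
  obtain ⟨p0, p1, p2, -⟩ := hlegs
  have f01 : Far (Cay S) κ (Set.range l0) (Set.range l1) := p0 l1 (by simp)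
  have f02 : Far (Cay S) κ (Set.range l0) (Set.range l2) := p0 l2 (by simp)
  have f03 : Far (Cay S) κ (Set.range l0) (Set.range l3) := p0 l3 (by simp)
  have f12 : Far (Cay S) κ (Set.range l1) (Set.range l2) := p1 l2 (by simp)
  have f13 : Far (Cay S) κ (Set.range l1) (Set.range l3) := p1 l3 (by simp)
  have f23 : Far (Cay S) κ (Set.range l2) (Set.range l3) := p2 l3 (by simp)
  have hnex : ∀ r, r ∈ L1 ∨ r ∈ L2 → r ≠ l0 := fun r hr => (neL r hr).1
  have hcxn := neL (c x) (Or.inl hcxL)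
  have hcyn := neL (c y) (Or.inr hcyL)
  -- Q1, Q2 against C, C'
  have q1C' : Far (Cay S) κ Q1 C' := oef3_far_of_disj hQ1.disj
    ((oef3_nb_mono Set.subset_union_right).trans Set.subset_union_right)
  have q2C : Far (Cay S) κ Q2 C := oef3_far_of_disj hQ2.disj
    ((oef3_nb_mono (Set.subset_union_left.trans Set.subset_union_left)).trans
      Set.subset_union_right)
  have q2q1 : Far (Cay S) κ Q2 Q1 := oef3_far_of_disj hQ2.disj
    ((oef3_nb_mono Set.subset_union_right).trans Set.subset_union_right)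
  -- Fx against Fy
  have fxfy : Far (Cay S) κ Fx Fy := by
    refine oef3_far_union (oef3_far_union ?_ ?_) ?_
    · refine oef3_far_union_right (oef3_far_union_right q2q1.symm ?_) q1C'
      exact oef3_far_sub (hQ1.far l3 m3 hcxn.2.2.2.symm e03.symm) subset_rfl (hsub _ _)
    · refine oef3_far_union_right (oef3_far_union_right ?_ ?_) ?_
      · exact (oef3_far_sub (hQ2.far l0 m0 e03 hcyn.1.symm) subset_rfl (hsub _ _)).symm
      · exact oef3_far_sub f03 (hsub _ _) (hsub _ _)
      · exact (oef3_far_sub hX.c0' subset_rfl (hsub _ _)).symm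
    · refine oef3_far_union_right (oef3_far_union_right q2C.symm ?_) hX.cc
      exact oef3_far_sub hX.c3 subset_rfl (hsub _ _)
  have fxl1 : Far (Cay S) κ Fx (Set.range l1) := by
    refine oef3_far_union (oef3_far_union ?_ ?_) hX.c1
    · exact hQ1.far l1 m1 hcxn.2.1.symm e01.symm
    · exact oef3_far_sub f01 (hsub _ _) subset_rfl
  have fyl2 : Far (Cay S) κ Fy (Set.range l2) := by
    refine oef3_far_union (oef3_far_union ?_ ?_) hX.c2'
    · exact hQ2.far l2 m2 e23 hcyn.2.2.1.symm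
    · exact oef3_far_sub f23.symm (hsub _ _) subset_rfl
  have fxr : ∀ r, r ∈ L1 ∨ r ∈ L2 → r ≠ c x → Far (Cay S) κ Fx (Set.range r) := by
    intro r hr hne
    refine oef3_far_union (oef3_far_union ?_ ?_) (hX.co r hr).1
    · exact hQ1.far r (mL r hr) hne (neL r hr).1
    · exact oef3_far_sub (hX.lo l0 (Or.inl rfl) r hr) (hsub _ _) subset_rfl
  have fyr : ∀ r, r ∈ L1 ∨ r ∈ L2 → r ≠ c y → Far (Cay S) κ Fy (Set.range r) := by
    intro r hr hne
    refine oef3_far_union (oef3_far_union ?_ ?_) (hX.co r hr).2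
    · exact hQ2.far r (mL r hr) (neL r hr).2.2.2 hne
    · exact oef3_far_sub (hX.lo l3 (Or.inr (Or.inr (Or.inr rfl))) r hr) (hsub _ _) subset_rfl
  -- disjointness from B
  have fxB : Disjoint Fx B := by
    rw [hFx, Set.disjoint_union_left, Set.disjoint_union_left]
    exact ⟨⟨hQ1.disj.mono_right Set.subset_union_left,
      (hX.dl l0 (Or.inl rfl)).mono_left (hsub _ _)⟩, hX.disj⟩
  have fyB : Disjoint Fy B := by
    rw [hFy, Set.disjoint_union_left, Set.disjoint_union_left]
    exact ⟨⟨hQ2.disj.mono_right Set.subset_union_left,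
      (hX.dl l3 (Or.inr (Or.inr (Or.inr rfl)))).mono_left (hsub _ _)⟩, hX.disj'⟩
  have hIcc : ∀ t : ℕ, Set.Iic t = Set.Icc 0 t := by
    intro t
    ext k
    simp
  -- the data
  set F : τ → Set G := fun i => if i = x then Fx else if i = y then Fy else ∅ with hF
  set M : τ → Set G := fun i => if i = x then c' x '' Set.Iic (K.t x) else
    if i = y then c' y '' Set.Iic (K.t y) else ∅ with hM
  set t : τ → ℕ := fun i => if i = x then s1 else if i = y then s2 else K.t i with ht
  have hyx : y ≠ x := hxy.symm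
  have Fex : F x = Fx := by simp [hF]
  have Fey : F y = Fy := by simp [hF, hyx]
  have Feo : ∀ i, i ≠ x → i ≠ y → F i = ∅ := by
    intro i h1 h2
    simp [hF, h1, h2]
  have Mex : M x = c' x '' Set.Iic (K.t x) := by simp [hM]
  have Mey : M y = c' y '' Set.Iic (K.t y) := by simp [hM, hyx]
  have Meo : ∀ i, i ≠ x → i ≠ y → M i = ∅ := by
    intro i h1 h2
    simp [hM, h1, h2]
  have tex : t x = s1 := by simp [ht]
  have tey : t y = s2 := by simp [ht, hyx]
  have teo : ∀ i, i ≠ x → i ≠ y → t i = K.t i := by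
    intro i h1 h2
    simp [ht, h1, h2]
  have Mx_sub : M x ⊆ Set.range l2 := by
    rw [Mex, hcx']
    exact hsub _ _
  have My_sub : M y ⊆ Set.range l1 := by
    rw [Mey, hcy']
    exact hsub _ _
  have hcne : ∀ i ∈ T, ∀ j ∈ T, i ≠ j → c j ≠ c i := by
    intro i hi j hj hij h
    exact hij (hinj hj hi h).symm
  refine oef3_glue κ K Set.subset_union_left F M t ?_ ?_ ?_ ?_ ?_ ?_ ?_ ?_ ?_ ?_ ?_ ?_
  · intro i
    refine Set.Subset.trans (oef3_nb_mono ?_) Set.subset_union_right
    by_cases h1 : i = x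
    · rw [h1, Fex]
      exact Set.subset_union_left.trans Set.subset_union_left
    · by_cases h2 : i = y
      · rw [h2, Fey]
        exact Set.subset_union_right.trans Set.subset_union_left
      · rw [Feo i h1 h2]
        exact Set.empty_subset _
  · intro i
    by_cases h1 : i = x
    · rw [h1]
      exact Or.inr Mex
    · by_cases h2 : i = y
      · rw [h2]
        exact Or.inr Mey
      · exact Or.inl (Meo i h1 h2)
  · intro i _
    by_cases h1 : i = x
    · left
      rw [h1, tex]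
      exact (oef3_nb_mono (Set.subset_union_left.trans Set.subset_union_right)).trans
        Set.subset_union_right
    · by_cases h2 : i = y
      · left
        rw [h2, tey]
        exact (oef3_nb_mono (Set.subset_union_right.trans Set.subset_union_right)).trans
          Set.subset_union_right
      · exact Or.inr ⟨hco' i h1 h2, teo i h1 h2⟩
  · intro i hi
    by_cases h1 : i = x
    · subst h1
      rw [Fex, Mex, hcx', hIcc]
      refine FC.union (FC.union fcx (fc_seg hN st2 (Nat.zero_le _)) ?_) (K.fcA i hi) ?_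
      · exact ⟨l2 0, Or.inr hX.mem2, 0, ⟨le_rfl, Nat.zero_le _⟩, rfl⟩
      · have := K.mem i hi
        rw [hcx'] at this
        exact ⟨l2 (K.t i), Or.inr ⟨K.t i, ⟨Nat.zero_le _, le_rfl⟩, rfl⟩, this⟩
    · by_cases h2 : i = y
      · subst h2
        rw [Fey, Mey, hcy', hIcc]
        refine FC.union (FC.union fcy (fc_seg hN st1 (Nat.zero_le _)) ?_) (K.fcA i hi) ?_
        · exact ⟨l1 0, Or.inr hX.mem1, 0, ⟨le_rfl, Nat.zero_le _⟩, rfl⟩
        · have := K.mem i hi
          rw [hcy'] at this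
          exact ⟨l1 (K.t i), Or.inr ⟨K.t i, ⟨Nat.zero_le _, le_rfl⟩, rfl⟩, this⟩
      · rw [Feo i h1 h2, Meo i h1 h2, Set.empty_union, Set.empty_union]
        exact K.fcA i hi
  · intro i
    by_cases h1 : i = x
    · rw [h1, Fex]
      exact fxB
    · by_cases h2 : i = y
      · rw [h2, Fey]
        exact fyB
      · rw [Feo i h1 h2]
        exact Set.empty_disjoint _
  · intro i
    by_cases h1 : i = x
    · rw [h1]
      exact (hX.dl l2 (Or.inr (Or.inr (Or.inl rfl)))).mono_left Mx_sub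
    · by_cases h2 : i = y
      · rw [h2]
        exact (hX.dl l1 (Or.inr (Or.inl rfl))).mono_left My_sub
      · rw [Meo i h1 h2]
        exact Set.empty_disjoint _
  · intro i hi
    by_cases h1 : i = x
    · subst h1
      rw [Fex, tex]
      exact Or.inl (Or.inl (Or.inl (Or.inl hs1)))
    · by_cases h2 : i = y
      · subst h2
        rw [Fey, tey]
        exact Or.inl (Or.inl (Or.inl (Or.inl hs2)))
      · right
        have := K.mem i hi
        rw [hco' i h1 h2] at this
        rw [teo i h1 h2]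
        exact this
  · intro i _ j _ hij
    by_cases h1 : i = x
    · by_cases h2 : j = y
      · rw [h1, h2, Fex, Fey]
        exact fxfy
      · rw [Feo j (fun h => hij (h1.trans h.symm)) h2]
        exact oef3_far_empty' _
    · by_cases h2 : i = y
      · by_cases h3 : j = x
        · rw [h2, h3, Fex, Fey]
          exact fxfy.symm
        · rw [Feo j h3 (fun h => hij (h2.trans h.symm))]
          exact oef3_far_empty' _
      · rw [Feo i h1 h2]
        exact oef3_far_empty _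
  · intro i _ j _ hij
    by_cases h1 : i = x
    · by_cases h2 : j = y
      · rw [h1, h2, Fex]
        exact oef3_far_sub fxl1 subset_rfl My_sub
      · rw [Meo j (fun h => hij (h1.trans h.symm)) h2]
        exact oef3_far_empty' _
    · by_cases h2 : i = y
      · by_cases h3 : j = x
        · rw [h2, h3, Fey]
          exact oef3_far_sub fyl2 subset_rfl Mx_sub
        · rw [Meo j h3 (fun h => hij (h2.trans h.symm))]
          exact oef3_far_empty' _
      · rw [Feo i h1 h2]
        exact oef3_far_empty _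
  · intro i _ j _ hij
    by_cases h1 : i = x
    · by_cases h2 : j = y
      · rw [h1, h2]
        exact oef3_far_sub f12.symm Mx_sub My_sub
      · rw [Meo j (fun h => hij (h1.trans h.symm)) h2]
        exact oef3_far_empty' _
    · by_cases h2 : i = y
      · by_cases h3 : j = x
        · rw [h2, h3]
          exact oef3_far_sub f12 My_sub Mx_sub
        · rw [Meo j h3 (fun h => hij (h2.trans h.symm))]
          exact oef3_far_empty' _
      · rw [Meo i h1 h2]
        exact oef3_far_empty _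
  · intro i hi j hj hij
    by_cases h1 : i = x
    · rw [h1, Fex]
      exact oef3_far_sub (fxr (c j) (hc j hj) (by rw [← h1]; exact hcne i hi j hj hij))
        subset_rfl (hsub _ _)
    · by_cases h2 : i = y
      · rw [h2, Fey]
        exact oef3_far_sub (fyr (c j) (hc j hj) (by rw [← h2]; exact hcne i hi j hj hij))
          subset_rfl (hsub _ _)
      · rw [Feo i h1 h2]
        exact oef3_far_empty _
  · intro i hi j hj hij
    by_cases h1 : i = x
    · rw [h1]
      exact oef3_far_sub (hX.lo l2 (Or.inr (Or.inr (Or.inl rfl))) (c j) (hc j hj)) Mx_sub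
        (hsub _ _)
    · by_cases h2 : i = y
      · rw [h2]
        exact oef3_far_sub (hX.lo l1 (Or.inr (Or.inl rfl)) (c j) (hc j hj)) My_sub (hsub _ _)
      · rw [Meo i h1 h2]
        exact oef3_far_empty _

end group

end Pool.Agent.Lib.MP_0f7bfe_al.OE
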