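import Pool.Agent.Lib.MP_0f7bfe_al.OE.B1
import Pool.Agent.Lib.MP_0f7bfe_al.OE.B5
import Pool.Agent.Lib.MP_0f7bfe_al.OE.C2
import Pool.Agent.Lib.MP_0f7bfe_al.OE.C3
import Pool.Agent.Lib.MP_0f7bfe_al.OE.A6
import Pool.Agent.Lib.MP_0f7bfe_al.OE.A10
import Pool.Agent.Lib.MP_0f7bfe_al.OE.F3

open scoped Pointwise ENNReal NNReal

namespace Pool.Agent.Lib.MP_0f7bfe_al.OE

universe u v w

section group
variable {G : Type u} [Group G] {S : Finset G}

/-! ### F4 -/

theorem oef4_fam (hS : Setup S) {L : List (ℕ → G)} (h : PF S L) : Fam (Cay S) {r | r ∈ L} where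
  fin := L.finite_toSet
  ray := h.ray
  dvg r hr r' hr' hne := (h.ind r hr r' hr' hne).dvg hS

theorem oef4_chain {L : List (ℕ → G)} (h : PF S L) {i : ℕ} {a b : ℕ → G} (ha : L[i]? = some a)
    (hb : L[i + 1]? = some b) : RAdj (Cay S) {r | r ∈ L} a b := by
  obtain ⟨h1, h2⟩ := List.getElem?_eq_some_iff.1 ha
  obtain ⟨h3, h4⟩ := List.getElem?_eq_some_iff.1 hb
  rw [← h2, ← h4]
  exact List.isChain_iff_getElem.1 h.chain i h3

omit [Group G] in
theorem oef4_idx {L : List (ℕ → G)} (h : L.Nodup) {i j : ℕ} {a : ℕ → G} (ha : L[i]? = some a)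
    (hb : L[j]? = some a) : i = j := by
  obtain ⟨h1, h2⟩ := List.getElem?_eq_some_iff.1 ha
  obtain ⟨h3, h4⟩ := List.getElem?_eq_some_iff.1 hb
  exact (h.getElem_inj_iff).1 (h2.trans h4.symm)

omit [Group G] in
theorem oef4_mem {L : List (ℕ → G)} {i : ℕ} {a : ℕ → G} (ha : L[i]? = some a) : a ∈ L :=
  List.mem_of_getElem? ha

theorem oef4_pinj {τ : Type v} {T : List τ} {p : τ → ℕ}
    (h : T.Pairwise (fun u v => p u + 2 ≤ p v)) : ∀ u ∈ T, ∀ v ∈ T, p u = p v → u = v := by
  intro u hu v hv he
  obtain ⟨i, hi, rfl⟩ := List.mem_iff_getElem.1 hu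
  obtain ⟨j, hj, rfl⟩ := List.mem_iff_getElem.1 hv
  rcases lt_trichotomy i j with hij | rfl | hij
  · have := List.pairwise_iff_getElem.1 h i j hi hj hij
    omega
  · rfl
  · have := List.pairwise_iff_getElem.1 h j i hj hi hij
    omega

theorem oef4_slide {τ : Type v} (hS : Setup S) (κ : ℕ) {L : List (ℕ → G)} (hPF : PF S L)
    {T : List τ} {c c' : τ → ℕ → G} {p : τ → ℕ} (hp : ∀ u ∈ T, L[p u]? = some (c u))
    (hpinj : ∀ u ∈ T, ∀ v ∈ T, p u = p v → u = v) {x : τ} (hx : x ∈ T)
    (hb : L[p x + 1]? = some (c' x)) (hfree : ∀ u ∈ T, p u ≠ p x + 1)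
    (hc' : ∀ u ∈ T, u ≠ x → c' u = c u) {E : Set (Sym2 τ)}
    (h : Completable (Cay S) κ {i | i ∈ T} c' E) : Completable (Cay S) κ {i | i ∈ T} c E := by
  refine completable_slide (nice_cay hS) κ (oef4_fam hS hPF) T.finite_toSet (i := x) (c' := c')
    hx (fun j hj => oef4_mem (hp j hj)) ?_ ?_ hc' ?_ (oef4_chain hPF (hp x hx) hb) h
  · intro j hj
    by_cases hjx : j = x
    · subst hjx
      exact oef4_mem hb
    · rw [hc' j hj hjx]
      exact oef4_mem (hp j hj)
  · intro u hu v hv huv
    refine hpinj u hu v hv (oef4_idx hPF.nodup (hp u hu) ?_)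
    rw [huv]
    exact hp v hv
  · intro j hj hjx he
    refine hfree j hj (oef4_idx hPF.nodup (hp j hj) ?_)
    rw [he]
    exact hb

theorem oef4_pw {τ : Type v} {T1 T2 : List τ} {a b : τ} {p : τ → ℕ}
    (h1 : T1.Pairwise (fun u v => p u + 2 ≤ p v)) (h2 : T2.Pairwise (fun u v => p u + 2 ≤ p v))
    (h3 : ∀ u ∈ T1, p u + 2 ≤ p a) (h4 : p a + 2 ≤ p b) (h5 : ∀ v ∈ T2, p b + 2 ≤ p v) :
    (T1 ++ a :: b :: T2).Pairwise (fun u v => p u + 2 ≤ p v) := by
  rw [List.pairwise_append, List.pairwise_cons, List.pairwise_cons]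
  refine ⟨h1, ⟨?_, h5, h2⟩, ?_⟩
  · intro v hv
    rcases List.mem_cons.1 hv with rfl | hv
    · exact h4
    · have := h5 v hv; omega
  · intro u hu v hv
    have h6 := h3 u hu
    rcases List.mem_cons.1 hv with rfl | hv
    · exact h6
    · rcases List.mem_cons.1 hv with rfl | hv
      · omega
      · have := h5 v hv; omega

theorem oef4_pw' {τ : Type v} {T1 T2 : List τ} {a b : τ} {p : τ → ℕ}
    (h : (T1 ++ a :: b :: T2).Pairwise (fun u v => p u + 2 ≤ p v)) :
    T1.Pairwise (fun u v => p u + 2 ≤ p v) ∧ T2.Pairwise (fun u v => p u + 2 ≤ p v) ∧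
    (∀ u ∈ T1, p u + 2 ≤ p a) ∧ p a + 2 ≤ p b ∧ (∀ v ∈ T2, p b + 2 ≤ p v) := by
  rw [List.pairwise_append, List.pairwise_cons, List.pairwise_cons] at h
  obtain ⟨h1, ⟨h2, h3, h4⟩, h5⟩ := h
  exact ⟨h1, h4, fun u hu => h5 u hu a (by simp), h2 b (by simp), h3⟩

theorem arr_swap {τ : Type v} (hS : Setup S) (κ n : ℕ)
    (hcross : ∀ (L1 L2 : List (ℕ → G)) (m : ℕ → G), PF S (L1 ++ m :: L2) →
      2 * n + 2 ≤ L1.length → 2 * n + 2 ≤ L2.length → ∀ B : Set G, B.Finite →
      ∃ l0 l1 l2 l3 C C', Crossing S κ B L1 L2 l0 l1 l2 l3 C C')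
    {T1 T2 : List τ} {x y : τ} {c : τ → ℕ → G} {L : List (ℕ → G)}
    (hA : Arr S (2 * n + 2) (T1 ++ x :: y :: T2) c L) {E : Set (Sym2 τ)}
    (h : ∀ (c' : τ → ℕ → G) (L' : List (ℕ → G)), Arr S (2 * n + 2) (T1 ++ y :: x :: T2) c' L' →
      Completable (Cay S) κ {i | i ∈ T1 ++ x :: y :: T2} c' (E \ {s(x, y)})) :
    Completable (Cay S) κ {i | i ∈ T1 ++ x :: y :: T2} c E := by
  classical
  obtain ⟨hPF, hnd, p0, hp0, hpw0, hb0⟩ := hA
  have hxT : x ∈ T1 ++ x :: y :: T2 := by simp
  have hyT : y ∈ T1 ++ x :: y :: T2 := by simp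
  have hnd' := hnd
  rw [List.nodup_append, List.nodup_cons, List.nodup_cons] at hnd'
  obtain ⟨nd1, ⟨nd2, nd3, nd4⟩, nd5⟩ := hnd'
  have hxy : x ≠ y := fun h => nd2 (by simp [h])
  have hx1 : ∀ u ∈ T1, u ≠ x := fun u hu => nd5 u hu x (by simp)
  have hy1 : ∀ u ∈ T1, u ≠ y := fun u hu => nd5 u hu y (by simp)
  have hx2 : ∀ u ∈ T2, u ≠ x := fun u hu h => nd2 (by rw [← h]; simp [hu])
  have hy2 : ∀ u ∈ T2, u ≠ y := fun u hu h => nd3 (by rw [← h]; exact hu)
  have hcases : ∀ u ∈ T1 ++ x :: y :: T2, u ∈ T1 ∨ u = x ∨ u = y ∨ u ∈ T2 := fun u hu => by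
    simpa using hu
  suffices key : ∀ (k : ℕ) (c : τ → ℕ → G) (p : τ → ℕ), p y = p x + 2 + k →
      (∀ u ∈ T1 ++ x :: y :: T2, L[p u]? = some (c u)) →
      (T1 ++ x :: y :: T2).Pairwise (fun u v => p u + 2 ≤ p v) →
      (∀ u ∈ T1 ++ x :: y :: T2, 2 * n + 2 ≤ p u ∧ p u + (2 * n + 2) < L.length) →
      Completable (Cay S) κ {i | i ∈ T1 ++ x :: y :: T2} c E by
    obtain ⟨-, -, -, h4, -⟩ := oef4_pw' hpw0
    exact key (p0 y - p0 x - 2) c p0 (by omega) hp0 hpw0 hb0
  intro k
  induction k with
  | succ k ih =>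
    intro c p hk hp hpw hb
    obtain ⟨w1, w2, w3, w4, w5⟩ := oef4_pw' hpw
    have hlen : p x + 1 < L.length := by
      have := (hb y hyT).2
      omega
    have hfree : ∀ u ∈ T1 ++ x :: y :: T2, p u ≠ p x + 1 := fun u hu => by
      rcases hcases u hu with h | rfl | rfl | h
      · have := w3 u h; omega
      · omega
      · omega
      · have := w5 u h; omega
    have hupd : ∀ u, u ≠ x → Function.update c x (L[p x + 1]) u = c u := fun u hu =>
      Function.update_of_ne hu _ _
    have hpupd : ∀ u, u ≠ x → Function.update p x (p x + 1) u = p u := fun u hu =>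
      Function.update_of_ne hu _ _
    have hpx : Function.update p x (p x + 1) x = p x + 1 := Function.update_self _ _ _
    refine oef4_slide hS κ hPF hp (oef4_pinj hpw) hxT
      (c' := Function.update c x (L[p x + 1])) ?_ hfree (fun u _ hu => hupd u hu) ?_
    · rw [Function.update_self]
      exact List.getElem?_eq_getElem hlen
    · refine ih _ (Function.update p x (p x + 1)) ?_ ?_ ?_ ?_
      · rw [hpx, hpupd y hxy.symm]
        omega
      · intro u hu
        by_cases hux : u = x
        · subst hux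
          rw [hpx, Function.update_self]
          exact List.getElem?_eq_getElem hlen
        · rw [hpupd u hux, hupd u hux]
          exact hp u hu
      · refine oef4_pw (w1.imp_of_mem fun {a b} ha hb' hab => ?_)
          (w2.imp_of_mem fun {a b} ha hb' hab => ?_) (fun u hu => ?_) ?_ (fun v hv => ?_)
        · rw [hpupd a (hx1 a ha), hpupd b (hx1 b hb')]; exact hab
        · rw [hpupd a (hx2 a ha), hpupd b (hx2 b hb')]; exact hab
        · rw [hpupd u (hx1 u hu), hpx]
          have := w3 u hu; omega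
        · rw [hpx, hpupd y hxy.symm]; omega
        · rw [hpupd v (hx2 v hv), hpupd y hxy.symm]; exact w5 v hv
      · intro u hu
        by_cases hux : u = x
        · subst hux
          rw [hpx]
          have h1 := hb u hu
          have h2 := hb y hyT
          omega
        · rw [hpupd u hux]
          exact hb u hu
  | zero =>
    intro c p hk hp hpw hb
    obtain ⟨w1, w2, w3, w4, w5⟩ := oef4_pw' hpw
    rw [Nat.add_zero] at hk
    have hbx := hb x hxT
    have hby := hb y hyT
    have hlen : p x + 1 < L.length := by omega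
    obtain ⟨L1, m, L2, hL, hL1⟩ : ∃ (L1 : List (ℕ → G)) (m : ℕ → G) (L2 : List (ℕ → G)),
        L = L1 ++ m :: L2 ∧ L1.length = p x + 1 := by
      refine ⟨L.take (p x + 1), L[p x + 1], L.drop (p x + 2), ?_, ?_⟩
      · rw [← List.drop_eq_getElem_cons hlen, List.take_append_drop]
      · rw [List.length_take]; omega
    have hL2 : L2.length + (p x + 2) = L.length := by
      rw [hL, List.length_append, List.length_cons]
      omega
    -- indices
    have i1 : ∀ j, j ≤ p x → L1[j]? = L[j]? := fun j hj => by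
      rw [hL, List.getElem?_append_left (by omega)]
    have i2 : ∀ j, L2[j]? = L[j + (p x + 2)]? := fun j => by
      rw [hL, List.getElem?_append_right (by omega), hL1]
      have : j + (p x + 2) - (p x + 1) = j + 1 := by omega
      rw [this, List.getElem?_cons_succ]
    have im : L[p x + 1]? = some m := by
      rw [hL, List.getElem?_append_right (by omega), hL1]
      simp
    have hne : ∀ u ∈ T1 ++ x :: y :: T2, p u ≤ p x ∨ p x + 2 ≤ p u := fun u hu => by
      rcases hcases u hu with h | rfl | rfl | h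
      · have := w3 u h; omega
      · omega
      · omega
      · have := w5 u h; omega
    have hcL : ∀ u ∈ T1 ++ x :: y :: T2, c u ∈ L1 ∨ c u ∈ L2 := fun u hu => by
      rcases hne u hu with h | h
      · left
        exact oef4_mem (i := p u) (by rw [i1 _ h]; exact hp u hu)
      · right
        refine oef4_mem (i := p u - (p x + 2)) ?_
        rw [i2]
        have : p u - (p x + 2) + (p x + 2) = p u := by omega
        rw [this]
        exact hp u hu
    have hcx : L1.getLast? = some (c x) := by
      rw [List.getLast?_eq_getElem?, hL1]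
      have : p x + 1 - 1 = p x := by omega
      rw [this, i1 _ le_rfl]
      exact hp x hxT
    have hcy : L2.head? = some (c y) := by
      rw [List.head?_eq_getElem?, i2, ← hk.trans (Nat.zero_add _).symm]
      exact hp y hyT
    have hinj : Set.InjOn c {i | i ∈ T1 ++ x :: y :: T2} := by
      intro u hu v hv huv
      refine oef4_pinj hpw u hu v hv (oef4_idx hPF.nodup (hp u hu) ?_)
      rw [huv]
      exact hp v hv
    have hTfin : {i | i ∈ T1 ++ x :: y :: T2}.Finite := List.finite_toSet _
    -- link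
    have hFm : {r | r ∈ L} = insert m {r | r ∈ L1 ++ L2} := by
      ext r
      rw [hL]
      simp only [Set.mem_insert_iff, Set.mem_ofPred_eq, List.mem_append, List.mem_cons]
      tauto
    have hmF : m ∉ {r | r ∈ L1 ++ L2} := by
      have := hPF.nodup
      rw [hL] at this
      intro hm
      have h2 : (m :: (L1 ++ L2)).Nodup := (List.perm_middle.nodup_iff).1 this
      exact (List.nodup_cons.1 h2).1 hm
    have hFam := oef4_fam hS hPF
    rw [hFm] at hFam
    have hFam' : Fam (Cay S) {r | r ∈ L1 ++ L2} := hFam.mono (Set.subset_insert _ _)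
    have hR1 : RAdj (Cay S) (insert m {r | r ∈ L1 ++ L2}) (c x) m := by
      rw [← hFm]
      exact oef4_chain hPF (hp x hxT) im
    have hR2 : RAdj (Cay S) (insert m {r | r ∈ L1 ++ L2}) m (c y) := by
      rw [← hFm]
      refine oef4_chain hPF im ?_
      rw [show p x + 1 + 1 = p y by omega]
      exact hp y hyT
    have hcF : ∀ j ∈ {i | i ∈ T1 ++ x :: y :: T2}, c j ∈ {r | r ∈ L1 ++ L2} := fun j hj =>
      List.mem_append.2 (hcL j hj)
    refine completable_link (nice_cay hS) κ hFam' hTfin (i := x) (j := y) hxT hyT hxy hcF hinj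
      (radj_contract (nice_cay hS) hFam hmF (hcF x hxT) (hcF y hyT) hR1 hR2) ?_
    -- swap
    refine completable_swap hS κ hTfin (x := x) (y := y) hxT hyT hxy hcx hcy hcL hinj ?_
    intro B hB
    obtain ⟨l0, l1, l2, l3, C, C', hC⟩ := hcross L1 L2 m (by rw [← hL]; exact hPF)
      (by omega) (by omega) B hB
    refine ⟨l0, l1, l2, l3, C, C', hC, fun c' hc'x hc'y hc' => ?_⟩
    -- the new list
    have hPF' := hC.pf
    have j1 : ∀ j, j ≤ p x → (L1 ++ l0 :: l1 :: l2 :: l3 :: L2)[j]? = L[j]? := fun j hj => by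
      rw [List.getElem?_append_left (by omega), i1 _ hj]
    have j2 : ∀ j, p x + 2 ≤ j → (L1 ++ l0 :: l1 :: l2 :: l3 :: L2)[j + 3]? = L[j]? := by
      intro j hj
      rw [List.getElem?_append_right (by omega), hL1]
      obtain ⟨i, rfl⟩ : ∃ i, j = i + (p x + 2) := ⟨j - (p x + 2), by omega⟩
      have : i + (p x + 2) + 3 - (p x + 1) = i + 4 := by omega
      rw [this, ← i2]
      simp
    have k1 : (L1 ++ l0 :: l1 :: l2 :: l3 :: L2)[p x + 2]? = some l1 := by
      rw [List.getElem?_append_right (by omega), hL1]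
      have : p x + 2 - (p x + 1) = 1 := by omega
      rw [this]; rfl
    have k2 : (L1 ++ l0 :: l1 :: l2 :: l3 :: L2)[p x + 3]? = some l2 := by
      rw [List.getElem?_append_right (by omega), hL1]
      have : p x + 3 - (p x + 1) = 2 := by omega
      rw [this]; rfl
    have k3 : (L1 ++ l0 :: l1 :: l2 :: l3 :: L2)[p x + 4]? = some l3 := by
      rw [List.getElem?_append_right (by omega), hL1]
      have : p x + 4 - (p x + 1) = 3 := by omega
      rw [this]; rfl
    have hlen' : (L1 ++ l0 :: l1 :: l2 :: l3 :: L2).length = L.length + 3 := by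
      rw [List.length_append]
      simp only [List.length_cons]
      omega
    -- positions: x on l2 (first), then x on l3
    let q : ℕ → τ → ℕ := fun s u => if u = x then p x + s else if u = y then p x + 2 else
      if u ∈ T1 then p u else p u + 3
    have qx : ∀ s, q s x = p x + s := fun s => if_pos rfl
    have qy : ∀ s, q s y = p x + 2 := fun s => by
      change (if y = x then p x + s else if y = y then p x + 2 else
        if y ∈ T1 then p y else p y + 3) = p x + 2
      rw [if_neg hxy.symm, if_pos rfl]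
    have q1 : ∀ s, ∀ u ∈ T1, q s u = p u := fun s u hu => by
      simp only [q]
      rw [if_neg (hx1 u hu), if_neg (hy1 u hu), if_pos hu]
    have hT12 : ∀ u ∈ T2, u ∉ T1 := fun u hu h => nd5 u h u (by simp [hu]) rfl
    have q2 : ∀ s, ∀ u ∈ T2, q s u = p u + 3 := fun s u hu => by
      simp only [q]
      rw [if_neg (hx2 u hu), if_neg (hy2 u hu), if_neg (hT12 u hu)]
    have hq3 : ∀ u ∈ T1 ++ x :: y :: T2,
        (L1 ++ l0 :: l1 :: l2 :: l3 :: L2)[q 3 u]? = some (c' u) := fun u hu => by
      rcases hcases u hu with h | rfl | rfl | h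
      · have := w3 u h
        rw [q1 3 u h, j1 _ (by omega), hc' u hu (hx1 u h) (hy1 u h)]
        exact hp u hu
      · rw [qx, k2, hc'x]
      · rw [qy, k1, hc'y]
      · have := w5 u h
        rw [q2 3 u h, j2 _ (by omega), hc' u hu (hx2 u h) (hy2 u h)]
        exact hp u hu
    have hqinj : ∀ u ∈ T1 ++ x :: y :: T2, ∀ v ∈ T1 ++ x :: y :: T2,
        q 3 u = q 3 v → u = v := by
      intro u hu v hv
      have hpi := oef4_pinj hpw u hu v hv
      rcases hcases u hu with h | rfl | rfl | h
      · have a1 := w3 u h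
        rw [q1 3 u h]
        rcases hcases v hv with h' | rfl | rfl | h'
        · rw [q1 3 v h']; exact hpi
        · rw [qx]; omega
        · rw [qy]; omega
        · have := w5 v h'
          rw [q2 3 v h']; omega
      · rw [qx]
        rcases hcases v hv with h' | rfl | rfl | h'
        · have := w3 v h'
          rw [q1 3 v h']; omega
        · intro _; rfl
        · rw [qy]; omega
        · have := w5 v h'
          rw [q2 3 v h']; omega
      · rw [qy]
        rcases hcases v hv with h' | rfl | rfl | h'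
        · have := w3 v h'
          rw [q1 3 v h']; omega
        · rw [qx]; omega
        · intro _; rfl
        · have := w5 v h'
          rw [q2 3 v h']; omega
      · have a1 := w5 u h
        rw [q2 3 u h]
        rcases hcases v hv with h' | rfl | rfl | h'
        · have := w3 v h'
          rw [q1 3 v h']; omega
        · rw [qx]; omega
        · rw [qy]; omega
        · rw [q2 3 v h']
          intro he
          exact hpi (by omega)
    refine oef4_slide hS κ hPF' hq3 hqinj hxT (c' := Function.update c' x l3) ?_ ?_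
      (fun u _ hu => Function.update_of_ne hu _ _) ?_
    · rw [qx, Function.update_self]
      exact k3
    · intro u hu
      rw [qx]
      rcases hcases u hu with h | rfl | rfl | h
      · have := w3 u h
        rw [q1 3 u h]; omega
      · rw [qx]; omega
      · rw [qy]; omega
      · have := w5 u h
        rw [q2 3 u h]; omega
    · refine h _ (L1 ++ l0 :: l1 :: l2 :: l3 :: L2) ⟨hPF', ?_, q 4, ?_, ?_, ?_⟩
      · refine (List.Perm.nodup_iff ?_).1 hnd
        exact List.Perm.append_left _ (List.Perm.swap _ _ _)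
      · intro u hu
        have hu' : u ∈ T1 ++ x :: y :: T2 := by
          simp only [List.mem_append, List.mem_cons] at hu ⊢
          tauto
        rcases hcases u hu' with h | rfl | rfl | h
        · have := w3 u h
          rw [q1 4 u h, j1 _ (by omega), Function.update_of_ne (hx1 u h),
            hc' u hu' (hx1 u h) (hy1 u h)]
          exact hp u hu'
        · rw [qx, k3, Function.update_self]
        · rw [qy, k1, Function.update_of_ne hxy.symm, hc'y]
        · have := w5 u h
          rw [q2 4 u h, j2 _ (by omega), Function.update_of_ne (hx2 u h),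
            hc' u hu' (hx2 u h) (hy2 u h)]
          exact hp u hu'
      · refine oef4_pw (w1.imp_of_mem fun {a b} ha hb' hab => ?_)
          (w2.imp_of_mem fun {a b} ha hb' hab => ?_) (fun u hu => ?_) ?_ (fun v hv => ?_)
        · rw [q1 4 a ha, q1 4 b hb']; exact hab
        · rw [q2 4 a ha, q2 4 b hb']; omega
        · have := w3 u hu
          rw [q1 4 u hu, qy]; omega
        · rw [qy, qx]
        · have := w5 v hv
          rw [qx, q2 4 v hv]; omega
      · intro u hu
        have hu' : u ∈ T1 ++ x :: y :: T2 := by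
          simp only [List.mem_append, List.mem_cons] at hu ⊢
          tauto
        rw [hlen']
        have := hb u hu'
        rcases hcases u hu' with h | rfl | rfl | h
        · rw [q1 4 u h]; omega
        · rw [qx]; omega
        · rw [qy]; omega
        · rw [q2 4 u h]; omega

end group

end Pool.Agent.Lib.MP_0f7bfe_al.OE
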