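import Pool.Agent.Lib.MP_0f7bfe_al.OE.C1
import Pool.Agent.Lib.MP_0f7bfe_al.OE.A6
import Pool.Agent.Lib.MP_0f7bfe_al.OE.A10

/-!
F5 of the wave OE (problem MP_0f7bfe_al): an arrangement of tokens can be completed, provided that
neighbouring tokens can be swapped.
-/

namespace Pool.Agent.Lib.MP_0f7bfe_al.OE

universe u v

section F5
variable {G : Type u} [Group G] {S : Finset G} {τ : Type v} {g : ℕ} {T : List τ}
  {c : τ → ℕ → G} {L : List (ℕ → G)}

theorem Arr.sublist {T' : List τ} (h : Arr S g T c L) (hT : T'.Sublist T) : Arr S g T' c L := by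
  obtain ⟨p, h1, h2, h3⟩ := h.pos
  exact ⟨h.pf, h.nodup.sublist hT, p, fun u hu => h1 u (hT.subset hu), h2.sublist hT,
    fun u hu => h3 u (hT.subset hu)⟩

theorem Arr.mem (h : Arr S g T c L) {u : τ} (hu : u ∈ T) : c u ∈ L := by
  obtain ⟨p, h1, -, -⟩ := h.pos
  exact List.mem_of_getElem? (h1 u hu)

theorem Arr.inj (h : Arr S g T c L) : Set.InjOn c {i | i ∈ T} := by
  obtain ⟨p, h1, h2, h3⟩ := h.pos
  intro u hu v hv huv
  by_contra hne
  have h4 : T.Pairwise (fun u v => p u + 2 ≤ p v ∨ p v + 2 ≤ p u) := h2.imp Or.inl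
  have : Std.Symm (fun u v : τ => p u + 2 ≤ p v ∨ p v + 2 ≤ p u) := ⟨fun _ _ hab => Or.symm hab⟩
  have h5 := List.Pairwise.forall h4 hu hv hne
  have h6 := h1 u hu
  have h7 := h1 v hv
  rw [← huv] at h7
  have h8 : p u = p v := by
    have hlt : p u < L.length := by have := (h3 u hu).2; omega
    exact (List.getElem?_inj hlt h.pf.nodup).1 (h6.trans h7.symm)
  omega

theorem Arr.ray (h : Arr S g T c L) {u : τ} (hu : u ∈ T) : IsRay (Cay S) (c u) :=
  h.pf.ray _ (h.mem hu)

theorem Arr.dvg (hS : Setup S) (h : Arr S g T c L) {u v : τ} (hu : u ∈ T) (hv : v ∈ T)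
    (huv : u ≠ v) : Dvg (Cay S) (c u) (c v) :=
  Ind.dvg hS (h.pf.ind _ (h.mem hu) _ (h.mem hv) (fun he => huv (h.inj hu hv he)))

theorem arr_completable (hS : Setup S) (κ g : ℕ)
    (hswap : ∀ (T1 T2 : List τ) (x y : τ) (c : τ → ℕ → G) (L : List (ℕ → G))
      (E : Set (Sym2 τ)), Arr S g (T1 ++ x :: y :: T2) c L →
      (∀ (c' : τ → ℕ → G) (L' : List (ℕ → G)), Arr S g (T1 ++ y :: x :: T2) c' L' →
        Completable (Cay S) κ {i | i ∈ T1 ++ x :: y :: T2} c' (E \ {s(x, y)})) →
      Completable (Cay S) κ {i | i ∈ T1 ++ x :: y :: T2} c E)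
    {T : List τ} {c : τ → ℕ → G} {L : List (ℕ → G)} (hA : Arr S g T c L) :
    Completable (Cay S) κ {i | i ∈ T} c {e | ¬ e.IsDiag ∧ ∀ i ∈ e, i ∈ T} := by
  have key : ∀ n, ∀ (T : List τ) (c : τ → ℕ → G) (L : List (ℕ → G)), T.length = n →
      Arr S g T c L →
      Completable (Cay S) κ {i | i ∈ T} c {e | ¬ e.IsDiag ∧ ∀ i ∈ e, i ∈ T} := by
    intro n
    induction n with
    | zero =>
      intro T c L hT _ B _
      have hT0 : T = [] := List.length_eq_zero_iff.1 hT
      subst hT0
      have hE : ∀ e ∈ {e : Sym2 τ | ¬ e.IsDiag ∧ ∀ i ∈ e, i ∈ ([] : List τ)}, False := by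
        intro e he
        induction e using Sym2.ind with
        | _ a b => exact List.not_mem_nil (he.2 a (Sym2.mem_mk_left a b))
      exact ⟨{
        A := fun _ => ∅
        P := fun _ => ∅
        t := fun _ => 0
        fcA := fun i hi => absurd hi List.not_mem_nil
        disjA := fun i hi => absurd hi List.not_mem_nil
        mem := fun i hi => absurd hi List.not_mem_nil
        fcP := fun e he => (hE e he).elim
        disjP := fun e he => (hE e he).elim
        meet := fun e he => (hE e he).elim
        farAA := fun i hi => absurd hi List.not_mem_nil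
        farAc := fun i hi => absurd hi List.not_mem_nil
        farPP := fun e he => (hE e he).elim
        farPA := fun e he => (hE e he).elim
        farPc := fun e he => (hE e he).elim }⟩
    | succ n ihn =>
      have inner : ∀ (T2 T1 : List τ) (x : τ) (c : τ → ℕ → G) (L : List (ℕ → G)),
          (T1 ++ T2).length = n → Arr S g (T1 ++ x :: T2) c L →
          Completable (Cay S) κ {i | i ∈ T1 ++ x :: T2} c
            {e | ¬ e.IsDiag ∧ (∀ i ∈ e, i ∈ T1 ++ x :: T2) ∧ (x ∈ e → ∃ w ∈ T2, e = s(x, w))} := by
        intro T2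
        induction T2 with
        | nil =>
          intro T1 x c L hlen hA
          have hnd := hA.nodup
          have hx : x ∉ T1 := by
            intro hx
            rw [List.nodup_append] at hnd
            exact hnd.2.2 x hx x (List.mem_singleton.2 rfl) rfl
          apply completable_drop (nice_cay hS) κ
            (show {i | i ∈ T1 ++ [x]}.Finite from List.finite_toSet _)
            (fun i hi => hA.ray hi) (fun i hi j hj hij => hA.dvg hS hi hj hij) x
          · intro e he hxe
            obtain ⟨w, hw, -⟩ := he.2.2 hxe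
            exact List.not_mem_nil hw
          · have h1 : ({i | i ∈ T1 ++ [x]} \ {x} : Set τ) = {i | i ∈ T1} := by
              ext i
              constructor
              · rintro ⟨h2, h3⟩
                rcases List.mem_append.1 h2 with h | h
                · exact h
                · exact absurd (List.mem_singleton.1 h) h3
              · intro h2
                exact ⟨List.mem_append.2 (Or.inl h2), fun h3 => hx (h3 ▸ h2)⟩
            have h2 : {e : Sym2 τ | ¬ e.IsDiag ∧ (∀ i ∈ e, i ∈ T1 ++ [x]) ∧
                (x ∈ e → ∃ w ∈ ([] : List τ), e = s(x, w))} =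
                {e | ¬ e.IsDiag ∧ ∀ i ∈ e, i ∈ T1} := by
              ext e
              constructor
              · rintro ⟨h3, h4, h5⟩
                refine ⟨h3, fun i hi => ?_⟩
                rcases List.mem_append.1 (h4 i hi) with h | h
                · exact h
                · obtain ⟨w, hw, -⟩ := h5 (List.mem_singleton.1 h ▸ hi)
                  exact absurd hw List.not_mem_nil
              · rintro ⟨h3, h4⟩
                exact ⟨h3, fun i hi => List.mem_append.2 (Or.inl (h4 i hi)),
                  fun hxe => absurd (h4 x hxe) hx⟩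
            rw [h1, h2]
            exact ihn T1 c L (by simpa using hlen)
              (hA.sublist (List.sublist_append_left T1 [x]))
        | cons y T2 ih =>
          intro T1 x c L hlen hA
          have hnd := hA.nodup
          have hyx : x ≠ y ∧ y ∉ T2 := by
            rw [List.nodup_append] at hnd
            have h1 := List.nodup_cons.1 hnd.2.1
            have h2 := List.nodup_cons.1 h1.2
            exact ⟨fun h => h1.1 (h ▸ List.mem_cons_self), h2.1⟩
          apply hswap T1 T2 x y c L _ hA
          intro c' L' hA'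
          have e1 : T1 ++ y :: x :: T2 = (T1 ++ [y]) ++ x :: T2 := by simp
          have e2 : ∀ i, i ∈ T1 ++ x :: y :: T2 ↔ i ∈ (T1 ++ [y]) ++ x :: T2 := by
            intro i
            simp only [List.mem_append, List.mem_cons, List.not_mem_nil]
            tauto
          have h1 := ih (T1 ++ [y]) x c' L' (by
            simp only [List.length_append, List.length_cons, List.length_nil] at hlen ⊢
            omega) (e1 ▸ hA')
          have h2 : ({i | i ∈ T1 ++ x :: y :: T2} : Set τ) = {i | i ∈ (T1 ++ [y]) ++ x :: T2} := by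
            ext i; exact e2 i
          have h3 : ({e | ¬ e.IsDiag ∧ (∀ i ∈ e, i ∈ T1 ++ x :: y :: T2) ∧
              (x ∈ e → ∃ w ∈ y :: T2, e = s(x, w))} \ {s(x, y)} : Set (Sym2 τ)) =
              {e | ¬ e.IsDiag ∧ (∀ i ∈ e, i ∈ (T1 ++ [y]) ++ x :: T2) ∧
                (x ∈ e → ∃ w ∈ T2, e = s(x, w))} := by
            ext e
            constructor
            · rintro ⟨⟨h4, h5, h6⟩, h7⟩
              refine ⟨h4, fun i hi => (e2 i).1 (h5 i hi), fun hx => ?_⟩
              obtain ⟨w, hw, he⟩ := h6 hx
              rcases List.mem_cons.1 hw with h | h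
              · rw [h] at he
                exact absurd he h7
              · exact ⟨w, h, he⟩
            · rintro ⟨h4, h5, h6⟩
              refine ⟨⟨h4, fun i hi => (e2 i).2 (h5 i hi), fun hx => ?_⟩, fun h7 => ?_⟩
              · obtain ⟨w, hw, he⟩ := h6 hx
                exact ⟨w, List.mem_cons_of_mem _ hw, he⟩
              · have h7' : e = s(x, y) := h7
                obtain ⟨w, hw, he⟩ := h6 (by rw [h7']; exact Sym2.mem_mk_left x y)
                have h8 : s(x, w) = s(x, y) := he.symm.trans h7'
                have h9 : w = y := Sym2.congr_right.1 h8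
                exact hyx.2 (h9 ▸ hw)
          rw [h2, h3]
          exact h1
      intro T c L hT hA
      obtain ⟨x, T2, rfl⟩ : ∃ x T2, T = x :: T2 := by
        cases T with
        | nil => simp at hT
        | cons x T2 => exact ⟨x, T2, rfl⟩
      have h1 := inner T2 [] x c L (by simpa using hT) hA
      have h2 : {e : Sym2 τ | ¬ e.IsDiag ∧ (∀ i ∈ e, i ∈ [] ++ x :: T2) ∧
          (x ∈ e → ∃ w ∈ T2, e = s(x, w))} = {e | ¬ e.IsDiag ∧ ∀ i ∈ e, i ∈ x :: T2} := by
        ext e
        constructor
        · rintro ⟨h3, h4, -⟩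
          exact ⟨h3, h4⟩
        · rintro ⟨h3, h4⟩
          refine ⟨h3, h4, fun hx => ?_⟩
          obtain ⟨w, hw⟩ := Sym2.mem_iff_exists.1 hx
          refine ⟨w, ?_, hw⟩
          rcases List.mem_cons.1 (h4 w (by rw [hw]; exact Sym2.mem_mk_right x w)) with h | h
          · exact absurd (by rw [hw, h]; exact Sym2.mk_isDiag_iff.2 rfl) h3
          · exact h
      rw [h2] at h1
      exact h1
  exact key _ T c L rfl hA

end F5

end Pool.Agent.Lib.MP_0f7bfe_al.OE
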