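import Mathlib

/-!
B6 of the wave OE (problem MP_0f7bfe_al): a large finite connected graph has a vertex of large
degree or a long path.
-/

namespace Pool.Agent.Lib.MP_0f7bfe_al.OE

universe u

section B6
open Classical

variable {α : Type u}

/-- balls around `c` in the graph on `F` with adjacency `R` -/
noncomputable def bl (R : α → α → Prop) (F : Finset α) (c : α) : ℕ → Finset α
  | 0 => {c}
  | k + 1 => F.filter (fun x => ∃ y ∈ bl R F c k, x = y ∨ R y x)

theorem bl_sub (R : α → α → Prop) {F : Finset α} {c : α} (hc : c ∈ F) (k : ℕ) :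
    bl R F c k ⊆ F := by
  cases k with
  | zero => intro x hx; rw [bl, Finset.mem_singleton] at hx; rw [hx]; exact hc
  | succ k => rw [bl]; exact Finset.filter_subset _ _

theorem bl_mono (R : α → α → Prop) {F : Finset α} {c : α} (hc : c ∈ F) (k : ℕ) :
    bl R F c k ⊆ bl R F c (k + 1) := by
  intro x hx
  rw [bl]
  exact Finset.mem_filter.2 ⟨bl_sub R hc k hx, x, hx, Or.inl rfl⟩

theorem bl_card (R : α → α → Prop) {F : Finset α} {c : α} {n : ℕ}
    (hst : ∀ y ∈ F, (F.filter (fun x => x = y ∨ R y x)).card ≤ n) (hc : c ∈ F) (k : ℕ) :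
    (bl R F c k).card ≤ n ^ k := by
  induction k with
  | zero => simp [bl]
  | succ k ih =>
    have h1 : bl R F c (k + 1) ⊆
        (bl R F c k).biUnion (fun y => F.filter (fun x => x = y ∨ R y x)) := by
      intro x hx
      rw [bl] at hx
      obtain ⟨hx1, y, hy, hxy⟩ := Finset.mem_filter.1 hx
      exact Finset.mem_biUnion.2 ⟨y, hy, Finset.mem_filter.2 ⟨hx1, hxy⟩⟩
    calc (bl R F c (k + 1)).card
        ≤ ((bl R F c k).biUnion (fun y => F.filter (fun x => x = y ∨ R y x))).card :=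
          Finset.card_le_card h1
      _ ≤ (bl R F c k).card * n :=
          Finset.card_biUnion_le_card_mul _ _ _ (fun y hy => hst y (bl_sub R hc k hy))
      _ ≤ n ^ k * n := Nat.mul_le_mul_right _ ih
      _ = n ^ (k + 1) := by rw [pow_succ]

theorem bl_path (R : α → α → Prop) (hs : ∀ a b, R a b → R b a) {F : Finset α} {c : α}
    (hc : c ∈ F) (k : ℕ) : ∀ x ∈ bl R F c k, (∀ j, j < k → x ∉ bl R F c j) →
    ∃ l : List α, l.length = k ∧ (x :: l).Nodup ∧ (∀ a ∈ x :: l, a ∈ bl R F c k) ∧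
      List.IsChain R (x :: l) := by
  induction k with
  | zero =>
    intro x hx _
    exact ⟨[], rfl, by simp, by simpa using hx, by simp⟩
  | succ k ih =>
    intro x hx hk
    have hxk : x ∉ bl R F c k := hk k (Nat.lt_succ_self k)
    have hx' := hx
    rw [bl] at hx'
    obtain ⟨hx1, y, hy, hxy⟩ := Finset.mem_filter.1 hx'
    have hxy' : R y x := by
      rcases hxy with h | h
      · exact absurd (h ▸ hy) hxk
      · exact h
    obtain ⟨l, hl, hnd, hmem, hch⟩ := ih y hy (by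
      intro j hj hyj
      apply hk (j + 1) (by omega)
      rw [bl]
      exact Finset.mem_filter.2 ⟨hx1, y, hyj, Or.inr hxy'⟩)
    refine ⟨y :: l, by simp [hl], ?_, ?_, ?_⟩
    · exact List.nodup_cons.2 ⟨fun h => hxk (hmem x h), hnd⟩
    · intro a ha
      rcases List.mem_cons.1 ha with h | h
      · rw [h]; exact hx
      · exact bl_mono R hc k (hmem a h)
    · exact List.isChain_cons_cons.2 ⟨hs _ _ hxy', hch⟩

/-- uniform version: the bound depends only on `n` and `N` -/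
theorem star_or_path_unif (n N : ℕ) (R : α → α → Prop) (hs : ∀ a b, R a b → R b a)
    (F : Finset α) (hF : n ^ N + 1 ≤ F.card)
    (hcon : ∀ F1 F2 : Set α, F1 ∪ F2 = ↑F → Disjoint F1 F2 → F1.Nonempty → F2.Nonempty →
        ∃ a ∈ F1, ∃ b ∈ F2, R a b) :
    (∃ c ∈ F, ∃ L : Finset α, L.card = n ∧ (∀ a ∈ L, a ∈ F ∧ a ≠ c) ∧ ∀ a ∈ L, R c a) ∨
      ∃ l : List α, l.length = N ∧ l.Nodup ∧ (∀ a ∈ l, a ∈ F) ∧ List.IsChain R l := by
  by_cases hstar : ∃ c ∈ F, ∃ L : Finset α, L.card = n ∧ (∀ a ∈ L, a ∈ F ∧ a ≠ c) ∧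
      ∀ a ∈ L, R c a
  · exact Or.inl hstar
  right
  obtain ⟨c, hc⟩ : F.Nonempty := Finset.card_pos.1 (by omega)
  have hn : 1 ≤ n := by
    by_contra h
    exact hstar ⟨c, hc, ∅, by simp; omega, by simp, by simp⟩
  have hst : ∀ y ∈ F, (F.filter (fun x => x = y ∨ R y x)).card ≤ n := by
    intro y hy
    have h1 : (F.filter (fun x => x ≠ y ∧ R y x)).card < n := by
      by_contra h
      obtain ⟨L, hL, hLc⟩ := Finset.exists_subset_card_eq (Nat.not_lt.1 h)
      refine hstar ⟨y, hy, L, hLc, fun a ha => ?_, fun a ha => ?_⟩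
      · have h2 := Finset.mem_filter.1 (hL ha)
        exact ⟨h2.1, h2.2.1⟩
      · exact (Finset.mem_filter.1 (hL ha)).2.2
    have h2 : F.filter (fun x => x = y ∨ R y x) ⊆
        insert y (F.filter (fun x => x ≠ y ∧ R y x)) := by
      intro x hx
      obtain ⟨hx1, hx2⟩ := Finset.mem_filter.1 hx
      by_cases hxy : x = y
      · exact Finset.mem_insert.2 (Or.inl hxy)
      · exact Finset.mem_insert.2 (Or.inr (Finset.mem_filter.2 ⟨hx1, hxy,
          hx2.resolve_left hxy⟩))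
    have h3 := Finset.card_le_card h2
    have h4 := Finset.card_insert_le y (F.filter (fun x => x ≠ y ∧ R y x))
    omega
  rcases Nat.eq_zero_or_pos N with hN | hN
  · exact ⟨[], by simp [hN], by simp, by simp, by simp⟩
  have hne : ∀ k, k < N → ¬ (bl R F c (k + 1) ⊆ bl R F c k) := by
    intro k hk hsub
    have hcard := bl_card R hst hc k
    have hpow : n ^ k ≤ n ^ N := Nat.pow_le_pow_right hn (by omega)
    have hck : c ∈ bl R F c k := by
      clear hsub hcard hpow hk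
      induction k with
      | zero => simp [bl]
      | succ k ih => exact bl_mono R hc k ih
    obtain ⟨z, hz⟩ : (F \ bl R F c k).Nonempty := by
      apply Finset.card_pos.1
      rw [Finset.card_sdiff_of_subset (bl_sub R hc k)]
      omega
    obtain ⟨a, ha, b, hb, hab⟩ := hcon (↑(bl R F c k)) (↑(F \ bl R F c k))
      (by rw [← Finset.coe_union, Finset.union_sdiff_of_subset (bl_sub R hc k)])
      (by rw [Finset.disjoint_coe]; exact Finset.disjoint_sdiff) ⟨c, hck⟩ ⟨z, hz⟩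
    have hb' := Finset.mem_sdiff.1 (Finset.mem_coe.1 hb)
    apply hb'.2
    apply hsub
    rw [bl]
    exact Finset.mem_filter.2 ⟨hb'.1, a, Finset.mem_coe.1 ha, Or.inr hab⟩
  obtain ⟨N', rfl⟩ : ∃ N', N = N' + 1 := ⟨N - 1, by omega⟩
  have hex : ∃ x ∈ bl R F c N', ∀ j, j < N' → x ∉ bl R F c j := by
    rcases Nat.eq_zero_or_pos N' with h0 | h0
    · subst h0
      exact ⟨c, by simp [bl], fun j hj => absurd hj (Nat.not_lt_zero j)⟩
    · obtain ⟨K, rfl⟩ : ∃ K, N' = K + 1 := ⟨N' - 1, by omega⟩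
      obtain ⟨x, hx, hxK⟩ := Finset.not_subset.1 (hne K (by omega))
      refine ⟨x, hx, fun j hj hxj => hxK ?_⟩
      have hmono : Monotone (fun j => bl R F c j) := monotone_nat_of_le_succ (bl_mono R hc)
      exact hmono (show j ≤ K by omega) hxj
  obtain ⟨x, hx, hxj⟩ := hex
  obtain ⟨l, hl, hnd, hmem, hch⟩ := bl_path R hs hc N' x hx hxj
  exact ⟨x :: l, by simp [hl], hnd, fun a ha => bl_sub R hc N' (hmem a ha), hch⟩

theorem star_or_path (R : α → α → Prop) (hs : ∀ a b, R a b → R b a) (n N : ℕ) :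
    ∃ M : ℕ, ∀ F : Finset α, M ≤ F.card →
      (∀ F1 F2 : Set α, F1 ∪ F2 = ↑F → Disjoint F1 F2 → F1.Nonempty → F2.Nonempty →
        ∃ a ∈ F1, ∃ b ∈ F2, R a b) →
      (∃ c ∈ F, ∃ L : Finset α, L.card = n ∧ (∀ a ∈ L, a ∈ F ∧ a ≠ c) ∧ ∀ a ∈ L, R c a) ∨
      ∃ l : List α, l.length = N ∧ l.Nodup ∧ (∀ a ∈ l, a ∈ F) ∧ List.IsChain R l :=
  ⟨n ^ N + 1, fun F hF hcon => star_or_path_unif n N R hs F hF hcon⟩

end B6

end Pool.Agent.Lib.MP_0f7bfe_al.OE
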