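import Pool.Agent.Lib.MP_0f7bfe_al.OE.B3
import Pool.Agent.Lib.MP_0f7bfe_al.OE.A11
import Pool.Agent.Lib.MP_0f7bfe_al.OE.B6

/-!
F6 of the wave OE (problem MP_0f7bfe_al): arrangements exist.
-/

namespace Pool.Agent.Lib.MP_0f7bfe_al.OE

universe u v

section F6
variable {G : Type u} [Group G] {S : Finset G}

theorem exists_arr (hS : Setup S) (h1 : OneEnd (Cay S)) {n : ℕ} (hst : NoStar (Cay S) n)
    (g : ℕ) : ∃ (c : Fin n → ℕ → G) (L : List (ℕ → G)), Arr S g (List.finRange n) c L := by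
  obtain ⟨F, hcard, hray, hind⟩ := many_rays hS (n ^ (2 * g + 2 * n + 1) + 1)
  have hFam : Fam (Cay S) (↑F : Set (ℕ → G)) := ⟨F.finite_toSet, fun r hr => (hray r hr).1,
    fun r hr r' hr' hne => Ind.dvg hS (hind r hr r' hr' hne)⟩
  rcases star_or_path_unif n (2 * g + 2 * n + 1) (RAdj (Cay S) (↑F : Set (ℕ → G)))
    (fun a b h => RAdj.symm h) F hcard.ge
    (fun F1 F2 hU hd h1n h2n => radj_connected (nice_cay hS) h1 hFam F1 F2 hU hd h1n h2n) with
    ⟨z, hz, L, hL, hLF, hR⟩ | ⟨l, hl, hnd, hmem, hch⟩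
  · exact absurd hR (hst _ hFam L z hL (Finset.mem_coe.2 hz)
      (fun x hx => ⟨Finset.mem_coe.2 (hLF x hx).1, (hLF x hx).2⟩))
  · have hlt : ∀ i : Fin n, g + 2 * (i : ℕ) < l.length := fun i => by
      have := i.2
      omega
    refine ⟨fun i => l[g + 2 * (i : ℕ)]'(hlt i), l, ?_, List.nodup_finRange n,
      fun i => g + 2 * (i : ℕ), fun u _ => ?_, ?_, fun u _ => ⟨Nat.le_add_right _ _, ?_⟩⟩
    · refine ⟨hnd, fun r hr => (hray r (hmem r hr)).1, fun r hr => (hray r (hmem r hr)).2,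
        fun r hr r' hr' hne => hind r (hmem r hr) r' (hmem r' hr') hne, ?_⟩
      exact hch.imp (fun a b hab => RAdj.mono hab (fun r hr => Finset.mem_coe.2 (hmem r hr)))
    · exact List.getElem?_eq_getElem (hlt u)
    · exact (List.pairwise_lt_finRange n).imp (fun {a b} hab => by
        have h2 : (a : ℕ) < b := hab
        show g + 2 * (a : ℕ) + 2 ≤ g + 2 * (b : ℕ)
        omega)
    · have h2 := u.2
      show g + 2 * (u : ℕ) + g < l.length
      omega

end F6

end Pool.Agent.Lib.MP_0f7bfe_al.OE
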