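import Pool.Agent.Lib.MP_0f7bfe_al.OE.B1
import Pool.Agent.Lib.MP_0f7bfe_al.FM1

open scoped Pointwise ENNReal NNReal

namespace Pool.Agent.Lib.MP_0f7bfe_al.OE

universe u v w

section group
variable {G : Type u} [Group G] {S : Finset G}

theorem oef8_linked {A : Set G} {x y : G} (p : (Cay S).Walk x y) (hp : ∀ z ∈ p.support, z ∈ A) :
    Linked (S : Set G) A x y := by
  induction p with
  | nil => exact Relation.ReflTransGen.refl
  | cons hadj q ih =>
    rename_i a b c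
    refine Relation.ReflTransGen.head ?_ (ih fun z hz => hp z (by simp [hz]))
    refine ⟨hp a (by simp), hp b (by simp), ?_⟩
    rw [SimpleGraph.mulCayley_adj'] at hadj
    obtain ⟨-, g, hg, h | h⟩ := hadj
    · left
      rw [← h]
      simpa using hg
    · right
      rw [h]
      simpa using hg

theorem allCliques_of_fatClique (hS : Setup S) (h : ∀ κ n, FatClique (Cay S) κ n) :
    AllCliques G := by
  have hh := cayley_homog (S : Set G) S.finite_toSet hS.gen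
  refine ⟨S, S.finite_toSet, fun n F hF => ?_⟩
  obtain ⟨κ, hκ⟩ : ∃ κ, ∀ x ∈ F, (Cay S).dist 1 x ≤ κ := by
    obtain ⟨R, hR⟩ := (hF.image (fun t => (Cay S).dist 1 t)).bddAbove
    exact ⟨R, fun t ht => hR ⟨t, ht, rfl⟩⟩
  have hfar : ∀ A B : Set G, Far (Cay S) κ A B → ∀ x ∈ A, ∀ y ∈ B, x⁻¹ * y ∉ F := by
    intro A B hAB x hx y hy hxy
    have h1 := hAB x hx y hy
    rw [fm1_dist_one hh] at h1
    exact absurd (hκ _ hxy) (not_le.2 h1)
  have hlink : ∀ A : Set G, FC (Cay S) A → ∀ x ∈ A, ∀ y ∈ A, Linked (S : Set G) A x y := by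
    intro A hA x hx y hy
    obtain ⟨p, hp⟩ := hA.walk hx hy
    exact oef8_linked p hp
  obtain ⟨A, P, hA, hP, hAA, hPP, hPA⟩ := h κ n
  have hd : ∀ u v : Fin n, u < v → ¬ (s(u, v) : Sym2 (Fin n)).IsDiag := by
    intro u v huv
    rw [Sym2.mk_isDiag_iff]
    exact huv.ne
  refine ⟨⟨A, fun u v => P s(u, v), ?_, ?_, ?_, ?_, ?_, ?_⟩⟩
  · intro v
    obtain ⟨x⟩ := (hA v).conn.nonempty
    exact ⟨x, x.2⟩
  · exact fun v => hlink _ (hA v)
  · intro u v huv
    obtain ⟨h1, h2⟩ := hP _ (hd u v huv)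
    obtain ⟨x, hx, hx'⟩ := h2 u (by simp)
    obtain ⟨y, hy, hy'⟩ := h2 v (by simp)
    exact ⟨x, hx', y, hy', hx, hy, hlink _ h1 x hx y hy⟩
  · exact fun u v huv => hfar _ _ (hAA u v huv)
  · intro u v u' v' huv huv' hne
    refine hfar _ _ (hPP _ _ (hd u v huv) (hd u' v' huv') ?_)
    intro he
    rw [Sym2.eq_iff] at he
    rcases he with ⟨rfl, rfl⟩ | ⟨rfl, rfl⟩
    · exact hne rfl
    · exact absurd huv (not_lt.2 huv'.le)
  · intro u v w huv hwu hwv
    refine hfar _ _ (hPA _ (hd u v huv) w ?_)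
    simp [hwu, hwv]

theorem oef8_ai {Y : Set G} (T : Set G) (hT : ∀ t ∈ T, {x | x ∈ Y ∧ x * t ∉ Y}.Finite ∧
    {x | x ∈ Y ∧ x * t⁻¹ ∉ Y}.Finite) {g : G} (hg : g ∈ Subgroup.closure T) :
    {x | x ∈ Y ∧ x * g ∉ Y}.Finite := by
  have key : {x | x ∈ Y ∧ x * g ∉ Y}.Finite ∧ {x | x ∈ Y ∧ x * g⁻¹ ∉ Y}.Finite := by
    induction hg using Subgroup.closure_induction with
    | mem x hx => exact hT x hx
    | one => simp
    | mul a b _ _ ha hb =>
      have haux : ∀ c d : G, {x | x ∈ Y ∧ x * c ∉ Y}.Finite → {x | x ∈ Y ∧ x * d ∉ Y}.Finite →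
          {x | x ∈ Y ∧ x * (c * d) ∉ Y}.Finite := by
        intro c d hc hd
        refine (hc.union (hd.preimage (f := fun x => x * c)
          (mul_left_injective c).injOn)).subset ?_
        rintro x ⟨hx1, hx2⟩
        by_cases hxc : x * c ∈ Y
        · right
          exact ⟨hxc, by simpa [mul_assoc] using hx2⟩
        · exact Or.inl ⟨hx1, hxc⟩
      refine ⟨haux a b ha.1 hb.1, ?_⟩
      rw [mul_inv_rev]
      exact haux _ _ hb.2 ha.2
    | inv a _ ha =>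
      refine ⟨ha.2, ?_⟩
      rw [inv_inv]
      exact ha.1
  exact key.1

theorem oneEnd_of_oneEnded (hS : Setup S) (h : OneEnded G) : OneEnd (Cay S) := by
  intro Y hY
  apply h Y
  intro g
  have hg : g ∈ Subgroup.closure (S : Set G) := by rw [hS.gen]; trivial
  refine oef8_ai (S : Set G) ?_ hg
  intro t ht
  constructor
  · refine hY.subset ?_
    rintro x ⟨h1, h2⟩
    refine ⟨x * t, ?_, by simp [h1, h2]⟩
    rw [SimpleGraph.mulCayley_adj']
    refine ⟨fun he => h2 (he ▸ h1), t, ht, Or.inl rfl⟩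
  · refine hY.subset ?_
    rintro x ⟨h1, h2⟩
    refine ⟨x * t⁻¹, ?_, by simp [h1, h2]⟩
    rw [SimpleGraph.mulCayley_adj']
    refine ⟨fun he => h2 (he ▸ h1), t, ht, Or.inr (by simp)⟩

theorem oneEnded_of_oneEnd (S : Set G) (hS : S.Finite) (_hgen : Subgroup.closure S = ⊤)
    (h : OneEnd (SimpleGraph.mulCayley S)) : OneEnded G := by
  intro Y hY
  apply h Y
  have h1 : (⋃ s ∈ S, ({x | x ∈ Y ∧ x * s ∉ Y} ∪ {x | x ∈ Y ∧ x * s⁻¹ ∉ Y} ∪
      (fun x => x * s) '' {x | x ∈ Y ∧ x * s ∉ Y} ∪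
      (fun x => x * s⁻¹) '' {x | x ∈ Y ∧ x * s⁻¹ ∉ Y})).Finite := by
    refine hS.biUnion fun s _ => ?_
    exact (((hY s).union (hY s⁻¹)).union ((hY s).image _)).union ((hY s⁻¹).image _)
  refine h1.subset ?_
  rintro x ⟨y, hadj, hxy⟩
  rw [SimpleGraph.mulCayley_adj'] at hadj
  obtain ⟨-, g, hg, h2⟩ := hadj
  simp only [Set.mem_iUnion]
  refine ⟨g, hg, ?_⟩
  by_cases hx : x ∈ Y
  · have hy : y ∉ Y := fun hy => hxy (by simp [hx, hy])
    rcases h2 with h2 | h2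
    · exact Or.inl (Or.inl (Or.inl ⟨hx, by rwa [h2]⟩))
    · refine Or.inl (Or.inl (Or.inr ⟨hx, ?_⟩))
      rw [h2]
      simpa using hy
  · have hy : y ∈ Y := by
      by_contra hy
      exact hxy (by simp [hx, hy])
    rcases h2 with h2 | h2
    · refine Or.inr ⟨y, ⟨hy, ?_⟩, ?_⟩
      · rw [← h2]; simpa using hx
      · rw [← h2]; simp
    · refine Or.inl (Or.inr ⟨y, ⟨hy, ?_⟩, ?_⟩)
      · rwa [← h2]
      · exact h2.symm

end group

end Pool.Agent.Lib.MP_0f7bfe_al.OE
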