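import Pool.Agent.Lib.MP_0f7bfe_al.OE.Defs
import Pool.Agent.Lib.MP_0f7bfe_al.FM1
import Pool.Agent.Lib.MP_0f7bfe_al.SV8

open scoped Pointwise ENNReal NNReal

namespace Pool.Agent.Lib.MP_0f7bfe_al.OE

universe u v w

section group
variable {G : Type u} [Group G] {S : Finset G}

theorem oef9_ker {Q : Type v} {H : Type w} [Group Q] [Group H] (hQ : Group.FG Q)
    (hH : Group.IsFinitelyPresented H) (ψ : Q →* H) (hψ : Function.Surjective ψ) :
    ψ.ker.IsFinitelyNormallyGenerated := by
  obtain ⟨m, φ, hφ, R, hR, hRφ⟩ := hH.out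
  obtain ⟨T, hT⟩ := hQ.out
  choose lift hlift using hψ
  choose w hw using hφ
  set α : FreeGroup (Fin m) →* Q := FreeGroup.lift (fun i => lift (φ (FreeGroup.of i))) with hα
  have hαφ : ∀ x, ψ (α x) = φ x := by
    have h1 : ψ.comp α = φ := by
      apply FreeGroup.ext_hom
      intro i
      simp [hα, hlift]
    intro x
    rw [← h1]
    rfl
  set N : Subgroup Q := Subgroup.normalClosure
    ((α '' R) ∪ ((fun q => q⁻¹ * α (w (ψ q))) '' (T : Set Q))) with hN
  refine ⟨(α '' R) ∪ ((fun q => q⁻¹ * α (w (ψ q))) '' (T : Set Q)),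
    (hR.image _).union (T.finite_toSet.image _), ?_⟩
  apply le_antisymm
  · apply Subgroup.normalClosure_le_normal
    rintro x (⟨r, hr, rfl⟩ | ⟨q, _, rfl⟩)
    · change ψ (α r) = 1
      rw [hαφ]
      have : r ∈ φ.ker := by
        rw [← hRφ]
        exact Subgroup.subset_normalClosure hr
      exact this
    · change ψ (q⁻¹ * α (w (ψ q))) = 1
      rw [map_mul, hαφ, hw, map_inv, inv_mul_cancel]
  · -- the map to the quotient by N
    have h1 : φ.ker ≤ ((QuotientGroup.mk' N).comp α).ker := by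
      rw [← hRφ]
      apply Subgroup.normalClosure_le_normal
      intro r hr
      change QuotientGroup.mk' N (α r) = 1
      have : α r ∈ N := Subgroup.subset_normalClosure (Or.inl ⟨r, hr, rfl⟩)
      exact (QuotientGroup.eq_one_iff _).mpr this
    have h2 : ∀ x : Q, ∃ u : FreeGroup (Fin m), QuotientGroup.mk' N x = QuotientGroup.mk' N (α u) := by
      have h3 : (⊤ : Subgroup Q) ≤
          (((QuotientGroup.mk' N).comp α).range).comap (QuotientGroup.mk' N) := by
        rw [← hT, Subgroup.closure_le]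
        intro q hq
        change QuotientGroup.mk' N q ∈ ((QuotientGroup.mk' N).comp α).range
        refine ⟨w (ψ q), ?_⟩
        change QuotientGroup.mk' N (α (w (ψ q))) = QuotientGroup.mk' N q
        symm
        apply (QuotientGroup.eq).mpr
        exact Subgroup.subset_normalClosure (Or.inr ⟨q, hq, rfl⟩)
      intro x
      obtain ⟨u, hu⟩ := h3 (Subgroup.mem_top x)
      exact ⟨u, hu.symm⟩
    intro x hx
    obtain ⟨u, hu⟩ := h2 x
    have hNψ : N ≤ ψ.ker := by
      apply Subgroup.normalClosure_le_normal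
      rintro y (⟨r, hr, rfl⟩ | ⟨q, _, rfl⟩)
      · change ψ (α r) = 1
        rw [hαφ]
        have : r ∈ φ.ker := by
          rw [← hRφ]
          exact Subgroup.subset_normalClosure hr
        exact this
      · change ψ (q⁻¹ * α (w (ψ q))) = 1
        rw [map_mul, hαφ, hw, map_inv, inv_mul_cancel]
    have h4 : x⁻¹ * α u ∈ N := QuotientGroup.eq.mp hu
    have h5 : ψ (x⁻¹ * α u) = 1 := hNψ h4
    have h6 : ψ x = 1 := hx
    rw [map_mul, map_inv, h6, inv_one, one_mul, hαφ] at h5
    have h7 : u ∈ ((QuotientGroup.mk' N).comp α).ker := h1 h5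
    have h8 : QuotientGroup.mk' N (α u) = 1 := h7
    rw [h8] at hu
    exact (QuotientGroup.eq_one_iff _).mp hu

/-- the kernel of a surjection from a finitely generated group onto a finitely presented group -/
theorem ker_normallyFG {Q H : Type u} [Group Q] [Group H] (hQ : Group.FG Q)
    (hH : Group.IsFinitelyPresented H) (ψ : Q →* H) (hψ : Function.Surjective ψ) :
    ψ.ker.IsFinitelyNormallyGenerated := oef9_ker hQ hH ψ hψ

theorem oef9_fg (A : Subgroup G) (hA : A.index ≠ 0) (h : Group.FG A) : Group.FG G := by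
  obtain ⟨T, hT⟩ := h.out
  have : A.FiniteIndex := Subgroup.finiteIndex_iff.mpr hA
  have hfin : Finite (G ⧸ A) := inferInstance
  rw [Group.fg_iff]
  refine ⟨(A.subtype '' (T : Set A)) ∪ Set.range (Quotient.out : (G ⧸ A) → G), ?_,
    (T.finite_toSet.image _).union (Set.finite_range _)⟩
  rw [eq_top_iff]
  intro g _
  have hAle : A ≤ Subgroup.closure
      ((A.subtype '' (T : Set A)) ∪ Set.range (Quotient.out : (G ⧸ A) → G)) := by
    have h1 : (⊤ : Subgroup A) ≤ (Subgroup.closure
      ((A.subtype '' (T : Set A)) ∪ Set.range (Quotient.out : (G ⧸ A) → G))).comap A.subtype := by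
      rw [← hT, Subgroup.closure_le]
      intro t ht
      exact Subgroup.subset_closure (Or.inl ⟨t, ht, rfl⟩)
    intro a ha
    exact h1 (Subgroup.mem_top ⟨a, ha⟩)
  have h2 : (QuotientGroup.mk g : G ⧸ A).out⁻¹ * g ∈ A := by
    have h3 : (QuotientGroup.mk ((QuotientGroup.mk g : G ⧸ A).out) : G ⧸ A) = QuotientGroup.mk g :=
      QuotientGroup.out_eq' _
    exact QuotientGroup.eq.mp h3
  have h4 : g = (QuotientGroup.mk g : G ⧸ A).out * ((QuotientGroup.mk g : G ⧸ A).out⁻¹ * g) := by
    group
  rw [h4]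
  exact Subgroup.mul_mem _ (Subgroup.subset_closure (Or.inr ⟨_, rfl⟩)) (hAle h2)

theorem fp_of_index (A : Subgroup G) (hA : A.index ≠ 0) (h : Group.IsFinitelyPresented A) :
    Group.IsFinitelyPresented G := by
  have hAfg : Group.FG A := by
    obtain ⟨m, φ, hφ, -⟩ := h.out
    exact Group.fg_of_surjective hφ
  have hGfg : Group.FG G := oef9_fg A hA hAfg
  obtain ⟨n, φ, hφ⟩ : ∃ (n : ℕ) (φ : FreeGroup (Fin n) →* G), Function.Surjective φ := by
    obtain ⟨T, hT⟩ := hGfg.out
    obtain ⟨n, ⟨e⟩⟩ := Finite.exists_equiv_fin T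
    refine ⟨n, FreeGroup.lift (fun i => (e.symm i : G)), ?_⟩
    rw [← MonoidHom.range_eq_top, FreeGroup.range_lift_eq_closure, ← hT]
    congr 1
    ext x
    constructor
    · rintro ⟨i, rfl⟩
      exact (e.symm i).2
    · intro hx
      exact ⟨e ⟨x, hx⟩, by simp⟩
  set F' : Subgroup (FreeGroup (Fin n)) := A.comap φ with hF'
  have hF'i : F'.index ≠ 0 := by
    rw [hF', Subgroup.index_comap_of_surjective A hφ]
    exact hA
  have : F'.FiniteIndex := Subgroup.finiteIndex_iff.mpr hF'i
  have hF'fg : Group.FG F' := inferInstance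
  set ψ : F' →* A := (φ.comp F'.subtype).codRestrict A (fun x => x.2) with hψdef
  have hψv : ∀ x : F', ((ψ x : A) : G) = φ x := fun x => rfl
  have hψ : Function.Surjective ψ := by
    intro a
    obtain ⟨x, hx⟩ := hφ (a : G)
    have hxF : x ∈ F' := by
      change φ x ∈ A
      rw [hx]
      exact a.2
    refine ⟨⟨x, hxF⟩, ?_⟩
    apply Subtype.ext
    rw [hψv]
    exact hx
  obtain ⟨S, hS, hSψ⟩ := oef9_ker hF'fg h ψ hψ
  refine ⟨n, φ, hφ, F'.subtype '' S, hS.image _, ?_⟩
  apply le_antisymm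
  · apply Subgroup.normalClosure_le_normal
    rintro _ ⟨s, hs, rfl⟩
    have h1 : s ∈ ψ.ker := by
      rw [← hSψ]
      exact Subgroup.subset_normalClosure hs
    have h2 : ψ s = 1 := h1
    change φ (F'.subtype s) = 1
    have h3 := hψv s
    rw [h2] at h3
    exact h3.symm
  · intro x hx
    have hx1 : φ x = 1 := hx
    have hxF : x ∈ F' := by
      change φ x ∈ A
      rw [hx1]
      exact A.one_mem
    have h1 : (⟨x, hxF⟩ : F') ∈ ψ.ker := by
      change ψ ⟨x, hxF⟩ = 1
      apply Subtype.ext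
      rw [hψv]
      exact hx1
    rw [← hSψ] at h1
    have h2 : Subgroup.normalClosure S ≤
        (Subgroup.normalClosure (F'.subtype '' S)).comap F'.subtype := by
      apply Subgroup.normalClosure_le_normal
      intro s hs
      exact Subgroup.subset_normalClosure ⟨s, hs, rfl⟩
    exact h2 h1

theorem fp_Z2 : Group.IsFinitelyPresented (Multiplicative (ℤ × ℤ)) := by
  set φ : FreeGroup (Fin 2) →* Multiplicative (ℤ × ℤ) :=
    FreeGroup.lift (fun i => if i = 0 then Multiplicative.ofAdd ((1, 0) : ℤ × ℤ)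
      else Multiplicative.ofAdd ((0, 1) : ℤ × ℤ)) with hφdef
  have hφ0 : φ (FreeGroup.of 0) = Multiplicative.ofAdd ((1, 0) : ℤ × ℤ) := by
    rw [hφdef, FreeGroup.lift_apply_of, if_pos rfl]
  have hφ1 : φ (FreeGroup.of 1) = Multiplicative.ofAdd ((0, 1) : ℤ × ℤ) := by
    rw [hφdef, FreeGroup.lift_apply_of, if_neg (by decide)]
  have hcomb : ∀ i j : ℤ, φ (FreeGroup.of 0 ^ i * FreeGroup.of 1 ^ j) =
      Multiplicative.ofAdd ((i, j) : ℤ × ℤ) := by
    intro i j
    rw [map_mul, map_zpow, map_zpow, hφ0, hφ1, ← ofAdd_zsmul, ← ofAdd_zsmul, ← ofAdd_add]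
    congr 1
    ext <;> simp
  have hφ : Function.Surjective φ := by
    intro x
    refine ⟨FreeGroup.of 0 ^ (Multiplicative.toAdd x).1 * FreeGroup.of 1 ^ (Multiplicative.toAdd x).2,
      ?_⟩
    rw [hcomb]
    rfl
  set R : Set (FreeGroup (Fin 2)) := {FreeGroup.of (0 : Fin 2) * FreeGroup.of (1 : Fin 2) * (FreeGroup.of (0 : Fin 2))⁻¹ * (FreeGroup.of (1 : Fin 2))⁻¹} with hR
  set N : Subgroup (FreeGroup (Fin 2)) := Subgroup.normalClosure R with hN
  refine ⟨2, φ, hφ, R, Set.finite_singleton _, ?_⟩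
  apply le_antisymm
  · apply Subgroup.normalClosure_le_normal
    rintro _ rfl
    change φ (FreeGroup.of (0 : Fin 2) * FreeGroup.of (1 : Fin 2) * (FreeGroup.of (0 : Fin 2))⁻¹ * (FreeGroup.of (1 : Fin 2))⁻¹) = 1
    rw [map_mul, map_mul, map_mul, map_inv, map_inv, mul_inv_cancel_comm, mul_inv_cancel]
  · set a : FreeGroup (Fin 2) ⧸ N := QuotientGroup.mk' N (FreeGroup.of 0) with ha
    set b : FreeGroup (Fin 2) ⧸ N := QuotientGroup.mk' N (FreeGroup.of 1) with hb
    have hab : Commute a b := by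
      have h1 : QuotientGroup.mk' N (FreeGroup.of (0 : Fin 2) * FreeGroup.of (1 : Fin 2) * (FreeGroup.of (0 : Fin 2))⁻¹ * (FreeGroup.of (1 : Fin 2))⁻¹) = 1 := by
        apply (QuotientGroup.eq_one_iff _).mpr
        exact Subgroup.subset_normalClosure rfl
      rw [map_mul, map_mul, map_mul, map_inv, map_inv, mul_inv_eq_one, mul_inv_eq_iff_eq_mul] at h1
      exact h1
    let β : Multiplicative (ℤ × ℤ) →* FreeGroup (Fin 2) ⧸ N :=
      { toFun := fun x => a ^ (Multiplicative.toAdd x).1 * b ^ (Multiplicative.toAdd x).2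
        map_one' := by simp
        map_mul' := by
          intro x y
          simp only [toAdd_mul, Prod.fst_add, Prod.snd_add, zpow_add]
          have h1 : Commute (b ^ (Multiplicative.toAdd x).2) (a ^ (Multiplicative.toAdd y).1) :=
            (hab.symm.zpow_zpow _ _)
          calc a ^ (Multiplicative.toAdd x).1 * a ^ (Multiplicative.toAdd y).1 *
                (b ^ (Multiplicative.toAdd x).2 * b ^ (Multiplicative.toAdd y).2)
              = a ^ (Multiplicative.toAdd x).1 * (a ^ (Multiplicative.toAdd y).1 *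
                b ^ (Multiplicative.toAdd x).2) * b ^ (Multiplicative.toAdd y).2 := by
                simp only [mul_assoc]
            _ = a ^ (Multiplicative.toAdd x).1 * (b ^ (Multiplicative.toAdd x).2 *
                a ^ (Multiplicative.toAdd y).1) * b ^ (Multiplicative.toAdd y).2 := by
                rw [h1.eq]
            _ = _ := by simp only [mul_assoc] }
    have hβ : ∀ x, β x = a ^ (Multiplicative.toAdd x).1 * b ^ (Multiplicative.toAdd x).2 :=
      fun _ => rfl
    have hcomp : β.comp φ = QuotientGroup.mk' N := by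
      apply FreeGroup.ext_hom
      intro i
      rw [MonoidHom.comp_apply, hβ]
      fin_cases i
      · change a ^ (Multiplicative.toAdd (φ (FreeGroup.of 0))).1 *
          b ^ (Multiplicative.toAdd (φ (FreeGroup.of 0))).2 = a
        rw [hφ0]
        simp
      · change a ^ (Multiplicative.toAdd (φ (FreeGroup.of 1))).1 *
          b ^ (Multiplicative.toAdd (φ (FreeGroup.of 1))).2 = b
        rw [hφ1]
        simp
    intro x hx
    have hx1 : φ x = 1 := hx
    have h1 : QuotientGroup.mk' N x = 1 := by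
      rw [← hcomp, MonoidHom.comp_apply, hx1, map_one]
    exact (QuotientGroup.eq_one_iff _).mp h1

theorem fp_of_small (h : Small G) : Group.IsFinitelyPresented G := by
  obtain ⟨A, hA, h | ⟨⟨e⟩⟩ | ⟨⟨e⟩⟩⟩ := h
  · exact fp_of_index A hA inferInstance
  · exact fp_of_index A hA (Group.IsFinitelyPresented.equiv e.symm)
  · have := fp_Z2
    exact fp_of_index A hA (Group.IsFinitelyPresented.equiv e.symm)

end group

end Pool.Agent.Lib.MP_0f7bfe_al.OE
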