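import Pool.Agent.Lib.MP_0f7bfe_al.OE.C6
import Pool.Agent.Lib.MP_0f7bfe_al.OE.A1
import Pool.Agent.Lib.MP_0f7bfe_al.OE.E1
import Pool.Agent.Lib.MP_0f7bfe_al.OE.E5b
import Pool.Agent.Lib.MP_0f7bfe_al.OE.F2
import Pool.Agent.Lib.MP_0f7bfe_al.OE.F4
import Pool.Agent.Lib.MP_0f7bfe_al.OE.F5
import Pool.Agent.Lib.MP_0f7bfe_al.OE.F6
import Pool.Agent.Lib.MP_0f7bfe_al.OE.F8
import Pool.Agent.Lib.MP_0f7bfe_al.OE.F9
import Pool.Agent.Lib.MP_0f7bfe_al.KLMain

/-!
One-ended groups that are not finitely presented contain all finite graphs as asymptotic minors.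
-/

open scoped Pointwise ENNReal NNReal

namespace Pool.Agent.Lib.MP_0f7bfe_al.OE

universe u v w

section group
variable {G : Type u} [Group G] {S : Finset G}

theorem fatClique_of_oneEnd (hS : Setup S) (h1 : OneEnd (Cay S))
    (hfp : ¬ Group.IsFinitelyPresented G) (κ n : ℕ) : FatClique (Cay S) κ n := by
  by_contra hno
  have hN := nice_cay hS
  have hns := noSpider hN hno
  have hst := noStar hN hno
  obtain ⟨c, L, hA⟩ := exists_arr hS h1 hst (2 * n + 2)
  have hcore := exists_core hS (exists_isoCycle S hS.gen hfp)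
  have hcomp := arr_completable (τ := Fin n) hS κ (2 * n + 2)
    (fun T1 T2 x y c L E hA h => arr_swap hS κ n
      (fun L1 L2 m hPF hl1 hl2 B hB => crossing hS h1 hcore κ n hns hPF hl1 hl2 hB) hA h) hA
  apply hno
  apply fatClique_of_completable (c := c)
  have e1 : {i | i ∈ List.finRange n} = (Set.univ : Set (Fin n)) := by
    ext i; simp
  have e2 : {e : Sym2 (Fin n) | ¬ e.IsDiag ∧ ∀ i ∈ e, i ∈ List.finRange n} =
      {e | ¬ e.IsDiag} := by
    ext i; simp
  rw [e1, e2] at hcomp
  exact hcomp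

theorem allCliques_of_oneEnded_nonamenable (hG : Group.FG G) (hna : ¬ FolnerAmenable G)
    (h1 : OneEnded G) (hfp : ¬ Group.IsFinitelyPresented G) : AllCliques G := by
  obtain ⟨S, hS⟩ := exists_setup hG hna
  exact allCliques_of_fatClique hS (fatClique_of_oneEnd hS (oneEnd_of_oneEnded hS h1) hfp)

/-- A one-ended finitely generated group is finitely presented or contains all finite graphs as
asymptotic minors. -/
theorem fp_or_allCliques (hG : Group.FG G) (h1 : OneEnded G) :
    Group.IsFinitelyPresented G ∨ AllCliques G := by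
  by_cases hfp : Group.IsFinitelyPresented G
  · exact Or.inl hfp
  by_cases hna : FolnerAmenable G
  · obtain ⟨S, hS⟩ := hG.1
    rcases small_or_allCliques S hS (Or.inr hna) with h | h
    · exact Or.inr h
    · exact Or.inl (fp_of_small h)
  · exact Or.inr (allCliques_of_oneEnded_nonamenable hG hna h1 hfp)

end group

end Pool.Agent.Lib.MP_0f7bfe_al.OE
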