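import Pool.Agent.Lib.MP_0f7bfe_al.OE.AcDefs
import Pool.Agent.Lib.MP_0f7bfe_al.OE.AC1
import Pool.Agent.Lib.MP_0f7bfe_al.OE.AC2
import Pool.Agent.Lib.MP_0f7bfe_al.OE.F7

/-!
Accessible groups that are not finitely presented contain all finite graphs as asymptotic minors.
-/

namespace Pool.Agent.Lib.MP_0f7bfe_al.OE

universe u v w

theorem accessible_dichotomy {G : Type u} [Group G] (h : Accessible G) :
    Group.IsFinitelyPresented G ∨ AllCliques G := by
  induction h with
  | finite G => exact Or.inl inferInstance
  | oneEnded G hfg h => exact fp_or_allCliques hfg h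
  | @amalgam ι _ K _ C _ _ φ hφ h G _ e ih =>
    by_cases hall : ∀ i, Group.IsFinitelyPresented (K i)
    · left
      have := fp_pushoutI φ hall
      exact Group.IsFinitelyPresented.equiv e
    · right
      push Not at hall
      obtain ⟨i, hi⟩ := hall
      have h2 := (ih i).resolve_left hi
      exact h2.map (e.toMonoidHom.comp (Monoid.PushoutI.of i))
        (e.injective.comp (Monoid.PushoutI.of_injective hφ i))
  | hnn φ h e ih =>
    rcases ih with ih | ih
    · left
      have := fp_hnn φ ih
      exact Group.IsFinitelyPresented.equiv e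
    · right
      exact ih.map (e.toMonoidHom.comp HNNExtension.of)
        (e.injective.comp (HNNExtension.of_injective φ))

end Pool.Agent.Lib.MP_0f7bfe_al.OE
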