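import Pool.Agent.Lib.MP_0f7bfe_al.OE.Defs

/-!
Accessible groups (problem MP_0f7bfe_al).
-/

namespace Pool.Agent.Lib.MP_0f7bfe_al.OE

universe u

/-- Accessible groups: the smallest class of groups which contains the finite groups and the
finitely generated one-ended groups and is closed under isomorphisms, amalgamated products over
finite groups and HNN extensions over finite groups (that is, fundamental groups of finite graphs
of groups with finite edge groups and finite or one-ended vertex groups). -/
inductive Accessible : (G : Type u) → [Group G] → Prop
  | finite (G : Type u) [Group G] [Finite G] : Accessible G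
  | oneEnded (G : Type u) [Group G] (hfg : Group.FG G) (h : OneEnded G) : Accessible G
  | amalgam {ι : Type} [Finite ι] {K : ι → Type u} [∀ i, Group (K i)] {C : Type u} [Group C]
      [Finite C] (φ : ∀ i, C →* K i) (hφ : ∀ i, Function.Injective (φ i))
      (h : ∀ i, Accessible (K i)) {G : Type u} [Group G] (e : Monoid.PushoutI φ ≃* G) :
      Accessible G
  | hnn {K : Type u} [Group K] {A B : Subgroup K} [Finite A] (φ : A ≃* B) (h : Accessible K)
      {G : Type u} [Group G] (e : HNNExtension K A B φ ≃* G) : Accessible G

end Pool.Agent.Lib.MP_0f7bfe_al.OE
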