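import Pool.Agent.Lib.MP_0f7bfe_al.OE.Defs
import Pool.Agent.Lib.MP_0f7bfe_al.OE.B1
import Pool.Agent.Lib.MP_0f7bfe_al.OE.C3

open scoped Pointwise ENNReal NNReal

namespace Pool.Agent.Lib.MP_0f7bfe_al.OE

universe u v w

section graph
variable {X : Type u} {Gr : SimpleGraph X}

variable {τ : Type v}

/-! ### C4 -/

theorem Win.completable (hN : Nice Gr) (κ : ℕ) {F : Set (ℕ → X)} (hF : Fam Gr F) {T : Set τ}
    (hT : T.Finite) {c : τ → ℕ → X} {E : Set (Sym2 τ)} (hc : ∀ j ∈ T, c j ∈ F)
    (hinj : Set.InjOn c T) (h : Win (fun a b => a ∈ F ∧ b ∈ F ∧ RAdj Gr F a b) T c E) :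
    Completable Gr κ T c E := by
  induction h with
  | done T c =>
    exact completable_done hN κ hT (fun i hi => hF.ray _ (hc i hi))
      (fun i hi j hj hij => hF.dvg _ (hc i hi) _ (hc j hj) fun h => hij (hinj hi hj h))
  | drop T c E i hi h ih =>
    exact completable_drop hN κ hT (fun i hi => hF.ray _ (hc i hi))
      (fun i hi j hj hij => hF.dvg _ (hc i hi) _ (hc j hj) fun h => hij (hinj hi hj h)) i hi
      (ih (hT.subset Set.sdiff_subset) (fun j hj => hc j hj.1) (hinj.mono Set.sdiff_subset))
  | slide T c c' E i hi hR hcc hfree h ih =>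
    have hc' : ∀ j ∈ T, c' j ∈ F := by
      intro j hj
      by_cases hji : j = i
      · rw [hji]
        exact hR.2.1
      · rw [hcc j hj hji]
        exact hc j hj
    have hinj' : Set.InjOn c' T := by
      intro j hj k hk hjk
      by_cases hji : j = i
      · by_cases hki : k = i
        · rw [hji, hki]
        · exfalso
          rw [hcc k hk hki, hji] at hjk
          exact hfree k hk hki hjk.symm
      · rw [hcc j hj hji] at hjk
        by_cases hki : k = i
        · exfalso
          rw [hki] at hjk
          exact hfree j hj hji hjk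
        · rw [hcc k hk hki] at hjk
          exact hinj hj hk hjk
    exact completable_slide hN κ hF hT hi hc hc' hinj hcc hfree hR.2.2 (ih hT hc' hinj')
  | link T c E i j hi hj hij hR h ih =>
    exact completable_link hN κ hF hT hi hj hij hc hinj hR.2.2 (ih hT hc hinj)

end graph

end Pool.Agent.Lib.MP_0f7bfe_al.OE
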