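import Pool.Agent.Lib.MP_0f7bfe_al.OE.Defs

/-! ### C5: the pebble game on a spider -/

open scoped Pointwise ENNReal NNReal

namespace Pool.Agent.Lib.MP_0f7bfe_al.OE

universe u v w

/-- a path through `L 0 = Q 0` with a pendant vertex -/
private structure Spi {W : Type v} (R : W → W → Prop) (n : ℕ) (L Q : ℕ → W) (a : W) : Prop where
  hs : ∀ x y, R x y → R y x
  l0 : L 0 = Q 0
  stepL : ∀ k < n, R (L k) (L (k + 1))
  stepQ : ∀ k < n, R (Q k) (Q (k + 1))
  ra : R (L 0) a
  injL : ∀ i ≤ n, ∀ j ≤ n, L i = L j → i = j
  injQ : ∀ i ≤ n, ∀ j ≤ n, Q i = Q j → i = j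
  dis : ∀ i, 1 ≤ i → i ≤ n → ∀ j, 1 ≤ j → j ≤ n → L i ≠ Q j
  aL : ∀ i ≤ n, L i ≠ a
  aQ : ∀ i ≤ n, Q i ≠ a

private theorem Spi.swap {W : Type v} {R : W → W → Prop} {n : ℕ} {L Q : ℕ → W} {a : W}
    (h : Spi R n L Q a) : Spi R n Q L a where
  hs := h.hs
  l0 := h.l0.symm
  stepL := h.stepQ
  stepQ := h.stepL
  ra := by rw [← h.l0]; exact h.ra
  injL := h.injQ
  injQ := h.injL
  dis := fun i hi hin j hj hjn e => h.dis j hj hjn i hi hin e.symm
  aL := h.aQ
  aQ := h.aL

private theorem slide_path {τ : Type u} {W : Type v} [DecidableEq τ] (R : W → W → Prop)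
    (T : Set τ) (c : τ → W) (E : Set (Sym2 τ)) (i : τ) (hi : i ∈ T) (f : ℕ → W) (hf0 : f 0 = c i)
    (m : ℕ) (hstep : ∀ t < m, R (f t) (f (t + 1)))
    (hfree : ∀ j ∈ T, j ≠ i → ∀ t, 1 ≤ t → t ≤ m → c j ≠ f t)
    (h : Win R T (Function.update c i (f m)) E) : Win R T c E := by
  induction m with
  | zero =>
    rw [hf0, Function.update_eq_self] at h
    exact h
  | succ m ih =>
    refine ih (fun t ht => hstep t (by omega))
      (fun j hj hji t ht1 htm => hfree j hj hji t ht1 (by omega)) ?_
    refine Win.slide T _ (Function.update c i (f (m + 1))) E i hi ?_ ?_ ?_ h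
    · rw [Function.update_self, Function.update_self]
      exact hstep m (by omega)
    · intro j _ hji
      rw [Function.update_of_ne hji, Function.update_of_ne hji]
    · intro j hj hji
      rw [Function.update_of_ne hji, Function.update_self]
      exact hfree j hj hji (m + 1) (by omega) le_rfl

private theorem phase2 {τ : Type u} {W : Type v} [DecidableEq τ] {R : W → W → Prop} {n : ℕ}
    {L Q : ℕ → W} {a : W} (hS : Spi R n L Q a) (m : ℕ) (hm : m + 1 ≤ n) (u : τ)
    (hclaim : ∀ (ds : List τ) (T : Set τ) (c : τ → W) (E : Set (Sym2 τ)), ds.length = m →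
      ds.Nodup → (∀ i, i ∈ T ↔ i ∈ ds) → (∀ i (h : i < ds.length), c ds[i] = Q (i + 1)) →
      (∀ e ∈ E, ¬ e.IsDiag ∧ ∀ i ∈ e, i ∈ ds) → Win R T c E) :
    ∀ (ts ds : List τ) (T : Set τ) (c : τ → W) (E : Set (Sym2 τ)), (u :: (ds ++ ts)).Nodup →
      ds.length + ts.length = m → (∀ i, i ∈ T ↔ i = u ∨ i ∈ ds ∨ i ∈ ts) → c u = a →
      (∀ i (h : i < ds.length), c ds[i] = Q (m - ds.length + 1 + i)) →
      (∀ i (h : i < ts.length), c ts[i] = L (ds.length + 2 + i)) →
      (∀ e ∈ E, ¬ e.IsDiag ∧ ((∀ i ∈ e, i ∈ ds ∨ i ∈ ts) ∨ ∃ t ∈ ts, e = s(u, t))) →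
      Win R T c E := by
  intro ts
  induction ts with
  | nil =>
    intro ds T c E hnd hlen hT hcu hds hts hE
    rw [List.append_nil] at hnd
    rw [List.length_nil, Nat.add_zero] at hlen
    have hnu : u ∉ ds := (List.nodup_cons.mp hnd).1
    have hE' : ∀ e ∈ E, ¬ e.IsDiag ∧ ∀ i ∈ e, i ∈ ds := by
      intro e he
      refine ⟨(hE e he).1, ?_⟩
      rcases (hE e he).2 with h | ⟨t, ht, _⟩
      · intro i hi
        rcases h i hi with h | h
        · exact h
        · exact absurd h List.not_mem_nil
      · exact absurd ht List.not_mem_nil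
    refine Win.drop T c E u (fun e he hu => hnu ((hE' e he).2 u hu)) ?_
    refine hclaim ds (T \ {u}) c E hlen (List.nodup_cons.mp hnd).2 ?_ ?_ hE'
    · intro i
      rw [Set.mem_sdiff, Set.mem_singleton_iff, hT]
      constructor
      · rintro ⟨h | h | h, h2⟩
        · exact absurd h h2
        · exact h
        · exact absurd h List.not_mem_nil
      · intro h
        exact ⟨Or.inr (Or.inl h), fun e => hnu (e ▸ h)⟩
    · intro i hi
      rw [hds i hi, hlen, Nat.sub_self]
      congr 1
      omega
  | cons t ts ih =>
    intro ds T c E hnd hlen hT hcu hds hts hE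
    rw [List.length_cons] at hlen
    have hperm : (u :: (ds ++ t :: ts)).Perm (u :: ((t :: ds) ++ ts)) :=
      List.Perm.cons u List.perm_middle
    have hnd' : (u :: ((t :: ds) ++ ts)).Nodup := hperm.nodup_iff.mp hnd
    have hut : u ≠ t := by
      intro e
      have := (List.nodup_cons.mp hnd').1
      rw [e] at this
      exact this (by simp)
    have hnd2 : (t :: (ds ++ ts)).Nodup := (List.nodup_cons.mp hnd').2
    have htd : t ∉ ds := fun h => (List.nodup_cons.mp hnd2).1 (List.mem_append_left _ h)
    have htt : t ∉ ts := fun h => (List.nodup_cons.mp hnd2).1 (List.mem_append_right _ h)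
    have htT : t ∈ T := (hT t).mpr (Or.inr (Or.inr List.mem_cons_self))
    have huT : u ∈ T := (hT u).mpr (Or.inl rfl)
    have hct : c t = L (ds.length + 2) := hts 0 (by simp)
    -- positions of the other tokens
    have hpos : ∀ j ∈ T, j ≠ t → c j = a ∨
        (∃ i, m - ds.length + 1 ≤ i ∧ i ≤ m ∧ c j = Q i) ∨
        (∃ i, ds.length + 3 ≤ i ∧ i ≤ m + 1 ∧ c j = L i) := by
      intro j hj hjt
      rcases (hT j).mp hj with h | h | h
      · exact Or.inl (h ▸ hcu)
      · obtain ⟨i, hi, e⟩ := List.getElem_of_mem h
        refine Or.inr (Or.inl ⟨m - ds.length + 1 + i, by omega, by omega, ?_⟩)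
        rw [← e]
        exact hds i hi
      · rcases List.mem_cons.mp h with h | h
        · exact absurd h hjt
        · obtain ⟨i, hi, e⟩ := List.getElem_of_mem h
          refine Or.inr (Or.inr ⟨ds.length + 2 + (i + 1), by omega, by omega, ?_⟩)
          have := hts (i + 1) (by rw [List.length_cons]; omega)
          rw [← this, List.getElem_cons_succ, e]
    -- slide to the centre
    refine slide_path R T c E t htT (fun s => L (ds.length + 2 - s)) (by rw [hct]; rfl)
      (ds.length + 2) ?_ ?_ ?_
    · intro s hs
      have h1 := hS.stepL (ds.length + 2 - (s + 1)) (by omega)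
      have e : ds.length + 2 - (s + 1) + 1 = ds.length + 2 - s := by omega
      rw [e] at h1
      exact hS.hs _ _ h1
    · intro j hj hjt s hs1 hs2 heq
      rcases hpos j hj hjt with h | ⟨i, h1, h2, h3⟩ | ⟨i, h1, h2, h3⟩
      · exact hS.aL (ds.length + 2 - s) (by omega) (by rw [← heq, h])
      · rcases Nat.eq_zero_or_pos (ds.length + 2 - s) with h0 | h0
        · rw [h3, h0, hS.l0] at heq
          have := hS.injQ i (by omega) 0 (by omega) heq
          omega
        · exact hS.dis _ h0 (by omega) i (by omega) (by omega) (by rw [← heq, h3])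
      · rw [h3] at heq
        have := hS.injL i (by omega) (ds.length + 2 - s) (by omega) heq
        omega
    -- link
    have hz : L (ds.length + 2 - (ds.length + 2)) = Q 0 := by
      rw [Nat.sub_self, hS.l0]
    refine Win.link T _ E t u htT huT (Ne.symm hut) ?_ ?_
    · rw [Function.update_self, Function.update_of_ne hut, hcu]
      simp only [Nat.sub_self]
      exact hS.ra
    -- slide away
    refine slide_path R T _ _ t htT Q (by rw [Function.update_self]; exact hz.symm)
      (m - ds.length) ?_ ?_ ?_
    · intro s hs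
      exact hS.stepQ s (by omega)
    · intro j hj hjt s hs1 hs2 heq
      rw [Function.update_of_ne hjt] at heq
      rcases hpos j hj hjt with h | ⟨i, h1, h2, h3⟩ | ⟨i, h1, h2, h3⟩
      · exact hS.aQ s (by omega) (by rw [← heq, h])
      · rw [h3] at heq
        have := hS.injQ i (by omega) s (by omega) heq
        omega
      · exact hS.dis i (by omega) (by omega) s (by omega) (by omega) (by rw [← heq, h3])
    rw [Function.update_idem]
    refine ih (t :: ds) T _ _ hnd' (by rw [List.length_cons]; omega) ?_ ?_ ?_ ?_ ?_
    · intro i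
      rw [hT, List.mem_cons, List.mem_cons]
      tauto
    · rw [Function.update_of_ne hut, hcu]
    · intro i hi
      rw [List.length_cons] at hi
      rcases i with _ | i
      · rw [List.getElem_cons_zero, Function.update_self, List.length_cons]
        congr 1
        omega
      · rw [List.getElem_cons_succ, Function.update_of_ne, hds i (by omega), List.length_cons]
        · congr 1
          omega
        · intro e
          exact htd (e ▸ List.getElem_mem _)
    · intro i hi
      rw [Function.update_of_ne]
      · have := hts (i + 1) (by rw [List.length_cons]; omega)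
        rw [List.getElem_cons_succ] at this
        rw [this, List.length_cons]
        congr 1
        omega
      · intro e
        exact htt (e ▸ List.getElem_mem _)
    · intro e he
      obtain ⟨he1, he2⟩ := he
      refine ⟨(hE e he1).1, ?_⟩
      rcases (hE e he1).2 with h | ⟨t', ht', rfl⟩
      · left
        intro i hi
        rcases h i hi with h | h
        · exact Or.inl (List.mem_cons_of_mem _ h)
        · rcases List.mem_cons.mp h with h | h
          · exact Or.inl (h ▸ List.mem_cons_self)
          · exact Or.inr h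
      · right
        rcases List.mem_cons.mp ht' with h | h
        · exfalso
          apply he2
          rw [Set.mem_singleton_iff, h, Sym2.eq_swap]
        · exact ⟨t', h, rfl⟩

private theorem claim {τ : Type u} {W : Type v} [DecidableEq τ] {R : W → W → Prop} {n : ℕ}
    {a : W} (m : ℕ) : ∀ (L Q : ℕ → W), Spi R n L Q a → m ≤ n →
      ∀ (ds : List τ) (T : Set τ) (c : τ → W) (E : Set (Sym2 τ)), ds.length = m →
      ds.Nodup → (∀ i, i ∈ T ↔ i ∈ ds) → (∀ i (h : i < ds.length), c ds[i] = L (i + 1)) →
      (∀ e ∈ E, ¬ e.IsDiag ∧ ∀ i ∈ e, i ∈ ds) → Win R T c E := by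
  induction m with
  | zero =>
    intro L Q _ _ ds T c E hlen _ _ _ hE
    rw [List.length_eq_zero_iff] at hlen
    have hE0 : E = ∅ := by
      rw [Set.eq_empty_iff_forall_notMem]
      intro e he
      induction e using Sym2.ind with
      | _ x y =>
        have := (hE _ he).2 x (Sym2.mem_mk_left x y)
        rw [hlen] at this
        exact List.not_mem_nil this
    rw [hE0]
    exact Win.done T c
  | succ m ih =>
    intro L Q hS hmn ds T c E hlen hnd hT hds hE
    obtain ⟨u, ts, rfl⟩ := List.exists_cons_of_length_eq_add_one hlen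
    rw [List.length_cons] at hlen
    have huT : u ∈ T := (hT u).mpr List.mem_cons_self
    have hut : u ∉ ts := (List.nodup_cons.mp hnd).1
    have hcu : c u = L 1 := hds 0 (by simp)
    have hpos : ∀ j ∈ T, j ≠ u → ∃ i, 2 ≤ i ∧ i ≤ m + 1 ∧ c j = L i := by
      intro j hj hju
      rcases List.mem_cons.mp ((hT j).mp hj) with h | h
      · exact absurd h hju
      · obtain ⟨i, hi, e⟩ := List.getElem_of_mem h
        refine ⟨i + 1 + 1, by omega, by omega, ?_⟩
        have := hds (i + 1) (by rw [List.length_cons]; omega)
        rw [← this, List.getElem_cons_succ, e]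
    -- u goes to a
    refine slide_path R T c E u huT (fun s => if s = 0 then L 1 else if s = 1 then L 0 else a)
      (by rw [hcu]; rfl) 2 ?_ ?_ ?_
    · intro s hs
      rcases s with _ | s
      · exact hS.hs _ _ (hS.stepL 0 (by omega))
      · have : s = 0 := by omega
        subst this
        exact hS.ra
    · intro j hj hju s hs1 hs2 heq
      obtain ⟨i, h1, h2, h3⟩ := hpos j hj hju
      rcases Nat.lt_or_ge s 2 with h | h
      · have : s = 1 := by omega
        subst this
        simp only [one_ne_zero, if_false, if_true] at heq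
        rw [h3] at heq
        have := hS.injL i (by omega) 0 (by omega) heq
        omega
      · have : s = 2 := by omega
        subst this
        have e2 : c j = a := by simpa using heq
        exact hS.aL i (by omega) (by rw [← h3, e2])
    have e2 : (if (2 : ℕ) = 0 then L 1 else if (2 : ℕ) = 1 then L 0 else a) = a := by simp
    rw [e2]
    refine phase2 hS m hmn u (fun ds T c E h1 h2 h3 h4 h5 =>
      ih Q L hS.swap (by omega) ds T c E h1 h2 h3 h4 h5) ts [] T _ E ?_ ?_ ?_ ?_ ?_ ?_ ?_
    · rw [List.nil_append]
      exact hnd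
    · rw [List.length_nil]
      omega
    · intro i
      rw [hT, List.mem_cons]
      constructor
      · rintro (h | h)
        · exact Or.inl h
        · exact Or.inr (Or.inr h)
      · rintro (h | h | h)
        · exact Or.inl h
        · exact absurd h List.not_mem_nil
        · exact Or.inr h
    · rw [Function.update_self]
    · intro i hi
      exact absurd hi (by simp)
    · intro i hi
      rw [Function.update_of_ne]
      · have := hds (i + 1) (by rw [List.length_cons]; omega)
        rw [List.getElem_cons_succ] at this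
        rw [this, List.length_nil]
        congr 1
        omega
      · intro e
        exact hut (e ▸ List.getElem_mem _)
    · intro e he
      refine ⟨(hE e he).1, ?_⟩
      induction e using Sym2.ind with
      | _ x y =>
        have hd := (hE _ he).1
        rw [Sym2.mk_isDiag_iff] at hd
        have hx := (hE _ he).2 x (Sym2.mem_mk_left x y)
        have hy := (hE _ he).2 y (Sym2.mem_mk_right x y)
        rcases List.mem_cons.mp hx with h1 | h1
        · rcases List.mem_cons.mp hy with h2 | h2
          · exact absurd (h1.trans h2.symm) hd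
          · exact Or.inr ⟨y, h2, by rw [h1]⟩
        · rcases List.mem_cons.mp hy with h2 | h2
          · exact Or.inr ⟨x, h1, by rw [h2, Sym2.eq_swap]⟩
          · left
            intro i hi
            rcases Sym2.mem_iff.mp hi with h | h
            · exact Or.inr (h ▸ h1)
            · exact Or.inr (h ▸ h2)

theorem spider_win {W : Type v} (R : W → W → Prop) (hs : ∀ a b, R a b → R b a) (n : ℕ)
    (l1 l2 : List W) (z a : W) (h1 : n ≤ l1.length) (h2 : n ≤ l2.length)
    (hnd : (a :: (l1 ++ z :: l2)).Nodup) (hch : List.IsChain R (l1 ++ z :: l2)) (hza : R z a) :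
    ∃ c : Fin n → W, Function.Injective c ∧ (∀ i, c i ∈ l1) ∧
      Win R Set.univ c {e | ¬ e.IsDiag} := by
  classical
  obtain ⟨hna, hndp⟩ := List.nodup_cons.mp hnd
  set p : List W := l1 ++ z :: l2 with hp
  have hplen : p.length = l1.length + 1 + l2.length := by
    rw [hp, List.length_append, List.length_cons]
    omega
  set N := l1.length with hN
  have hlt1 : ∀ k, k ≤ n → N - k < p.length := fun k _ => by omega
  -- total functions
  set L : ℕ → W := fun k => p.getD (N - k) z with hL
  set Q : ℕ → W := fun k => p.getD (N + k) z with hQ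
  have hLk : ∀ k (hk : k ≤ n), L k = p[N - k]'(by omega) := by
    intro k hk
    rw [hL]
    exact List.getD_eq_getElem p z (by omega)
  have hQk : ∀ k (hk : k ≤ n), Q k = p[N + k]'(by omega) := by
    intro k hk
    rw [hQ]
    exact List.getD_eq_getElem p z (by omega)
  have hstep : ∀ i (hi : i + 1 < p.length), R p[i] p[i + 1] := fun i hi =>
    List.isChain_iff_getElem.mp hch i hi
  have hz0 : p[N]'(by omega) = z := by
    simp [hp, hN]
  have hinj : ∀ i j (hi : i < p.length) (hj : j < p.length), p[i] = p[j] → i = j :=
    fun i j hi hj h => (List.Nodup.getElem_inj_iff hndp).mp h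
  have hS : Spi R n L Q a := by
    refine ⟨hs, ?_, ?_, ?_, ?_, ?_, ?_, ?_, ?_, ?_⟩
    · rfl
    · intro k hk
      rw [hLk k (by omega), hLk (k + 1) (by omega)]
      have := hstep (N - (k + 1)) (by omega)
      apply hs
      have e : N - (k + 1) + 1 = N - k := by omega
      simp only [e] at this
      exact this
    · intro k hk
      rw [hQk k (by omega), hQk (k + 1) (by omega)]
      exact hstep (N + k) (by omega)
    · rw [hLk 0 (by omega)]
      simp only [Nat.sub_zero, hz0]
      exact hza
    · intro i hi j hj h
      rw [hLk i hi, hLk j hj] at h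
      have := hinj _ _ _ _ h
      omega
    · intro i hi j hj h
      rw [hQk i hi, hQk j hj] at h
      have := hinj _ _ _ _ h
      omega
    · intro i hi hin j hj hjn h
      rw [hLk i hin, hQk j hjn] at h
      have := hinj _ _ _ _ h
      omega
    · intro i hi h
      rw [hLk i hi] at h
      exact hna (h ▸ List.getElem_mem _)
    · intro i hi h
      rw [hQk i hi] at h
      exact hna (h ▸ List.getElem_mem _)
  refine ⟨fun i => L (i.1 + 1), ?_, ?_, ?_⟩
  · intro i j h
    have := hS.injL (i.1 + 1) (by omega) (j.1 + 1) (by omega) h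
    exact Fin.ext (by omega)
  · intro i
    have hi := i.2
    show L (i.1 + 1) ∈ l1
    rw [hLk (i.1 + 1) (by omega)]
    have e : p[N - (i.1 + 1)]'(by omega) = l1[N - (i.1 + 1)]'(by omega) := by
      simp only [hp]
      exact List.getElem_append_left _
    rw [e]
    exact List.getElem_mem _
  · refine claim n L Q hS le_rfl (List.finRange n) Set.univ _ _ (List.length_finRange)
      (List.nodup_finRange n) ?_ ?_ ?_
    · intro i
      simp
    · intro i hi
      simp
    · intro e he
      exact ⟨he, fun i _ => by simp⟩

end Pool.Agent.Lib.MP_0f7bfe_al.OE
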