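import Pool.Agent.Lib.MP_0f7bfe_al.OE.Defs
import Pool.Agent.Lib.MP_0f7bfe_al.OE.B1
import Pool.Agent.Lib.MP_0f7bfe_al.OE.B5
import Pool.Agent.Lib.MP_0f7bfe_al.OE.C4
import Pool.Agent.Lib.MP_0f7bfe_al.OE.C5

open scoped Pointwise ENNReal NNReal

namespace Pool.Agent.Lib.MP_0f7bfe_al.OE

universe u v w

section graph
variable {X : Type u} {Gr : SimpleGraph X}

/-! ### C6 -/

theorem fatClique_of_completable {κ n : ℕ} {c : Fin n → ℕ → X}
    (h : Completable Gr κ Set.univ c {e | ¬ e.IsDiag}) : FatClique Gr κ n := by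
  obtain ⟨γ⟩ := h ∅ Set.finite_empty
  refine ⟨γ.A, γ.P, fun i => γ.fcA i (Set.mem_univ i), fun e he => ⟨γ.fcP e he, γ.meet e he⟩,
    fun i j hij => γ.farAA i (Set.mem_univ i) j (Set.mem_univ j) hij,
    fun e f he hf hef => γ.farPP e he f hf hef,
    fun e he i hi => γ.farPA e he i (Set.mem_univ i) hi⟩

theorem noSpider (hN : Nice Gr) {κ n : ℕ} (hno : ¬ FatClique Gr κ n) : NoSpider Gr n := by
  intro F hF l1 l2 z a h1 h2 hnd hmem hch hza
  have hch' : List.IsChain (fun a b => a ∈ F ∧ b ∈ F ∧ RAdj Gr F a b) (l1 ++ z :: l2) :=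
    hch.imp_of_mem_imp fun x y hx hy hxy =>
      ⟨hmem x (List.mem_cons_of_mem _ hx), hmem y (List.mem_cons_of_mem _ hy), hxy⟩
  have hz : z ∈ F := hmem z (by simp)
  have ha : a ∈ F := hmem a (by simp)
  obtain ⟨c, hcinj, hcl, hwin⟩ := spider_win (fun a b => a ∈ F ∧ b ∈ F ∧ RAdj Gr F a b)
    (fun a b hab => ⟨hab.2.1, hab.1, hab.2.2.symm⟩) n l1 l2 z a h1 h2 hnd hch' ⟨hz, ha, hza⟩
  apply hno
  apply fatClique_of_completable (c := c)
  exact Win.completable hN κ hF Set.finite_univ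
    (fun j _ => hmem _ (by simp [hcl j])) hcinj.injOn hwin

theorem oec6_link {W : Type v} {n : ℕ} (R : W → W → Prop) (c : Fin n → W)
    (hR : ∀ i j, i ≠ j → R (c i) (c j)) (m : ℕ) : ∀ E : Set (Sym2 (Fin n)),
    (∀ e ∈ E, ¬ e.IsDiag) → E.ncard = m → Win R Set.univ c E := by
  induction m with
  | zero =>
    intro E _ hm
    rw [(Set.ncard_eq_zero (Set.toFinite E)).1 hm]
    exact Win.done _ _
  | succ m ih =>
    intro E hE hm
    have hne : E.Nonempty := by
      rw [← Set.ncard_pos (Set.toFinite E)]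
      omega
    obtain ⟨e, he⟩ := hne
    induction e with
    | _ i j =>
      have hij : i ≠ j := fun h => hE _ he (Sym2.mk_isDiag_iff.2 h)
      refine Win.link _ _ _ i j (Set.mem_univ _) (Set.mem_univ _) hij (hR i j hij) ?_
      refine ih _ (fun e' he' => hE e' he'.1) ?_
      rw [Set.ncard_sdiff_singleton_of_mem he, hm]
      rfl

theorem noStar (hN : Nice Gr) {κ n : ℕ} (hno : ¬ FatClique Gr κ n) : NoStar Gr n := by
  classical
  intro F hF L z hcard hz hL hadj
  have hsub : insert z (L : Set (ℕ → X)) ⊆ F := by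
    intro x hx
    rcases hx with rfl | hx
    · exact hz
    · exact (hL x hx).1
  have hzL : z ∉ (L : Set (ℕ → X)) := fun h => (hL z h).2 rfl
  have hF' : Fam Gr (insert z (L : Set (ℕ → X))) := hF.mono hsub
  have hFL : Fam Gr (L : Set (ℕ → X)) := hF'.mono (Set.subset_insert _ _)
  have hRL : ∀ x ∈ L, ∀ y ∈ L, RAdj Gr (L : Set (ℕ → X)) x y := fun x hx y hy =>
    radj_contract hN hF' hzL hx hy ((hadj x hx).symm.mono hsub) ((hadj y hy).mono hsub)
  let e : Fin n ≃ L := (L.equivFinOfCardEq hcard).symm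
  apply hno
  apply fatClique_of_completable (c := fun i => (e i).1)
  refine Win.completable hN κ hFL Set.finite_univ (fun j _ => (e j).2)
    (fun i _ j _ hij => e.injective (Subtype.ext hij)) ?_
  exact oec6_link _ _ (fun i j _ => ⟨(e i).2, (e j).2, hRL _ (e i).2 _ (e j).2⟩) _ _
    (fun e he => he) rfl

end graph

end Pool.Agent.Lib.MP_0f7bfe_al.OE
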