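import Pool.Agent.Lib.MP_0f7bfe_al.LFDefs

/-!
Definitions for the wave OE (problem MP_0f7bfe_al): one-ended nonamenable groups that are not
finitely presented.
-/

open scoped Pointwise ENNReal NNReal

namespace Pool.Agent.Lib.MP_0f7bfe_al.OE

universe u v

/-! ### Graphs, rays, ray graphs -/

section graph
variable {X : Type u} (Gr : SimpleGraph X)

/-- `A` and `B` are more than `κ` apart. -/
def Far (κ : ℕ) (A B : Set X) : Prop := ∀ a ∈ A, ∀ b ∈ B, κ < Gr.dist a b

/-- closed `κ`-neighbourhood -/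
def nb (κ : ℕ) (A : Set X) : Set X := {x | ∃ a ∈ A, Gr.dist a x ≤ κ}

/-- finite connected (nonempty) set of vertices -/
structure FC (A : Set X) : Prop where
  fin : A.Finite
  conn : (Gr.induce A).Connected

/-- connected graph with finite balls -/
structure Nice : Prop where
  conn : Gr.Connected
  ball : ∀ x n, {y | Gr.dist x y ≤ n}.Finite

/-- ray: consecutive vertices are equal or adjacent, every vertex is visited finitely often -/
structure IsRay (r : ℕ → X) : Prop where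
  step : ∀ n, Gr.dist (r n) (r (n + 1)) ≤ 1
  proper : ∀ x, {n | r n = x}.Finite

/-- divergent rays -/
def Dvg (r r' : ℕ → X) : Prop := ∀ κ : ℕ, {p : ℕ × ℕ | Gr.dist (r p.1) (r' p.2) ≤ κ}.Finite

/-- finite family of pairwise divergent rays -/
structure Fam (F : Set (ℕ → X)) : Prop where
  fin : F.Finite
  ray : ∀ r ∈ F, IsRay Gr r
  dvg : ∀ r ∈ F, ∀ r' ∈ F, r ≠ r' → Dvg Gr r r'

/-- `Q` is a rung from `a` to `b`: finite, connected, disjoint from `B`, meets `a` and `b` and is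
more than `κ` away from the other members of `F` -/
structure Rung (κ : ℕ) (B : Set X) (F : Set (ℕ → X)) (a b : ℕ → X) (Q : Set X) : Prop where
  fc : FC Gr Q
  disj : Disjoint Q B
  left : ∃ s, a s ∈ Q
  right : ∃ s, b s ∈ Q
  far : ∀ r ∈ F, r ≠ a → r ≠ b → Far Gr κ Q (Set.range r)

/-- adjacency in the ray graph of the family `F` -/
def RAdj (F : Set (ℕ → X)) (a b : ℕ → X) : Prop :=
  ∀ (κ : ℕ) (B : Set X), B.Finite → ∃ Q, Rung Gr κ B F a b Q

/-! ### Clique minors and completable configurations -/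

/-- a `κ`-fat complete minor on the vertex set `Fin n` -/
def FatClique (κ n : ℕ) : Prop :=
  ∃ (A : Fin n → Set X) (P : Sym2 (Fin n) → Set X), (∀ i, FC Gr (A i)) ∧
    (∀ e, ¬ e.IsDiag → FC Gr (P e) ∧ ∀ i ∈ e, (P e ∩ A i).Nonempty) ∧
    (∀ i j, i ≠ j → Far Gr κ (A i) (A j)) ∧
    (∀ e f, ¬ e.IsDiag → ¬ f.IsDiag → e ≠ f → Far Gr κ (P e) (P f)) ∧
    (∀ e, ¬ e.IsDiag → ∀ i, i ∉ e → Far Gr κ (P e) (A i))

variable {τ : Type v}

/-- A completion of the configuration `c` outside `B`: every token `i ∈ T` sits on the ray `c i`,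
follows it up to time `t i` and is continued by the connected set `A i`; the pairs in `E` are
linked by the connected sets `P e`. -/
structure Completion (κ : ℕ) (B : Set X) (T : Set τ) (c : τ → ℕ → X) (E : Set (Sym2 τ)) where
  A : τ → Set X
  P : Sym2 τ → Set X
  t : τ → ℕ
  fcA : ∀ i ∈ T, FC Gr (A i)
  disjA : ∀ i ∈ T, Disjoint (A i) B
  mem : ∀ i ∈ T, c i (t i) ∈ A i
  fcP : ∀ e ∈ E, FC Gr (P e)
  disjP : ∀ e ∈ E, Disjoint (P e) B
  meet : ∀ e ∈ E, ∀ i ∈ e, (P e ∩ A i).Nonempty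
  farAA : ∀ i ∈ T, ∀ j ∈ T, i ≠ j → Far Gr κ (A i) (A j)
  farAc : ∀ i ∈ T, ∀ j ∈ T, i ≠ j → Far Gr κ (A i) (c j '' Set.Iic (t j))
  farPP : ∀ e ∈ E, ∀ f ∈ E, e ≠ f → Far Gr κ (P e) (P f)
  farPA : ∀ e ∈ E, ∀ i ∈ T, i ∉ e → Far Gr κ (P e) (A i)
  farPc : ∀ e ∈ E, ∀ i ∈ T, i ∉ e → Far Gr κ (P e) (c i '' Set.Iic (t i))

def Completable (κ : ℕ) (T : Set τ) (c : τ → ℕ → X) (E : Set (Sym2 τ)) : Prop :=
  ∀ B : Set X, B.Finite → Nonempty (Completion Gr κ B T c E)

/-- No spiders with two legs of length `≥ n` and one leg of length `1` in ray graphs. -/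
def NoSpider (n : ℕ) : Prop :=
  ∀ F : Set (ℕ → X), Fam Gr F → ∀ (l1 l2 : List (ℕ → X)) (z a : ℕ → X), n ≤ l1.length →
    n ≤ l2.length → (a :: (l1 ++ z :: l2)).Nodup → (∀ x ∈ a :: (l1 ++ z :: l2), x ∈ F) →
    List.IsChain (RAdj Gr F) (l1 ++ z :: l2) → ¬ RAdj Gr F z a

/-- No vertices of degree `≥ n` in ray graphs. -/
def NoStar (n : ℕ) : Prop :=
  ∀ F : Set (ℕ → X), Fam Gr F → ∀ (L : Finset (ℕ → X)) (z : ℕ → X), L.card = n → z ∈ F →
    (∀ x ∈ L, x ∈ F ∧ x ≠ z) → ¬ ∀ x ∈ L, RAdj Gr F z x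

end graph

/-- The pebble game: tokens `i ∈ T` sit on the vertices `c i` of a graph with adjacency `R`; they
may be removed, moved to a free adjacent vertex, and adjacent tokens may be linked. `E` is the set
of pairs still to be linked. -/
inductive Win {τ : Type u} {W : Type v} (R : W → W → Prop) :
    Set τ → (τ → W) → Set (Sym2 τ) → Prop
  | done (T : Set τ) (c : τ → W) : Win R T c ∅
  | drop (T : Set τ) (c : τ → W) (E : Set (Sym2 τ)) (i : τ) (hi : ∀ e ∈ E, i ∉ e)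
      (h : Win R (T \ {i}) c E) : Win R T c E
  | slide (T : Set τ) (c c' : τ → W) (E : Set (Sym2 τ)) (i : τ) (hi : i ∈ T)
      (hR : R (c i) (c' i)) (hc : ∀ j ∈ T, j ≠ i → c' j = c j) (hfree : ∀ j ∈ T, j ≠ i → c j ≠ c' i)
      (h : Win R T c' E) : Win R T c E
  | link (T : Set τ) (c : τ → W) (E : Set (Sym2 τ)) (i j : τ) (hi : i ∈ T) (hj : j ∈ T)
      (hij : i ≠ j) (hR : R (c i) (c j)) (h : Win R T c (E \ {s(i, j)})) : Win R T c E

/-! ### Groups -/

section group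
variable {G : Type u} [Group G]

/-- the Cayley graph -/
abbrev Cay (S : Finset G) : SimpleGraph G := SimpleGraph.mulCayley (S : Set G)

/-- symmetric generating set with strong expansion -/
structure Setup (S : Finset G) : Prop where
  one : 1 ∈ S
  symm : ∀ s ∈ S, s⁻¹ ∈ S
  gen : Subgroup.closure (S : Set G) = ⊤
  exp : ∀ F : Finset G, 9 * F.card ≤ Set.ncard ((F : Set G) * (S : Set G))

/-- Markov operator of the random walk with steps uniform in `S` -/
noncomputable def Pop (S : Finset G) (w : G → ℝ≥0∞) : G → ℝ≥0∞ :=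
  fun x => (∑ s ∈ S, w (x * s)) / S.card

/-- Green operator: expected value of the sum of `w` along the random walk from `x` -/
noncomputable def V (S : Finset G) (w : G → ℝ≥0∞) : G → ℝ≥0∞ := fun x => ∑' n : ℕ, (Pop S)^[n] w x

/-- point mass -/
noncomputable def pt (z : G) : G → ℝ≥0∞ := Set.indicator {z} 1

noncomputable def u1 (S : Finset G) (x z : G) : ℝ≥0∞ := V S (pt z) x
noncomputable def u2 (S : Finset G) (x z : G) : ℝ≥0∞ := V S (V S (pt z)) x
noncomputable def u3 (S : Finset G) (x z : G) : ℝ≥0∞ := V S (V S (V S (pt z))) x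

/-- expected number of visits of the random walk from `x` to the `κ`-neighbourhood of `A` -/
noncomputable def cost (S : Finset G) (κ : ℕ) (A : Set G) (x : G) : ℝ≥0∞ :=
  V S ((nb (Cay S) κ A).indicator 1) x

/-- good rays -/
def Good (S : Finset G) (r : ℕ → G) : Prop := ∀ x, ∑' t, u2 S x (r t) ≠ ∞

/-- independent rays -/
def Ind (S : Finset G) (r r' : ℕ → G) : Prop := ∑' s, ∑' t, u1 S (r s) (r' t) ≠ ∞

/-- the constant in the cost estimates -/
noncomputable def cst (S : Finset G) (κ : ℕ) : ℝ≥0∞ :=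
  (Set.ncard {y | (Cay S).dist 1 y ≤ κ} : ℝ≥0∞) * (S.card : ℝ≥0∞) ^ κ

/-- isometric cycle of length `N` -/
structure IsoCycle (S : Finset G) (N : ℕ) (f : ℤ → G) : Prop where
  per : ∀ i, f (i + N) = f i
  iso : ∀ i j : ℤ, i ≤ j → 2 * (j - i) ≤ N → ((Cay S).dist (f i) (f j) : ℤ) = j - i

/-- `A` consists of points of a geodesic starting at `a` -/
def Geo (S : Finset G) (a : G) (A : Set G) : Prop :=
  A.Finite ∧ ∀ x ∈ A, ∀ y ∈ A, ((Cay S).dist a x : ℤ) - (Cay S).dist a y = (Cay S).dist x y ∨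
        ((Cay S).dist a y : ℤ) - (Cay S).dist a x = (Cay S).dist x y

/-- A crossing gadget: four terminals such that each of the three pairings of the terminals can be
realised by two connected sets more than `κ` apart. -/
structure Core (S : Finset G) (κ : ℕ) (ε : ℝ≥0∞) where
  w : Fin 4 → G
  C : Fin 4 → Fin 4 → Set G
  fc : ∀ i j, i ≠ j → FC (Cay S) (C i j)
  left : ∀ i j, i ≠ j → w i ∈ C i j
  right : ∀ i j, i ≠ j → w j ∈ C i j
  far : ∀ i j k l, i ≠ j → k ≠ l → i ≠ k → i ≠ l → j ≠ k → j ≠ l → Far (Cay S) κ (C i j) (C k l)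
  cost : ∀ i j k, i ≠ j → i ≠ k → j ≠ k → cost S κ (C j k) (w i) ≤ ε
  u : ∀ i j, i ≠ j → u2 S (w i) (w j) ≤ ε

/-- path family: good, pairwise independent rays, consecutive ones adjacent in the ray graph -/
structure PF (S : Finset G) (L : List (ℕ → G)) : Prop where
  nodup : L.Nodup
  ray : ∀ r ∈ L, IsRay (Cay S) r
  good : ∀ r ∈ L, Good S r
  ind : ∀ r ∈ L, ∀ r' ∈ L, r ≠ r' → Ind S r r'
  chain : List.IsChain (RAdj (Cay S) {r | r ∈ L}) L

/-- Crossing data: the ray `m` between `L1` and `L2` can be replaced by four rays carrying a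
crossing gadget outside `B`. -/
structure Crossing (S : Finset G) (κ : ℕ) (B : Set G) (L1 L2 : List (ℕ → G))
    (l0 l1 l2 l3 : ℕ → G) (C C' : Set G) : Prop where
  pf : PF S (L1 ++ l0 :: l1 :: l2 :: l3 :: L2)
  fc : FC (Cay S) C
  fc' : FC (Cay S) C'
  mem0 : l0 0 ∈ C
  mem2 : l2 0 ∈ C
  mem1 : l1 0 ∈ C'
  mem3 : l3 0 ∈ C'
  disj : Disjoint C B
  disj' : Disjoint C' B
  dl : ∀ l, l = l0 ∨ l = l1 ∨ l = l2 ∨ l = l3 → Disjoint (Set.range l) B
  cc : Far (Cay S) κ C C'
  legs : List.Pairwise (fun r r' => Far (Cay S) κ (Set.range r) (Set.range r')) [l0, l1, l2, l3]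
  c1 : Far (Cay S) κ C (Set.range l1)
  c3 : Far (Cay S) κ C (Set.range l3)
  c0' : Far (Cay S) κ C' (Set.range l0)
  c2' : Far (Cay S) κ C' (Set.range l2)
  co : ∀ r, r ∈ L1 ∨ r ∈ L2 → Far (Cay S) κ C (Set.range r) ∧ Far (Cay S) κ C' (Set.range r)
  lo : ∀ l, l = l0 ∨ l = l1 ∨ l = l2 ∨ l = l3 → ∀ r, r ∈ L1 ∨ r ∈ L2 →
    Far (Cay S) κ (Set.range l) (Set.range r)

/-- Arrangement of the tokens `T` (in this order) on rays of the path family `L`, with free rays
between them and at least `g` free rays at both ends. -/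
structure Arr (S : Finset G) (g : ℕ) {τ : Type v} (T : List τ) (c : τ → ℕ → G)
    (L : List (ℕ → G)) : Prop where
  pf : PF S L
  nodup : T.Nodup
  pos : ∃ p : τ → ℕ, (∀ u ∈ T, L[p u]? = some (c u)) ∧
    T.Pairwise (fun u v => p u + 2 ≤ p v) ∧ ∀ u ∈ T, g ≤ p u ∧ p u + g < L.length

/-- almost invariant sets are trivial (one-endedness) -/
def OneEnded (G : Type u) [Group G] : Prop :=
  ∀ Y : Set G, (∀ g : G, {x | x ∈ Y ∧ x * g ∉ Y}.Finite) → Y.Finite ∨ Yᶜ.Finite

end group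

end Pool.Agent.Lib.MP_0f7bfe_al.OE
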